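import Pool.Agent.KComp.Defs

/-! Elementary properties of marks and chains. -/

set_option autoImplicit false

open Pool.Agent.LK
open scoped ENNReal

namespace Pool.Agent.KComp

open Pool.Agent.KTube Pool.Agent.KRing Pool.Agent.KLog
open Pool.Agent.KAsym (ln)
open Pool.Agent.KTop (GC UC ed ed_nil ed_cons ed_append)

variable {v w : ℤ × ℤ} {π : PP} {s t : List PP} {y z : ℝ}

open Classical in
theorem mk_cons (v : ℤ × ℤ) (π : PP) (s : List PP) : mk v (π :: s) =
    if Unk v π then mk (v + dsp π) s else (v, π) :: mk (v + dsp π) s := rfl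

theorem mk_append (v : ℤ × ℤ) (s t : List PP) : mk v (s ++ t) = mk v s ++ mk (ed v s) t := by
  induction s generalizing v with
  | nil => rw [ed_nil]; rfl
  | cons π s ih =>
    rw [ed_cons, List.cons_append, mk_cons, mk_cons]
    split_ifs
    · exact ih _
    · rw [ih]; rfl

/-- Every mark is a knotted block. -/
theorem kn_of_mem_mk (h : GC v s) {m : (ℤ × ℤ) × PP} (hm : m ∈ mk v s) : Kn m.1 m.2 := by
  induction s generalizing v with
  | nil => simp [mk] at hm
  | cons π s ih =>
    unfold mk at hm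
    split_ifs at hm with hu
    · exact ih h.2 hm
    · rcases List.mem_cons.1 hm with rfl | hm
      · exact ⟨h.1, hu⟩
      · exact ih h.2 hm

theorem kn_of_mem (x : CA) {m : (ℤ × ℤ) × PP} (h : m ∈ mkA x) : Kn m.1 m.2 :=
  kn_of_mem_mk x.2.1 h

/-- A chain without marks is a chain of unknotted blocks. -/
theorem uc_iff (h : GC v s) : UC v s ↔ mk v s = [] := by
  induction s generalizing v with
  | nil => exact ⟨fun _ => rfl, fun _ => h⟩
  | cons π s ih =>
    unfold mk
    constructor
    · rintro ⟨h1, h2⟩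
      rw [if_pos h1.2]
      exact (ih h.2).1 h2
    · intro h1
      split_ifs at h1 with hu
      exact ⟨⟨h.1, hu⟩, (ih h.2).2 h1⟩

theorem Kn.ne (h : Kn v π) : v ≠ 0 := h.1.ne

theorem Kn.ne' (h : Kn v π) : v + dsp π ≠ 0 := by
  intro h0
  refine h.1.ne' ?_
  rw [dsp, add_sub_assoc', sub_eq_zero] at h0
  exact h0.symm

theorem gapOk_gaps (L : List ((ℤ × ℤ → Prop) × PP)) : GapOk (gaps L) := by
  intro q hq v hv
  obtain ⟨p, -, rfl⟩ := List.mem_map.1 hq
  exact ⟨hv.2.ne, hv.2.ne'⟩

theorem ww_nil : ww y z [] = 1 := rfl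

theorem ww_cons (π : PP) (s : List PP) :
    ww y z (π :: s) = wt (ENNReal.ofReal y) (ENNReal.ofReal z) π * ww y z s := by
  simp [ww]

theorem ww_append (s t : List PP) : ww y z (s ++ t) = ww y z s * ww y z t := by
  simp [ww]

theorem cN_append (c : ℕ → ℤ × ℤ → ℝ≥0∞) (qs qs' : List ((ℤ × ℤ → Prop) × (ℤ × ℤ))) :
    cN y z c (qs ++ qs') = cN y z (cN y z c qs') qs := by
  induction qs with
  | nil => rfl
  | cons q qs ih =>
    rw [List.cons_append]
    unfold cN
    rw [ih]

end Pool.Agent.KComp
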