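import Pool.Agent.KComp.BoundN

/-! KC11b: the weight of the chains with `q` gaps.

PROOF. `tq_bound`: `nest_tq` with `qs = []` and `tq_nil` for `m + La z qs` (`n ≤ m + La z qs + a`):
`TQ True qs m ≤ Pm qs * (m + La + 1) ^ q * C * 2 ^ a * tot n`; `m + La + 1 ≤ n (La + 2) ≤ 2 n ∏ (lam z u + 1)`
for `n ≥ 1`, and `(lam z u + 1) ^ q ≤ C' * 2 ^ nrm u` with a constant `C'` that depends on `q` and `z`
(`lam z u = (nrm u + 4)(2 M0 z + 1)`; a polynomial against an exponential), so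
`(m + La + 1) ^ q ≤ (2 n) ^ q * C' ^ q * ∏ 2 ^ nrm u`, and `Pm qs = ∏ 40 ^ (nrm u + 4)`. -/

set_option autoImplicit false

open Pool.Agent.LK
open scoped ENNReal

namespace Pool.Agent.KComp

open Pool.Agent.KTube Pool.Agent.KRing Pool.Agent.KLog
open Pool.Agent.KAmp (sys)

variable {y z : ℝ}

private theorem poly_exp (q t : ℕ) : (t + 1) ^ q ≤ q ^ q * 2 ^ t := by
  rcases Nat.eq_zero_or_pos q with rfl | hq
  · simp only [pow_zero, one_mul]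
    exact Nat.one_le_two_pow
  · have h1 : t + 1 ≤ q * (t / q + 1) := by
      have := Nat.lt_mul_div_succ t hq
      exact this
    have h2 : (t / q + 1) ^ q ≤ 2 ^ t := by
      calc (t / q + 1) ^ q ≤ (2 ^ (t / q)) ^ q :=
            Nat.pow_le_pow_left (Nat.lt_two_pow_self) q
        _ = 2 ^ (t / q * q) := by rw [pow_mul]
        _ ≤ 2 ^ t := Nat.pow_le_pow_right (by norm_num) (Nat.div_mul_le_self t q)
    calc (t + 1) ^ q ≤ (q * (t / q + 1)) ^ q := Nat.pow_le_pow_left h1 q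
      _ = q ^ q * (t / q + 1) ^ q := mul_pow _ _ _
      _ ≤ _ := Nat.mul_le_mul_left _ h2

private theorem lam_pow (z : ℝ) (q : ℕ) : ∃ C : ℕ, ∀ u : ℤ × ℤ,
    (lam z u + 1) ^ q ≤ C * 2 ^ nrm u := by
  refine ⟨(4 * (2 * M0 z + 2)) ^ q * q ^ q, fun u => ?_⟩
  have h1 : lam z u + 1 ≤ 4 * (2 * M0 z + 2) * (nrm u + 1) := by
    unfold lam mm
    nlinarith [Nat.zero_le (M0 z), Nat.zero_le (nrm u), Nat.zero_le (M0 z * nrm u)]
  calc (lam z u + 1) ^ q ≤ (4 * (2 * M0 z + 2) * (nrm u + 1)) ^ q := Nat.pow_le_pow_left h1 q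
    _ = (4 * (2 * M0 z + 2)) ^ q * (nrm u + 1) ^ q := mul_pow _ _ _
    _ ≤ (4 * (2 * M0 z + 2)) ^ q * (q ^ q * 2 ^ nrm u) := Nat.mul_le_mul_left _ (poly_exp q _)
    _ = _ := by ring

private theorem La_prod (z : ℝ) (qs : List ((ℤ × ℤ → Prop) × (ℤ × ℤ))) :
    La z qs + 1 ≤ (qs.map fun p => lam z p.2 + 1).prod := by
  unfold La
  induction qs with
  | nil => simp
  | cons p qs ih =>
    simp only [List.map_cons, List.sum_cons, List.prod_cons]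
    nlinarith [Nat.zero_le (lam z p.2), ih, Nat.zero_le ((qs.map fun p => lam z p.2).sum),
      Nat.mul_le_mul_left (lam z p.2 + 1) ih]

private theorem prod_pow_le (z : ℝ) (q : ℕ) {C : ℕ} (hC : ∀ u : ℤ × ℤ,
    (lam z u + 1) ^ q ≤ C * 2 ^ nrm u) {E : ℝ≥0∞} (hE : E = 40 ^ 4)
    (qs : List ((ℤ × ℤ → Prop) × (ℤ × ℤ))) :
    Pm qs * (((qs.map fun p => lam z p.2 + 1).prod : ℕ) : ℝ≥0∞) ^ q ≤
      (E * (C : ℝ≥0∞)) ^ qs.length * (qs.map fun p => (80 : ℝ≥0∞) ^ nrm p.2).prod := by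
  unfold Pm
  induction qs with
  | nil => simp
  | cons p qs ih =>
    simp only [List.map_cons, List.prod_cons, List.length_cons, pow_succ, Nat.cast_mul, mul_pow]
    have h1 : ((lam z p.2 + 1 : ℕ) : ℝ≥0∞) ^ q ≤ C * 2 ^ nrm p.2 := by exact_mod_cast hC p.2
    have h2 : (40 : ℝ≥0∞) ^ mm p.2 = E * 40 ^ nrm p.2 := by
      unfold mm
      rw [pow_add, mul_comm, hE]
    have h3 : (80 : ℝ≥0∞) ^ nrm p.2 = 40 ^ nrm p.2 * 2 ^ nrm p.2 := by
      rw [← mul_pow]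
      norm_num
    rw [h2, h3]
    simp only [mul_pow] at ih
    calc E * 40 ^ nrm p.2 * (qs.map fun q => (40 : ℝ≥0∞) ^ mm q.2).prod *
          (((lam z p.2 + 1 : ℕ) : ℝ≥0∞) ^ q *
            (((qs.map fun p => lam z p.2 + 1).prod : ℕ) : ℝ≥0∞) ^ q) =
        E * 40 ^ nrm p.2 * ((lam z p.2 + 1 : ℕ) : ℝ≥0∞) ^ q *
          ((qs.map fun q => (40 : ℝ≥0∞) ^ mm q.2).prod *
            (((qs.map fun p => lam z p.2 + 1).prod : ℕ) : ℝ≥0∞) ^ q) := by ring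
      _ ≤ E * 40 ^ nrm p.2 * (C * 2 ^ nrm p.2) *
          (E ^ qs.length * (C : ℝ≥0∞) ^ qs.length *
            (qs.map fun p => (80 : ℝ≥0∞) ^ nrm p.2).prod) :=
          mul_le_mul' (mul_le_mul_right h1 _) ih
      _ = _ := by ring

/-- KC11b. -/
theorem tq_bound (h : Cr y z) (q : ℕ) : ∃ C : ℝ≥0∞, C ≠ ⊤ ∧ ∃ n0 : ℕ, ∀ n ≥ n0, Even n →
    ∀ qs : List ((ℤ × ℤ → Prop) × (ℤ × ℤ)), qs.length = q → GapOk qs →
    ∀ m a : ℕ, m + a = n → TQ y z (fun _ => True) qs m ≤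
      C * (n : ℝ≥0∞) ^ q * (sys y z).tot n * 2 ^ a *
        (qs.map fun p => (80 : ℝ≥0∞) ^ nrm p.2).prod := by
  obtain ⟨C, hC, n0, hn0⟩ := tq_nil h
  obtain ⟨D, hD⟩ := lam_pow z q
  refine ⟨C * (2 ^ q * (40 ^ 4 * (D : ℝ≥0∞)) ^ q), ?_, max n0 1, ?_⟩
  · refine ENNReal.mul_ne_top hC (ENNReal.mul_ne_top (ENNReal.pow_ne_top (by norm_num))
      (ENNReal.pow_ne_top (ENNReal.mul_ne_top (ENNReal.pow_ne_top (by norm_num))
        (ENNReal.natCast_ne_top D))))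
  intro n hn hev qs hq hok m a hma
  have hn1 : 1 ≤ n := le_trans (le_max_right _ _) hn
  have k1 := nest_tq h (fun _ => True) hok [] m
  rw [List.append_nil, hq] at k1
  have k2 := hn0 n (le_trans (le_max_left _ _) hn) hev (m + La z qs) a (by omega)
  have k3 : m + La z qs + 1 ≤ n * (2 * (qs.map fun p => lam z p.2 + 1).prod) := by
    have k4 := La_prod z qs
    calc m + La z qs + 1 ≤ n + La z qs + 1 := by omega
      _ ≤ n * (La z qs + 2) := by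
        have k7 := Nat.mul_le_mul_right (La z qs) hn1
        rw [one_mul] at k7
        rw [mul_add]
        omega
      _ ≤ _ := Nat.mul_le_mul_left _ (by omega)
  have k5 : ((m + La z qs + 1 : ℕ) : ℝ≥0∞) ^ q ≤ (n : ℝ≥0∞) ^ q *
      (2 ^ q * (((qs.map fun p => lam z p.2 + 1).prod : ℕ) : ℝ≥0∞) ^ q) := by
    rw [← mul_pow, ← mul_pow]
    refine pow_le_pow_left' ?_ q
    exact_mod_cast k3
  have k6 := prod_pow_le z q hD rfl qs
  rw [hq] at k6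
  calc TQ y z (fun _ => True) qs m ≤ Pm qs * ((m + La z qs + 1 : ℕ) : ℝ≥0∞) ^ q *
        TQ y z (fun _ => True) [] (m + La z qs) := k1
    _ ≤ Pm qs * ((n : ℝ≥0∞) ^ q *
      (2 ^ q * (((qs.map fun p => lam z p.2 + 1).prod : ℕ) : ℝ≥0∞) ^ q)) *
        (C * 2 ^ a * (sys y z).tot n) := mul_le_mul' (mul_le_mul_right k5 _) k2
    _ = C * (n : ℝ≥0∞) ^ q * (sys y z).tot n * 2 ^ a * 2 ^ q *
        (Pm qs * (((qs.map fun p => lam z p.2 + 1).prod : ℕ) : ℝ≥0∞) ^ q) := by ring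
    _ ≤ C * (n : ℝ≥0∞) ^ q * (sys y z).tot n * 2 ^ a * 2 ^ q *
        ((40 ^ 4 * (D : ℝ≥0∞)) ^ q * (qs.map fun p => (80 : ℝ≥0∞) ^ nrm p.2).prod) :=
        mul_le_mul_right k6 _
    _ = _ := by ring

end Pool.Agent.KComp
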