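import Pool.Agent.KComp.Basic
import Pool.Agent.KAsym.RestB
import Pool.Agent.KCls.Basic

/-! KC9: the weights of all caps and of all words of knotted blocks.

PROOF. `cap_big`: as `KCls.cap_geo'` (`KCls/Rest.lean`), with `1000 ^ nrm v` instead of `4 ^ nrm v`; the
horizontal steps get the weight `2 * 1000 * z`, which is small since `z ≤ 10⁻¹²` (the proof there uses
`(8 z) ^ stp`). `cq_big`: sum over `n`, `w` of the definition of `cq` (`Q = True` is the largest).
`knot_big`: `KCls.rest_geo'` and: a knotted block is not basic (if `Bas π` and `Geo v π` then `Valid v π`: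
`(KCls.bas_valid KCls.cls_all)` with `ValidT`, or the private `geo_valid` of `KCls/Basic.lean`), and
`nrm (dsp π) ≤ nh π` (`nrm_dsp_le` or similar in `KAsym/Model.lean`, `KCls/Rest.lean`), `80 ≤ 576`; the
sum over the words `π` with `∃ v, Kn v π` is a sum over a subtype.
`short_fin`: the words `π` with `Kn v π` for some `v` and `ln π ≤ j` are finitely many
(`KAmp.short_finite`, which is about `∃ v, KAmp.Cls T v π`, is proved like this; its private lemma
`me_words_finite`: lists of steps of bounded length). `knot_tail`: the tail of a convergent series: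
`ENNReal.tendsto_tsum_compl_atTop_zero` gives a finite set of words outside which the sum is `≤ ε`; `j` is
the maximum of `ln` on this set. -/

set_option autoImplicit false

open Pool.Agent.LK
open scoped ENNReal

namespace Pool.Agent.KComp

open Pool.Agent.KTube Pool.Agent.KRing Pool.Agent.KLog
open Pool.Agent.KAsym (ln)
open Pool.Agent.KCls (Flat)

variable {y z : ℝ}

private theorem cpa_nrm_add (u v : ℤ × ℤ) : nrm (u + v) ≤ nrm u + nrm v := by
  unfold nrm
  have h1 := Int.natAbs_add_le u.1 v.1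
  have h2 := Int.natAbs_add_le u.2 v.2
  simp only [Prod.fst_add, Prod.snd_add]
  omega

private theorem cpa_nrm_disp (x : List Letter) : nrm (disp x) ≤ stp x := by
  induction x with
  | nil => simp [nrm]
  | cons c x ih =>
    rw [disp_cons]
    refine (cpa_nrm_add _ _).trans ?_
    cases c with
    | none => simpa [nrm] using ih
    | some d =>
      rw [stp_some]
      have : nrm (lv (some d)) = 1 := by
        fin_cases d <;> rfl
      omega

/-- The word of a half. -/
private theorem cpa_exists_word {v : ℤ × ℤ} {l : List P3} (h : Flat v l) :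
    ∃ s : List P3, NR s ∧ l = (wk (0, 0, 0) s).reverse ∧ nrm v ≤ stp (lets s) ∧
      4 * lspan l ≤ brk (lets s) ∧ l.length = brk (lets s) + stp (lets s) + 1 := by
  obtain ⟨hne, hl, hn⟩ := h
  obtain ⟨r, hrU⟩ := exists_UU' (k := 0) hne
  have hr := hrU.2.1
  have hhead : l.reverse.head? = some ((0, 0, 0) : P3) := by
    rw [List.head?_reverse]
    exact hl.last
  obtain ⟨s, hs⟩ := exists_wk l.reverse _ hhead
  have hsteps : Steps s := by
    have h1 : l.reverse.IsChain Adj := by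
      rw [List.isChain_reverse]
      exact hl.chain.imp fun _ _ h => h.symm
    rw [hs, chain_wk] at h1
    exact h1
  have hnd : (wk (0, 0, 0) s).Nodup := by
    rw [← hs, List.nodup_reverse]
    exact hl.nodup
  have hlast : ((0, 0, 0) : P3) + s.sum = (v.1, v.2, 0) := by
    have h1 : l.reverse.getLast? = some (v.1, v.2, 0) := by
      rw [List.getLast?_reverse]
      exact hl.head
    rw [hs, last_wk] at h1
    exact Option.some.inj h1
  have hsum := sum_of_lets hsteps
  have hv : v = disp (lets s) := by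
    refine Prod.ext ?_ ?_
    · rw [← hsum.1]
      have := congrArg Prod.fst hlast
      simpa using this.symm
    · rw [← hsum.2]
      have := congrArg (fun p : P3 => p.2.1) hlast
      simpa using this.symm
  refine ⟨s, nr_of_nodup hsteps hnd, ?_, ?_, ?_, ?_⟩
  · rw [← hs, List.reverse_reverse]
  · rw [hv]
    exact cpa_nrm_disp _
  · refine lower_height hne hr hl hs hsteps ?_
    intro j hj h2
    have h3 : {c | leg c j ∈ LatticeTube.pedges l}.ncard = 2 := by
      have h4 : {c | leg c j ∈ LatticeTube.pedges l} = cross (ring (r ++ l)) j := by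
        ext c
        exact (cross_ring_low hr hl hj).symm
      rw [h4]
      exact h2
    have h5 : {j : ℤ | {c | leg c j ∈ LatticeTube.pedges l}.ncard = 2}.Finite := by
      refine (planes_finite' l).subset ?_
      intro i hi
      have h6 : {c | leg c i ∈ LatticeTube.pedges l}.Nonempty := by
        refine Set.nonempty_of_ncard_ne_zero ?_
        rw [hi]
        norm_num
      exact h6
    have h7 : {j : ℤ | {c | leg c j ∈ LatticeTube.pedges l}.ncard = 2} = ∅ :=
      (Set.ncard_eq_zero h5).1 hn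
    have h8 : j ∈ {j : ℤ | {c | leg c j ∈ LatticeTube.pedges l}.ncard = 2} := h3
    rw [h7] at h8
    exact h8
  · have h1 : l.length = l.reverse.length := (List.length_reverse).symm
    rw [h1, hs, length_wk, ← length_lets s, length_eq]

/-- The weight of a half. -/
private theorem cpa_weight_le (hy : 0 < y) (hz : 0 < z) (hz1 : z ≤ 1) (hq : y * z ^ 2 ≤ 1)
    {L b n m : ℕ} (hL : 4 * L ≤ b) (hm : m ≤ n) :
    (ENNReal.ofReal y ^ L * ENNReal.ofReal z ^ (b + n + 1)) * 2 ^ (b + n + 1) * 1000 ^ m ≤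
      2 * ((2 * ENNReal.ofReal (Real.sqrt z)) ^ b * (2000 * ENNReal.ofReal z) ^ n) := by
  have hs0 : 0 < Real.sqrt z := Real.sqrt_pos.2 hz
  have hs1 : Real.sqrt z ≤ 1 := by
    rw [Real.sqrt_le_left (by norm_num)]
    simpa using hz1
  have hss : Real.sqrt z ^ 2 = z := Real.sq_sqrt hz.le
  have key : y ^ L * z ^ b ≤ Real.sqrt z ^ b := by
    obtain ⟨c, rfl⟩ : ∃ c, b = 4 * L + c := ⟨b - 4 * L, by omega⟩
    have h1 : y ^ L * z ^ (4 * L + c) = (y * z ^ 2) ^ L * (z ^ (2 * L) * z ^ c) := by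
      rw [mul_pow, ← pow_mul, pow_add]
      have : z ^ (4 * L) = z ^ (2 * L) * z ^ (2 * L) := by
        rw [← pow_add]
        congr 1
        omega
      rw [this]
      ring
    have h2 : z ^ (2 * L) * z ^ c ≤ Real.sqrt z ^ (4 * L + c) := by
      rw [pow_add]
      have h3 : z ^ (2 * L) = Real.sqrt z ^ (4 * L) := by
        rw [show 4 * L = 2 * (2 * L) by omega, pow_mul (Real.sqrt z), hss]
      rw [h3]
      refine mul_le_mul_of_nonneg_left ?_ (by positivity)
      refine pow_le_pow_left₀ hz.le ?_ c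
      calc z = Real.sqrt z * Real.sqrt z := (Real.mul_self_sqrt hz.le).symm
        _ ≤ Real.sqrt z * 1 := mul_le_mul_of_nonneg_left hs1 hs0.le
        _ = _ := mul_one _
    rw [h1]
    calc (y * z ^ 2) ^ L * (z ^ (2 * L) * z ^ c) ≤ 1 * (z ^ (2 * L) * z ^ c) := by
          refine mul_le_mul_of_nonneg_right ?_ (by positivity)
          exact pow_le_one₀ (by positivity) hq
      _ ≤ _ := by rw [one_mul]; exact h2
  have e2 : (2 : ℝ≥0∞) = ENNReal.ofReal 2 := by
    rw [show (2 : ℝ) = ((2 : ℕ) : ℝ) by norm_num, ENNReal.ofReal_natCast]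
    norm_num
  have e4 : (1000 : ℝ≥0∞) = ENNReal.ofReal 1000 := by
    rw [show (1000 : ℝ) = ((1000 : ℕ) : ℝ) by norm_num, ENNReal.ofReal_natCast]
    norm_num
  have e8 : (2000 : ℝ≥0∞) = ENNReal.ofReal 2000 := by
    rw [show (2000 : ℝ) = ((2000 : ℕ) : ℝ) by norm_num, ENNReal.ofReal_natCast]
    norm_num
  have hL : (ENNReal.ofReal y ^ L * ENNReal.ofReal z ^ (b + n + 1)) * 2 ^ (b + n + 1) * 1000 ^ m =
      ENNReal.ofReal ((y ^ L * z ^ (b + n + 1)) * 2 ^ (b + n + 1) * 1000 ^ m) := by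
    rw [e2, e4, ENNReal.ofReal_mul (by positivity), ENNReal.ofReal_mul (by positivity),
      ENNReal.ofReal_mul (by positivity), ENNReal.ofReal_pow hy.le, ENNReal.ofReal_pow hz.le,
      ENNReal.ofReal_pow (by norm_num), ENNReal.ofReal_pow (by norm_num)]
  have hR : 2 * ((2 * ENNReal.ofReal (Real.sqrt z)) ^ b * (2000 * ENNReal.ofReal z) ^ n) =
      ENNReal.ofReal (2 * ((2 * Real.sqrt z) ^ b * (2000 * z) ^ n)) := by
    rw [ENNReal.ofReal_mul (by norm_num), ENNReal.ofReal_mul (by positivity),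
      ENNReal.ofReal_pow (by positivity), ENNReal.ofReal_pow (by positivity),
      ENNReal.ofReal_mul (by norm_num), ENNReal.ofReal_mul (by norm_num), ← e2, ← e8]
  rw [hL, hR]
  refine ENNReal.ofReal_le_ofReal ?_
  have h5 : (1000 : ℝ) ^ m ≤ 1000 ^ n := pow_le_pow_right₀ (by norm_num) hm
  calc (y ^ L * z ^ (b + n + 1)) * 2 ^ (b + n + 1) * 1000 ^ m =
        (y ^ L * z ^ b) * z ^ n * z * 2 ^ (b + n + 1) * 1000 ^ m := by ring
    _ ≤ Real.sqrt z ^ b * z ^ n * 1 * 2 ^ (b + n + 1) * 1000 ^ n := by gcongr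
    _ = 2 * ((2 * Real.sqrt z) ^ b * (2000 * z) ^ n) := by
      have e : (2000 : ℝ) = 2 * 1000 := by norm_num
      rw [e, mul_pow, mul_pow, mul_pow, pow_succ, pow_add]
      ring

theorem cap_big (h : Cr y z) :
    ∑' c : HA, wc y z c * 2 ^ c.2.1.length * 1000 ^ nrm c.1 ≠ ⊤ := by
  classical
  have hy : 0 < y := h.y_pos
  have hz : 0 < z := h.z_pos
  have hz1 : z ≤ 1 / 10 ^ 12 := h.z_le
  have hq : y * z ^ 2 ≤ 1 := h.q_le
  choose! W hW1 hW2 hW3 hW4 hW5 using fun (p : Σ v : ℤ × ℤ, {l // Flat v l}) =>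
    cpa_exists_word p.2.2
  let F : (Σ n : ℕ, {s : List P3 // NR s ∧ s.length = n}) → ℝ≥0∞ := fun q =>
    (2 * ENNReal.ofReal (Real.sqrt z)) ^ brk (lets q.2.1) *
      (2000 * ENNReal.ofReal z) ^ stp (lets q.2.1)
  let φ : (Σ v : ℤ × ℤ, {l // Flat v l}) → (Σ n : ℕ, {s : List P3 // NR s ∧ s.length = n}) :=
    fun p => ⟨(W p).length, ⟨W p, hW1 p, rfl⟩⟩
  have hφ : Function.Injective φ := by
    intro p p' h
    have h1 : W p = W p' := by
      have : ∀ q q' : (Σ n : ℕ, {s : List P3 // NR s ∧ s.length = n}), q = q' → q.2.1 = q'.2.1 := by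
        rintro q _ rfl
        rfl
      exact this _ _ h
    have h2 : p.2.1 = p'.2.1 := by rw [hW2 p, hW2 p', h1]
    obtain ⟨v, l, hl⟩ := p
    obtain ⟨v', l', hl'⟩ := p'
    simp only at h2
    subst h2
    have h3 := hl.2.1.head
    rw [hl'.2.1.head] at h3
    have h4 := Option.some.inj h3
    simp only [Prod.mk.injEq, and_true] at h4
    have h5 : v = v' := Prod.ext h4.1.symm h4.2.symm
    subst h5
    rfl
  have h2 : ∑' p : HA, wc y z p * 2 ^ p.2.1.length * 1000 ^ nrm p.1 ≤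
        ∑' p, 2 * F (φ p) := by
    refine ENNReal.tsum_le_tsum fun p => ?_
    unfold wc wl
    rw [hW5 p]
    exact cpa_weight_le hy hz (hz1.trans (by norm_num)) hq (hW4 p) (hW3 p)
  have h3 : ∑' p, F (φ p) ≤ ∑' q, F q := ENNReal.tsum_comp_le_tsum_of_injective hφ F
  have h4 : ∑' q, F q ≤
      ∑' n : ℕ, 2 * (2 * ENNReal.ofReal (Real.sqrt z) + 16 * (2000 * ENNReal.ofReal z)) ^ n := by
    rw [ENNReal.tsum_sigma']
    exact ENNReal.tsum_le_tsum fun n => word_sum _ _ n
  rw [ENNReal.tsum_mul_left] at h2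
  refine ne_top_of_le_ne_top ?_ (h2.trans (mul_le_mul_right (h3.trans h4) 2))
  refine ENNReal.mul_ne_top (by norm_num) ?_
  rw [ENNReal.tsum_mul_left, ENNReal.tsum_geometric]
  refine ENNReal.mul_ne_top (by norm_num) ?_
  rw [ENNReal.inv_ne_top]
  have h5 : Real.sqrt z ≤ 1 / 10 ^ 6 := by
    rw [Real.sqrt_le_left (by norm_num)]
    refine hz1.trans (le_of_eq ?_)
    norm_num
  have h6 : 2 * ENNReal.ofReal (Real.sqrt z) + 16 * (2000 * ENNReal.ofReal z) < 1 := by
    have e2 : (2 : ℝ≥0∞) = ENNReal.ofReal 2 := by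
      rw [show (2 : ℝ) = ((2 : ℕ) : ℝ) by norm_num, ENNReal.ofReal_natCast]
      norm_num
    have e8 : (2000 : ℝ≥0∞) = ENNReal.ofReal 2000 := by
      rw [show (2000 : ℝ) = ((2000 : ℕ) : ℝ) by norm_num, ENNReal.ofReal_natCast]
      norm_num
    have e16 : (16 : ℝ≥0∞) = ENNReal.ofReal 16 := by
      rw [show (16 : ℝ) = ((16 : ℕ) : ℝ) by norm_num, ENNReal.ofReal_natCast]
      norm_num
    rw [e2, e8, e16, ← ENNReal.ofReal_mul (by norm_num), ← ENNReal.ofReal_mul (by norm_num),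
      ← ENNReal.ofReal_mul (by norm_num),
      ← ENNReal.ofReal_add (by positivity) (by positivity), ← ENNReal.ofReal_one]
    rw [ENNReal.ofReal_lt_ofReal_iff (by norm_num)]
    norm_num at h5 hz1 ⊢
    linarith
  exact (tsub_pos_of_lt h6).ne'

open Classical in
theorem cq_big (h : Cr y z) (Q : HA → Prop) :
    ∑' n : ℕ, ∑' w : ℤ × ℤ, cq y z Q n w * 2 ^ n * 1000 ^ nrm w ≠ ⊤ := by
  refine ne_top_of_le_ne_top (cap_big h) ?_
  have e : ∀ (n : ℕ) (w : ℤ × ℤ), cq y z Q n w * 2 ^ n * 1000 ^ nrm w =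
      ∑' r : HA, (if Q r ∧ r.1 = w ∧ r.2.1.length = n then
        wc y z r * 2 ^ r.2.1.length * 1000 ^ nrm r.1 else 0) := by
    intro n w
    unfold cq
    rw [← ENNReal.tsum_mul_right, ← ENNReal.tsum_mul_right]
    refine tsum_congr fun r => ?_
    by_cases hr : Q r ∧ r.1 = w ∧ r.2.1.length = n
    · rw [if_pos hr, if_pos hr, ← hr.2.1, ← hr.2.2]
    · rw [if_neg hr, if_neg hr, zero_mul, zero_mul]
  calc ∑' n : ℕ, ∑' w : ℤ × ℤ, cq y z Q n w * 2 ^ n * 1000 ^ nrm w
      = ∑' n : ℕ, ∑' w : ℤ × ℤ, ∑' r : HA, (if Q r ∧ r.1 = w ∧ r.2.1.length = n then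
        wc y z r * 2 ^ r.2.1.length * 1000 ^ nrm r.1 else 0) :=
        tsum_congr fun n => tsum_congr fun w => e n w
    _ = ∑' n : ℕ, ∑' r : HA, ∑' w : ℤ × ℤ, (if Q r ∧ r.1 = w ∧ r.2.1.length = n then
        wc y z r * 2 ^ r.2.1.length * 1000 ^ nrm r.1 else 0) :=
        tsum_congr fun n => ENNReal.tsum_comm
    _ = ∑' r : HA, ∑' n : ℕ, ∑' w : ℤ × ℤ, (if Q r ∧ r.1 = w ∧ r.2.1.length = n then
        wc y z r * 2 ^ r.2.1.length * 1000 ^ nrm r.1 else 0) := ENNReal.tsum_comm
    _ ≤ ∑' c : HA, wc y z c * 2 ^ c.2.1.length * 1000 ^ nrm c.1 := by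
        refine ENNReal.tsum_le_tsum fun r => ?_
        rw [tsum_eq_single r.2.1.length, tsum_eq_single r.1]
        · split_ifs
          · exact le_rfl
          · exact zero_le
        · intro w hw
          rw [if_neg]
          rintro ⟨-, h1, -⟩
          exact hw h1.symm
        · intro n hn
          rw [ENNReal.tsum_eq_zero]
          intro w
          rw [if_neg]
          rintro ⟨-, -, h1⟩
          exact hn h1.symm

section bas

variable {v : ℤ × ℤ} {π : PP}

private theorem cpa_hgt_left (i : Fin 4) : hgt ([st4 i], []) = 1 := by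
  simp [KLog.hgt, st4]

private theorem cpa_hgt_right (i : Fin 4) : hgt ([], [st4 i]) = 1 := by
  simp [KLog.hgt]

/-- A block with one level is unknotted. -/
private theorem cpa_unk_of_one (hg : Geo v π) (h1 : hgt π = 1) : Unk v π := by
  obtain ⟨l, hl, -⟩ := exists_flat hg.ne
  have hb := hg.block
  have hne : hz π.1.sum ≠ v + hz π.2.sum := by
    intro h
    have hA := List.mem_of_getLast? hb.lastA
    have hB := List.mem_of_head? hb.headB
    rw [h] at hA
    exact hb.disj _ hA hB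
  obtain ⟨r, hr⟩ := exists_UU' (k := hgt π) hne
  rw [unk_iff hg hl hr, ← hb.ring_rotate hr.2.1 hl.2.1]
  refine hb.unknotted hr hl fun j hj hj' => ?_
  rw [h1] at hj'
  omega

private theorem cpa_st4_of {d : P3} (hd : IsStep d) (h : brk (lets [d]) = 0) : ∃ i, d = st4 i := by
  rcases hlet_cases hd with ⟨i, hi, hd', -⟩ | ⟨hi, -⟩
  · exact ⟨i, hd'⟩
  · simp [brk, hi] at h

private theorem cpa_len_eq (s : List P3) : s.length = brk (lets s) + stp (lets s) := by
  induction s with
  | nil => rfl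
  | cons d s ih =>
    rw [List.length_cons, ih, lets_cons]
    cases h : hlet d with
    | none => rw [brk_none, stp_none]; omega
    | some i => rw [brk_some, stp_some]; omega

private theorem cpa_bas_cases (hA : Steps π.1) (hB : Steps π.2) (h : Bas π) : π = ([], []) ∨
    (∃ i, π = ([st4 i], [])) ∨ ∃ i, π = ([], [st4 i]) := by
  obtain ⟨s, t⟩ := π
  obtain ⟨h1, h2⟩ := h
  simp only [nv, nh] at h1 h2 hA hB
  have hs := cpa_len_eq s
  have ht := cpa_len_eq t
  match s, t, hA, hB, hs, ht, h1, h2 with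
  | [], [], _, _, _, _, _, _ => exact Or.inl rfl
  | [d], [], hA, _, _, _, h1, _ =>
    obtain ⟨i, hi⟩ := cpa_st4_of (hA d (by simp)) (by omega)
    exact Or.inr (Or.inl ⟨i, by rw [hi]⟩)
  | [], [d], _, hB, _, _, h1, _ =>
    obtain ⟨i, hi⟩ := cpa_st4_of (hB d (by simp)) (by omega)
    exact Or.inr (Or.inr ⟨i, by rw [hi]⟩)
  | d :: d' :: s, t, _, _, hs, ht, h1, h2 =>
    simp only [List.length_cons] at hs
    omega
  | s, d :: d' :: t, _, _, hs, ht, h1, h2 =>
    simp only [List.length_cons] at ht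
    omega
  | d :: s, d' :: t, _, _, hs, ht, h1, h2 =>
    simp only [List.length_cons] at hs ht
    omega

private theorem cpa_geo_valid (h : Bas π) (hg : Geo v π) : Valid v π := by
  refine ⟨hg, cpa_unk_of_one hg ?_⟩
  rcases cpa_bas_cases hg.stA hg.stB h with rfl | ⟨i, rfl⟩ | ⟨i, rfl⟩
  · rfl
  · exact cpa_hgt_left i
  · exact cpa_hgt_right i

/-- A knotted block is not basic. -/
theorem Kn.not_bas (h : Kn v π) : ¬ Bas π := fun hb => h.2 (cpa_geo_valid hb h.1).2

end bas

theorem knot_big (h : Cr y z) : ∑' π : KW, wt (ENNReal.ofReal y) (ENNReal.ofReal z) π.1 *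
    2 ^ ln π.1 * 80 ^ nrm (dsp π.1) ≠ ⊤ := by
  have h1 := KCls.rest_geo' h.y_pos h.z_pos h.z_le h.q_le
  let φ : KW → {p : PP // ¬ Bas p ∧ ∃ v, Geo v p} := fun π =>
    ⟨π.1, by
      obtain ⟨v, hv⟩ := π.2
      exact ⟨hv.not_bas, v, hv.1⟩⟩
  have hφ : Function.Injective φ := by
    intro π π' hh
    exact Subtype.ext (congrArg (fun x : {p : PP // ¬ Bas p ∧ ∃ v, Geo v p} => x.1) hh)
  refine ne_top_of_le_ne_top (ne_top_of_le_ne_top ENNReal.ofReal_ne_top h1) ?_
  refine le_trans ?_ (ENNReal.tsum_comp_le_tsum_of_injective hφ _)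
  refine ENNReal.tsum_le_tsum fun π => ?_
  obtain ⟨v, hv⟩ := π.2
  have h2 : nrm (dsp π.1) ≤ nh π.1 := nrm_dsp_le hv.1.stA hv.1.stB
  have h3 : (80 : ℝ≥0∞) ^ nrm (dsp π.1) ≤ 576 ^ nh π.1 := by
    calc (80 : ℝ≥0∞) ^ nrm (dsp π.1) ≤ 80 ^ nh π.1 := pow_le_pow_right₀ (by norm_num) h2
      _ ≤ 576 ^ nh π.1 := by
        gcongr
        norm_num
  have h4 : ln π.1 = π.1.1.length + π.1.2.length + 2 := rfl
  rw [h4]
  gcongr

private theorem cpa_step_finite : {d : P3 | IsStep d}.Finite := by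
  refine (Set.finite_Icc ((-1, -1, -1) : P3) (1, 1, 1)).subset ?_
  intro d hd
  have h : |d.1| + |d.2.1| + |d.2.2| = 1 := hd
  have h1 := abs_nonneg d.1
  have h2 := abs_nonneg d.2.1
  have h3 := abs_nonneg d.2.2
  have a1 := abs_le.1 (show |d.1| ≤ 1 by omega)
  have a2 := abs_le.1 (show |d.2.1| ≤ 1 by omega)
  have a3 := abs_le.1 (show |d.2.2| ≤ 1 by omega)
  exact ⟨⟨a1.1, a2.1, a3.1⟩, ⟨a1.2, a2.2, a3.2⟩⟩

private theorem cpa_words_finite (m : ℕ) : {s : List P3 | Steps s ∧ s.length ≤ m}.Finite := by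
  have := cpa_step_finite.to_subtype
  refine ((List.finite_length_le {d : P3 // d ∈ {d : P3 | IsStep d}} m).image
    (fun s => s.map Subtype.val)).subset ?_
  rintro s ⟨hs, hl⟩
  refine ⟨s.attach.map (fun d => ⟨d.1, hs d.1 d.2⟩), ?_, ?_⟩
  · show (s.attach.map _).length ≤ m
    simpa using hl
  · show (s.attach.map _).map Subtype.val = s
    rw [List.map_map]
    exact List.attach_map_subtype_val s

theorem short_fin (j : ℕ) : {π : KW | ln π.1 ≤ j}.Finite := by
  have h1 : {π : PP | (∃ v, Kn v π) ∧ ln π ≤ j}.Finite := by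
    refine ((cpa_words_finite j).prod (cpa_words_finite j)).subset ?_
    rintro π ⟨⟨v, hg, -⟩, hl⟩
    have hln : ln π = π.1.length + π.2.length + 2 := rfl
    exact ⟨⟨hg.stA, by omega⟩, ⟨hg.stB, by omega⟩⟩
  refine (h1.preimage (f := (Subtype.val : KW → PP)) Subtype.val_injective.injOn).subset ?_
  intro π hπ
  exact ⟨π.2, hπ⟩

open Classical in
theorem knot_tail (h : Cr y z) {ε : ℝ≥0∞} (hε : ε ≠ 0) : ∃ j0 : ℕ, ∀ j ≥ j0,
    ∑' π : KW, (if ln π.1 ≤ j then 0 else wt (ENNReal.ofReal y) (ENNReal.ofReal z) π.1 *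
      2 ^ ln π.1 * 80 ^ nrm (dsp π.1)) ≤ ε := by
  set f : KW → ℝ≥0∞ := fun π => wt (ENNReal.ofReal y) (ENNReal.ofReal z) π.1 *
      2 ^ ln π.1 * 80 ^ nrm (dsp π.1) with hf
  have h1 := ENNReal.tendsto_tsum_compl_atTop_zero (knot_big h)
  have h2 : ∀ᶠ s : Finset KW in Filter.atTop, ∑' b : {x // x ∉ s}, f b.1 ≤ ε :=
    (h1.eventually_lt_const (pos_iff_ne_zero.2 hε)).mono fun s hs => hs.le
  obtain ⟨s, hs⟩ := h2.exists
  refine ⟨s.sup fun π => ln π.1, fun j hj => ?_⟩
  have h3 : ∀ π : KW, (if ln π.1 ≤ j then 0 else f π) ≤ ({x | x ∉ s} : Set KW).indicator f π := by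
    intro π
    by_cases hπ : π ∈ s
    · have : ln π.1 ≤ j := le_trans (Finset.le_sup (f := fun π : KW => ln π.1) hπ) hj
      rw [if_pos this]
      exact zero_le
    · rw [Set.indicator_of_mem (show π ∈ ({x | x ∉ s} : Set KW) from hπ)]
      split_ifs
      · exact zero_le
      · exact le_rfl
  refine (ENNReal.tsum_le_tsum h3).trans ?_
  rw [← tsum_subtype]
  exact hs

end Pool.Agent.KComp
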