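import Pool.Agent.KComp.Basic
import Pool.Agent.KAmp.Rat
import Pool.Agent.KAsym.Final

/-! KC8: the total weight of the chains of length `n` does not vary too much.

PROOF. `S = sys y z`, `S.Ok` by `sys_ok`, `S.Gr` by `gr`; `S.tot n ≠ ⊤` by `sum_fin` (`KAmp/Lln.lean`).
`tot_odd`: `KAmp.tot_eq` and `Zt y UClass n = 0` for odd `n` (`KTen.u_odd`): the right side is `0`.
`tot_poly`: by `KAmp.tot_asy` and `KAsym.main` there are `A > 0` and `μ > 0` with
`tot (2k) ~ (2 A / y) (μ z)^(2k) / (2k log² (2k))`. Here `μ z = 1`: if `μ z < 1` then `tot (2k)` is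
exponentially small, against `gr`; if `μ z > 1` then it is exponentially large, but
`tot n ≤ C (n + 1)` by `mass_le` (`KAmp/ExpNear.lean`) and `2 * length ≤ n` (`two_length_le`; as in the
proof of `sum_fin`).
`tot_b`: let `f n = n log² n`, `c` the limit in `tot_poly`; choose an even `n1 ≥ 100` such that
`c / 2 ≤ tot n * f n ≤ 2 c` for even `n ≥ n1`. `f (n + 1) ≤ 2 f n` for `n ≥ n1`, and `f` is increasing.
Let `n ≥ n0` be even. For even `n' ≥ n`: `tot n' ≤ 2 c / f n' ≤ 4 tot n`. For even `n1 ≤ n' < n`: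
`f n ≤ 2^(n-n') f n'`, so `tot n' ≤ 2c / f n' ≤ 4 * 2^(n - n') tot n`. For `n' < n1`: `tot n' ≤ C0` and
`2^(n-n1) tot n ≥ 2^(n - n1) c / (2 f n) ≥ c / 2` for `n ≥ n0`, if `n0` is large, so
`tot n' ≤ (2 C0 / c) 2^(n-n') tot n`. For odd `n'`: `0`. -/

set_option autoImplicit false

open Filter Topology
open Pool.Agent.LK
open scoped ENNReal

namespace Pool.Agent.KComp

open Pool.Agent.KTube Pool.Agent.KRing Pool.Agent.KLog
open Pool.Agent.KAmp (sys)

variable {y z : ℝ}

theorem Cr.ok (h : Cr y z) : (sys y z).Ok := KAmp.sys_ok h.y_pos h.z_pos h.z_le h.q_le h.one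

theorem Cr.gr (h : Cr y z) : (sys y z).Gr := KAmp.gr h.y_le h.z_pos h.z_le h.q_le h.one

theorem Cr.fin (h : Cr y z) (n : ℕ) : (sys y z).tot n ≠ ⊤ :=
  KAmp.sum_fin h.ok n (C := 1) fun x => by simp

private noncomputable def ff (n : ℕ) : ℝ := (n : ℝ) * Real.log (n : ℝ) ^ 2

private theorem ff_nonneg (n : ℕ) : 0 ≤ ff n := mul_nonneg (Nat.cast_nonneg n) (sq_nonneg _)

private theorem ff_mono {m n : ℕ} (hm : 1 ≤ m) (h : m ≤ n) : ff m ≤ ff n := by
  have h1 : (1 : ℝ) ≤ m := by exact_mod_cast hm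
  have h2 : (m : ℝ) ≤ n := by exact_mod_cast h
  have h3 : 0 ≤ Real.log m := Real.log_nonneg h1
  have h4 : Real.log m ≤ Real.log n := Real.log_le_log (by linarith) h2
  unfold ff
  gcongr

private theorem ff_pos {n : ℕ} (hn : 2 ≤ n) : 0 < ff n := by
  have h1 : (1 : ℝ) < n := by exact_mod_cast hn
  have h2 := Real.log_pos h1
  unfold ff
  positivity

private theorem ff_le_cube (n : ℕ) : ff n ≤ (n : ℝ) ^ 3 := by
  unfold ff
  rcases Nat.eq_zero_or_pos n with rfl | hn
  · simp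
  have h1 : (1 : ℝ) ≤ n := by exact_mod_cast hn
  have h2 : 0 ≤ Real.log n := Real.log_nonneg h1
  have h3 : Real.log n ≤ n := by
    have := Real.log_le_sub_one_of_pos (by linarith : (0 : ℝ) < n)
    linarith
  calc (n : ℝ) * Real.log n ^ 2 ≤ n * (n : ℝ) ^ 2 := by gcongr
    _ = (n : ℝ) ^ 3 := by ring

private theorem ff_succ {n : ℕ} (hn : 100 ≤ n) : ff (n + 1) ≤ 2 * ff n := by
  have h1 : (100 : ℝ) ≤ n := by exact_mod_cast hn
  have h0 : (0 : ℝ) < n := by linarith
  have hl : 1 ≤ Real.log n := by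
    rw [Real.le_log_iff_exp_le h0]
    have := Real.exp_one_lt_d9
    linarith
  have h2 : Real.log ((n + 1 : ℕ) : ℝ) ≤ Real.log n + 1 / 100 := by
    have h3 : ((n + 1 : ℕ) : ℝ) = n * (1 + 1 / n) := by
      push_cast
      field_simp
    rw [h3, Real.log_mul h0.ne' (by positivity)]
    have h4 := Real.log_le_sub_one_of_pos (by positivity : (0 : ℝ) < 1 + 1 / n)
    have h5 : (1 : ℝ) / n ≤ 1 / 100 := one_div_le_one_div_of_le (by norm_num) h1
    linarith
  have h3 : Real.log ((n + 1 : ℕ) : ℝ) ≤ 1.01 * Real.log n := by linarith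
  have h4 : 0 ≤ Real.log ((n + 1 : ℕ) : ℝ) := Real.log_nonneg (by
    push_cast
    linarith)
  have h5 : ((n + 1 : ℕ) : ℝ) ≤ 1.01 * n := by
    push_cast
    linarith
  unfold ff
  calc ((n + 1 : ℕ) : ℝ) * Real.log ((n + 1 : ℕ) : ℝ) ^ 2
      ≤ (1.01 * n) * (1.01 * Real.log n) ^ 2 := by gcongr
    _ = 1.030301 * (n * Real.log n ^ 2) := by ring
    _ ≤ 2 * (n * Real.log n ^ 2) := by
      have : 0 ≤ (n : ℝ) * Real.log n ^ 2 := by positivity
      linarith

private theorem ff_two_pow {m : ℕ} (hm : 100 ≤ m) (k : ℕ) : ff (m + k) ≤ 2 ^ k * ff m := by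
  induction k with
  | zero => simp
  | succ k ih =>
    calc ff (m + (k + 1)) = ff (m + k + 1) := by rw [add_assoc]
      _ ≤ 2 * ff (m + k) := ff_succ (by omega)
      _ ≤ 2 * (2 ^ k * ff m) := by gcongr
      _ = 2 ^ (k + 1) * ff m := by ring

/-- The comparison for real sequences. -/
private theorem tot_b_real {a : ℕ → ℝ} (ha : ∀ n, 0 ≤ a n) (hodd : ∀ n, Odd n → a n = 0)
    {c : ℝ} (hc : 0 < c) (hlim : Tendsto (fun k : ℕ => a (2 * k) * ff (2 * k)) atTop (𝓝 c)) :
    ∃ C : ℝ, 0 ≤ C ∧ ∃ n0 : ℕ, ∀ n ≥ n0, Even n → 0 < a n ∧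
      ∀ n' : ℕ, a n' ≤ C * 2 ^ (n - n') * a n := by
  have h1 : ∀ᶠ k : ℕ in atTop, c / 2 ≤ a (2 * k) * ff (2 * k) ∧ a (2 * k) * ff (2 * k) ≤ 2 * c :=
    (hlim.eventually (le_mem_nhds (by linarith : c / 2 < c))).and
      (hlim.eventually (ge_mem_nhds (by linarith : c < 2 * c)))
  obtain ⟨k1, hk1⟩ := eventually_atTop.1 h1
  set n1 : ℕ := 2 * max k1 50 with hn1
  have hn100 : 100 ≤ n1 := by omega
  have hb : ∀ n : ℕ, n1 ≤ n → Even n → c / 2 ≤ a n * ff n ∧ a n * ff n ≤ 2 * c := by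
    intro n hn he
    obtain ⟨k, hk⟩ := even_iff_two_dvd.1 he
    rw [hk]
    exact hk1 k (by omega)
  -- `f n ≤ 2 ^ (n - n1)`
  have h2 : Tendsto (fun n : ℕ => (n : ℝ) ^ 3 / 2 ^ n) atTop (𝓝 0) :=
    tendsto_pow_const_div_const_pow_of_one_lt 3 (by norm_num)
  obtain ⟨n2, hn2⟩ := eventually_atTop.1 (h2.eventually
    (ge_mem_nhds (by positivity : (0 : ℝ) < 1 / 2 ^ n1)))
  set C0 : ℝ := ∑ i ∈ Finset.range n1, a i with hC0
  have hC0n : 0 ≤ C0 := Finset.sum_nonneg fun i _ => ha i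
  have hC0a : ∀ i < n1, a i ≤ C0 := fun i hi =>
    Finset.single_le_sum (f := a) (fun j _ => ha j) (Finset.mem_range.2 hi)
  refine ⟨4 + 2 * C0 / c, by positivity, max n1 n2, fun n hn he => ?_⟩
  have hnn1 : n1 ≤ n := le_trans (le_max_left _ _) hn
  have hnn2 : n2 ≤ n := le_trans (le_max_right _ _) hn
  obtain ⟨hl, hu⟩ := hb n hnn1 he
  have hfn : 0 < ff n := ff_pos (by omega)
  have han : 0 < a n := by
    by_contra hcon
    have : a n = 0 := le_antisymm (not_lt.1 hcon) (ha n)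
    rw [this, zero_mul] at hl
    linarith
  refine ⟨han, fun n' => ?_⟩
  have hp : (0 : ℝ) < 2 ^ (n - n') := by positivity
  have hC4 : 4 * 2 ^ (n - n') * a n ≤ (4 + 2 * C0 / c) * 2 ^ (n - n') * a n := by
    have : 0 ≤ 2 * C0 / c * 2 ^ (n - n') * a n := by positivity
    linarith [this, (by ring : (4 + 2 * C0 / c) * 2 ^ (n - n') * a n =
      4 * 2 ^ (n - n') * a n + 2 * C0 / c * 2 ^ (n - n') * a n)]
  rcases Nat.even_or_odd n' with he' | ho'
  · rcases lt_or_ge n' n1 with h3 | h3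
    · -- small
      have h4 : ff n ≤ 2 ^ (n - n1) := by
        have h5 := hn2 n hnn2
        rw [div_le_div_iff₀ (by positivity) (by positivity), one_mul] at h5
        have h6 : (2 : ℝ) ^ n = 2 ^ (n - n1) * 2 ^ n1 := by
          rw [← pow_add]
          congr 1
          omega
        rw [h6] at h5
        exact (ff_le_cube n).trans (le_of_mul_le_mul_right h5 (by positivity))
      have h5 : (2 : ℝ) ^ (n - n1) ≤ 2 ^ (n - n') :=
        pow_le_pow_right₀ (by norm_num) (by omega)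
      have h6 : c / 2 ≤ 2 ^ (n - n') * a n := by
        calc c / 2 ≤ a n * ff n := hl
          _ ≤ a n * 2 ^ (n - n') := by
            exact mul_le_mul_of_nonneg_left (h4.trans h5) han.le
          _ = _ := mul_comm _ _
      calc a n' ≤ C0 := hC0a n' h3
        _ = 2 * C0 / c * (c / 2) := by
          field_simp
        _ ≤ 2 * C0 / c * (2 ^ (n - n') * a n) := by
          exact mul_le_mul_of_nonneg_left h6 (by positivity)
        _ ≤ (4 + 2 * C0 / c) * 2 ^ (n - n') * a n := by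
          have : 0 ≤ 4 * 2 ^ (n - n') * a n := by positivity
          nlinarith [this]
    · obtain ⟨-, hu'⟩ := hb n' h3 he'
      have hfn' : 0 < ff n' := ff_pos (by omega)
      -- `f n ≤ 2^(n-n') f n'`
      have h4 : ff n ≤ 2 ^ (n - n') * ff n' := by
        rcases le_total n' n with h5 | h5
        · have h6 := ff_two_pow (m := n') (by omega) (n - n')
          rwa [Nat.add_sub_cancel' h5] at h6
        · rw [Nat.sub_eq_zero_of_le h5, pow_zero, one_mul]
          exact ff_mono (by omega) h5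
      refine le_trans ?_ hC4
      -- `a n' f n' ≤ 2c ≤ 4 a n f n ≤ 4 a n 2^.. f n'`
      refine le_of_mul_le_mul_right ?_ hfn'
      calc a n' * ff n' ≤ 2 * c := hu'
        _ ≤ 4 * (a n * ff n) := by linarith
        _ ≤ 4 * (a n * (2 ^ (n - n') * ff n')) := by gcongr
        _ = 4 * 2 ^ (n - n') * a n * ff n' := by ring
  · rw [hodd n' ho']
    positivity

/-- the base is one -/
private theorem base_one {t : ℕ → ℝ} {r L C : ℝ} (hr : 0 < r) (hL : 0 < L)
    (hgr : ∀ δ : ℝ, 0 < δ → ∀ᶠ k : ℕ in atTop, Real.exp (-δ * k) ≤ t k)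
    (hup : ∀ k, t k ≤ C * (2 * k + 1))
    (hlim : Tendsto (fun k : ℕ => t k * ff (2 * k) / r ^ (2 * k)) atTop (𝓝 L)) : r = 1 := by
  rcases lt_trichotomy r 1 with h | h | h
  · exfalso
    have hδ : 0 < -Real.log r := by
      have := Real.log_neg hr h
      linarith
    have h1 := hgr _ hδ
    have h2 : Tendsto (fun k : ℕ => ((2 * k : ℕ) : ℝ)) atTop atTop :=
      tendsto_natCast_atTop_atTop.comp (tendsto_id.const_mul_atTop' (by norm_num))
    have h3 := hlim.eventually (ge_mem_nhds (by linarith : L < L + 1))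
    obtain ⟨k, hk1, hk2, hk3, hk4⟩ := (h1.and (h3.and ((h2.eventually_gt_atTop (L + 1)).and
      (eventually_ge_atTop 50)))).exists
    -- `t k ≥ r^k`
    have h4 : Real.exp (-(-Real.log r) * k) = r ^ k := by
      rw [neg_neg, mul_comm, ← Real.log_pow, Real.exp_log (by positivity)]
    rw [h4] at hk1
    have h5 : ff (2 * k) ≤ t k * ff (2 * k) / r ^ (2 * k) := by
      rw [le_div_iff₀ (by positivity), mul_comm]
      refine mul_le_mul_of_nonneg_right (le_trans ?_ hk1) (ff_nonneg _)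
      rw [two_mul, pow_add]
      exact mul_le_of_le_one_right (by positivity) (pow_le_one₀ hr.le h.le)
    have h6 : ((2 * k : ℕ) : ℝ) ≤ ff (2 * k) := by
      unfold ff
      have h7 : (100 : ℝ) ≤ ((2 * k : ℕ) : ℝ) := by
        have : 100 ≤ 2 * k := by omega
        exact_mod_cast this
      have hl : 1 ≤ Real.log ((2 * k : ℕ) : ℝ) := by
        rw [Real.le_log_iff_exp_le (by linarith)]
        have := Real.exp_one_lt_d9
        linarith
      exact le_mul_of_one_le_right (by linarith) (one_le_pow₀ hl)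
    linarith
  · exact h
  · exfalso
    have h1 : Tendsto (fun n : ℕ => (n : ℝ) ^ 4 / r ^ n) atTop (𝓝 0) :=
      tendsto_pow_const_div_const_pow_of_one_lt 4 h
    have h2 : Tendsto (fun k : ℕ => 2 * |C| * (((2 * k : ℕ) : ℝ) ^ 4 / r ^ (2 * k))) atTop
        (𝓝 (2 * |C| * 0)) :=
      (h1.comp (tendsto_id.const_mul_atTop' (by norm_num : (0 : ℕ) < 2))).const_mul _
    rw [mul_zero] at h2
    have h3 : ∀ᶠ k : ℕ in atTop, t k * ff (2 * k) / r ^ (2 * k) ≤
        2 * |C| * (((2 * k : ℕ) : ℝ) ^ 4 / r ^ (2 * k)) := by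
      filter_upwards [eventually_ge_atTop 1] with k hk
      rw [← mul_div_assoc]
      refine div_le_div_of_nonneg_right ?_ (by positivity)
      have hk1 : (1 : ℝ) ≤ ((2 * k : ℕ) : ℝ) := by
        have : 1 ≤ 2 * k := by omega
        exact_mod_cast this
      have h4 : t k ≤ 2 * |C| * ((2 * k : ℕ) : ℝ) := by
        have h5 := hup k
        have h6 : C * (2 * k + 1) ≤ |C| * (2 * k + 1) :=
          mul_le_mul_of_nonneg_right (le_abs_self C) (by positivity)
        have h7 : |C| * (2 * k + 1) ≤ |C| * (2 * ((2 * k : ℕ) : ℝ)) := by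
          refine mul_le_mul_of_nonneg_left ?_ (abs_nonneg C)
          push_cast at hk1 ⊢
          linarith
        linarith
      calc t k * ff (2 * k) ≤ (2 * |C| * ((2 * k : ℕ) : ℝ)) * ((2 * k : ℕ) : ℝ) ^ 3 := by
            refine mul_le_mul h4 (ff_le_cube _) (ff_nonneg _) (by positivity)
        _ = 2 * |C| * ((2 * k : ℕ) : ℝ) ^ 4 := by ring
    have h4 := le_of_tendsto_of_tendsto hlim h2 h3
    linarith

theorem tot_odd (h : Cr y z) {n : ℕ} (hn : Odd n) : (sys y z).tot n = 0 := by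
  have h1 := KAmp.tot_eq h.y_pos h.z_pos n
  rw [KTen.u_odd (Nat.not_even_iff_odd.2 hn), zero_mul, ENNReal.ofReal_zero, mul_zero] at h1
  have h2 := (add_eq_zero.1 h1).1
  rcases mul_eq_zero.1 h2 with h3 | h3
  · exact absurd h3 (ENNReal.ofReal_pos.2 h.y_pos).ne'
  · exact h3

/-- the total weight is at most linear -/
private theorem tot_lin (h : Cr y z) : ∃ C : ℝ, ∀ n : ℕ,
    ((sys y z).tot n).toReal ≤ C * (n + 1) := by
  obtain ⟨D, hD⟩ := KAmp.mass_le h.ok
  refine ⟨max D 0, fun n => ?_⟩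
  have h1 : (sys y z).tot n ≤ ∑ m ∈ Finset.range (n + 1), ENNReal.ofReal D := by
    have h2 : (sys y z).tot n = ∑' x : {x : (sys y z).Ch // (sys y z).len x = n},
        (sys y z).W x.1 := by
      unfold KAmp.Sys.tot KAmp.Sys.sum
      exact tsum_congr fun x => mul_one _
    rw [h2]
    refine (ENNReal.tsum_mono_subtype (sys y z).W (s := {x | (sys y z).len x = n})
      (t := ⋃ m ∈ Finset.range (n + 1), {x : (sys y z).Ch | x.1.2.1.length = m}) ?_).trans
      ((ENNReal.tsum_biUnion_le (sys y z).W _ _).trans (Finset.sum_le_sum fun m _ => hD m))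
    intro x hx
    have h3 : (sys y z).len x = n := hx
    have h4 := KAmp.two_length_le h.ok x
    simp only [Set.mem_iUnion, Finset.mem_range]
    exact ⟨x.1.2.1.length, by omega, rfl⟩
  rw [Finset.sum_const, Finset.card_range, nsmul_eq_mul] at h1
  have h2 := ENNReal.toReal_mono (by
    exact ENNReal.mul_ne_top (ENNReal.natCast_ne_top _) ENNReal.ofReal_ne_top) h1
  rw [ENNReal.toReal_mul, ENNReal.toReal_natCast, ENNReal.toReal_ofReal', mul_comm] at h2
  rw [← Nat.cast_succ]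
  exact h2

theorem tot_poly (h : Cr y z) : ∃ c : ℝ, 0 < c ∧
    Tendsto (fun k : ℕ => ((sys y z).tot (2 * k)).toReal *
      (((2 * k : ℕ) : ℝ) * Real.log ((2 * k : ℕ) : ℝ) ^ 2)) atTop (𝓝 c) := by
  obtain ⟨μ, hμ, A, hA, hlim⟩ := KAsym.main h.y_le
  have hasy := KAmp.tot_asy h.y_le h.z_pos h.z_le h.q_le h.one
  have hy := h.y_pos
  have hz := h.z_pos
  have hr : 0 < μ * z := mul_pos hμ hz
  have hL : 0 < 2 * A / y := by positivity
  -- the quotient
  have hT : Tendsto (fun k : ℕ => ((sys y z).tot (2 * k)).toReal * ff (2 * k) /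
      (μ * z) ^ (2 * k)) atTop (𝓝 (2 * A / y)) := by
    have h1 := (hasy.mul hlim).div_const y
    refine h1.congr' ?_
    filter_upwards [hasy.eventually (lt_mem_nhds (by norm_num : (1 : ℝ) < 2)),
      eventually_ge_atTop 1] with k hk hk1
    have hx : KTen.Zt y UClass (2 * k) * z ^ (2 * k) ≠ 0 := by
      intro h0
      rw [h0, div_zero] at hk
      norm_num at hk
    have hx1 : KTen.Zt y UClass (2 * k) ≠ 0 := left_ne_zero_of_mul hx
    have hf : 0 < ff (2 * k) := ff_pos (by omega)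
    change y * ((sys y z).tot (2 * k)).toReal / (KTen.Zt y UClass (2 * k) * z ^ (2 * k)) *
      (KTen.Zt y UClass (2 * k) / (μ ^ (2 * k) / ff (2 * k))) / y = _
    rw [mul_pow]
    field_simp
  have h1 : μ * z = 1 := by
    obtain ⟨C, hC⟩ := tot_lin h
    refine base_one (t := fun k => ((sys y z).tot (2 * k)).toReal) (C := C) hr hL ?_ ?_ hT
    · intro δ hδ
      filter_upwards [h.gr δ hδ] with k hk
      exact (ENNReal.ofReal_le_iff_le_toReal (h.fin _)).1 hk
    · intro k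
      have := hC (2 * k)
      push_cast at this
      exact this
  refine ⟨2 * A / y, hL, ?_⟩
  rw [h1] at hT
  simpa [ff] using hT

/-- KC8. -/
theorem tot_b (h : Cr y z) : ∃ C : ℝ≥0∞, C ≠ ⊤ ∧ ∃ n0 : ℕ, ∀ n ≥ n0, Even n →
    (sys y z).tot n ≠ 0 ∧ ∀ n' : ℕ, (sys y z).tot n' ≤ C * 2 ^ (n - n') * (sys y z).tot n := by
  obtain ⟨c, hc, hlim⟩ := tot_poly h
  obtain ⟨C, hC, n0, hn0⟩ := tot_b_real (a := fun n => ((sys y z).tot n).toReal)
    (fun n => ENNReal.toReal_nonneg) (fun n hn => by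
      rw [tot_odd h hn, ENNReal.toReal_zero]) hc hlim
  refine ⟨ENNReal.ofReal C, ENNReal.ofReal_ne_top, n0, fun n hn he => ?_⟩
  obtain ⟨h1, h2⟩ := hn0 n hn he
  refine ⟨?_, fun n' => ?_⟩
  · intro h0
    simp only [h0, ENNReal.toReal_zero] at h1
    exact lt_irrefl _ h1
  · rw [← ENNReal.ofReal_toReal (h.fin n'), ← ENNReal.ofReal_toReal (h.fin n)]
    have h3 : (2 : ℝ≥0∞) ^ (n - n') = ENNReal.ofReal (2 ^ (n - n')) := by
      rw [ENNReal.ofReal_pow (by norm_num)]
      norm_num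
    rw [h3, ← ENNReal.ofReal_mul hC, ← ENNReal.ofReal_mul (by positivity)]
    exact ENNReal.ofReal_le_ofReal (h2 n')

end Pool.Agent.KComp
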