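import Pool.Agent.KComp.Nest
import Pool.Agent.KComp.TotB
import Pool.Agent.KComp.CapA

/-! KC11a: the weight of the chains of unknotted blocks between arbitrary caps.

PROOF. `tq_nil`: `v0 = (1, 0)`, `l0` an unknotted cap over `v0` (`exists_flat`), `b0 = wc l0 ≠ 0`. Write
`TQ True [] m` as the sum over `(w, w')` and `(i, j, k)` with `i + j + k = m` of
`cq i w * KN j w w' * cq k w'`; here `w ≠ 0`, `w' ≠ 0` (otherwise `cq = 0`, `Flat`). By `kn_pre` (from `v0` to
`w`, `u = w - v0`) and `kn_app` (from `w'` to `v0`, `u' = v0 - w'`):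
`KN j w w' ≤ 40 ^ (mm u + mm u') * KN (j + lam u + lam u') v0 v0`, and
`b0 ^ 2 * KN j' v0 v0 ≤ (sys y z).tot (j' + 2 * length l0)` (the chains `(l0, s, l0)`: `UC v0 s` gives
`VC (ker y z) v0 s`, `ed = ev`; injective in `s`). By `tot_b`, with `n' = j + lam u + lam u' + 2 * length l0`,
`n - n' ≤ n - j ≤ a + i + k`, this is `≤ C * 2 ^ (a + i + k) * tot n`. And
`mm u ≤ nrm w + 5`, so the sum is at most
`b0⁻² * C * 40 ^ 10 * 2 ^ a * tot n * (∑' i, ∑' w, cq i w * 2 ^ i * 40 ^ nrm w) ^ 2 < ∞` (`cq_big`). -/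

set_option autoImplicit false

open Pool.Agent.LK
open scoped ENNReal

namespace Pool.Agent.KComp

open Pool.Agent.KTube Pool.Agent.KRing Pool.Agent.KLog
open Pool.Agent.KAsym (ln)
open Pool.Agent.KAmp (sys)
open Pool.Agent.KTop (GC UC ed)

variable {y z : ℝ}

theorem cq_mono {Q Q' : HA → Prop} (h : ∀ c, Q c → Q' c) (n : ℕ) (w : ℤ × ℤ) :
    cq y z Q n w ≤ cq y z Q' n w := by
  unfold cq
  refine ENNReal.tsum_le_tsum fun r => ?_
  by_cases h1 : Q r ∧ r.1 = w ∧ r.2.1.length = n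
  · rw [if_pos h1, if_pos ⟨h r h1.1, h1.2⟩]
  · rw [if_neg h1]
    exact zero_le

private theorem cn_mono {c c' : ℕ → ℤ × ℤ → ℝ≥0∞} (h : ∀ n w, c n w ≤ c' n w)
    {qs qs' : List ((ℤ × ℤ → Prop) × (ℤ × ℤ))}
    (hqs : List.Forall₂ (fun q q' => (∀ v, q.1 v → q'.1 v) ∧ q.2 = q'.2) qs qs') :
    ∀ (n : ℕ) (w : ℤ × ℤ), cN y z c qs n w ≤ cN y z c' qs' n w := by
  induction hqs with
  | nil => exact h
  | @cons q q' l l' hq _ ih =>
    intro n w
    unfold cN
    by_cases h1 : q.1 w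
    · rw [if_pos h1, if_pos (hq.1 w h1), hq.2]
      exact fc_mono ih n _
    · rw [if_neg h1]
      exact zero_le

theorem tq_mono {Q Q' : HA → Prop} (h : ∀ c, Q c → Q' c)
    {qs qs' : List ((ℤ × ℤ → Prop) × (ℤ × ℤ))}
    (hqs : List.Forall₂ (fun q q' => (∀ v, q.1 v → q'.1 v) ∧ q.2 = q'.2) qs qs') (n : ℕ) :
    TQ y z Q qs n ≤ TQ y z Q' qs' n := by
  unfold TQ
  refine ENNReal.tsum_le_tsum fun w => Finset.sum_le_sum fun p _ => ?_
  exact mul_le_mul' (cq_mono h _ _) (fc_mono (cn_mono (cq_mono h) hqs) _ _)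

private theorem sum_fst (g : ℕ → ℝ≥0∞) (m : ℕ) :
    ∑ p ∈ Finset.HasAntidiagonal.antidiagonal m, g p.1 ≤ ∑' i, g i := by
  have h1 : ∑ p ∈ Finset.HasAntidiagonal.antidiagonal m, g p.1 =
      ∑ i ∈ (Finset.HasAntidiagonal.antidiagonal m).image Prod.fst, g i := by
    refine (Finset.sum_image fun p hp q hq hpq => ?_).symm
    have h2 := Finset.HasAntidiagonal.mem_antidiagonal.1 (Finset.mem_coe.1 hp)
    have h3 := Finset.HasAntidiagonal.mem_antidiagonal.1 (Finset.mem_coe.1 hq)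
    ext
    · exact hpq
    · omega
  rw [h1]
  exact ENNReal.sum_le_tsum _

private theorem sum_snd (g : ℕ → ℝ≥0∞) (m : ℕ) :
    ∑ p ∈ Finset.HasAntidiagonal.antidiagonal m, g p.2 ≤ ∑' i, g i := by
  have h1 : ∑ p ∈ Finset.HasAntidiagonal.antidiagonal m, g p.2 =
      ∑ i ∈ (Finset.HasAntidiagonal.antidiagonal m).image Prod.snd, g i := by
    refine (Finset.sum_image fun p hp q hq hpq => ?_).symm
    have h2 := Finset.HasAntidiagonal.mem_antidiagonal.1 (Finset.mem_coe.1 hp)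
    have h3 := Finset.HasAntidiagonal.mem_antidiagonal.1 (Finset.mem_coe.1 hq)
    ext
    · omega
    · exact hpq
  rw [h1]
  exact ENNReal.sum_le_tsum _

private theorem cq_zero {Q : HA → Prop} {n : ℕ} {w : ℤ × ℤ} (h : cq y z Q n w ≠ 0) : w ≠ 0 := by
  intro h0
  apply h
  unfold cq
  rw [ENNReal.tsum_eq_zero]
  intro r
  rw [if_neg]
  rintro ⟨-, h1, -⟩
  exact r.2.2.1 (by rw [h1, h0])

private theorem vc_of_uc {v : ℤ × ℤ} {s : List PP} (h : UC v s) :
    KAmp.VC (ker y z) v s := by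
  induction s generalizing v with
  | nil => trivial
  | cons π s ih => exact ⟨h.1, ih h.2⟩

/-- The chains between two copies of one cap. -/
private theorem kn_le_tot (c : KAmp.HT) (j : ℕ) :
    wl (ENNReal.ofReal y) (ENNReal.ofReal z) c.2.1 ^ 2 * KN y z j c.1 c.1 ≤
      (sys y z).tot (j + 2 * c.2.1.length) := by
  have h1 : KN y z j c.1 c.1 =
      ∑' s : {s : List PP // UC c.1 s ∧ ed c.1 s = c.1 ∧ (s.map ln).sum = j}, ww y z s.1 := by
    unfold KN
    classical
    rw [← tsum_subtype_eq_of_support_subset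
      (s := {s : List PP | UC c.1 s ∧ ed c.1 s = c.1 ∧ (s.map ln).sum = j})]
    · refine tsum_congr fun s => ?_
      exact if_pos s.2
    · intro s hs
      by_contra h2
      exact hs (if_neg h2)
  rw [h1, ← ENNReal.tsum_mul_left]
  unfold KAmp.Sys.tot KAmp.Sys.sum
  let e : {s : List PP // UC c.1 s ∧ ed c.1 s = c.1 ∧ (s.map ln).sum = j} →
      {x : (sys y z).Ch // (sys y z).len x = j + 2 * c.2.1.length} := fun s =>
    ⟨⟨(c, s.1, c), vc_of_uc s.2.1, s.2.2.1⟩, by
      have h3 := s.2.2.2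
      change c.2.1.length + (s.1.map ln).sum + c.2.1.length = _
      omega⟩
  have he : Function.Injective e := by
    intro s t hst
    have h4 := congrArg (fun x => x.1.1.2.1) hst
    exact Subtype.ext h4
  refine le_trans (ENNReal.tsum_le_tsum fun s => ?_)
    (ENNReal.tsum_comp_le_tsum_of_injective he _)
  have h5 : (sys y z).W (e s).1 = wl (ENNReal.ofReal y) (ENNReal.ofReal z) c.2.1 * ww y z s.1 *
      wl (ENNReal.ofReal y) (ENNReal.ofReal z) c.2.1 := rfl
  rw [h5, mul_one]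
  apply le_of_eq
  ring

theorem tq_nil (h : Cr y z) : ∃ C : ℝ≥0∞, C ≠ ⊤ ∧ ∃ n0 : ℕ, ∀ n ≥ n0, Even n →
    ∀ m a : ℕ, n ≤ m + a → TQ y z (fun _ => True) [] m ≤ C * 2 ^ a * (sys y z).tot n := by
  have hv0 : ((1, 0) : ℤ × ℤ) ≠ 0 := by simp
  obtain ⟨l0, hl0⟩ := exists_flat hv0
  set v0 : ℤ × ℤ := (1, 0) with hv0d
  set c0 : KAmp.HT := ⟨v0, l0, hl0⟩ with hc0
  set b : ℝ≥0∞ := wl (ENNReal.ofReal y) (ENNReal.ofReal z) l0 ^ 2 with hb
  have hy0 : ENNReal.ofReal y ≠ 0 := (ENNReal.ofReal_pos.2 h.y_pos).ne'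
  have hz0 : ENNReal.ofReal z ≠ 0 := (ENNReal.ofReal_pos.2 h.z_pos).ne'
  have hb0 : b ≠ 0 := by
    rw [hb, wl]
    exact pow_ne_zero _ (mul_ne_zero (pow_ne_zero _ hy0) (pow_ne_zero _ hz0))
  have hbt : b ≠ ⊤ := by
    rw [hb, wl]
    exact ENNReal.pow_ne_top (ENNReal.mul_ne_top (ENNReal.pow_ne_top ENNReal.ofReal_ne_top)
      (ENNReal.pow_ne_top ENNReal.ofReal_ne_top))
  obtain ⟨C, hC, n0, hn0⟩ := tot_b h
  set g : ℕ → ℤ × ℤ → ℝ≥0∞ := fun i w => cq y z (fun _ => True) i w * 2 ^ i * 1000 ^ nrm w with hg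
  obtain ⟨S, hS⟩ : ∃ S : ℝ≥0∞, S = ∑' i, ∑' w, g i w := ⟨_, rfl⟩
  have hSt : S ≠ ⊤ := by
    rw [hS]
    exact cq_big h _
  refine ⟨S * (S * (40 ^ 10 * b⁻¹ * C)), ?_, n0, fun n hn hev m a hma => ?_⟩
  · refine ENNReal.mul_ne_top hSt (ENNReal.mul_ne_top hSt (ENNReal.mul_ne_top
      (ENNReal.mul_ne_top (ENNReal.pow_ne_top (by norm_num)) (ENNReal.inv_ne_top.2 hb0)) hC))
  obtain ⟨-, htot⟩ := hn0 n hn hev
  obtain ⟨D, hD⟩ : ∃ D : ℝ≥0∞, D = 40 ^ 10 * b⁻¹ * C * 2 ^ a * (sys y z).tot n := ⟨_, rfl⟩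
  -- the bound of one term
  have key : ∀ (i j k : ℕ) (w w' : ℤ × ℤ), i + (j + k) = m →
      cq y z (fun _ => True) i w * (KN y z j w w' * cq y z (fun _ => True) k w') ≤
        g i w * (g k w' * D) := by
    intro i j k w w' hm
    by_cases hi : cq y z (fun _ => True) i w = 0
    · rw [hi, zero_mul]
      exact zero_le
    by_cases hk : cq y z (fun _ => True) k w' = 0
    · rw [hk, mul_zero, mul_zero]
      exact zero_le
    have hw := cq_zero hi
    have hw' := cq_zero hk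
    have e1 : v0 + (w - v0) = w := by abel
    have e2 : w' + (v0 - w') = v0 := by abel
    have k1 := kn_pre h (v := v0) (u := w - v0) hv0 (by rw [e1]; exact hw) j w'
    have k2 := kn_app h (w := w') (u := v0 - w') hw' (by rw [e2]; exact hv0)
      (j + lam z (w - v0)) v0
    rw [e1] at k1
    rw [e2] at k2
    have k3 := kn_le_tot (y := y) (z := z) c0 (j + lam z (w - v0) + lam z (v0 - w'))
    have k4 : KN y z (j + lam z (w - v0) + lam z (v0 - w')) v0 v0 ≤
        b⁻¹ * (sys y z).tot (j + lam z (w - v0) + lam z (v0 - w') + 2 * l0.length) := by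
      have k5 : b * KN y z (j + lam z (w - v0) + lam z (v0 - w')) v0 v0 ≤
        (sys y z).tot (j + lam z (w - v0) + lam z (v0 - w') + 2 * l0.length) := k3
      calc KN y z (j + lam z (w - v0) + lam z (v0 - w')) v0 v0
          = b⁻¹ * (b * KN y z (j + lam z (w - v0) + lam z (v0 - w')) v0 v0) := by
            rw [← mul_assoc, ENNReal.inv_mul_cancel hb0 hbt, one_mul]
        _ ≤ _ := by gcongr
    have k6 := htot (j + lam z (w - v0) + lam z (v0 - w') + 2 * l0.length)
    have k7 : (2 : ℝ≥0∞) ^ (n - (j + lam z (w - v0) + lam z (v0 - w') + 2 * l0.length)) ≤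
        2 ^ a * 2 ^ i * 2 ^ k := by
      rw [← pow_add, ← pow_add]
      exact pow_le_pow_right₀ (by norm_num) (by omega)
    have n1 : nrm (w - v0) ≤ nrm w + 1 := by
      rw [hv0d]
      unfold nrm
      simp only [Prod.fst_sub, Prod.snd_sub]
      omega
    have n2 : nrm (v0 - w') ≤ nrm w' + 1 := by
      rw [hv0d]
      unfold nrm
      simp only [Prod.fst_sub, Prod.snd_sub]
      omega
    have k8 : (40 : ℝ≥0∞) ^ mm (w - v0) * 40 ^ mm (v0 - w') ≤
        40 ^ 10 * (1000 ^ nrm w * 1000 ^ nrm w') := by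
      calc (40 : ℝ≥0∞) ^ mm (w - v0) * 40 ^ mm (v0 - w')
          ≤ 40 ^ (nrm w + 5) * 40 ^ (nrm w' + 5) :=
            mul_le_mul' (pow_le_pow_right₀ (by norm_num) (by unfold mm; omega))
              (pow_le_pow_right₀ (by norm_num) (by unfold mm; omega))
        _ = 40 ^ 10 * (40 ^ nrm w * 40 ^ nrm w') := by
            rw [pow_add, pow_add]
            ring
        _ ≤ _ := by
            gcongr <;> norm_num
    calc cq y z (fun _ => True) i w * (KN y z j w w' * cq y z (fun _ => True) k w')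
        ≤ cq y z (fun _ => True) i w * ((40 ^ mm (w - v0) * (40 ^ mm (v0 - w') * (b⁻¹ *
            (C * (2 ^ a * 2 ^ i * 2 ^ k) * (sys y z).tot n)))) * cq y z (fun _ => True) k w') := by
          gcongr
          refine k1.trans ?_
          gcongr
          refine k2.trans ?_
          gcongr
          refine k4.trans ?_
          gcongr
          refine k6.trans ?_
          gcongr
      _ = cq y z (fun _ => True) i w * 2 ^ i * (cq y z (fun _ => True) k w' * 2 ^ k *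
            ((40 ^ mm (w - v0) * 40 ^ mm (v0 - w')) * (b⁻¹ * C * 2 ^ a * (sys y z).tot n))) := by
          ring
      _ ≤ cq y z (fun _ => True) i w * 2 ^ i * (cq y z (fun _ => True) k w' * 2 ^ k *
            ((40 ^ 10 * (1000 ^ nrm w * 1000 ^ nrm w')) *
              (b⁻¹ * C * 2 ^ a * (sys y z).tot n))) := by
          gcongr
      _ = g i w * (g k w' * D) := by
          simp only [hg, hD]
          ring
  have hin : ∀ q : ℕ, ∑' w' : ℤ × ℤ, ∑ p ∈ Finset.HasAntidiagonal.antidiagonal q, g p.2 w' ≤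
      S := by
    intro q
    rw [hS, ENNReal.tsum_comm]
    exact ENNReal.tsum_le_tsum fun w' => sum_snd (fun k => g k w') q
  have hout : ∑' w : ℤ × ℤ, ∑ p ∈ Finset.HasAntidiagonal.antidiagonal m, g p.1 w ≤ S := by
    rw [hS, ENNReal.tsum_comm]
    exact ENNReal.tsum_le_tsum fun w => sum_fst (fun k => g k w) m
  have hterm : ∀ w : ℤ × ℤ, ∀ p ∈ Finset.HasAntidiagonal.antidiagonal m,
      cq y z (fun _ => True) p.1 w * FC y z (cN y z (cq y z fun _ => True) []) p.2 w ≤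
        g p.1 w * (S * D) := by
    intro w p hp
    have hp' : p.1 + p.2 = m := Finset.HasAntidiagonal.mem_antidiagonal.1 hp
    have f1 : FC y z (cN y z (cq y z fun _ => True) []) p.2 w =
        ∑' w' : ℤ × ℤ, ∑ r ∈ Finset.HasAntidiagonal.antidiagonal p.2,
          KN y z r.1 w w' * cq y z (fun _ => True) r.2 w' := rfl
    rw [f1, ← ENNReal.tsum_mul_left]
    calc ∑' w' : ℤ × ℤ, cq y z (fun _ => True) p.1 w *
          ∑ r ∈ Finset.HasAntidiagonal.antidiagonal p.2,
            KN y z r.1 w w' * cq y z (fun _ => True) r.2 w'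
        ≤ ∑' w' : ℤ × ℤ, g p.1 w * ((∑ r ∈ Finset.HasAntidiagonal.antidiagonal p.2,
            g r.2 w') * D) := by
          refine ENNReal.tsum_le_tsum fun w' => ?_
          rw [Finset.mul_sum, Finset.sum_mul, Finset.mul_sum]
          refine Finset.sum_le_sum fun r hr => ?_
          have hr' : r.1 + r.2 = p.2 := Finset.HasAntidiagonal.mem_antidiagonal.1 hr
          exact key p.1 r.1 r.2 w w' (by omega)
      _ = g p.1 w * ((∑' w' : ℤ × ℤ, ∑ r ∈ Finset.HasAntidiagonal.antidiagonal p.2,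
            g r.2 w') * D) := by
          rw [ENNReal.tsum_mul_left, ENNReal.tsum_mul_right]
      _ ≤ _ := by
          gcongr
          exact hin p.2
  calc TQ y z (fun _ => True) [] m
      ≤ ∑' w : ℤ × ℤ, ∑ p ∈ Finset.HasAntidiagonal.antidiagonal m, g p.1 w * (S * D) := by
        unfold TQ
        exact ENNReal.tsum_le_tsum fun w => Finset.sum_le_sum (hterm w)
    _ = (∑' w : ℤ × ℤ, ∑ p ∈ Finset.HasAntidiagonal.antidiagonal m, g p.1 w) * (S * D) := by
        rw [← ENNReal.tsum_mul_right]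
        exact tsum_congr fun w => (Finset.sum_mul _ _ _).symm
    _ ≤ S * (S * D) := by
        gcongr
    _ = _ := by
        rw [hD]
        ring

end Pool.Agent.KComp
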