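import Pool.Agent.KComp.Basic
import Pool.Agent.KCls.Glue

/-! KC5: lower halves as chains of blocks on a cap.

PROOF. As `exists_lu_equiv` in `KAmp/Gl.lean`, for all lower halves instead of the unknotted
ones: use `KCls.glu_half`, `glu_inj`, `glu_surj`, `wl_glu`, `length_glu` (`KCls/Glue.lean`)
for the class
`T = fun _ => True` (`KCls.cls_all`), with the translations
`HalfT (fun _ => True) n v l ↔ (0 : ℤ × ℤ) ≠ v ∧ Lower 0 0 v l ∧ nsec l = n` (for `→` forget;
for `←` there is an unknotted upper half over `v` (`exists_flat` and `flp`), and `exists_lowClose`),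
`ValidT (fun _ => True) v π ↔ Geo v π` (`UnkT`: `exists_flat`, `Geo.block`). The map is
`(h, s) ↦ gl h.1 h.2.1 s`; injective: induction on `s` from the top with `glu_inj` (the numbers of
sections `nsec` agree, so the chains have the same length); surjective: induction on `nsec` with
`glu_surj`. -/

set_option autoImplicit false

open Pool.Agent.LK
open scoped ENNReal

namespace Pool.Agent.KComp

open Pool.Agent.KTube Pool.Agent.KRing Pool.Agent.KLog
open Pool.Agent.KAsym (ln)
open Pool.Agent.KAmp (gl)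
open Pool.Agent.KTop (GC UC ed ed_nil ed_cons ed_append gc_append gl_append)
open Pool.Agent.KCls (HalfT ValidT UnkT LT LowT Cls cls_all Flat)

variable {y z : ℝ}

private theorem lt_true {k : ℤ} {a b : ℤ × ℤ} {l : List P3} (hab : a ≠ b) (hl : Lower k a b l) :
    LT (fun _ => True) k a b l := by
  obtain ⟨r, hr⟩ := exists_UU' (k := k) hab
  obtain ⟨C, hC⟩ := exists_lowClose (ring_of hab hr.2.1 hl).isPolygon
    (isTwo_ring_of hab hr.2.1 hl)
  exact ⟨hab, hl, r, hr.2.1, C, hC, trivial⟩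

private theorem halfT_iff {n : ℕ} {v : ℤ × ℤ} {l : List P3} :
    HalfT (fun _ => True) n v l ↔ (0 : ℤ × ℤ) ≠ v ∧ Lower 0 0 v l ∧ nsec l = n := by
  constructor
  · rintro ⟨h1, h2⟩
    exact ⟨h1.1, h1.2.1, h2⟩
  · rintro ⟨h1, h2, h3⟩
    exact ⟨lt_true h1 h2, h3⟩

private theorem validT_iff {v : ℤ × ℤ} {π : PP} : ValidT (fun _ => True) v π ↔ Geo v π := by
  constructor
  · exact fun h => h.1
  · intro hg
    obtain ⟨l, hl, -⟩ := exists_flat hg.ne
    exact ⟨hg, l, hl, lt_true hg.ne' (hg.block.lower hl.2.1)⟩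

private theorem glu_half' {n : ℕ} {v : ℤ × ℤ} {l : List P3} {π : PP}
    (hl : HalfT (fun _ => True) n v l) (hπ : Geo v π) :
    HalfT (fun _ => True) (n + 1) (v + dsp π) (glu v l π) :=
  KCls.glu_half cls_all hl (validT_iff.2 hπ)

private theorem gl_halfT {s : List PP} {n : ℕ} {v : ℤ × ℤ} {l : List P3}
    (hl : HalfT (fun _ => True) n v l) (hs : GC v s) :
    HalfT (fun _ => True) (n + s.length) (ed v s) (gl v l s) := by
  induction s generalizing n v l with
  | nil =>
    rw [ed_nil]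
    exact hl
  | cons π s ih =>
    rw [ed_cons]
    have h := ih (glu_half' hl hs.1) hs.2
    rw [List.length_cons, Nat.add_comm s.length 1, ← Nat.add_assoc]
    exact h

private theorem length_glT {s : List PP} {n : ℕ} {v : ℤ × ℤ} {l : List P3}
    (hl : HalfT (fun _ => True) n v l) (hs : GC v s) :
    (gl v l s).length = l.length + (s.map ln).sum := by
  induction s generalizing n v l with
  | nil => simp [gl]
  | cons π s ih =>
    have h := ih (glu_half' hl hs.1) hs.2
    have h1 : gl v l (π :: s) = gl (v + dsp π) (glu v l π) s := rfl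
    rw [h1, h, KCls.length_glu hl (validT_iff.2 hs.1), List.map_cons, List.sum_cons,
      Nat.add_assoc]
    rfl

private theorem wl_glT {s : List PP} {n : ℕ} {v : ℤ × ℤ} {l : List P3}
    (hl : HalfT (fun _ => True) n v l) (hs : GC v s) (a b : ℝ≥0∞) :
    wl a b (gl v l s) = wl a b l * (s.map (wt a b)).prod := by
  induction s generalizing n v l with
  | nil => simp [gl]
  | cons π s ih =>
    have h := ih (glu_half' hl hs.1) hs.2
    have h1 : gl v l (π :: s) = gl (v + dsp π) (glu v l π) s := rfl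
    rw [h1, h, KCls.wl_glu hl (validT_iff.2 hs.1), List.map_cons, List.prod_cons, mul_assoc]

private theorem glT_inj {s s' : List PP} (hlen : s.length = s'.length) {n n' : ℕ} {v v' : ℤ × ℤ}
    {l l' : List P3} (hl : HalfT (fun _ => True) n v l) (hl' : HalfT (fun _ => True) n' v' l')
    (hs : GC v s) (hs' : GC v' s') (h : gl v l s = gl v' l' s') (he : ed v s = ed v' s') :
    v = v' ∧ l = l' ∧ s = s' := by
  induction s generalizing s' n n' v v' l l' with
  | nil =>
    have h0 : s' = [] := List.length_eq_zero_iff.1 hlen.symm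
    subst h0
    rw [ed_nil, ed_nil] at he
    exact ⟨he, h, rfl⟩
  | cons π s ih =>
    cases s' with
    | nil => simp at hlen
    | cons π' s' =>
      have hlen' : s.length = s'.length := by simpa using hlen
      rw [ed_cons, ed_cons] at he
      obtain ⟨_, h2, h3⟩ := ih hlen' (glu_half' hl hs.1) (glu_half' hl' hs'.1) hs.2 hs'.2 h he
      obtain ⟨h4, h5, h6⟩ := KCls.glu_inj hl (validT_iff.2 hs.1) hl' (validT_iff.2 hs'.1) h2
      exact ⟨h4, h5, by rw [h6, h3]⟩

private theorem glT_surj (n : ℕ) {w : ℤ × ℤ} {l' : List P3} (h : HalfT (fun _ => True) n w l') :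
    ∃ (v : ℤ × ℤ) (l : List P3) (s : List PP), HalfT (fun _ => True) 0 v l ∧ GC v s ∧
      ed v s = w ∧ gl v l s = l' := by
  induction n generalizing w l' with
  | zero => exact ⟨w, l', [], h, h.1.1.symm, ed_nil _, rfl⟩
  | succ n ih =>
    obtain ⟨v, l, π, hl, hπ, hw, hl'⟩ := KCls.glu_surj cls_all h
    obtain ⟨v₀, l₀, s, h1, h2, h3, h4⟩ := ih hl
    refine ⟨v₀, l₀, s ++ [π], h1, gc_append.2 ⟨h2, ?_⟩, ?_, ?_⟩
    · rw [h3]
      refine ⟨hπ.1, ?_⟩
      change v + dsp π ≠ 0
      rw [hw]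
      exact h.1.1.symm
    · rw [ed_append, h3, ed_cons, ed_nil]
      exact hw
    · rw [gl_append, h3, h4]
      exact hl'

/-- KC5. -/
theorem chain_a (v : ℤ × ℤ) : ∃ e : {x : HA × List PP // GC x.1.1 x.2 ∧ ed x.1.1 x.2 = v} ≃
    {l : List P3 // (0 : ℤ × ℤ) ≠ v ∧ Lower 0 0 v l}, ∀ x,
    (e x).1 = gl x.1.1.1 x.1.1.2.1 x.1.2 ∧
    (e x).1.length = x.1.1.2.1.length + (x.1.2.map ln).sum ∧
    ∀ y z : ℝ, wl (ENNReal.ofReal y) (ENNReal.ofReal z) (e x).1 = wc y z x.1.1 * ww y z x.1.2 := by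
  let f : {x : HA × List PP // GC x.1.1 x.2 ∧ ed x.1.1 x.2 = v} →
      {l : List P3 // (0 : ℤ × ℤ) ≠ v ∧ Lower 0 0 v l} := fun x =>
    ⟨gl x.1.1.1 x.1.1.2.1 x.1.2, by
      have h := gl_halfT (halfT_iff.2 x.1.1.2.2) x.2.1
      rw [x.2.2] at h
      exact ⟨h.1.1, h.1.2.1⟩⟩
  have hf : Function.Bijective f := by
    constructor
    · rintro ⟨⟨⟨v, ⟨l, hl⟩⟩, s⟩, hs, he⟩ ⟨⟨⟨v', ⟨l', hl'⟩⟩, s'⟩, hs', he'⟩ h
      have h1 : gl v l s = gl v' l' s' := congrArg Subtype.val h
      have hn := (gl_halfT (halfT_iff.2 hl) hs).2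
      have hn' := (gl_halfT (halfT_iff.2 hl') hs').2
      have hlen : s.length = s'.length := by
        have h5 : nsec (gl v l s) = nsec (gl v' l' s') := congrArg nsec h1
        have h6 : nsec (gl v l s) = 0 + s.length := hn
        have h7 : nsec (gl v' l' s') = 0 + s'.length := hn'
        omega
      obtain ⟨rfl, rfl, rfl⟩ := glT_inj hlen (halfT_iff.2 hl) (halfT_iff.2 hl') hs hs' h1
        (he.trans he'.symm)
      rfl
    · rintro ⟨l', h0, hl'⟩
      obtain ⟨v₀, l, s, h1, h2, h3, h4⟩ := glT_surj (nsec l') (halfT_iff.2 ⟨h0, hl', rfl⟩)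
      exact ⟨⟨⟨⟨v₀, ⟨l, halfT_iff.1 h1⟩⟩, s⟩, h2, h3⟩, Subtype.ext h4⟩
  refine ⟨Equiv.ofBijective f hf, fun x => ⟨rfl, ?_, fun y z => ?_⟩⟩
  · exact length_glT (halfT_iff.2 x.1.1.2.2) x.2.1
  · exact wl_glT (halfT_iff.2 x.1.1.2.2) x.2.1 _ _

end Pool.Agent.KComp
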