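import Pool.Agent.KComp.Basic
import Pool.Agent.KRing.Few

/-! KC2: a polygon with at most `N` prime factors has at most `N` knotted blocks and caps.

PROOF. CLAIM: let `l` be a lower half over `v` (`Lower 0 0 v l`), `GC v s`, and let `U` be an unknotted
upper half over `ed v s` (`UU 0 0 (ed v s) U`). If `Few N (ring (U ++ gl v l s))` then
`(mk v s).length + (if LU 0 0 v l then 0 else 1) ≤ N`. Induction on `s` from the top
(`List.reverseRecOn`, i.e. `s = t ++ [π]`), for all `N` and `U`.
`s = []`: if `l` is knotted then the polygon is knotted (the polygon `ring (U ++ l)` is unknotted iff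
`UU .. U` and `LU .. l`: `unk_iff`-type lemmas, see `KAmp/Cls.lean`, `KLog/Caps.lean`,
`KRing/Close.lean`), so `N ≠ 0` (`Few 0` is `Unknotted`).
`s = t ++ [π]`, `w = ed v t`, `L = gl v l t`, `gl v l s = glu w L π` (`KTop.gl_append`). By `KTop.pull` for
the chain `[π]` (from `w`) there is an upper half `U'` over `w` with
`ring (U ++ glu w L' π) = shift _ (ring (U' ++ L'))` for all `L'`, and `U'` is unknotted if `π` is
(`KTop.UC w [π]`). `Few` is closed under `SameType` (`KRing.typeClosed_few`), so
`Few N (ring (U' ++ L))`. If `π` is unknotted: induction with `U'`. If `π` is knotted then `U'` is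
knotted: otherwise, with an unknotted lower half `l0` over `w` (`exists_flat`), the polygon
`ring (U' ++ l0)` and so also `ring (U ++ glu w l0 π)` would be unknotted, so `glu w l0 π` would be an
unknotted lower half, and `π` would be unknotted (`unk_lu` in `KLog`, definition of `Unk`; translate).
So the polygon is knotted, `N = M + 1`, and it is not `UppU` at the plane `0` (`UppU` of
`ring (U' ++ L)` would give `UU 0 0 w U'`); `KRing.passes_few M` gives `LC (Few M) 0 0 w L`: an
unknotted upper half `r0` over `w` with `Few M (ring (r0 ++ L))` (definition of `LC` in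
`KRing/Class.lean`): induction with `M`, `r0` (`mk_append`).
THEOREM. The top cap `r`: `flp r` is an upper half over its displacement. If it is unknotted
(`UU_flp`, `LU_flp`-lemmas of `KLog/Flip.lean`) then the claim. If not, the polygon `pol x` is knotted,
`N = M + 1`, and `passes_few M` gives an unknotted upper half `r0` with
`Few M (ring (r0 ++ gl ..))`: the claim with `M`. -/

set_option autoImplicit false

open Pool.Agent.LK
open scoped ENNReal

namespace Pool.Agent.KComp

open Pool.Agent.KTube Pool.Agent.KRing Pool.Agent.KLog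
open Pool.Agent.KAmp (gl)
open Pool.Agent.KTop (GC UC ed ed_nil ed_cons ed_append gl_append gc_append lower_gl lower_glu pull)

private theorem ct_csh_a (π : PP) :
    csh (π.1.sum.1, π.1.sum.2.1, hgt π) 0 = hz π.1.sum := by
  refine Prod.ext ?_ ?_
  · simp [csh, hz]
  · simp [csh, hz]

private theorem ct_csh_b (v : ℤ × ℤ) (π : PP) :
    csh (π.1.sum.1, π.1.sum.2.1, hgt π) (v + dsp π) = v + hz π.2.sum := by
  refine Prod.ext ?_ ?_
  · simp only [csh, hz, dsp, Prod.fst_add, Prod.fst_sub]; ring
  · simp only [csh, hz, dsp, Prod.snd_add, Prod.snd_sub]; ring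

/-- A block is unknotted if it forms an unknotted half with an unknotted half. -/
private theorem ct_unk {v : ℤ × ℤ} {l : List P3} {π : PP} (hg : Geo v π) (hl : Lower 0 0 v l)
    (h : LU 0 0 (v + dsp π) (glu v l π)) : Unk v π := by
  have h1 := h.shift (π.1.sum.1, π.1.sum.2.1, hgt π)
  have e0 : (0 : ℤ) + ((π.1.sum.1, π.1.sum.2.1, hgt π) : P3).2.2 = hgt π := by simp
  have e1 : (glu v l π).map (· + (π.1.sum.1, π.1.sum.2.1, hgt π)) =
      sdB v π ++ (l ++ sdA π) := by
    unfold glu
    rw [List.map_map]
    conv_rhs => rw [← List.map_id (sdB v π ++ (l ++ sdA π))]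
    refine List.map_congr_left fun x _ => ?_
    ext <;> simp
  rw [e0, e1, ct_csh_a, ct_csh_b] at h1
  exact ((unk_lu hg hl).1 h1).2

/-- A knotted upper half uses one prime factor. -/
private theorem ct_pass {N : ℕ} {v : ℤ × ℤ} {r l : List P3} (hv : v ≠ 0) (hr : Upper 0 0 v r)
    (hl : Lower 0 0 v l) (hF : KTen.Few N (ring (r ++ l))) (hU : ¬ UU 0 0 v r) :
    ∃ M r0, N = M + 1 ∧ UU 0 0 v r0 ∧ KTen.Few M (ring (r0 ++ l)) := by
  have hne : (0 : ℤ × ℤ) ≠ v := hv.symm
  have hup : ¬ UppU (ring (r ++ l)) 0 := fun h => hU ⟨hne, hr, l, hl, h⟩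
  rcases N with _ | M
  · exfalso
    exact hup ((unknotted_iff (ring_of hne hr hl).isPolygon (isTwo_ring_of hne hr hl)).1 hF).2
  · obtain ⟨-, r0, h0, h1⟩ := passes_few M 0 0 v r l hne hr hl hF hup
    exact ⟨M, r0, rfl, h0, h1⟩

open Classical in
private theorem ct_claim {v : ℤ × ℤ} {l : List P3} (hl : Lower 0 0 v l) (s : List PP) :
    ∀ (N : ℕ) (U : List P3), GC v s → UU 0 0 (ed v s) U → KTen.Few N (ring (U ++ gl v l s)) →
      (mk v s).length + (if LU 0 0 v l then 0 else 1) ≤ N := by
  induction s using List.reverseRecOn with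
  | nil =>
    intro N U _ hU hF
    rw [ed_nil] at hU
    have e : (mk v []).length = 0 := rfl
    rw [e]
    split_ifs with h
    · omega
    · rcases N with _ | N
      · exact absurd ((lu_iff hU hl).2 hF) h
      · omega
  | append_singleton t π ih =>
    intro N U hs hU hF
    rw [gc_append] at hs
    obtain ⟨ht, hπ⟩ := hs
    have hL := lower_gl ht hl
    rw [ed_append] at hU
    rw [gl_append] at hF
    obtain ⟨U', τ, hU', hp, hpu⟩ := pull hπ hU.2.1
    rw [hp _ hL] at hF
    have hF' := typeClosed_few N _ _ (sameType_shift τ _).symm hF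
    rw [mk_append, List.length_append]
    by_cases hu : Unk (ed v t) π
    · have h1 := ih N U' ht (hpu ⟨⟨hπ.1, hu⟩, hπ.2⟩ hU) hF'
      have e : mk (ed v t) [π] = [] := by rw [mk_cons, if_pos hu]; rfl
      rw [e, List.length_nil]
      omega
    · have hU'' : ¬ UU 0 0 (ed v t) U' := by
        intro h
        apply hu
        obtain ⟨l0, hl0, -⟩ := exists_flat hπ.1.ne
        have h1 := unknotted_halves h hl0
        have h2 := (sameType_shift τ (ring (U' ++ l0))).symm.unknotted h1
        rw [← hp l0 hl0.2.1] at h2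
        rw [ed_cons, ed_nil] at hU
        exact ct_unk hπ.1 hl0.2.1 ((lu_iff hU (lower_glu hπ.1 hl0.2.1)).2 h2)
      obtain ⟨M, r0, rfl, h0, h1⟩ := ct_pass hπ.1.ne hU' hL hF' hU''
      have h2 := ih M r0 ht h0 h1
      have e : mk (ed v t) [π] = [(ed v t, π)] := by rw [mk_cons, if_neg hu]; rfl
      rw [e, List.length_singleton]
      omega

open Classical in
/-- KC2. -/
theorem count_le {N : ℕ} (x : CA) (h : KTen.Few N (pol x)) :
    (mkA x).length + (if UH x.1.1 then 0 else 1) + (if UH x.1.2.2 then 0 else 1) ≤ N := by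
  have hl := x.1.1.2.2.2.1
  have hr := upper_flp x.1.2.2.2.2.2.1
  have hs := x.2.1
  have he := x.2.2
  have hL := lower_gl hs hl
  rw [he] at hL
  by_cases hU : UH x.1.2.2
  · rw [if_pos hU, add_zero]
    have h1 : UU 0 0 (ed x.1.1.1 x.1.2.1) (flp x.1.2.2.2.1) := by
      rw [he]
      exact UU_flp hU
    exact ct_claim hl _ N _ hs h1 h
  · rw [if_neg hU]
    have h1 : ¬ UU 0 0 x.1.2.2.1 (flp x.1.2.2.2.1) := by
      intro h2
      apply hU
      have h3 := LU_flp h2
      rwa [flp_flp] at h3
    obtain ⟨M, r0, rfl, h0, h2⟩ := ct_pass x.1.2.2.2.2.1.symm hr hL h h1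
    rw [← he] at h0
    have h3 := ct_claim hl _ M _ hs h0 h2
    have h4 : (mkA x).length + (if UH x.1.1 then 0 else 1) ≤ M := h3
    omega

end Pool.Agent.KComp
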