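import Pool.Agent.KComp.Basic
import Pool.Agent.KCls.Cut

/-! KC4: cutting an arbitrary polygon at its highest section with two edges.

PROOF. This is `KCls.cut_bij` for the class of all polygons (`KCls.cls_all`), for all numbers of
sections together, with the additional statement that the polygon is the translate of
`ring (flp r ++ l)`. Copy the proof (`KCls/Cut.lean`: `jn_*`, `jn_inj`, `cb_exists`, `cut_bij`; these are
about `HalfT T n v l = LT T 0 0 v l ∧ nsec l = n`), without `T` (`LT`, `UT` become `Lower`, `Upper`) and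
without the condition on the number of sections of `l`: `φ p = (shift (t p) (ring (flp r ++ l)), lx v)`,
`lx` the lexicographic sign of the displacement; it is injective since the highest section with two
edges and (by the sign) the order of the two columns are determined (`jn_inj`), and surjective
(`cb_exists`: take the highest `k₀` with `IsTwo E k₀`; the set of the sections with two edges is finite
and not empty). `card`: `jn_card`; `span`: `jn_span`. The statement with `t` is the definition of `φ`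
(with `shift_shift`, `shift_zero`). Alternatively make the private lemmas of `KCls/Cut.lean` usable by
working with `T = fun _ => True` there (`LT (fun _ => True) 0 0 v l ↔ 0 ≠ v ∧ Lower 0 0 v l`:
an upper half exists, `exists_lowClose`), in a local copy. -/

set_option autoImplicit false

open Pool.Agent.LK
open scoped ENNReal

namespace Pool.Agent.KComp

open Pool.Agent.KTube Pool.Agent.KRing Pool.Agent.KLog
open Pool.Agent.KCls (Flat)
open Pool.Agent.LatticeTube (pedges)

/-- is the vector lexicographically positive? -/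
private def lx (v : ℤ × ℤ) : Bool := decide (0 < v.1 ∨ (v.1 = 0 ∧ 0 < v.2))

private theorem lx_neg {v w : ℤ × ℤ} (hv : (0 : ℤ × ℤ) ≠ v) (h : v + w = 0)
    (he : lx v = lx w) : False := by
  have h1 : v.1 + w.1 = 0 := congrArg Prod.fst h
  have h2 : v.2 + w.2 = 0 := congrArg Prod.snd h
  have h3 : ¬ (v.1 = 0 ∧ v.2 = 0) := fun h => hv (Prod.ext h.1.symm h.2.symm)
  unfold lx at he
  rw [decide_eq_decide] at he
  omega

private theorem cb_shift_iff (t : P3) (E : Finset (Sym2 P3)) (j : ℤ) :
    IsTwo (LK.shift t E) j ↔ IsTwo E (j - t.2.2) := by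
  unfold IsTwo
  rw [ncard_cross_shift']

private theorem cb_ncard_shift (t : P3) (E : Finset (Sym2 P3)) :
    {k : ℤ | IsTwo (LK.shift t E) k}.ncard = {k : ℤ | IsTwo E k}.ncard := by
  have h : {k : ℤ | IsTwo (LK.shift t E) k} = (fun j => j + t.2.2) '' {k : ℤ | IsTwo E k} := by
    ext j
    rw [Set.mem_image]
    constructor
    · intro h
      exact ⟨j - t.2.2, (cb_shift_iff _ _ _).1 h, by ring⟩
    · rintro ⟨i, hi, rfl⟩
      exact (cb_shift_iff _ _ _).2 (by rwa [add_sub_cancel_right])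
  rw [h]
  exact Set.ncard_image_of_injective _ (add_left_injective _)

private theorem cb_finite (l : List P3) : {j : ℤ | {c | leg c j ∈ pedges l}.ncard = 2}.Finite := by
  refine (planes_finite' l).subset fun j hj => ?_
  obtain ⟨c, hc⟩ : {c | leg c j ∈ pedges l}.Nonempty := by
    rw [Set.nonempty_iff_ne_empty]
    intro h
    have hj' : {c | leg c j ∈ pedges l}.ncard = 2 := hj
    rw [h, Set.ncard_empty] at hj'
    omega
  exact ⟨c, hc⟩

private theorem cb_upp {v : ℤ × ℤ} {r : List P3} (hr : Upper 0 0 v r) {j : ℤ}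
    (hj : {c | leg c j ∈ pedges r}.ncard = 2) : 0 < j := by
  obtain ⟨c, hc⟩ : {c | leg c j ∈ pedges r}.Nonempty := by
    rw [Set.nonempty_iff_ne_empty]
    intro h
    rw [h, Set.ncard_empty] at hj
    omega
  have := (pedges_lev hr.lev hc).1
  simp only at this
  omega

private theorem cb_isTwo_upp {v : ℤ × ℤ} {r l : List P3} (hr : Upper 0 0 v r)
    (hl : Lower 0 0 v l) {j : ℤ} (hj : 0 < j) :
    IsTwo (ring (r ++ l)) j ↔ {c | leg c j ∈ pedges r}.ncard = 2 := by
  have h1 : cross (ring (r ++ l)) j = {c | leg c j ∈ pedges r} := by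
    ext c
    exact cross_ring_upp hr hl hj
  unfold IsTwo
  rw [h1]

/-- The upper half has no section with two edges iff the joint is the highest one. -/
private theorem cb_nsec_zero {v : ℤ × ℤ} {r l : List P3} (hr : Upper 0 0 v r)
    (hl : Lower 0 0 v l) : nsec r = 0 ↔ ∀ j : ℤ, 0 < j → ¬ IsTwo (ring (r ++ l)) j := by
  unfold nsec
  rw [Set.ncard_eq_zero (cb_finite r), Set.eq_empty_iff_forall_notMem]
  constructor
  · intro h j hj h1
    exact h j ((cb_isTwo_upp hr hl hj).1 h1)
  · intro h j hj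
    have h3 := cb_upp hr hj
    exact h j h3 ((cb_isTwo_upp hr hl h3).2 hj)


/-- The triples of a displacement, a lower half and a cap. -/
private abbrev Tr : Type :=
  Σ v : ℤ × ℤ, {l // (0 : ℤ × ℤ) ≠ v ∧ Lower 0 0 v l} × {r // Flat v r}

private def jn (p : Tr) : Finset (Sym2 P3) := ring (flp p.2.2.1 ++ p.2.1.1)

private theorem jn_ne (p : Tr) : (0 : ℤ × ℤ) ≠ p.1 := p.2.1.2.1

private theorem jn_upper (p : Tr) : Upper 0 0 p.1 (flp p.2.2.1) := upper_flp p.2.2.2.2.1

private theorem jn_lower (p : Tr) : Lower 0 0 p.1 p.2.1.1 := p.2.1.2.2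

private theorem jn_poly (p : Tr) : IsPolygon (jn p) :=
  (ring_of (jn_ne p) (jn_upper p) (jn_lower p)).isPolygon

private theorem jn_isTwo (p : Tr) : IsTwo (jn p) 0 :=
  isTwo_ring_of (jn_ne p) (jn_upper p) (jn_lower p)

private theorem jn_top (p : Tr) : ∀ j : ℤ, 0 < j → ¬ IsTwo (jn p) j :=
  (cb_nsec_zero (jn_upper p) (jn_lower p)).1 (by rw [nsec_flp]; exact p.2.2.2.2.2)

private theorem jn_card (p : Tr) : (jn p).card = p.2.1.1.length + p.2.2.1.length := by
  unfold jn
  rw [(ring_of (jn_ne p) (jn_upper p) (jn_lower p)).card_eq, List.length_append, length_flp,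
    add_comm]

private theorem jn_span (p : Tr) : span (jn p) = lspan p.2.1.1 + lspan p.2.2.1 + 1 := by
  unfold jn
  rw [span_ring (jn_upper p) (jn_lower p), lspan_flp]

/-- The joint is the highest section. -/
private theorem cb_joint {E F : Finset (Sym2 P3)} {s : P3} (h : shift s E = F)
    (hE0 : IsTwo E 0) (hF0 : IsTwo F 0) (hE : ∀ j : ℤ, 0 < j → ¬ IsTwo E j)
    (hF : ∀ j : ℤ, 0 < j → ¬ IsTwo F j) : s.2.2 = 0 := by
  set m := s.2.2 with hm
  have h1 : ∀ j, IsTwo F j ↔ IsTwo E (j - m) := by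
    intro j
    rw [← h]
    exact cb_shift_iff s E j
  rcases lt_trichotomy m 0 with hlt | heq | hgt
  · exact absurd ((h1 0).1 hF0) (hE _ (by omega))
  · exact heq
  · exact absurd ((h1 m).2 (by rwa [sub_self])) (hF _ hgt)

private theorem jn_inj {p q : Tr} {s t : P3} (h : shift s (jn p) = shift t (jn q))
    (hb : lx p.1 = lx q.1) : p = q := by
  have h1 : shift (-t + s) (jn p) = jn q := by
    rw [← shift_shift, h, shift_shift, neg_add_cancel, shift_zero]
  set d := -t + s with hd
  have hz : d.2.2 = 0 := cb_joint h1 (jn_isTwo p) (jn_isTwo q) (jn_top p) (jn_top q)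
  have hc : ∀ c : ℤ × ℤ, c ∈ cross (jn q) 0 ↔ (c.1 - d.1, c.2 - d.2.1) ∈ cross (jn p) 0 := by
    intro c
    rw [← h1, cross_shift', hz, sub_zero]
  have hp : cross (jn p) 0 = {0, p.1} := cross_ring_of (jn_upper p) (jn_lower p)
  have hq : cross (jn q) 0 = {0, q.1} := cross_ring_of (jn_upper q) (jn_lower q)
  have e1 : (0 : ℤ × ℤ) = (0 - d.1, 0 - d.2.1) ∨ p.1 = (0 - d.1, 0 - d.2.1) := by
    have := (hc 0).1 (by rw [hq]; exact Set.mem_insert _ _)
    rw [hp, Set.mem_insert_iff, Set.mem_singleton_iff] at this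
    exact this.imp Eq.symm Eq.symm
  have e2 : (0 : ℤ × ℤ) = (q.1.1 - d.1, q.1.2 - d.2.1) ∨ p.1 = (q.1.1 - d.1, q.1.2 - d.2.1) := by
    have := (hc q.1).1 (by rw [hq]; exact Set.mem_insert_of_mem _ rfl)
    rw [hp, Set.mem_insert_iff, Set.mem_singleton_iff] at this
    exact this.imp Eq.symm Eq.symm
  have hq0 := jn_ne q
  have hp0 := jn_ne p
  have hd0 : d = 0 ∧ p.1 = q.1 := by
    rcases e1 with e1 | e1
    · have a1 : d.1 = 0 := by have := congrArg Prod.fst e1; simp only [Prod.fst_zero] at this; omega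
      have a2 : d.2.1 = 0 := by
        have := congrArg Prod.snd e1; simp only [Prod.snd_zero] at this; omega
      refine ⟨Prod.ext a1 (Prod.ext a2 hz), ?_⟩
      rw [a1, a2, sub_zero, sub_zero] at e2
      rcases e2 with e2 | e2
      · exact absurd e2 hq0
      · exact e2
    · exfalso
      rcases e2 with e2 | e2
      · refine lx_neg hp0 (w := q.1) ?_ hb
        rw [e1]
        have b1 := congrArg Prod.fst e2
        have b2 := congrArg Prod.snd e2
        simp only [Prod.fst_zero, Prod.snd_zero] at b1 b2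
        refine Prod.ext ?_ ?_
        · simp only [Prod.fst_add, Prod.fst_zero]
          omega
        · simp only [Prod.snd_add, Prod.snd_zero]
          omega
      · apply hq0
        have b1 := congrArg Prod.fst (e1.symm.trans e2)
        have b2 := congrArg Prod.snd (e1.symm.trans e2)
        simp only at b1 b2
        exact Prod.ext (by simp only [Prod.fst_zero]; omega) (by simp only [Prod.snd_zero]; omega)
  obtain ⟨hd1, hpq⟩ := hd0
  rw [hd1, shift_zero] at h1
  obtain ⟨v, l, l2⟩ := p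
  obtain ⟨w, m, m2⟩ := q
  simp only at hpq
  subst hpq
  obtain ⟨-, h2, h3⟩ := halves_unique (jn_ne ⟨v, l, l2⟩) (jn_ne ⟨v, m, m2⟩)
    (jn_upper ⟨v, l, l2⟩) (jn_lower ⟨v, l, l2⟩) (jn_upper ⟨v, m, m2⟩) (jn_lower ⟨v, m, m2⟩) h1
  have h4 : l = m := Subtype.ext h3
  have h5 : l2 = m2 := by
    apply Subtype.ext
    have := congrArg flp h2
    rwa [flp_flp, flp_flp] at this
  rw [h4, h5]

private theorem cb_fin {E : Finset (Sym2 P3)} (hE : IsPolygon E) {k : ℤ} (hk : IsTwo E k) :
    {k : ℤ | IsTwo E k}.Finite := by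
  obtain ⟨a, ha⟩ : (cross E k).Nonempty := by
    rw [Set.nonempty_iff_ne_empty]
    intro h
    unfold IsTwo at hk
    rw [h, Set.ncard_empty] at hk
    omega
  set t : P3 := (-a.1, -a.2, -k) with ht
  have hE' : IsPolygon (LK.shift t E) := isPolygon_shift hE t
  have hk0 : (0 : ℤ) - t.2.2 = k := by simp [ht]
  have h2' : IsTwo (LK.shift t E) 0 := by
    rw [cb_shift_iff, hk0]
    exact hk
  have ha' : (0 : ℤ × ℤ) ∈ cross (LK.shift t E) 0 := by
    rw [cross_shift']
    have h3 : (((0 : ℤ × ℤ).1 - t.1, (0 : ℤ × ℤ).2 - t.2.1) : ℤ × ℤ) = a := by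
      simp [ht]
    rw [hk0, h3]
    exact ha
  obtain ⟨v, r, l, hb, hr, hl, hrl⟩ := exists_halves hE' h2' ha'
  have h3 := ncard_two_ring hb hr hl
  rw [hrl, cb_ncard_shift] at h3
  exact Set.finite_of_ncard_ne_zero (by omega)

/-- The two halves at the highest section, with the given sign of the displacement. -/
private theorem cb_exists {E : Finset (Sym2 P3)} (hE : IsPolygon E) (hex : ∃ k, IsTwo E k)
    (b : Bool) : ∃ (p : Tr) (t : P3), LK.shift t E = jn p ∧ lx p.1 = b := by
  obtain ⟨k, hk⟩ := hex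
  have hfin : {k : ℤ | IsTwo E k}.Finite := cb_fin hE hk
  have hne : {k : ℤ | IsTwo E k}.Nonempty := ⟨k, hk⟩
  obtain ⟨k₀, hk₀, hmax⟩ := Set.exists_max_image _ id hfin hne
  -- the two columns, the first one being the one with the right sign
  obtain ⟨a, a', haa, hcr, hsgn⟩ : ∃ a a' : ℤ × ℤ, a ≠ a' ∧ cross E k₀ = {a, a'} ∧
      lx (a' - a) = b := by
    have h1 : (cross E k₀).ncard = 2 := hk₀
    obtain ⟨a, a', haa, hcr⟩ := Set.ncard_eq_two.1 h1
    by_cases hb : lx (a' - a) = b
    · exact ⟨a, a', haa, hcr, hb⟩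
    · refine ⟨a', a, haa.symm, by rw [hcr, Set.pair_comm], ?_⟩
      by_contra hb'
      have h2 : lx (a' - a) = lx (a - a') := by
        cases h3 : lx (a' - a) <;> cases h4 : lx (a - a') <;> cases b <;> simp_all
      exact lx_neg (fun h => haa (sub_eq_zero.1 h.symm).symm) (by abel) h2
  have ha : a ∈ cross E k₀ := by
    rw [hcr]
    exact Set.mem_insert _ _
  set t : P3 := (-a.1, -a.2, -k₀) with ht
  have hE' : IsPolygon (LK.shift t E) := isPolygon_shift hE t
  have hk0 : (0 : ℤ) - t.2.2 = k₀ := by simp [ht]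
  have h2' : IsTwo (LK.shift t E) 0 := by
    rw [cb_shift_iff, hk0]
    exact hk₀
  have ha' : (0 : ℤ × ℤ) ∈ cross (LK.shift t E) 0 := by
    rw [cross_shift']
    have h3 : (((0 : ℤ × ℤ).1 - t.1, (0 : ℤ × ℤ).2 - t.2.1) : ℤ × ℤ) = a := by
      simp [ht]
    rw [hk0, h3]
    exact ha
  obtain ⟨v, r, l, hb, hr, hl, hrl⟩ := exists_halves hE' h2' ha'
  have hv : v = a' - a := by
    have h3 : v ∈ cross (LK.shift t E) 0 := by
      rw [← hrl, cross_ring_of hr hl]
      exact Set.mem_insert_of_mem _ rfl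
    rw [cross_shift', hk0, hcr] at h3
    have h4 : ((v.1 - t.1, v.2 - t.2.1) : ℤ × ℤ) = v + a := by
      simp only [ht]
      exact Prod.ext (by simp) (by simp)
    rw [h4] at h3
    rcases h3 with h3 | h3
    · exact absurd (add_eq_right.1 h3).symm hb
    · exact eq_sub_of_add_eq h3
  have hr0 : nsec r = 0 := by
    rw [cb_nsec_zero hr hl]
    intro j hj h4
    rw [hrl, cb_shift_iff] at h4
    have h5 := hmax _ h4
    simp only [id] at h5
    have h6 : t.2.2 = -k₀ := rfl
    omega
  refine ⟨⟨v, ⟨l, hb, hl⟩, ⟨flp r, hb, lower_flp hr, by rw [nsec_flp, hr0]⟩⟩, t, ?_, ?_⟩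
  · unfold jn
    simp only
    rw [flp_flp, hrl]
  · simp only
    rw [hv, hsgn]

/-- The polygons with `n` edges and a section with two edges, up to translation. -/
abbrev PA (n : ℕ) : Type :=
  {E : Finset (Sym2 P3) // IsPolygon E ∧ Normed E ∧ E.card = n ∧ ∃ k, IsTwo E k}

/-- Pairs of a lower half and a cap with the same displacement, with `n` points together. -/
abbrev TA (n : ℕ) : Type :=
  {p : Σ v : ℤ × ℤ, {l // (0 : ℤ × ℤ) ≠ v ∧ Lower 0 0 v l} × {r // Flat v r} //
    p.2.1.1.length + p.2.2.1.length = n}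

/-- KC4. -/
theorem cut_a (n : ℕ) : ∃ e : PA n × Bool ≃ TA n, ∀ x,
    (∃ t : P3, LK.shift t x.1.1 = ring (flp (e x).1.2.2.1 ++ (e x).1.2.1.1)) ∧
    span x.1.1 = lspan (e x).1.2.1.1 + lspan (e x).1.2.2.1 + 1 := by
  classical
  have hex : ∀ p : Tr, ∃ t : P3, Normed (shift t (jn p)) :=
    fun p => exists_normed (jn_poly p).verts_nonempty
  choose t ht using hex
  have htwo : ∀ p : Tr, ∃ k, IsTwo (shift (t p) (jn p)) k := fun p =>
    ⟨(t p).2.2, (cb_shift_iff _ _ _).2 (by rw [sub_self]; exact jn_isTwo p)⟩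
  let φ : TA n → PA n × Bool := fun p =>
    (⟨shift (t p.1) (jn p.1), isPolygon_shift (jn_poly p.1) _, ht p.1, by
        rw [card_shift, jn_card]; exact p.2, htwo p.1⟩, lx p.1.1)
  have hφ1 : Function.Injective φ := by
    intro p q h
    have h1 := congrArg (fun x : PA n × Bool => x.1.1) h
    have h2 := congrArg (fun x : PA n × Bool => x.2) h
    exact Subtype.ext (jn_inj h1 h2)
  have hφ2 : Function.Surjective φ := by
    rintro ⟨E, b⟩
    obtain ⟨p, s, h1, h2⟩ := cb_exists E.2.1 E.2.2.2.2 b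
    have h4 : p.2.1.1.length + p.2.2.1.length = n := by
      rw [← jn_card, ← h1, card_shift]
      exact E.2.2.2.1
    refine ⟨⟨p, h4⟩, Prod.ext (Subtype.ext ?_) h2⟩
    change shift (t p) (jn p) = E.1
    have h3 : shift (0 : P3) (shift (t p) (jn p)) = shift (t p + s) E.1 := by
      rw [shift_zero, ← h1, shift_shift]
    exact normed_shift_eq (ht p) E.2.2.1 h3
  have hspan : ∀ p, span (φ p).1.1 = lspan p.1.2.1.1 + lspan p.1.2.2.1 + 1 := by
    intro p
    change span (shift (t p.1) (jn p.1)) = _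
    rw [span_shift', jn_span]
  refine ⟨(Equiv.ofBijective φ ⟨hφ1, hφ2⟩).symm, fun x => ?_⟩
  obtain ⟨p, rfl⟩ := hφ2 x
  have h1 : (Equiv.ofBijective φ ⟨hφ1, hφ2⟩).symm (φ p) = p :=
    (Equiv.ofBijective φ ⟨hφ1, hφ2⟩).symm_apply_apply p
  rw [h1]
  refine ⟨⟨-(t p.1), ?_⟩, hspan p⟩
  change shift (-(t p.1)) (shift (t p.1) (jn p.1)) = jn p.1
  rw [shift_shift, neg_add_cancel, shift_zero]

end Pool.Agent.KComp
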