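import Pool.Agent.KAmp.Model
import Pool.Agent.KAmp.Fl
import Pool.Agent.KCls.Rest
import Pool.Agent.KTop.Comp

/-! Composite knots in stretched polygons: definitions. -/

set_option autoImplicit false

open Pool.Agent.LK
open scoped ENNReal

namespace Pool.Agent.KComp

open Pool.Agent.KTube Pool.Agent.KRing Pool.Agent.KLog
open Pool.Agent.KAsym (ln)
open Pool.Agent.KAmp (gl sys)
open Pool.Agent.KCls (Flat PF)
open Pool.Agent.KTop (GC UC ed)

/-- The tension and the critical weight of an edge. -/
structure Cr (y z : ℝ) : Prop where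
  y_le : 10 ^ 24 ≤ y
  z_pos : 0 < z
  z_le : z ≤ 1 / 10 ^ 12
  q_le : y * z ^ 2 ≤ 1
  one : ∑' π : {π // Free π}, wt (ENNReal.ofReal y) (ENNReal.ofReal z) π.1 = 1

theorem Cr.y_pos {y z : ℝ} (h : Cr y z) : 0 < y := lt_of_lt_of_le (by positivity) h.y_le

/-! ### Polygons as chains of blocks between two caps -/

open Classical in
/-- The marks of a chain that starts at the displacement `v`: its knotted blocks, with the
displacements at which they start. -/
noncomputable def mk : ℤ × ℤ → List PP → List ((ℤ × ℤ) × PP)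
  | _, [] => []
  | v, π :: s => if Unk v π then mk (v + dsp π) s else (v, π) :: mk (v + dsp π) s

/-- The pair `π`, with the second strand starting in the column `v`, is a knotted block between
consecutive sections with two edges. -/
def Kn (v : ℤ × ℤ) (π : PP) : Prop := Geo v π ∧ ¬ Unk v π

/-- The caps: lower halves without sections with two edges, with their displacements. -/
abbrev HA : Type := Σ v : ℤ × ℤ, {l // Flat v l}

/-- The cap is unknotted. -/
def UH (h : HA) : Prop := LU 0 0 h.1 h.2.1

/-- The chains of blocks between two caps. -/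
abbrev CA : Type := {x : HA × List PP × HA // GC x.1.1 x.2.1 ∧ ed x.1.1 x.2.1 = x.2.2.1}

/-- The polygon. -/
noncomputable def pol (x : CA) : Finset (Sym2 P3) :=
  ring (flp x.1.2.2.2.1 ++ gl x.1.1.1 x.1.1.2.1 x.1.2.1)

/-- The number of points. -/
def lenA (x : CA) : ℕ := x.1.1.2.1.length + (x.1.2.1.map ln).sum + x.1.2.2.2.1.length

/-- The marks. -/
noncomputable def mkA (x : CA) : List ((ℤ × ℤ) × PP) := mk x.1.1.1 x.1.2.1

/-! ### Weights -/

/-- The weight of a list of blocks. -/
noncomputable def ww (y z : ℝ) (s : List PP) : ℝ≥0∞ :=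
  (s.map (wt (ENNReal.ofReal y) (ENNReal.ofReal z))).prod

/-- The weight of a cap. -/
noncomputable def wc (y z : ℝ) (h : HA) : ℝ≥0∞ := wl (ENNReal.ofReal y) (ENNReal.ofReal z) h.2.1

/-- The weight of a chain between two caps. -/
noncomputable def WA (y z : ℝ) (x : CA) : ℝ≥0∞ := wc y z x.1.1 * ww y z x.1.2.1 * wc y z x.1.2.2

open Classical in
/-- The weight of the chains with `n` points and the property `Q`. -/
noncomputable def SA (y z : ℝ) (Q : CA → Prop) (n : ℕ) : ℝ≥0∞ :=
  ∑' x : CA, if lenA x = n ∧ Q x then WA y z x else 0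

/-! ### Chains of unknotted blocks with gaps -/

open Classical in
/-- The weight of the chains of unknotted blocks with `n` points from `v` to `w`. -/
noncomputable def KN (y z : ℝ) (n : ℕ) (v w : ℤ × ℤ) : ℝ≥0∞ :=
  ∑' s : List PP, if UC v s ∧ ed v s = w ∧ (s.map ln).sum = n then ww y z s else 0

/-- The weight of a chain of unknotted blocks from `v`, followed by something that begins at a
displacement `w`, with `k` points, and has the weight `c k w`; `n` points together. -/
noncomputable def FC (y z : ℝ) (c : ℕ → ℤ × ℤ → ℝ≥0∞) (n : ℕ) (v : ℤ × ℤ) : ℝ≥0∞ :=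
  ∑' w : ℤ × ℤ, ∑ p ∈ Finset.HasAntidiagonal.antidiagonal n, KN y z p.1 v w * c p.2 w

open Classical in
/-- The weight of the caps of the class `Q` with `n` points and the displacement `w`. -/
noncomputable def cq (y z : ℝ) (Q : HA → Prop) (n : ℕ) (w : ℤ × ℤ) : ℝ≥0∞ :=
  ∑' r : HA, if Q r ∧ r.1 = w ∧ r.2.1.length = n then wc y z r else 0

open Classical in
/-- The weight of gaps with chains of unknotted blocks between them, followed by something with the
weight `c`: for each `q` in the list a jump by `q.2` from a displacement with the property `q.1`. -/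
noncomputable def cN (y z : ℝ) (c : ℕ → ℤ × ℤ → ℝ≥0∞) :
    List ((ℤ × ℤ → Prop) × (ℤ × ℤ)) → ℕ → ℤ × ℤ → ℝ≥0∞
  | [] => c
  | q :: qs => fun n w => if q.1 w then FC y z (cN y z c qs) n (w + q.2) else 0

/-- The weight of the chains of unknotted blocks with gaps between two caps of the class `Q`, with
`n` points. -/
noncomputable def TQ (y z : ℝ) (Q : HA → Prop) (qs : List ((ℤ × ℤ → Prop) × (ℤ × ℤ)))
    (n : ℕ) : ℝ≥0∞ :=
  ∑' w : ℤ × ℤ, ∑ p ∈ Finset.HasAntidiagonal.antidiagonal n,
    cq y z Q p.1 w * FC y z (cN y z (cq y z Q) qs) p.2 w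

/-- The gaps are between displacements that are not zero. -/
def GapOk (qs : List ((ℤ × ℤ → Prop) × (ℤ × ℤ))) : Prop :=
  ∀ q ∈ qs, ∀ v, q.1 v → v ≠ 0 ∧ v + q.2 ≠ 0

/-- The words of knotted blocks. -/
abbrev KW : Type := {π : PP // ∃ v, Kn v π}

/-- The gaps of the knotted blocks with the words `L.map Prod.snd`, at displacements with the
properties in the list. -/
def gaps (L : List ((ℤ × ℤ → Prop) × PP)) : List ((ℤ × ℤ → Prop) × (ℤ × ℤ)) :=
  L.map fun q => (fun v => q.1 v ∧ Kn v q.2, dsp q.2)

/-! ### Tuples of elements of a chain -/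

open Classical in
/-- The number of increasing tuples of places of the chain such that the properties in the list
hold at these places. -/
noncomputable def tup {P : Type} (κ : Ker P) :
    List P → List (ℤ × ℤ → P → Prop) → ℤ × ℤ → ℕ
  | [], As, _ => if As = [] then 1 else 0
  | _ :: _, [], _ => 1
  | p :: s, A :: As, v => (if A v p then tup κ s As (v + κ.u p) else 0) +
      tup κ s (A :: As) (v + κ.u p)

end Pool.Agent.KComp
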