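import Pool.Agent.KComp.Tup
import Pool.Agent.KComp.Occ
import Pool.Agent.KComp.TotB
import Pool.Agent.KAmp.Ref

/-! KC18: the weight of the chains with gaps far from the origin.

PROOF. `q = us.length`. For `u ∈ us` let `ρ` be the reference block of `KAmp.exists_ref u`: `dsp ρ = u`,
`ln ρ = nrm u + 2`, `Valid v ρ` for `nrm u < nrm v`; it is `Free` (`KAmp/FarS.lean`, `hfree`), so
`(sys y z).wF ρ` is its weight (`hwF` there), positive and finite. `ρs` is the list of these blocks.
`occ_id` for the list of the pairs `(R < nrm ·, ρ)` (the hypothesis holds since `nrm u ≤ R`), `n = 2k - a`,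
`2k ≥ a`: `S.sum (2k') (mkc ..) = ww ρs * TQ UH (..) (2k - a)`, where
`2k' = 2k - a + ∑ (nrm u + 2)` (even), `mkc y z s (..) v = tup (ker y z) s (eqf R ρs) v`. So
`TQ (2k - a) / ((2k)^q tot (2k)) = (∏ wF ρ)⁻¹ * (S.sum (2k') tup / ((2k')^q tot (2k'))) *
  (2k'/2k)^q * tot (2k') / tot (2k)`. The second factor converges to `∏ wF ρ / (ell^q q!)` (`tup_lim`,
composed with `k ↦ k'`, `k' - k` is constant for `2k ≥ a`), the others to `1` (`KAmp.tot_ratio`, or
`tot_poly`). -/

set_option autoImplicit false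

open Filter Topology
open Pool.Agent.LK
open scoped ENNReal

namespace Pool.Agent.KComp

open Pool.Agent.KTube Pool.Agent.KRing Pool.Agent.KLog
open Pool.Agent.KAmp (sys)
open Pool.Agent.KAsym (ln)

variable {y z : ℝ}

/-- the reference blocks are free and their weight is positive -/
private theorem ref_fact (h : Cr y z) {u : ℤ × ℤ} {ρ : PP}
    (hv : ∀ v, nrm u < nrm v → Valid v ρ) :
    (sys y z).wF ρ = (wt (ENNReal.ofReal y) (ENNReal.ofReal z) ρ).toReal ∧
      (wt (ENNReal.ofReal y) (ENNReal.ofReal z) ρ).toReal ≠ 0 := by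
  have hfree : Free ρ := by
    have h1 : nrm (((max (nrm u) (nh ρ) + 1 : ℕ) : ℤ), (0 : ℤ)) = max (nrm u) (nh ρ) + 1 := by
      simp only [nrm]
      omega
    exact ⟨_, by rw [h1]; omega, hv _ (by rw [h1]; omega)⟩
  refine ⟨if_pos (show (sys y z).κ.Fr ρ from hfree), ?_⟩
  have hy0 := h.y_pos
  have hz := h.z_pos
  have h1 : wt (ENNReal.ofReal y) (ENNReal.ofReal z) ρ =
      ENNReal.ofReal (y ^ (hgt ρ).toNat * z ^ (ρ.1.length + ρ.2.length + 2)) := by
    rw [wt, ENNReal.ofReal_mul (by positivity), ENNReal.ofReal_pow hy0.le,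
      ENNReal.ofReal_pow hz.le]
  rw [h1, ENNReal.toReal_ofReal (by positivity)]
  positivity

/-- the product of the weights of the reference blocks -/
private theorem ww_fact (h : Cr y z) (ρ : ℤ × ℤ → PP)
    (hv : ∀ u v, nrm u < nrm v → Valid v (ρ u)) (us : List (ℤ × ℤ)) :
    (ww y z (us.map ρ)).toReal = ((us.map ρ).map (sys y z).wF).prod ∧
      (ww y z (us.map ρ)).toReal ≠ 0 := by
  induction us with
  | nil => simp [ww_nil]
  | cons u us ih =>
    obtain ⟨h1, h2⟩ := ref_fact h (hv u)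
    rw [List.map_cons, ww_cons, ENNReal.toReal_mul, List.map_cons, List.prod_cons, h1, ← ih.1]
    exact ⟨rfl, mul_ne_zero h2 ih.2⟩

/-- the lengths -/
private theorem ratio_len (a b : ℕ) :
    Tendsto (fun k : ℕ => ((2 * k + b - a : ℕ) : ℝ) / ((2 * k : ℕ) : ℝ)) atTop (𝓝 1) := by
  have h1 : Tendsto (fun k : ℕ => ((2 * k : ℕ) : ℝ)) atTop atTop :=
    tendsto_natCast_atTop_atTop.comp (tendsto_id.const_mul_atTop' (by norm_num))
  have h2 : Tendsto (fun k : ℕ => 1 + ((b : ℝ) - a) / ((2 * k : ℕ) : ℝ)) atTop (𝓝 (1 + 0)) :=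
    tendsto_const_nhds.add (h1.const_div_atTop _)
  rw [add_zero] at h2
  refine h2.congr' ?_
  filter_upwards [eventually_ge_atTop (a + 1)] with k hk
  have h3 : ((2 * k : ℕ) : ℝ) ≠ 0 := by
    have : 2 * k ≠ 0 := by omega
    exact_mod_cast this
  rw [Nat.cast_sub (by omega), Nat.cast_add]
  field_simp
  ring

/-- KC18. -/
theorem far_l (h : Cr y z) (us : List (ℤ × ℤ)) (R a : ℕ) (hR : ∀ u ∈ us, nrm u ≤ R)
    (ha : Even (a + (us.map nrm).sum)) :
    Tendsto (fun k : ℕ => (TQ y z UH (us.map fun u => ((fun v => R < nrm v), u))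
      (2 * k - a)).toReal / (((2 * k : ℕ) : ℝ) ^ us.length * ((sys y z).tot (2 * k)).toReal)) atTop
      (𝓝 (1 / ((sys y z).ell ^ us.length * (us.length.factorial : ℝ)))) := by
  choose ρ hd hln hv using KAmp.exists_ref
  obtain ⟨hW, hW0⟩ := ww_fact h ρ hv us
  -- the total length of the reference blocks
  obtain ⟨b, hb⟩ : ∃ b : ℕ, b = (us.map fun u => ln (ρ u)).sum := ⟨_, rfl⟩
  have hab : Even (b + a) := by
    have h1 : ∀ us : List (ℤ × ℤ), (us.map fun u => ln (ρ u)).sum =
        (us.map nrm).sum + 2 * us.length := by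
      intro us
      induction us with
      | nil => simp
      | cons u us ih =>
        simp only [List.map_cons, List.sum_cons, List.length_cons]
        rw [ih, hln]
        ring
    rw [hb, h1]
    obtain ⟨c, hc⟩ := ha
    exact ⟨c + us.length, by omega⟩
  -- the identity
  have hid : ∀ k : ℕ, a ≤ 2 * k → ((sys y z).sum (2 * k + b - a) fun x =>
      (tup (sys y z).κ x.1.2.1 (eqf R (us.map ρ)) ((sys y z).pos x.1.1) : ℝ≥0∞)) =
      ww y z (us.map ρ) * TQ y z UH (us.map fun u => ((fun v => R < nrm v), u)) (2 * k - a) := by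
    intro k hk
    have h1 := occ_id (y := y) (z := z) (us.map fun u => ((fun v => R < nrm v), ρ u))
      (by
        intro q hq v hqv
        obtain ⟨u, hu, rfl⟩ := List.mem_map.1 hq
        exact hv u v (lt_of_le_of_lt (hR u hu) hqv)) (2 * k - a)
    rw [List.map_map, List.map_map, List.map_map] at h1
    have e1 : 2 * k - a + (us.map ((fun q : (ℤ × ℤ → Prop) × PP => ln q.2) ∘
        fun u => ((fun v => R < nrm v), ρ u))).sum = 2 * k + b - a := by
      have : (us.map ((fun q : (ℤ × ℤ → Prop) × PP => ln q.2) ∘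
        fun u => ((fun v => R < nrm v), ρ u))).sum = b := hb.symm
      rw [this]
      omega
    rw [e1] at h1
    have e2 : (Prod.snd ∘ fun u : ℤ × ℤ => ((fun v : ℤ × ℤ => R < nrm v), ρ u)) = ρ := rfl
    have e3 : ((fun q : (ℤ × ℤ → Prop) × PP => (q.1, dsp q.2)) ∘
        fun u : ℤ × ℤ => ((fun v : ℤ × ℤ => R < nrm v), ρ u)) =
        fun u => ((fun v => R < nrm v), u) := by
      funext u
      simp only [Function.comp_apply, hd]
    rw [e2, e3] at h1
    rw [← h1]
    congr 1
    funext x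
    unfold mkc eqf
    rw [List.map_map, List.map_map]
    rfl
  -- the limits
  have hk : Tendsto (fun k : ℕ => (2 * k + b - a) / 2) atTop atTop := by
    refine tendsto_atTop_mono (fun k => ?_) (tendsto_sub_atTop_nat a)
    omega
  have h1 := (tup_lim h.ok h.gr (us.map ρ) R).comp hk
  rw [List.length_map, ← hW] at h1
  have h2 := ratio_len a b
  have h3 := KAmp.nT_shift h.y_le h.z_pos h.z_le h.q_le h.one hab
  have h4 := (((h1.div_const (ww y z (us.map ρ)).toReal).mul (h2.pow us.length)).mul h3).mul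
    (h2.inv₀ one_ne_zero)
  have h5 : (ww y z (us.map ρ)).toReal / ((sys y z).ell ^ us.length *
      (us.length.factorial : ℝ)) / (ww y z (us.map ρ)).toReal * 1 ^ us.length * 1 * 1⁻¹ =
      1 / ((sys y z).ell ^ us.length * (us.length.factorial : ℝ)) := by
    rw [one_pow, inv_one, mul_one, mul_one, mul_one, div_div, mul_comm, ← div_div, div_self hW0]
  rw [h5] at h4
  refine h4.congr' ?_
  have hne : ∀ᶠ k : ℕ in atTop, KAmp.nT y z (2 * k + b - a) / KAmp.nT y z (2 * k) ≠ 0 :=
    h3.eventually_ne one_ne_zero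
  filter_upwards [hne, eventually_ge_atTop (a + 1)] with k hk1 hk2
  have e1 : 2 * ((2 * k + b - a) / 2) = 2 * k + b - a := by
    obtain ⟨c, hc⟩ := hab
    omega
  rw [div_ne_zero_iff] at hk1
  obtain ⟨hn1, hn2⟩ := hk1
  unfold KAmp.nT at hn1 hn2
  rw [mul_ne_zero_iff] at hn1 hn2
  obtain ⟨hA, hB⟩ := hn1
  obtain ⟨hC, hD⟩ := hn2
  have e2 : ((TQ y z UH (us.map fun u => ((fun v => R < nrm v), u)) (2 * k - a))).toReal =
      ((sys y z).sum (2 * k + b - a) fun x =>
      (tup (sys y z).κ x.1.2.1 (eqf R (us.map ρ)) ((sys y z).pos x.1.1) : ℝ≥0∞)).toReal /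
      (ww y z (us.map ρ)).toReal := by
    rw [hid k (by omega), ENNReal.toReal_mul, mul_div_cancel_left₀ _ hW0]
  rw [e2]
  simp only [Function.comp_apply]
  rw [e1]
  unfold KAmp.nT
  have hAq : ((2 * k + b - a : ℕ) : ℝ) ^ us.length ≠ 0 := pow_ne_zero _ hA
  have hCq : ((2 * k : ℕ) : ℝ) ^ us.length ≠ 0 := pow_ne_zero _ hC
  rw [div_pow]
  field_simp

end Pool.Agent.KComp
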