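import Pool.Agent.KComp.CutA
import Pool.Agent.KComp.ChainA
import Pool.Agent.KAmp.Tot

/-! KC6: the partition function of a class of knot types as a sum over chains.

PROOF. As `KAmp.tot_eq`. `Zt y C n * z ^ n` is the sum of `y ^ span E * z ^ n` over the polygons `E` of the class
with `n` edges, up to translation (`Zt`, `NSet`; `me_zt_tsum` in `KAmp/MidE.lean` is such a formula,
private, copy it). Split the polygons into those with a section with two edges (`PA n`) and those without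
(`PF`). For the first ones use `cut_a` and `chain_a`: `PA n × Bool ≃ TA n ≃ {x : CA // lenA x = n}` with
`(l, r) = (gl .. , r)`; `C E ↔ C (pol x)` since `pol x` is a translate of `E` (`sameType_shift`), and the
weights: `y ^ span * z ^ n = y * (wl l) * (wl r) = y * WA x` (`wl y z l = y ^ lspan l * z ^ l.length`). -/

set_option autoImplicit false

open Pool.Agent.LK
open scoped ENNReal

namespace Pool.Agent.KComp

open Pool.Agent.KTube Pool.Agent.KRing Pool.Agent.KLog
open Pool.Agent.KTen (Zt)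
open Pool.Agent.KCls (PF Flat)
open Pool.Agent.KAsym (ln)
open Pool.Agent.KAmp (gl)
open Pool.Agent.KTop (GC UC ed)

variable {y z : ℝ}

private theorem ta_zt_tsum (C : Finset (Sym2 P3) → Prop) (hy : 0 ≤ y) (hz : 0 ≤ z) (n : ℕ) :
    ENNReal.ofReal (Zt y C n * z ^ n) =
      ∑' E : KTen.NSet C n, ENNReal.ofReal y ^ span E.1 * ENNReal.ofReal z ^ E.1.card := by
  classical
  set X := (KTen.nset_finite C n).toFinset with hX
  have hset : KTen.NSet C n = ↑X := by rw [hX, Set.Finite.coe_toFinset]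
  rw [KRing.zt_sum, ← hX, Finset.sum_mul,
    ENNReal.ofReal_sum_of_nonneg fun E _ => mul_nonneg (pow_nonneg hy _) (pow_nonneg hz _)]
  rw [tsum_congr_set_coe (fun E : Finset (Sym2 P3) => ENNReal.ofReal y ^ span E *
    ENNReal.ofReal z ^ E.card) hset]
  have h := Finset.tsum_subtype X (fun E : Finset (Sym2 P3) => ENNReal.ofReal y ^ span E *
    ENNReal.ofReal z ^ E.card)
  refine Eq.trans ?_ h.symm
  refine Finset.sum_congr rfl fun E hE => ?_
  have hE' : E ∈ KTen.NSet C n := by
    rw [hX, Set.Finite.mem_toFinset] at hE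
    exact hE
  rw [ENNReal.ofReal_mul (pow_nonneg hy _), ENNReal.ofReal_pow hy, ENNReal.ofReal_pow hz,
    hE'.2.2.2]

open Classical in
/-- The weight of a pair of a lower half and a cap. -/
private noncomputable def ta_w (C : Finset (Sym2 P3) → Prop) (y z : ℝ) (n : ℕ)
    (l r : List P3) : ℝ≥0∞ :=
  if l.length + r.length = n ∧ C (ring (flp r ++ l)) then
    wl (ENNReal.ofReal y) (ENNReal.ofReal z) l * wl (ENNReal.ofReal y) (ENNReal.ofReal z) r else 0

/-- The chains, regrouped. -/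
private theorem ta_chains (C : Finset (Sym2 P3) → Prop) (y z : ℝ) (n : ℕ) :
    SA y z (fun x => C (pol x)) n = ∑' v : ℤ × ℤ, ∑' r : {r // Flat v r},
      ∑' l : {l : List P3 // (0 : ℤ × ℤ) ≠ v ∧ Lower 0 0 v l}, ta_w C y z n l.1 r.1 := by
  classical
  choose e he using chain_a
  let E : (Σ h : HA, {x : HA × List PP // GC x.1.1 x.2 ∧ ed x.1.1 x.2 = h.1}) ≃ CA :=
    { toFun := fun q => ⟨(q.2.1.1, q.2.1.2, q.1), q.2.2⟩
      invFun := fun x => ⟨x.1.2.2, ⟨(x.1.1, x.1.2.1), x.2⟩⟩
      left_inv := fun x => rfl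
      right_inv := fun x => rfl }
  unfold SA
  rw [← E.tsum_eq, ENNReal.tsum_sigma', ENNReal.tsum_sigma']
  refine tsum_congr fun v => tsum_congr fun r => ?_
  rw [← (e v).tsum_eq]
  refine tsum_congr fun x => ?_
  obtain ⟨h1, h2, h3⟩ := he v x
  have hl : lenA (E ⟨⟨v, r⟩, x⟩) = ((e v) x).1.length + r.1.length := by
    rw [h2]
    rfl
  have hp : pol (E ⟨⟨v, r⟩, x⟩) = ring (flp r.1 ++ ((e v) x).1) := by
    rw [h1]
    rfl
  have hw : WA y z (E ⟨⟨v, r⟩, x⟩) = wl (ENNReal.ofReal y) (ENNReal.ofReal z) ((e v) x).1 *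
      wl (ENNReal.ofReal y) (ENNReal.ofReal z) r.1 := by
    rw [h3]
    rfl
  have hQ : (fun x => C (pol x)) (E ⟨⟨v, r⟩, x⟩) = C (ring (flp r.1 ++ ((e v) x).1)) :=
    congrArg C hp
  unfold ta_w
  rw [hl, hQ, hw]

open Classical in
/-- The polygons, regrouped. -/
private theorem ta_poly {C : Finset (Sym2 P3) → Prop} (hC : TypeClosed C) (y z : ℝ) (n : ℕ) :
    2 * (∑' E : PA n, if C E.1 then
        ENNReal.ofReal y ^ span E.1 * ENNReal.ofReal z ^ E.1.card else 0) =
      ENNReal.ofReal y * ∑' v : ℤ × ℤ, ∑' r : {r // Flat v r},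
        ∑' l : {l : List P3 // (0 : ℤ × ℤ) ≠ v ∧ Lower 0 0 v l}, ta_w C y z n l.1 r.1 := by
  obtain ⟨e, he⟩ := cut_a n
  set F : PA n → ℝ≥0∞ := fun E => if C E.1 then
        ENNReal.ofReal y ^ span E.1 * ENNReal.ofReal z ^ E.1.card else 0 with hF
  have h1 : 2 * ∑' E, F E = ∑' x : PA n × Bool, F x.1 := by
    rw [ENNReal.tsum_prod', ← ENNReal.tsum_mul_left]
    refine tsum_congr fun E => ?_
    rw [tsum_fintype, Fintype.sum_bool, two_mul]
  set G : (Σ v : ℤ × ℤ, {l // (0 : ℤ × ℤ) ≠ v ∧ Lower 0 0 v l} × {r // Flat v r}) → ℝ≥0∞ :=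
    fun p => ENNReal.ofReal y * ta_w C y z n p.2.1.1 p.2.2.1 with hG
  have h2 : ∀ x : PA n × Bool, F x.1 = G (e x).1 := by
    intro x
    obtain ⟨⟨t, ht⟩, hs⟩ := he x
    have hc : C x.1.1 ↔ C (ring (flp (e x).1.2.2.1 ++ (e x).1.2.1.1)) := by
      rw [← ht]
      exact ⟨fun h => hC _ _ (sameType_shift t _) h, fun h => hC _ _ (sameType_shift t _).symm h⟩
    simp only [hF, hG]
    unfold ta_w
    by_cases h : C x.1.1
    · rw [if_pos h, if_pos ⟨(e x).2, hc.1 h⟩, hs, x.1.2.2.2.1]
      have hn := (e x).2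
      unfold wl
      have hZn : ENNReal.ofReal z ^ n = ENNReal.ofReal z ^ (e x).1.2.1.1.length *
          ENNReal.ofReal z ^ (e x).1.2.2.1.length := by
        rw [← pow_add, hn]
      rw [hZn, pow_succ, pow_add]
      ring
    · rw [if_neg h, if_neg fun h' => h (hc.2 h'.2), mul_zero]
  have h3 : ∑' x : PA n × Bool, F x.1 = ∑' t : TA n, G t.1 := by
    rw [tsum_congr h2]
    exact e.tsum_eq (fun t : TA n => G t.1)
  have h4 : ∑' t : TA n, G t.1 = ∑' p, G p := by
    have h5 : ∑' t : TA n, G t.1 = ∑' p, Set.indicator {p : Σ v : ℤ × ℤ,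
        {l // (0 : ℤ × ℤ) ≠ v ∧ Lower 0 0 v l} × {r // Flat v r} |
        p.2.1.1.length + p.2.2.1.length = n} G p :=
      tsum_subtype {p : Σ v : ℤ × ℤ, {l // (0 : ℤ × ℤ) ≠ v ∧ Lower 0 0 v l} × {r // Flat v r} |
        p.2.1.1.length + p.2.2.1.length = n} G
    rw [h5]
    refine tsum_congr fun p => ?_
    by_cases h : p.2.1.1.length + p.2.2.1.length = n
    · exact Set.indicator_of_mem (by exact h) G
    · rw [Set.indicator_of_notMem (by exact h) G]
      simp only [hG]
      unfold ta_w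
      rw [if_neg fun h' => h h'.1, mul_zero]
  rw [h1, h3, h4, ENNReal.tsum_sigma', ← ENNReal.tsum_mul_left]
  refine tsum_congr fun v => ?_
  rw [ENNReal.tsum_prod', ENNReal.tsum_comm, ← ENNReal.tsum_mul_left]
  refine tsum_congr fun r => ?_
  rw [← ENNReal.tsum_mul_left]

open Classical in
/-- KC6. -/
theorem tot_a {C : Finset (Sym2 P3) → Prop} (hC : TypeClosed C) (hy : 0 < y) (hz : 0 < z) (n : ℕ) :
    2 * ENNReal.ofReal (Zt y C n * z ^ n) = ENNReal.ofReal y * SA y z (fun x => C (pol x)) n +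
      2 * ∑' E : PF, if E.1.card = n ∧ C E.1 then
        ENNReal.ofReal y ^ span E.1 * ENNReal.ofReal z ^ E.1.card else 0 := by
  have hsplit : ENNReal.ofReal (Zt y C n * z ^ n) =
      (∑' E : PA n, if C E.1 then
        ENNReal.ofReal y ^ span E.1 * ENNReal.ofReal z ^ E.1.card else 0) +
      ∑' E : PF, if E.1.card = n ∧ C E.1 then
        ENNReal.ofReal y ^ span E.1 * ENNReal.ofReal z ^ E.1.card else 0 := by
    set f : Finset (Sym2 P3) → ℝ≥0∞ := fun E =>
      ENNReal.ofReal y ^ span E * ENNReal.ofReal z ^ E.card with hf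
    rw [ta_zt_tsum C hy.le hz.le n]
    change ∑' E : KTen.NSet C n, f E.1 = (∑' E : PA n, if C E.1 then f E.1 else 0) +
      ∑' E : PF, if E.1.card = n ∧ C E.1 then f E.1 else 0
    have h1 : ∑' E : KTen.NSet C n, f E.1 = ∑' E, Set.indicator (KTen.NSet C n) f E :=
      tsum_subtype (KTen.NSet C n) f
    have h2 : (∑' E : PA n, if C E.1 then f E.1 else 0) =
        ∑' E, Set.indicator {E : Finset (Sym2 P3) | IsPolygon E ∧ Normed E ∧ E.card = n ∧
          ∃ k, IsTwo E k} (fun E => if C E then f E else 0) E :=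
      tsum_subtype {E : Finset (Sym2 P3) | IsPolygon E ∧ Normed E ∧ E.card = n ∧
          ∃ k, IsTwo E k} (fun E => if C E then f E else 0)
    have h3 : (∑' E : PF, if E.1.card = n ∧ C E.1 then f E.1 else 0) =
        ∑' E, Set.indicator PF (fun E => if E.card = n ∧ C E then f E else 0) E :=
      tsum_subtype PF (fun E => if E.card = n ∧ C E then f E else 0)
    rw [h1, h2, h3, ← ENNReal.tsum_add]
    refine tsum_congr fun E => ?_
    have hfin := KRing.two_finite E
    by_cases hP : IsPolygon E ∧ Normed E ∧ E.card = n ∧ C E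
    · obtain ⟨p1, p2, p3, p4⟩ := hP
      rw [Set.indicator_of_mem (show E ∈ KTen.NSet C n from ⟨p1, p4, p2, p3⟩)]
      by_cases hk : ∃ k, IsTwo E k
      · have h4 : E ∉ PF := by
          rintro ⟨-, -, h5⟩
          obtain ⟨k, hk⟩ := hk
          rw [Set.ncard_eq_zero hfin] at h5
          exact (h5 ▸ (show k ∈ {k : ℤ | IsTwo E k} from hk) : k ∈ (∅ : Set ℤ))
        rw [Set.indicator_of_mem (show E ∈ {E : Finset (Sym2 P3) | IsPolygon E ∧ Normed E ∧
          E.card = n ∧ ∃ k, IsTwo E k} from ⟨p1, p2, p3, hk⟩), Set.indicator_of_notMem h4,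
          if_pos p4, add_zero]
      · have h4 : E ∈ PF := by
          refine ⟨p1, p2, ?_⟩
          rw [Set.ncard_eq_zero hfin]
          ext k
          simp only [Set.mem_setOf_eq, Set.mem_empty_iff_false, iff_false]
          exact fun h => hk ⟨k, h⟩
        rw [Set.indicator_of_notMem (show E ∉ {E : Finset (Sym2 P3) | IsPolygon E ∧ Normed E ∧
          E.card = n ∧ ∃ k, IsTwo E k} from fun h => hk h.2.2.2), Set.indicator_of_mem h4,
          if_pos ⟨p3, p4⟩, zero_add]
    · rw [Set.indicator_of_notMem (show E ∉ KTen.NSet C n from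
        fun h => hP ⟨h.1, h.2.2.1, h.2.2.2, h.2.1⟩)]
      have h5 : Set.indicator {E : Finset (Sym2 P3) | IsPolygon E ∧ Normed E ∧ E.card = n ∧
          ∃ k, IsTwo E k} (fun E => if C E then f E else 0) E = 0 := by
        by_cases hE : E ∈ {E : Finset (Sym2 P3) | IsPolygon E ∧ Normed E ∧ E.card = n ∧
          ∃ k, IsTwo E k}
        · rw [Set.indicator_of_mem hE, if_neg fun h => hP ⟨hE.1, hE.2.1, hE.2.2.1, h⟩]
        · exact Set.indicator_of_notMem hE _
      have h6 : Set.indicator PF (fun E => if E.card = n ∧ C E then f E else 0) E = 0 := by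
        by_cases hE : E ∈ PF
        · rw [Set.indicator_of_mem hE, if_neg fun h => hP ⟨hE.1, hE.2.1, h.1, h.2⟩]
        · exact Set.indicator_of_notMem hE _
      rw [h5, h6, add_zero]
  rw [hsplit, mul_add]
  congr 1
  rw [ta_poly hC y z n, ta_chains C y z n]

end Pool.Agent.KComp
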