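import Pool.Agent.KComp.MainL
import Pool.Agent.KComp.TotA
import Pool.Agent.KTen.FinalT
import Pool.Agent.KAmp.Final

/-! KC22, KC23: the amplitudes of composite knots.

PROOF of `comp_lim`. As `KAmp.prime_lim`. `T = SameType K` is `TypeClosed`, `∀ E, T E → Few N E` by
`KTen.hinv_few`. The critical `z` and `Cr y z` as there (`exists_crit`, `z ≤ 10⁻¹²` from `y z² ≤ 1`).
Let `a n = Zt y (KClass K) n * z ^ n`, `U n = Zt y UClass n * z ^ n`, `t n = tot n` (real numbers),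
`s n = SA (T (pol x)) n` (finite: `tail`, `main_l`-type bounds, or `SA ≤ ` the left side of `tot_a`; `y > 0`).
`tot_a` for `C = T` (`Zt y (KClass K) n = Zt y T n`: the polygons are the same, `KClass K E` is
`IsPolygon E ∧ SameType K E` or similar): `2 a n = y s n + 2 p n`, `0 ≤ p n ≤ C 2^(-n)` since
`∑ over PF of y ^ span z ^ card 2 ^ card < ∞` (`KCls.un_geo'`). By `gr` `p (2k) / ((2k)^N t (2k)) → 0`
(`t (2k) ≥ exp (-k/10)` for large `k`), and `y t (2k) / U (2k) → 2` (`KAmp.tot_asy`). So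
`a n / (n^N U n) = (y s n / 2 + p n) / (n^N t n) * (t n / U n)`, and
`r k := a (2k) / ((2k)^N U (2k))` and `r' k := s (2k) / ((2k)^N t (2k))` satisfy
`r k = (r' k + o(1)) (1 + o(1))` [`(y/2) * (t/U) → 1`]. It is enough that `r'` converges to a positive
limit. `r'` is close to constants: for `ε > 0` take `j` as in `tail` (`ENNReal.ofReal ε`) and the limit `b` of
`main_l`: `|r' k - b| ≤ 2 ε` for large `k`. So `r'` is a Cauchy sequence. It is bounded from below:
`r k ≥ δ > 0` by `KRing.tower_lower`, so `r' k ≥ δ / 2` for large `k` (if `r' k < δ / 2` then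
`r k < δ` for large `k`). (`fin_cauchy` in `KAmp/Final.lean`, private, copy.)
PROOF of `main`. As `KAmp.main`: `KAsym.main` and `KTen.zt_gclass`. -/

set_option autoImplicit false

open Pool.Agent.LK Filter Topology
open scoped ENNReal

namespace Pool.Agent.KComp

open Pool.Agent.KTube Pool.Agent.KRing Pool.Agent.KLog
open Pool.Agent.KTen (Zt)

variable {y : ℝ}

/-- A sequence that is close to constants and bounded from below converges. -/
private theorem fin_cauchy {a : ℕ → ℝ} {δ : ℝ} (hδ : 0 < δ) (hlow : ∀ᶠ k in atTop, δ ≤ a k)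
    (happ : ∀ ε : ℝ, 0 < ε → ∃ b : ℝ, ∀ᶠ k in atTop, |a k - b| ≤ ε) :
    ∃ A : ℝ, 0 < A ∧ Tendsto a atTop (𝓝 A) := by
  have hc : CauchySeq a := by
    refine Metric.cauchySeq_iff'.2 fun ε hε => ?_
    obtain ⟨b, hb⟩ := happ (ε / 3) (by positivity)
    obtain ⟨N, hN⟩ := eventually_atTop.1 hb
    refine ⟨N, fun n hn => ?_⟩
    have h1 := abs_le.1 (hN n hn)
    have h2 := abs_le.1 (hN N le_rfl)
    rw [Real.dist_eq, abs_lt]
    constructor <;> linarith [h1.1, h1.2, h2.1, h2.2]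
  obtain ⟨A, hA⟩ := cauchySeq_tendsto_of_complete hc
  exact ⟨A, hδ.trans_le (ge_of_tendsto hA hlow), hA⟩

/-- The critical weight. -/
private theorem exists_cr (hy : 10 ^ 24 ≤ y) : ∃ z : ℝ, Cr y z := by
  obtain ⟨z, hz, -, hq, hone⟩ := exists_crit (le_trans (by norm_num) hy : (10 : ℝ) ^ 8 ≤ y)
  refine ⟨z, hy, hz, ?_, hq, hone⟩
  by_contra h
  push Not at h
  have h1 : (1 / 10 ^ 12 : ℝ) ^ 2 < z ^ 2 := pow_lt_pow_left₀ h (by norm_num) (by norm_num)
  have h2 : (10 : ℝ) ^ 24 * (1 / 10 ^ 12) ^ 2 < y * z ^ 2 := by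
    calc (10 : ℝ) ^ 24 * (1 / 10 ^ 12) ^ 2 < 10 ^ 24 * z ^ 2 := by
          exact mul_lt_mul_of_pos_left h1 (by norm_num)
      _ ≤ y * z ^ 2 := mul_le_mul_of_nonneg_right hy (sq_nonneg _)
  norm_num at h2
  linarith

open Classical in
/-- The weight of the polygons of the class without sections with two edges. -/
private noncomputable def pz (y z : ℝ) (C : Finset (Sym2 P3) → Prop) (n : ℕ) : ℝ≥0∞ :=
  ∑' E : KCls.PF, if E.1.card = n ∧ C E.1 then
    ENNReal.ofReal y ^ span E.1 * ENNReal.ofReal z ^ E.1.card else 0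

private theorem pz_le (y z : ℝ) (C : Finset (Sym2 P3) → Prop) (n : ℕ) :
    pz y z C n * 2 ^ n ≤ ∑' E : KCls.PF,
      ENNReal.ofReal y ^ span E.1 * ENNReal.ofReal z ^ E.1.card * 2 ^ E.1.card := by
  unfold pz
  rw [← ENNReal.tsum_mul_right]
  refine ENNReal.tsum_le_tsum fun E => ?_
  split_ifs with h
  · rw [h.1]
  · rw [zero_mul]
    exact zero_le

private theorem zt_type (hy : 0 ≤ y) (K : Finset (Sym2 P3)) (n : ℕ) :
    Zt y (SameType K) n = Zt y (KClass K) n :=
  le_antisymm (KTen.zt_mono hy (fun _ hE h => ⟨hE, h⟩) n) (KTen.zt_mono hy (fun _ _ h => h.2) n)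

open Classical in
private theorem sa_mono {y z : ℝ} {Q Q' : CA → Prop} (h : ∀ x, Q x → Q' x) (n : ℕ) :
    SA y z Q n ≤ SA y z Q' n := by
  unfold SA
  refine ENNReal.tsum_le_tsum fun x => ?_
  by_cases h1 : lenA x = n ∧ Q x
  · rw [if_pos h1, if_pos ⟨h1.1, h _ h1.2⟩]
  · rw [if_neg h1]
    exact zero_le

/-- The identity `2 a = y s + 2 p` for real numbers. -/
private theorem real_tot {z : ℝ} (h : Cr y z) (K : Finset (Sym2 P3)) (n : ℕ) :
    SA y z (fun x => SameType K (pol x)) n ≠ ⊤ ∧ pz y z (SameType K) n ≠ ⊤ ∧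
      2 * (Zt y (KClass K) n * z ^ n) = y * (SA y z (fun x => SameType K (pol x)) n).toReal +
        2 * (pz y z (SameType K) n).toReal := by
  have hy := h.y_pos
  have h1 := tot_a (typeClosed_type K) hy h.z_pos n
  rw [zt_type hy.le] at h1
  have h2 : 2 * ENNReal.ofReal (Zt y (KClass K) n * z ^ n) =
      ENNReal.ofReal y * SA y z (fun x => SameType K (pol x)) n +
        2 * pz y z (SameType K) n := h1
  have h3 : 2 * ENNReal.ofReal (Zt y (KClass K) n * z ^ n) ≠ ⊤ :=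
    ENNReal.mul_ne_top (by norm_num) ENNReal.ofReal_ne_top
  rw [h2] at h3
  obtain ⟨h4, h5⟩ := ENNReal.add_ne_top.1 h3
  have hy' : ENNReal.ofReal y ≠ 0 := by
    rw [Ne, ENNReal.ofReal_eq_zero, not_le]
    exact hy
  have h6 : SA y z (fun x => SameType K (pol x)) n ≠ ⊤ := by
    intro h7
    rw [h7, ENNReal.mul_top hy'] at h4
    exact h4 rfl
  have h7 : pz y z (SameType K) n ≠ ⊤ := by
    intro h8
    rw [h8, ENNReal.mul_top (by norm_num)] at h5
    exact h5 rfl
  refine ⟨h6, h7, ?_⟩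
  have h8 := congrArg ENNReal.toReal h2
  rw [ENNReal.toReal_add h4 h5, ENNReal.toReal_mul, ENNReal.toReal_mul, ENNReal.toReal_mul,
    ENNReal.toReal_ofReal hy.le, ENNReal.toReal_ofReal
      (mul_nonneg (KTen.zt_nonneg hy.le _ n) (pow_nonneg h.z_pos.le n))] at h8
  simpa using h8

private theorem tot_fin {z : ℝ} (h : Cr y z) (n : ℕ) : (KAmp.sys y z).tot n ≠ ⊤ := by
  have h1 := KAmp.tot_eq h.y_pos h.z_pos n
  have h3 : 2 * ENNReal.ofReal (Zt y UClass n * z ^ n) ≠ ⊤ :=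
    ENNReal.mul_ne_top (by norm_num) ENNReal.ofReal_ne_top
  rw [← h1] at h3
  obtain ⟨h4, -⟩ := ENNReal.add_ne_top.1 h3
  have hy' : ENNReal.ofReal y ≠ 0 := by
    rw [Ne, ENNReal.ofReal_eq_zero, not_le]
    exact h.y_pos
  intro h7
  rw [h7, ENNReal.mul_top hy'] at h4
  exact h4 rfl

/-- The rest is small. -/
private theorem rest_small {z : ℝ} (h : Cr y z) (K : Finset (Sym2 P3)) (N : ℕ) :
    Tendsto (fun k : ℕ => (pz y z (SameType K) (2 * k)).toReal /
      (((2 * k : ℕ) : ℝ) ^ N * (Zt y UClass (2 * k) * z ^ (2 * k)))) atTop (𝓝 0) := by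
  have hy := h.y_pos
  have hy1 : (1 : ℝ) ≤ y := le_trans (by norm_num) h.y_le
  obtain ⟨C, hC⟩ : ∃ C : ℝ≥0∞, C = ∑' E : KCls.PF,
      ENNReal.ofReal y ^ span E.1 * ENNReal.ofReal z ^ E.1.card * 2 ^ E.1.card := ⟨_, rfl⟩
  have hCt : C ≠ ⊤ := by
    rw [hC]
    exact KCls.un_geo' hy h.z_pos h.z_le h.q_le
  have hp : ∀ k : ℕ, (pz y z (SameType K) (2 * k)).toReal ≤ C.toReal * (1 / 4) ^ k := by
    intro k
    have h1 := pz_le y z (SameType K) (2 * k)
    rw [← hC] at h1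
    have h2 := ENNReal.toReal_mono hCt h1
    rw [ENNReal.toReal_mul, ENNReal.toReal_pow, ENNReal.toReal_ofNat, pow_mul] at h2
    have h3 : ((2 : ℝ) ^ 2) ^ k = 4 ^ k := by norm_num
    rw [h3] at h2
    rw [one_div, inv_pow, ← div_eq_mul_inv, le_div_iff₀ (by positivity)]
    exact h2
  have hg := KAmp.gr h.y_le h.z_pos h.z_le h.q_le h.one (1 / 10) (by norm_num)
  have hq := (KAmp.tot_asy h.y_le h.z_pos h.z_le h.q_le h.one).eventually
    (gt_mem_nhds (by norm_num : (2 : ℝ) < 3))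
  have hlim : Tendsto (fun k : ℕ => 3 * C.toReal / y * (1 / 4 * Real.exp (1 / 10)) ^ k) atTop
      (𝓝 0) := by
    have h4 : Real.exp (1 / 10) < 4 := by
      have h5 := Real.exp_lt_exp.2 (show (1 / 10 : ℝ) < 1 by norm_num)
      have h6 := Real.exp_one_lt_d9
      linarith
    have h7 := tendsto_pow_atTop_nhds_zero_of_lt_one (r := 1 / 4 * Real.exp (1 / 10))
      (by positivity) (by linarith)
    have h8 := h7.const_mul (3 * C.toReal / y)
    rwa [mul_zero] at h8
  refine squeeze_zero' (Eventually.of_forall fun k => ?_) ?_ hlim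
  · exact div_nonneg ENNReal.toReal_nonneg (mul_nonneg (by positivity)
      (mul_nonneg (KTen.zt_nonneg hy.le _ _) (pow_nonneg h.z_pos.le _)))
  · filter_upwards [hg, hq, eventually_ge_atTop 2] with k h1 h2 hk
    have hU : 0 < Zt y UClass (2 * k) * z ^ (2 * k) :=
      mul_pos (KRing.u_pos hy1 (even_two_mul k) (by omega)) (pow_pos h.z_pos _)
    have h3 : Real.exp (-(1 / 10) * k) ≤ ((KAmp.sys y z).tot (2 * k)).toReal := by
      have h4 := ENNReal.toReal_mono (tot_fin h (2 * k)) h1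
      rwa [ENNReal.toReal_ofReal (Real.exp_pos _).le] at h4
    rw [div_lt_iff₀ hU] at h2
    have h5 : y * Real.exp (-(1 / 10) * k) / 3 ≤ Zt y UClass (2 * k) * z ^ (2 * k) := by
      have h6 := mul_le_mul_of_nonneg_left h3 hy.le
      linarith
    have h7 : (1 : ℝ) ≤ ((2 * k : ℕ) : ℝ) ^ N := by
      refine one_le_pow₀ ?_
      exact_mod_cast (by omega : 1 ≤ 2 * k)
    have h8 : y * Real.exp (-(1 / 10) * k) / 3 ≤
        ((2 * k : ℕ) : ℝ) ^ N * (Zt y UClass (2 * k) * z ^ (2 * k)) :=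
      h5.trans (le_mul_of_one_le_left hU.le h7)
    have h9 : 0 < y * Real.exp (-(1 / 10) * k) / 3 := by positivity
    calc (pz y z (SameType K) (2 * k)).toReal /
        (((2 * k : ℕ) : ℝ) ^ N * (Zt y UClass (2 * k) * z ^ (2 * k)))
        ≤ C.toReal * (1 / 4) ^ k / (y * Real.exp (-(1 / 10) * k) / 3) :=
          div_le_div₀ (by positivity) (hp k) h9 h8
      _ = 3 * C.toReal / y * (1 / 4 * Real.exp (1 / 10)) ^ k := by
          have h10 : Real.exp (-(1 / 10) * k) = (Real.exp (1 / 10) ^ k)⁻¹ := by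
            rw [← Real.exp_nat_mul, ← Real.exp_neg]
            congr 1
            ring
          rw [h10, mul_pow]
          field_simp

/-- The main part is close to constants. -/
private theorem main_app {z : ℝ} (h : Cr y z) {K : Finset (Sym2 P3)} {N : ℕ}
    (hF : KTen.Few N K) {ε : ℝ} (hε : 0 < ε) : ∃ b : ℝ, ∀ᶠ k : ℕ in atTop,
      |(SA y z (fun x => SameType K (pol x)) (2 * k)).toReal /
        (((2 * k : ℕ) : ℝ) ^ N * ((KAmp.sys y z).tot (2 * k)).toReal) - b| ≤ ε := by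
  obtain ⟨n0, j0, ht⟩ := tail h (N := N) (T := SameType K)
    (fun E hE => KTen.hinv_few N K E hE hF) (ε := ENNReal.ofReal (ε / 2)) (by
      rw [Ne, ENNReal.ofReal_eq_zero, not_le]
      positivity)
  obtain ⟨b, hb⟩ := main_l h (typeClosed_type K) j0 N
  refine ⟨b, ?_⟩
  have hg := KAmp.gr h.y_le h.z_pos h.z_le h.q_le h.one (1 / 10) (by norm_num)
  have h5 := hb.eventually (Metric.closedBall_mem_nhds _ (by positivity : (0 : ℝ) < ε / 2))
  filter_upwards [hg, h5, eventually_ge_atTop (max n0 1)] with k h1 h2 hk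
  have hk1 : n0 ≤ k := le_trans (le_max_left _ _) hk
  have hk2 : 1 ≤ k := le_trans (le_max_right _ _) hk
  have htot : 0 < ((KAmp.sys y z).tot (2 * k)).toReal := by
    have h4 := ENNReal.toReal_mono (tot_fin h (2 * k)) h1
    rw [ENNReal.toReal_ofReal (Real.exp_pos _).le] at h4
    exact (Real.exp_pos _).trans_le h4
  have hn : (0 : ℝ) < ((2 * k : ℕ) : ℝ) := by exact_mod_cast (by omega : 0 < 2 * k)
  have hden : 0 < ((2 * k : ℕ) : ℝ) ^ N * ((KAmp.sys y z).tot (2 * k)).toReal :=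
    mul_pos (pow_pos hn N) htot
  obtain ⟨hs, -, -⟩ := real_tot h K (2 * k)
  have hmono : SA y z (fun x => SameType K (pol x) ∧ Good j0 N x) (2 * k) ≤
      SA y z (fun x => SameType K (pol x)) (2 * k) := sa_mono (fun _ h => h.1) _
  have hs' := ne_top_of_le_ne_top hs hmono
  have e1 := ENNReal.toReal_mono hs hmono
  have e2 := ht j0 le_rfl (2 * k) (by omega) (even_two_mul k)
  have hrt : ENNReal.ofReal (ε / 2) * ((2 * k : ℕ) : ℝ≥0∞) ^ N * (KAmp.sys y z).tot (2 * k) ≠ ⊤ :=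
    ENNReal.mul_ne_top (ENNReal.mul_ne_top ENNReal.ofReal_ne_top
      (ENNReal.pow_ne_top (ENNReal.natCast_ne_top _))) (tot_fin h (2 * k))
  have e3 := ENNReal.toReal_mono (ENNReal.add_ne_top.2 ⟨hs', hrt⟩) e2
  rw [ENNReal.toReal_add hs' hrt, ENNReal.toReal_mul, ENNReal.toReal_mul, ENNReal.toReal_pow,
    ENNReal.toReal_natCast, ENNReal.toReal_ofReal (by positivity)] at e3
  rw [Real.dist_eq] at h2
  obtain ⟨g1, g2⟩ := abs_le.1 h2
  have f1 : (SA y z (fun x => SameType K (pol x) ∧ Good j0 N x) (2 * k)).toReal /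
      (((2 * k : ℕ) : ℝ) ^ N * ((KAmp.sys y z).tot (2 * k)).toReal) ≤
      (SA y z (fun x => SameType K (pol x)) (2 * k)).toReal /
      (((2 * k : ℕ) : ℝ) ^ N * ((KAmp.sys y z).tot (2 * k)).toReal) :=
    div_le_div_of_nonneg_right e1 hden.le
  have f2 : (SA y z (fun x => SameType K (pol x)) (2 * k)).toReal /
      (((2 * k : ℕ) : ℝ) ^ N * ((KAmp.sys y z).tot (2 * k)).toReal) ≤
      (SA y z (fun x => SameType K (pol x) ∧ Good j0 N x) (2 * k)).toReal /
      (((2 * k : ℕ) : ℝ) ^ N * ((KAmp.sys y z).tot (2 * k)).toReal) + ε / 2 := by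
    rw [div_add' _ _ _ hden.ne']
    refine div_le_div_of_nonneg_right (e3.trans (le_of_eq ?_)) hden.le
    ring
  rw [abs_le]
  constructor <;> linarith

/-- KC22: **The amplitude of a composite knot.** -/
theorem comp_lim (hy : 10 ^ 24 ≤ y) {K R : Finset (Sym2 P3)} {N : ℕ} (hF : KTen.Few N K)
    (hR : KTen.Tower N R) (hKR : SameType K R) :
    ∃ A : ℝ, 0 < A ∧ Tendsto (fun k : ℕ => Zt y (KClass K) (2 * k) /
      (((2 * k : ℕ) : ℝ) ^ N * Zt y UClass (2 * k))) atTop (𝓝 A) := by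
  have hy1 : 4096 ≤ y := le_trans (by norm_num) hy
  obtain ⟨z, h⟩ := exists_cr hy
  obtain ⟨δ, hδ, n1, hlow⟩ := KRing.tower_lower hy1 hR hKR
  have hnpos : ∀ k : ℕ, 2 ≤ k → (0 : ℝ) < ((2 * k : ℕ) : ℝ) := fun k hk => by
    exact_mod_cast (by omega : 0 < 2 * k)
  have hupos : ∀ k : ℕ, 2 ≤ k → 0 < Zt y UClass (2 * k) := fun k hk =>
    KRing.u_pos (le_trans (by norm_num) hy1) (even_two_mul k) (by omega)
  have hg := KAmp.gr h.y_le h.z_pos h.z_le h.q_le h.one (1 / 10) (by norm_num)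
  have htot : ∀ᶠ k : ℕ in atTop, 0 < ((KAmp.sys y z).tot (2 * k)).toReal := by
    filter_upwards [hg] with k h1
    have h4 := ENNReal.toReal_mono (tot_fin h (2 * k)) h1
    rw [ENNReal.toReal_ofReal (Real.exp_pos _).le] at h4
    exact (Real.exp_pos _).trans_le h4
  have hq := KAmp.tot_asy h.y_le h.z_pos h.z_le h.q_le h.one
  have he := rest_small h K N
  -- the identity
  have hid : ∀ᶠ k : ℕ in atTop, Zt y (KClass K) (2 * k) /
      (((2 * k : ℕ) : ℝ) ^ N * Zt y UClass (2 * k)) =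
      (SA y z (fun x => SameType K (pol x)) (2 * k)).toReal /
        (((2 * k : ℕ) : ℝ) ^ N * ((KAmp.sys y z).tot (2 * k)).toReal) *
        (y * ((KAmp.sys y z).tot (2 * k)).toReal /
          (Zt y UClass (2 * k) * z ^ (2 * k)) / 2) +
        (pz y z (SameType K) (2 * k)).toReal /
          (((2 * k : ℕ) : ℝ) ^ N * (Zt y UClass (2 * k) * z ^ (2 * k))) := by
    filter_upwards [htot, eventually_ge_atTop 2] with k h1 hk
    obtain ⟨-, -, h2⟩ := real_tot h K (2 * k)
    have h3 := (hnpos k hk).ne'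
    have h4 := (hupos k hk).ne'
    have h5 := (pow_pos h.z_pos (2 * k)).ne'
    have h6 := h1.ne'
    have h7 : Zt y (KClass K) (2 * k) =
        (y * (SA y z (fun x => SameType K (pol x)) (2 * k)).toReal / 2 +
          (pz y z (SameType K) (2 * k)).toReal) / z ^ (2 * k) := by
      rw [eq_div_iff h5]
      linarith
    rw [h7]
    generalize (SA y z (fun x => SameType K (pol x)) (2 * k)).toReal = s at *
    generalize (pz y z (SameType K) (2 * k)).toReal = p at *
    generalize ((KAmp.sys y z).tot (2 * k)).toReal = t at *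
    generalize Zt y UClass (2 * k) = U at *
    generalize z ^ (2 * k) = Z at *
    generalize ((2 * k : ℕ) : ℝ) = n at *
    have h8 : n ^ N ≠ 0 := pow_ne_zero N h3
    field_simp
  -- the main part converges
  obtain ⟨A, hA, hlim⟩ := fin_cauchy (a := fun k : ℕ =>
      (SA y z (fun x => SameType K (pol x)) (2 * k)).toReal /
        (((2 * k : ℕ) : ℝ) ^ N * ((KAmp.sys y z).tot (2 * k)).toReal)) (δ := δ / 4)
      (by positivity) (by
        filter_upwards [hid, he.eventually (gt_mem_nhds (by positivity : (0 : ℝ) < δ / 2)),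
          hq.eventually (gt_mem_nhds (by norm_num : (2 : ℝ) < 4)),
          eventually_ge_atTop (max n1 2)] with k h1 h2 h3 hk
        have hk1 : n1 ≤ k := le_trans (le_max_left _ _) hk
        have hk2 : 2 ≤ k := le_trans (le_max_right _ _) hk
        have h4 : δ ≤ Zt y (KClass K) (2 * k) /
            (((2 * k : ℕ) : ℝ) ^ N * Zt y UClass (2 * k)) := by
          rw [le_div_iff₀ (mul_pos (pow_pos (hnpos k hk2) N) (hupos k hk2)), ← mul_assoc]
          exact hlow (2 * k) (by omega)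
        rw [h1] at h4
        have h5 : 0 ≤ (SA y z (fun x => SameType K (pol x)) (2 * k)).toReal /
            (((2 * k : ℕ) : ℝ) ^ N * ((KAmp.sys y z).tot (2 * k)).toReal) :=
          div_nonneg ENNReal.toReal_nonneg (mul_nonneg (by positivity) ENNReal.toReal_nonneg)
        have h6 := mul_le_mul_of_nonneg_left (show y * ((KAmp.sys y z).tot (2 * k)).toReal /
          (Zt y UClass (2 * k) * z ^ (2 * k)) / 2 ≤ 2 by linarith) h5
        linarith) (fun ε hε => main_app h hF hε)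
  refine ⟨A, hA, ?_⟩
  have h1 := (hlim.mul (hq.div_const 2)).add he
  rw [div_self (by norm_num : (2 : ℝ) ≠ 0), mul_one, add_zero] at h1
  exact h1.congr' (hid.mono fun k hk => hk.symm)

/-- KC23: **Asymptotics of all knot types.** -/
theorem main {G : Subgroup (R3 ≃ₜ R3)} (hG : ∀ t : R3, Homeomorph.addRight t ∈ G)
    (hG' : ∀ φ : R3 ≃ₜ R3, φ ∈ G ∨ φ * negY ∈ G) (hy : 10 ^ 24 ≤ y) : ∃ μ : ℝ, 0 < μ ∧
    (∃ A : ℝ, 0 < A ∧ Tendsto (fun k : ℕ => Zt y UClass (2 * k) /
      (μ ^ (2 * k) / (((2 * k : ℕ) : ℝ) * Real.log ((2 * k : ℕ) : ℝ) ^ 2))) atTop (𝓝 A)) ∧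
    ∀ (K R : Finset (Sym2 P3)) (N : ℕ), KTen.Few N K → KTen.Tower N R → SameType K R →
      ∃ A : ℝ, 0 < A ∧ Tendsto (fun k : ℕ => Zt y (GClass G K) (2 * k) /
        (((2 * k : ℕ) : ℝ) ^ N * μ ^ (2 * k) /
          (((2 * k : ℕ) : ℝ) * Real.log ((2 * k : ℕ) : ℝ) ^ 2))) atTop (𝓝 A) := by
  have hy1 : 4096 ≤ y := le_trans (by norm_num) hy
  obtain ⟨μ, hμ, A, hA, hU⟩ := KAsym.main hy
  refine ⟨μ, hμ, ⟨A, hA, hU⟩, fun K R N hF hR hKR => ?_⟩
  obtain ⟨A', hA', hZ⟩ := comp_lim hy hF hR hKR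
  have key : ∀ c : ℝ, 0 < c → (∀ n, Zt y (GClass G K) n = c * Zt y (KClass K) n) →
      ∃ A : ℝ, 0 < A ∧ Tendsto (fun k : ℕ => Zt y (GClass G K) (2 * k) /
        (((2 * k : ℕ) : ℝ) ^ N * μ ^ (2 * k) /
          (((2 * k : ℕ) : ℝ) * Real.log ((2 * k : ℕ) : ℝ) ^ 2))) atTop (𝓝 A) := by
    intro c hc h
    refine ⟨c * A' * A, by positivity, ((hZ.const_mul c).mul hU).congr' ?_⟩
    filter_upwards [eventually_ge_atTop 2] with k hk
    have h1 : 0 < Zt y UClass (2 * k) :=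
      KRing.u_pos (le_trans (by norm_num) hy1) (even_two_mul k) (by omega)
    have h2 : (0 : ℝ) < ((2 * k : ℕ) : ℝ) := by exact_mod_cast (by omega : 0 < 2 * k)
    have h3 : (1 : ℝ) < ((2 * k : ℕ) : ℝ) := by exact_mod_cast (by omega : 1 < 2 * k)
    have h4 : 0 < Real.log ((2 * k : ℕ) : ℝ) := Real.log_pos h3
    have h5 : 0 < μ ^ (2 * k) := pow_pos hμ _
    have h6 : 0 < ((2 * k : ℕ) : ℝ) ^ N := pow_pos h2 N
    rw [h (2 * k)]
    generalize Real.log ((2 * k : ℕ) : ℝ) = L at *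
    generalize ((2 * k : ℕ) : ℝ) ^ N = P at *
    generalize ((2 * k : ℕ) : ℝ) = n at *
    generalize μ ^ (2 * k) = M at *
    field_simp
  rcases KTen.zt_gclass hG hG' K with h | h
  · exact key 1 one_pos fun n => by rw [one_mul]; exact h y n
  · exact key (1 / 2) (by norm_num) fun n => by rw [← h y n]; ring

end Pool.Agent.KComp
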