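import Pool.Agent.KComp.Path

/-! KC7a: replacing gaps by paths.

PROOF. `D` is the finite set of paths of `exists_paths`; all its elements have the same number
`mm u * M0 z` of blocks and `lam z u` points, and `1 ≤ 40 ^ mm u * ∑ s ∈ D, ww y z s`.
`kn_pre`: `KN n (v+u) w ≤ 40 ^ mm u * ∑ s ∈ D, ww s * KN n (v+u) w`, and `(s, s') ↦ s ++ s'` is injective on
`D ×` lists, with values in the chains from `v` to `w` with `n + lam z u` points (`KTop.uc_append`,
`ed_append`, `ww_append`). `kn_app`: the same with paths from `w` to `w + u` at the end; injective because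
the length of the last part is fixed. `kn_mark`: for each displacement `x` (`x ≠ 0`, `x + u ≠ 0`) let `D x` be
the paths from `x` to `x + u`; the left side is at most `40 ^ mm u` times the sum over
`x, s1 : v → x, d ∈ D x, s2 : x + u → w` (with `(s1.map ln).sum + (s2.map ln).sum = n`) of
`ww s1 * ww d * ww s2 = ww (s1 ++ d ++ s2)`, and `(x, s1, d, s2) ↦ (s1 ++ d ++ s2, s1.length)` is injective
(`x = ed v s1`), with values in the chains with `n + lam z u` points times the numbers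
`≤ n + lam z u` (each block has at least two points). -/

set_option autoImplicit false

open Pool.Agent.LK
open scoped ENNReal

namespace Pool.Agent.KComp

open Pool.Agent.KTube Pool.Agent.KRing Pool.Agent.KLog
open Pool.Agent.KAsym (ln)
open Pool.Agent.KTop (GC UC ed)

variable {y z : ℝ} {v w u : ℤ × ℤ}

/-- Comparison of sums along a map which is injective on the support. -/
private theorem kn_inj {ι κ : Type*} (P : ι → Prop) (f : ι → ℝ≥0∞) (g : κ → ℝ≥0∞) (φ : ι → κ)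
    (hinj : ∀ i j, P i → P j → φ i = φ j → i = j) (hle : ∀ i, P i → f i ≤ g (φ i))
    (h0 : ∀ i, ¬ P i → f i = 0) : ∑' i, f i ≤ ∑' k, g k := by
  have h1 : ∑' i, f i = ∑' i : {i // P i}, f i := by
    symm
    refine tsum_subtype_eq_of_support_subset (s := {i | P i}) fun i hi => ?_
    by_contra hP
    exact hi (h0 i hP)
  rw [h1]
  refine (ENNReal.tsum_le_tsum fun i : {i // P i} => hle i.1 i.2).trans ?_
  refine ENNReal.tsum_comp_le_tsum_of_injective (f := fun i : {i // P i} => φ i.1) ?_ g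
  intro i j hij
  exact Subtype.ext (hinj i.1 j.1 i.2 j.2 hij)

private theorem kn_mul {ι κ : Type*} (a : ι → ℝ≥0∞) (b : κ → ℝ≥0∞) :
    (∑' i, a i) * ∑' k, b k = ∑' p : ι × κ, a p.1 * b p.2 := by
  rw [ENNReal.tsum_prod' (f := fun p : ι × κ => a p.1 * b p.2), ← ENNReal.tsum_mul_right]
  exact tsum_congr fun i => ENNReal.tsum_mul_left.symm

open Classical in
private theorem kn_fin (D : Finset (List PP)) (f : List PP → ℝ≥0∞) :
    ∑ d ∈ D, f d = ∑' d, if d ∈ D then f d else 0 := by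
  have h1 : ∑' d, (if d ∈ D then f d else 0) = ∑ d ∈ D, if d ∈ D then f d else 0 :=
    tsum_eq_sum fun d hd => if_neg hd
  rw [h1]
  exact Finset.sum_congr rfl fun d hd => (if_pos hd).symm

private theorem kn_len (s : List PP) : s.length ≤ (s.map ln).sum := by
  induction s with
  | nil => simp
  | cons π s ih =>
    have h1 : 1 ≤ ln π := by
      unfold ln
      omega
    simp only [List.length_cons, List.map_cons, List.sum_cons]
    omega

theorem kn_pre (h : Cr y z) (hv : v ≠ 0) (hu : v + u ≠ 0) (n : ℕ) (w : ℤ × ℤ) :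
    KN y z n (v + u) w ≤ 40 ^ mm u * KN y z (n + lam z u) v w := by
  classical
  obtain ⟨D, hD, h1⟩ := exists_paths h hv hu
  have h2 : (∑ d ∈ D, ww y z d) * KN y z n (v + u) w ≤ KN y z (n + lam z u) v w := by
    rw [kn_fin]
    unfold KN
    rw [kn_mul]
    refine kn_inj (fun p => p.1 ∈ D ∧ UC (v + u) p.2 ∧ ed (v + u) p.2 = w ∧
      (p.2.map ln).sum = n) _ _ (fun p => p.1 ++ p.2) ?_ ?_ ?_
    · rintro ⟨d, s⟩ ⟨d', s'⟩ ⟨hd, -⟩ ⟨hd', -⟩ he
      have hl : d.length = d'.length := by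
        rw [(hD d hd).2.2.1, (hD d' hd').2.2.1]
      obtain ⟨rfl, rfl⟩ := List.append_inj he hl
      rfl
    · rintro ⟨d, s⟩ ⟨hd, hs⟩
      obtain ⟨h3, h4, -, h5⟩ := hD d hd
      simp only at hd hs ⊢
      rw [if_pos hd, if_pos hs, if_pos, ww_append]
      refine ⟨?_, ?_, ?_⟩
      · rw [KTop.uc_append, h4]
        exact ⟨h3, hs.1⟩
      · rw [KTop.ed_append, h4]
        exact hs.2.1
      · rw [List.map_append, List.sum_append, h5, hs.2.2, Nat.add_comm]
    · rintro ⟨d, s⟩ hn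
      simp only at hn ⊢
      by_cases hd : d ∈ D
      · rw [if_neg fun hs => hn ⟨hd, hs⟩, mul_zero]
      · rw [if_neg hd, zero_mul]
  calc KN y z n (v + u) w = 1 * KN y z n (v + u) w := (one_mul _).symm
    _ ≤ (40 ^ mm u * ∑ d ∈ D, ww y z d) * KN y z n (v + u) w := by gcongr
    _ = 40 ^ mm u * ((∑ d ∈ D, ww y z d) * KN y z n (v + u) w) := mul_assoc _ _ _
    _ ≤ _ := by gcongr

theorem kn_app (h : Cr y z) (hw : w ≠ 0) (hu : w + u ≠ 0) (n : ℕ) (v : ℤ × ℤ) :
    KN y z n v w ≤ 40 ^ mm u * KN y z (n + lam z u) v (w + u) := by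
  classical
  obtain ⟨D, hD, h1⟩ := exists_paths h hw hu
  have h2 : KN y z n v w * (∑ d ∈ D, ww y z d) ≤ KN y z (n + lam z u) v (w + u) := by
    rw [kn_fin]
    unfold KN
    rw [kn_mul]
    refine kn_inj (fun p => (UC v p.1 ∧ ed v p.1 = w ∧ (p.1.map ln).sum = n) ∧ p.2 ∈ D) _ _
      (fun p => p.1 ++ p.2) ?_ ?_ ?_
    · rintro ⟨s, d⟩ ⟨s', d'⟩ ⟨-, hd⟩ ⟨-, hd'⟩ he
      have hl : d.length = d'.length := by
        rw [(hD d hd).2.2.1, (hD d' hd').2.2.1]
      obtain ⟨rfl, rfl⟩ := List.append_inj' he hl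
      rfl
    · rintro ⟨s, d⟩ ⟨hs, hd⟩
      obtain ⟨h3, h4, -, h5⟩ := hD d hd
      simp only at hd hs ⊢
      rw [if_pos hd, if_pos hs, if_pos, ww_append]
      refine ⟨?_, ?_, ?_⟩
      · rw [KTop.uc_append, hs.2.1]
        exact ⟨hs.1, h3⟩
      · rw [KTop.ed_append, hs.2.1]
        exact h4
      · rw [List.map_append, List.sum_append, h5, hs.2.2]
    · rintro ⟨s, d⟩ hn
      simp only at hn ⊢
      by_cases hd : d ∈ D
      · rw [if_neg fun hs => hn ⟨hs, hd⟩, zero_mul]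
      · rw [if_neg hd, mul_zero]
  calc KN y z n v w = 1 * KN y z n v w := (one_mul _).symm
    _ ≤ (40 ^ mm u * ∑ d ∈ D, ww y z d) * KN y z n v w := by gcongr
    _ = 40 ^ mm u * (KN y z n v w * (∑ d ∈ D, ww y z d)) := by
        rw [mul_assoc, mul_comm (∑ d ∈ D, ww y z d)]
    _ ≤ _ := by gcongr

open Classical in
/-- The convolution of the weights of two chains. -/
private theorem kn_conv (n : ℕ) (v x x' w : ℤ × ℤ) :
    ∑ p ∈ Finset.HasAntidiagonal.antidiagonal n, KN y z p.1 v x * KN y z p.2 x' w ≤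
      ∑' q : List PP × List PP, if (UC v q.1 ∧ ed v q.1 = x) ∧ (UC x' q.2 ∧ ed x' q.2 = w) ∧
        (q.1.map ln).sum + (q.2.map ln).sum = n then ww y z q.1 * ww y z q.2 else 0 := by
  unfold KN
  simp only [kn_mul]
  rw [← Summable.tsum_finsetSum fun _ _ => ENNReal.summable]
  refine ENNReal.tsum_le_tsum fun q => ?_
  by_cases hn : (q.1.map ln).sum + (q.2.map ln).sum = n
  · rw [Finset.sum_eq_single_of_mem ((q.1.map ln).sum, (q.2.map ln).sum)
      (Finset.HasAntidiagonal.mem_antidiagonal.2 hn)]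
    · by_cases h1 : UC v q.1 ∧ ed v q.1 = x
      · by_cases h2 : UC x' q.2 ∧ ed x' q.2 = w
        · rw [if_pos ⟨h1.1, h1.2, rfl⟩, if_pos ⟨h2.1, h2.2, rfl⟩, if_pos ⟨h1, h2, hn⟩]
        · rw [if_neg (fun h3 => h2 ⟨h3.1, h3.2.1⟩ : ¬ (UC x' q.2 ∧ ed x' q.2 = w ∧ _)), mul_zero]
          exact zero_le
      · rw [if_neg fun h3 => h1 ⟨h3.1, h3.2.1⟩, zero_mul]
        exact zero_le
    · intro p _ hp
      by_cases h1 : (q.1.map ln).sum = p.1
      · by_cases h2 : (q.2.map ln).sum = p.2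
        · exact absurd (Prod.ext h1.symm h2.symm) hp
        · rw [if_neg (fun h3 => h2 h3.2.2 : ¬ (UC x' q.2 ∧ ed x' q.2 = w ∧ _)), mul_zero]
      · rw [if_neg (fun h3 => h1 h3.2.2 : ¬ (UC v q.1 ∧ ed v q.1 = x ∧ _)), zero_mul]
  · rw [Finset.sum_eq_zero]
    · exact zero_le
    · intro p hp
      by_cases h1 : (q.1.map ln).sum = p.1
      · by_cases h2 : (q.2.map ln).sum = p.2
        · exact absurd (by rw [h1, h2]; exact Finset.HasAntidiagonal.mem_antidiagonal.1 hp) hn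
        · rw [if_neg (fun h3 => h2 h3.2.2 : ¬ (UC x' q.2 ∧ ed x' q.2 = w ∧ _)), mul_zero]
      · rw [if_neg (fun h3 => h1 h3.2.2 : ¬ (UC v q.1 ∧ ed v q.1 = x ∧ _)), zero_mul]

open Classical in
theorem kn_mark (h : Cr y z) (u : ℤ × ℤ) (n : ℕ) (v w : ℤ × ℤ) :
    ∑' x : ℤ × ℤ, (if x ≠ 0 ∧ x + u ≠ 0 then
      ∑ p ∈ Finset.HasAntidiagonal.antidiagonal n, KN y z p.1 v x * KN y z p.2 (x + u) w else 0) ≤
      40 ^ mm u * ((n + lam z u + 1 : ℕ) : ℝ≥0∞) * KN y z (n + lam z u) v w := by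
  have hex : ∀ x : ℤ × ℤ, ∃ D : Finset (List PP), x ≠ 0 → x + u ≠ 0 →
      (∀ s ∈ D, UC x s ∧ ed x s = x + u ∧ s.length = mm u * M0 z ∧ (s.map ln).sum = lam z u) ∧
      1 ≤ 40 ^ mm u * ∑ s ∈ D, ww y z s := by
    intro x
    by_cases hx : x ≠ 0 ∧ x + u ≠ 0
    · obtain ⟨D, h1⟩ := exists_paths h hx.1 hx.2
      exact ⟨D, fun _ _ => h1⟩
    · exact ⟨∅, fun h1 h2 => absurd ⟨h1, h2⟩ hx⟩
  choose D hD using hex
  -- the condition and the terms
  set P : (ℤ × ℤ) × (List PP × List PP) × List PP → Prop := fun i =>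
    (i.1 ≠ 0 ∧ i.1 + u ≠ 0) ∧ ((UC v i.2.1.1 ∧ ed v i.2.1.1 = i.1) ∧
      (UC (i.1 + u) i.2.1.2 ∧ ed (i.1 + u) i.2.1.2 = w) ∧
      (i.2.1.1.map ln).sum + (i.2.1.2.map ln).sum = n) ∧ i.2.2 ∈ D i.1 with hP
  set F : (ℤ × ℤ) × (List PP × List PP) × List PP → ℝ≥0∞ := fun i =>
    if P i then ww y z i.2.1.1 * ww y z i.2.1.2 * ww y z i.2.2 else 0 with hF
  have h1 : ∀ x : ℤ × ℤ, (if x ≠ 0 ∧ x + u ≠ 0 then
      ∑ p ∈ Finset.HasAntidiagonal.antidiagonal n, KN y z p.1 v x * KN y z p.2 (x + u) w else 0) ≤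
      40 ^ mm u * ∑' j : (List PP × List PP) × List PP, F (x, j) := by
    intro x
    by_cases hx : x ≠ 0 ∧ x + u ≠ 0
    · rw [if_pos hx]
      refine (kn_conv n v x (x + u) w).trans ?_
      obtain ⟨-, h2⟩ := hD x hx.1 hx.2
      have h3 : ∑' j : (List PP × List PP) × List PP, F (x, j) =
          (∑' q : List PP × List PP, if (UC v q.1 ∧ ed v q.1 = x) ∧
            (UC (x + u) q.2 ∧ ed (x + u) q.2 = w) ∧
            (q.1.map ln).sum + (q.2.map ln).sum = n then ww y z q.1 * ww y z q.2 else 0) *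
          ∑ d ∈ D x, ww y z d := by
        rw [kn_fin, kn_mul]
        refine tsum_congr fun j => ?_
        simp only [hF, hP]
        by_cases hq : (UC v j.1.1 ∧ ed v j.1.1 = x) ∧
            (UC (x + u) j.1.2 ∧ ed (x + u) j.1.2 = w) ∧
            (j.1.1.map ln).sum + (j.1.2.map ln).sum = n
        · by_cases hd : j.2 ∈ D x
          · rw [if_pos ⟨hx, hq, hd⟩, if_pos hq, if_pos hd]
          · rw [if_neg fun h4 => hd h4.2.2, if_neg hd, mul_zero]
        · rw [if_neg fun h4 => hq h4.2.1, if_neg hq, zero_mul]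
      rw [h3]
      set A := ∑' q : List PP × List PP, if (UC v q.1 ∧ ed v q.1 = x) ∧
            (UC (x + u) q.2 ∧ ed (x + u) q.2 = w) ∧
            (q.1.map ln).sum + (q.2.map ln).sum = n then ww y z q.1 * ww y z q.2 else 0
      calc A = 1 * A := (one_mul _).symm
        _ ≤ (40 ^ mm u * ∑ d ∈ D x, ww y z d) * A := by gcongr
        _ = 40 ^ mm u * (A * ∑ d ∈ D x, ww y z d) := by
            rw [mul_assoc, mul_comm (∑ d ∈ D x, ww y z d)]
    · rw [if_neg hx]
      exact zero_le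
  refine (ENNReal.tsum_le_tsum h1).trans ?_
  rw [ENNReal.tsum_mul_left, ← ENNReal.tsum_prod' (f := F), mul_assoc]
  refine mul_le_mul_right ?_ _
  -- the injection
  have h2 : ∑' i, F i ≤ ∑' k : List PP × ℕ,
      (if UC v k.1 ∧ ed v k.1 = w ∧ (k.1.map ln).sum = n + lam z u then ww y z k.1 else 0) *
        (if k.2 < n + lam z u + 1 then 1 else 0) := by
    refine kn_inj P F _ (fun i => (i.2.1.1 ++ (i.2.2 ++ i.2.1.2), i.2.1.1.length)) ?_ ?_ ?_
    · rintro ⟨x, ⟨s, t⟩, d⟩ ⟨x', ⟨s', t'⟩, d'⟩ ⟨hx, ⟨⟨-, hs⟩, -⟩, hd⟩ ⟨hx', ⟨⟨-, hs'⟩, -⟩, hd'⟩ he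
      simp only [Prod.mk.injEq] at he hx hx' hs hs' hd hd'
      obtain ⟨rfl, he2⟩ := List.append_inj he.1 he.2
      rw [hs] at hs'
      subst hs'
      have hl : d.length = d'.length := by
        rw [((hD x hx.1 hx.2).1 d hd).2.2.1, ((hD x hx.1 hx.2).1 d' hd').2.2.1]
      obtain ⟨rfl, rfl⟩ := List.append_inj he2 hl
      rfl
    · rintro ⟨x, ⟨s, t⟩, d⟩ hi
      have hi' := hi
      obtain ⟨hx, ⟨⟨hs1, hs2⟩, ⟨ht1, ht2⟩, hn⟩, hd⟩ := hi
      simp only at hx hs1 hs2 ht1 ht2 hn hd ⊢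
      obtain ⟨h3, h4, -, h5⟩ := (hD x hx.1 hx.2).1 d hd
      have h6 := kn_len s
      rw [hF]
      simp only
      rw [if_pos hi', if_pos, if_pos (by omega), mul_one, ww_append, ww_append]
      · exact le_of_eq (by ring)
      · refine ⟨?_, ?_, ?_⟩
        · rw [KTop.uc_append, hs2, KTop.uc_append, h4]
          exact ⟨hs1, h3, ht1⟩
        · rw [KTop.ed_append, hs2, KTop.ed_append, h4]
          exact ht2
        · simp only [List.map_append, List.sum_append]
          omega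
    · intro i hi
      exact if_neg hi
  refine h2.trans (le_of_eq ?_)
  rw [← kn_mul (fun k : List PP => if UC v k ∧ ed v k = w ∧ (k.map ln).sum = n + lam z u then
    ww y z k else 0) (fun j : ℕ => if j < n + lam z u + 1 then (1 : ℝ≥0∞) else 0), mul_comm]
  congr 1
  rw [tsum_eq_sum (s := Finset.range (n + lam z u + 1))]
  · rw [Finset.sum_congr rfl fun j hj => if_pos (Finset.mem_range.1 hj)]
    simp
  · intro j hj
    exact if_neg fun h3 => hj (Finset.mem_range.2 h3)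

end Pool.Agent.KComp
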