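import Pool.Agent.KComp.Basic

/-! KC12: the type of a polygon whose knotted blocks are far from the origin depends only on their
words. -/

set_option autoImplicit false

open Pool.Agent.LK
open scoped ENNReal

namespace Pool.Agent.KComp

open Pool.Agent.KTube Pool.Agent.KRing Pool.Agent.KLog
open Pool.Agent.KAmp (gl)
open Pool.Agent.KTop (GC UC ed ed_nil ed_cons ed_append Rz TypeN)

variable {v v' : ℤ × ℤ} {π : PP} {l : List P3} {s πs : List PP}

theorem rz_mk (h : Rz πs v l) (hs : GC v s) (hf : ∀ m ∈ mk v s, nh m.2 < nrm m.1) :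
    Rz (πs ++ (mk v s).map Prod.snd) (ed v s) (gl v l s) := by
  induction s generalizing v l πs with
  | nil =>
    rw [ed_nil]
    change Rz (πs ++ []) v l
    rwa [List.append_nil]
  | cons π s ih =>
    rw [ed_cons]
    rw [mk_cons] at hf ⊢
    by_cases hu : Unk v π
    · rw [if_pos hu] at hf ⊢
      exact ih (h.unk ⟨hs.1, hu⟩) hs.2 hf
    · rw [if_neg hu] at hf ⊢
      have h1 := ih (h.far hs.1 (hf _ List.mem_cons_self)) hs.2
        fun m hm => hf m (List.mem_cons_of_mem _ hm)
      rw [List.append_assoc] at h1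
      exact h1

/-- **The type of a polygon whose marks are far from the origin.** -/
theorem type_far {T : Finset (Sym2 P3) → Prop} (hT : TypeClosed T) (x : CA) (h1 : UH x.1.1)
    (h2 : UH x.1.2.2) (hf : ∀ m ∈ mkA x, nh m.2 < nrm m.1) :
    T (pol x) ↔ TypeN T ((mkA x).map Prod.snd) := by
  have h := rz_mk (Rz.nil h1) x.2.1 hf
  rw [List.nil_append] at h
  have h3 : LU 0 0 (ed x.1.1.1 x.1.2.1) x.1.2.2.2.1 := by
    rw [x.2.2]
    exact h2
  exact KTop.typeN_iff hT h h3

/-- Far from the origin `Kn` does not depend on the displacement. -/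
theorem kn_far (h : nh π < nrm v) (h' : nh π < nrm v') : Kn v π ↔ Kn v' π := by
  have key : ∀ {v v' : ℤ × ℤ}, nh π < nrm v → nh π < nrm v' → Kn v π → Kn v' π := by
    intro v v' h h' hk
    have hg : Geo v' π := geo_far hk.1 h h'
    refine ⟨hg, fun hu => hk.2 ?_⟩
    exact ((valid_far h).2 ((valid_far h').1 ⟨hg, hu⟩)).2
  exact ⟨key h h', key h' h⟩

end Pool.Agent.KComp
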