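import Pool.Agent.KComp.NearOne
import Pool.Agent.KComp.Bound

/-! KC19b: gaps near the origin are negligible.

PROOF. `near_l`: `nest_mid` and `near_one` with `Q = UH`, `L = La (qs1 ++ qs2)`, `q = qs1.length + qs2.length`,
`N = 2k - a + L + lam z q0.2`: `TQ (2k - a) ≤ Pm * 40 ^ mm q0.2 * (2k - a + L + 1) ^ q *
S.sum N (oc + 1)`. `N - 2k` is constant for `2k ≥ a`. If it is odd then `S.tot N = 0` (`tot_odd`), so all
chains with `N` points have the weight `0`, and the right side is `0`. If it is even, `N = 2k'`: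
`S.sum (2k') oc / (2k' tot (2k')) → 0` (`KAmp.lln_near`, `h.ok`, `h.gr`), `tot (2k') / (2k' tot (2k')) → 0`, and
`(2k - a + L + 1) ^ q * 2k' * tot (2k') / ((2k) ^ (q + 1) * tot (2k)) → 1` (`KAmp.tot_ratio` or
`tot_poly`). All quantities are finite (`h.fin`, `sum_fin`), `ENNReal.toReal_mono`. -/

set_option autoImplicit false

open Filter Topology
open Pool.Agent.LK
open scoped ENNReal

namespace Pool.Agent.KComp

open Pool.Agent.KTube Pool.Agent.KRing Pool.Agent.KLog
open Pool.Agent.KAmp (sys nT nT_shift Sys)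

variable {y z : ℝ}

/-- The number of elements near the origin, plus one. -/
private noncomputable def ocp (y z : ℝ) (R : ℕ) (x : (sys y z).Ch) : ℝ≥0∞ :=
  (((sys y z).oc (fun v _ => nrm v ≤ R) x + 1 : ℕ) : ℝ≥0∞)

private theorem sum_ocp_le (h : Cr y z) (R n : ℕ) :
    (sys y z).sum n (ocp y z R) ≤ (sys y z).tot n * ((n + 1 : ℕ) : ℝ≥0∞) := by
  unfold Sys.tot Sys.sum
  rw [← ENNReal.tsum_mul_right]
  refine ENNReal.tsum_le_tsum fun x => ?_
  rw [mul_one]
  refine mul_le_mul_right ?_ _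
  unfold ocp
  have h1 := KAmp.occ_le (κ := (sys y z).κ) (fun v _ => nrm v ≤ R) ((sys y z).pos x.1.1.1)
    x.1.1.2.1
  have h2 := KAmp.two_length_le h.ok x.1
  have h3 := x.2
  have h4 : (sys y z).oc (fun v _ => nrm v ≤ R) x.1 + 1 ≤ n + 1 := by
    unfold Sys.oc
    omega
  exact_mod_cast h4

private theorem sum_ocp_fin (h : Cr y z) (R n : ℕ) : (sys y z).sum n (ocp y z R) ≠ ⊤ :=
  ne_top_of_le_ne_top (ENNReal.mul_ne_top (h.fin n) (ENNReal.natCast_ne_top _))
    (sum_ocp_le h R n)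

private theorem sum_ocp_zero (h : Cr y z) (R n : ℕ) (h0 : (sys y z).tot n = 0) :
    (sys y z).sum n (ocp y z R) = 0 := by
  have h1 := sum_ocp_le h R n
  rw [h0, zero_mul] at h1
  exact le_antisymm h1 zero_le

private theorem sum_ocp_eq (R n : ℕ) : (sys y z).sum n (ocp y z R) =
    (sys y z).sum n (fun x => ((sys y z).oc (fun v _ => nrm v ≤ R) x : ℝ≥0∞)) +
      (sys y z).tot n := by
  unfold Sys.tot Sys.sum
  rw [← ENNReal.tsum_add]
  refine tsum_congr fun x => ?_
  unfold ocp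
  push_cast
  rw [mul_add]

private theorem ocp_lim (h : Cr y z) (R : ℕ) :
    Tendsto (fun k : ℕ => ((sys y z).sum (2 * k) (ocp y z R)).toReal / nT y z (2 * k)) atTop
      (𝓝 0) := by
  have h1 := KAmp.lln_near h.ok h.gr R
  have hinv : Tendsto (fun k : ℕ => 1 / ((2 * k : ℕ) : ℝ)) atTop (𝓝 0) := by
    have h3 : Tendsto (fun k : ℕ => ((2 * k : ℕ) : ℝ)) atTop atTop :=
      tendsto_natCast_atTop_atTop.comp (tendsto_id.const_mul_atTop' (by norm_num))
    refine h3.inv_tendsto_atTop.congr fun k => ?_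
    rw [Pi.inv_apply, one_div]
  have h2 := h1.add hinv
  rw [add_zero] at h2
  refine squeeze_zero (fun k => ?_) (fun k => ?_) h2
  · unfold nT
    positivity
  · have h3 := sum_ocp_fin h R (2 * k)
    rw [sum_ocp_eq] at h3 ⊢
    rw [ENNReal.add_ne_top] at h3
    rw [ENNReal.toReal_add h3.1 h3.2, add_div]
    unfold nT
    refine add_le_add le_rfl ?_
    rcases eq_or_ne ((sys y z).tot (2 * k)).toReal 0 with h0 | h0
    · rw [h0, mul_zero, div_zero]
      positivity
    · rw [mul_comm ((2 * k : ℕ) : ℝ), ← div_div, div_self h0]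

private theorem pm_fin (qs : List ((ℤ × ℤ → Prop) × (ℤ × ℤ))) : Pm qs ≠ ⊤ := by
  unfold Pm
  induction qs with
  | nil => simp
  | cons q qs ih =>
    rw [List.map_cons, List.prod_cons]
    exact ENNReal.mul_ne_top (ENNReal.pow_ne_top (by norm_num)) ih

/-- KC19b. -/
theorem near_l (h : Cr y z) {qs1 qs2 : List ((ℤ × ℤ → Prop) × (ℤ × ℤ))}
    {q0 : (ℤ × ℤ → Prop) × (ℤ × ℤ)} {R : ℕ} (hqs : GapOk (qs1 ++ q0 :: qs2))
    (hR : ∀ v, q0.1 v → nrm v ≤ R) (a : ℕ) :
    Tendsto (fun k : ℕ => (TQ y z UH (qs1 ++ q0 :: qs2) (2 * k - a)).toReal /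
      (((2 * k : ℕ) : ℝ) ^ (qs1.length + qs2.length + 1) * ((sys y z).tot (2 * k)).toReal)) atTop
      (𝓝 0) := by
  have hgap : GapOk (qs1 ++ qs2) := fun p hp => hqs p (by
    rcases List.mem_append.1 hp with h1 | h1
    · exact List.mem_append_left _ h1
    · exact List.mem_append_right _ (List.mem_cons_of_mem _ h1))
  have hgap0 : GapOk [q0] := fun p hp => hqs p (by
    rw [List.mem_singleton.1 hp]
    exact List.mem_append_right _ List.mem_cons_self)
  set q : ℕ := qs1.length + qs2.length with hq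
  set L : ℕ := La z (qs1 ++ qs2) with hL
  set A : ℕ := L + lam z q0.2 with hA
  set C : ℝ≥0∞ := Pm (qs1 ++ qs2) * 40 ^ mm q0.2 with hC
  have hCfin : C ≠ ⊤ := ENNReal.mul_ne_top (pm_fin _) (ENNReal.pow_ne_top (by norm_num))
  have hb : ∀ k : ℕ, a ≤ 2 * k → TQ y z UH (qs1 ++ q0 :: qs2) (2 * k - a) ≤
      C * ((2 * k - a + L + 1 : ℕ) : ℝ≥0∞) ^ q * (sys y z).sum (2 * k + A - a) (ocp y z R) := by
    intro k hk
    have h1 := nest_mid h UH q0 hgap (2 * k - a)
    have h2 := near_one h hgap0 hR (2 * k - a + L)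
    have h3 : 2 * k - a + L + lam z q0.2 = 2 * k + A - a := by omega
    rw [h3] at h2
    refine (h1.trans (mul_le_mul_right h2 _)).trans (le_of_eq ?_)
    rw [hC]
    have h4 : (sys y z).sum (2 * k + A - a) (ocp y z R) = (sys y z).sum (2 * k + A - a)
      fun x => (((sys y z).oc (fun v _ => nrm v ≤ R) x + 1 : ℕ) : ℝ≥0∞) := rfl
    rw [h4]
    ring
  rcases Nat.even_or_odd (A + a) with hev | hodd
  · have hr := nT_shift h.y_le h.z_pos h.z_le h.q_le h.one hev
    have hφ : Tendsto (fun k : ℕ => (2 * k + A - a) / 2) atTop atTop := by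
      refine tendsto_atTop_mono' _ ?_ (tendsto_sub_atTop_nat a)
      filter_upwards [eventually_ge_atTop a] with k hk
      omega
    have hu := (ocp_lim h R).comp hφ
    have hu' : Tendsto (fun k : ℕ => ((sys y z).sum (2 * k + A - a) (ocp y z R)).toReal /
        nT y z (2 * k + A - a)) atTop (𝓝 0) := by
      refine hu.congr' ?_
      filter_upwards [eventually_ge_atTop a] with k hk
      have h5 : 2 * ((2 * k + A - a) / 2) = 2 * k + A - a := by
        obtain ⟨r, hr⟩ := hev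
        omega
      simp only [Function.comp]
      rw [h5]
    have hlim := (hu'.mul hr).const_mul (C.toReal * ((L : ℝ) + 2) ^ q)
    rw [zero_mul, mul_zero] at hlim
    refine squeeze_zero' (Eventually.of_forall fun k => by positivity) ?_ hlim
    filter_upwards [eventually_ge_atTop a, eventually_ge_atTop 1,
      hr.eventually_ne one_ne_zero] with k hk hk1 hne
    rw [div_ne_zero_iff] at hne
    obtain ⟨hne1, hne2⟩ := hne
    have h6 := ENNReal.toReal_mono (ENNReal.mul_ne_top (ENNReal.mul_ne_top hCfin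
      (ENNReal.pow_ne_top (ENNReal.natCast_ne_top _))) (sum_ocp_fin h R _)) (hb k (by omega))
    rw [ENNReal.toReal_mul, ENNReal.toReal_mul, ENNReal.toReal_pow, ENNReal.toReal_natCast] at h6
    set s : ℝ := ((sys y z).sum (2 * k + A - a) (ocp y z R)).toReal with hs
    set N : ℝ := nT y z (2 * k + A - a) with hN
    have hs0 : 0 ≤ s := ENNReal.toReal_nonneg
    have hnT : nT y z (2 * k) = ((2 * k : ℕ) : ℝ) * ((sys y z).tot (2 * k)).toReal := rfl
    have hk0 : ((2 * k : ℕ) : ℝ) ≠ 0 := by positivity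
    have ht0 : ((sys y z).tot (2 * k)).toReal ≠ 0 := by
      rw [hnT] at hne2
      exact (mul_ne_zero_iff.1 hne2).2
    have h7 : ((2 * k - a + L + 1 : ℕ) : ℝ) ≤ ((L : ℝ) + 2) * ((2 * k : ℕ) : ℝ) := by
      have h8 : 2 * k - a + L + 1 ≤ (L + 2) * (2 * k) := by
        have : 2 * k - a + L + 1 ≤ 2 * k + (L + 1) := by omega
        nlinarith
      exact_mod_cast h8
    have h9 : ((2 * k - a + L + 1 : ℕ) : ℝ) ^ q ≤ ((L : ℝ) + 2) ^ q * ((2 * k : ℕ) : ℝ) ^ q := by
      rw [← mul_pow]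
      exact pow_le_pow_left₀ (Nat.cast_nonneg _) h7 q
    have h10 : (TQ y z UH (qs1 ++ q0 :: qs2) (2 * k - a)).toReal ≤
        C.toReal * (((L : ℝ) + 2) ^ q * ((2 * k : ℕ) : ℝ) ^ q) * s := by
      refine h6.trans ?_
      gcongr
    refine (div_le_div_of_nonneg_right h10 (by positivity)).trans (le_of_eq ?_)
    rw [hnT, pow_succ]
    field_simp
  · have hz : (fun _ : ℕ => (0 : ℝ)) =ᶠ[atTop] fun k : ℕ =>
        (TQ y z UH (qs1 ++ q0 :: qs2) (2 * k - a)).toReal /
      (((2 * k : ℕ) : ℝ) ^ (q + 1) * ((sys y z).tot (2 * k)).toReal) := by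
      filter_upwards [eventually_ge_atTop a] with k hk
      have h1 := hb k (by omega)
      have h2 : Odd (2 * k + A - a) := by
        obtain ⟨r, hr⟩ := hodd
        exact ⟨k + r - a, by omega⟩
      rw [sum_ocp_zero h R _ (tot_odd h h2), mul_zero] at h1
      rw [le_antisymm h1 zero_le, ENNReal.toReal_zero, zero_div]
    exact tendsto_const_nhds.congr' hz

end Pool.Agent.KComp
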