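import Pool.Agent.KComp.MarkId
import Pool.Agent.KComp.Marks
import Pool.Agent.KComp.FarL
import Pool.Agent.KComp.NearL
import Pool.Agent.KAmp.Cls

/-! KC21a: the limit for the chains with given short marks.

PROOF. `geo_parity`: as `KAmp.cls_parity` (only `Geo` is used there).
`word_lim`: fix a list `L` of words of knotted blocks, `N = L.length`, and let `R` be at least `nh π` and
`nrm (dsp π)` for all `π ∈ L`. Put `a = ∑ ln π`. For `2k ≥ a` split the chains `x` with
`words x = (mkA x).map Prod.snd = L` and unknotted caps: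
(far) all marks `m` have `R < nrm m.1`: by `type_far`, `T (pol x) ↔ TypeN T L`. So the far part is `0` or
`SA (fun x => UH .. ∧ UH .. ∧ Mat (mkA x) (L.map fun π => (fun v => R < nrm v, π))) (2k)`, and by `mark_id`
(with `n = 2k - a`) this is `ww L * TQ UH (gaps ..) (2k - a)`, where the gaps are
`(fun v => R < nrm v ∧ Kn v π, dsp π)`. By `kn_far` for each `π ∈ L` either `Kn v π` for all `v` with
`R < nrm v` or for none. If for all `π`, the gaps are `(fun v => R < nrm v, dsp π)`, and `far_l` gives the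
limit (`a + ∑ nrm (dsp π)` is even by `geo_parity`). If for some `π` none, then `TQ .. = 0` (`cN` of a list
with an element `q` with `q.1` empty is `0`).
(near) some mark has `nrm m.1 ≤ R`: at most the sum over `i < N` of the weight of the chains with
`Mat (mkA x) (L with the property nrm v ≤ R at the place i, True at the others)`; by `mark_id` and `near_l`
(`gapOk_gaps`) divided by `(2k)^N tot (2k)` it converges to `0`.
(`ww L ≠ ⊤`; all the `TQ` are finite by `tq_bound`, `tq_mono`, or by the identities with `S.sum`.) -/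

set_option autoImplicit false

open Filter Topology
open Pool.Agent.LK
open scoped ENNReal

namespace Pool.Agent.KComp

open Pool.Agent.KTube Pool.Agent.KRing Pool.Agent.KLog
open Pool.Agent.KAsym (ln)
open Pool.Agent.KAmp (sys)
open Pool.Agent.KTop (TypeN)

variable {y z : ℝ}

/-! ### Parity -/

private theorem steps_par {s : List P3} (h : Steps s) :
    ((s.length : ℤ) + s.sum.1 + s.sum.2.1 + s.sum.2.2) % 2 = 0 := by
  induction s with
  | nil => simp
  | cons d s ih =>
    obtain ⟨hd, hs⟩ := h.cons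
    have h1 := ih hs
    rw [List.sum_cons, List.length_cons]
    simp only [Prod.fst_add, Prod.snd_add]
    push_cast
    rcases step_cases hd with rfl | rfl | rfl | rfl | rfl | rfl <;> simp only <;> omega

theorem geo_parity {v : ℤ × ℤ} {π : PP} (h : Geo v π) : Even (ln π + nrm (dsp π)) := by
  have hA := steps_par h.stA
  have hB := steps_par h.stB
  have h1 : 1 + π.2.sum.2.2 = π.1.sum.2.2 + 1 := by
    have h2 := h.block.headB
    unfold sdB at h2
    rw [List.head?_reverse, last_wk, Option.some.injEq] at h2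
    have h3 := congrArg (fun p : P3 => p.2.2) h2
    simp only [Prod.snd_add] at h3
    exact h3
  rw [Nat.even_iff]
  unfold ln nrm dsp hz
  simp only [Prod.fst_sub, Prod.snd_sub]
  omega

private theorem par_list (L : List KW) :
    Even (((L.map Subtype.val).map ln).sum + (((L.map Subtype.val).map dsp).map nrm).sum) := by
  induction L with
  | nil => simp
  | cons π L ih =>
    obtain ⟨v, hv⟩ := π.2
    have h1 := geo_parity hv.1
    simp only [List.map_cons, List.sum_cons]
    have h2 := h1.add ih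
    rw [add_add_add_comm]
    exact h2

/-! ### Marks far from the origin and near it -/

/-- All marks far from the origin. -/
private def farL (R : ℕ) (L : List PP) : List ((ℤ × ℤ → Prop) × PP) :=
  L.map fun π => ((fun v => R < nrm v), π)

/-- No condition on the marks. -/
private def truL (L : List PP) : List ((ℤ × ℤ → Prop) × PP) :=
  L.map fun π => ((fun _ => True), π)

/-- The mark `i` near the origin. -/
private def nrL (R : ℕ) (L : List PP) (i : Fin L.length) : List ((ℤ × ℤ → Prop) × PP) :=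
  truL (L.take i) ++ ((fun v => nrm v ≤ R), L[i]) :: truL (L.drop (i + 1))

private theorem mat_far {R : ℕ} (ms : List ((ℤ × ℤ) × PP)) (L : List PP) :
    Mat ms (farL R L) ↔ ms.map Prod.snd = L ∧ ∀ m ∈ ms, R < nrm m.1 := by
  unfold Mat farL
  induction ms generalizing L with
  | nil =>
    cases L with
    | nil => simp
    | cons π L => simp
  | cons m ms ih =>
    cases L with
    | nil => simp
    | cons π L =>
      rw [List.map_cons, List.forall₂_cons, ih L]
      simp only [List.map_cons, List.cons.injEq, List.forall_mem_cons]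
      tauto

private theorem mat_tru (ms : List ((ℤ × ℤ) × PP)) : Mat ms (truL (ms.map Prod.snd)) := by
  unfold Mat truL
  induction ms with
  | nil => simp
  | cons m ms ih =>
    rw [List.map_cons, List.map_cons, List.forall₂_cons]
    exact ⟨⟨rfl, trivial⟩, ih⟩

private theorem mat_near {R : ℕ} (ms : List ((ℤ × ℤ) × PP)) (L : List PP)
    (hL : ms.map Prod.snd = L) (hn : ¬ ∀ m ∈ ms, R < nrm m.1) :
    ∃ i : Fin L.length, Mat ms (nrL R L i) := by
  induction ms generalizing L with
  | nil => simp at hn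
  | cons m ms ih =>
    subst hL
    by_cases hm : R < nrm m.1
    · have h1 : ¬ ∀ m ∈ ms, R < nrm m.1 := by
        intro h
        exact hn fun m' hm' => by
          rcases List.mem_cons.1 hm' with rfl | hm'
          · exact hm
          · exact h m' hm'
      obtain ⟨i, hi⟩ := ih _ rfl h1
      refine ⟨i.succ, ?_⟩
      unfold nrL Mat at hi ⊢
      exact List.Forall₂.cons ⟨rfl, trivial⟩ hi
    · refine ⟨⟨0, by simp⟩, ?_⟩
      unfold nrL Mat
      exact List.Forall₂.cons ⟨rfl, not_lt.1 hm⟩ (mat_tru ms)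

private theorem snd_far (R : ℕ) (L : List PP) : (farL R L).map Prod.snd = L := by
  unfold farL
  rw [List.map_map]
  exact List.map_id' L

private theorem snd_tru (L : List PP) : (truL L).map Prod.snd = L := by
  unfold truL
  rw [List.map_map]
  exact List.map_id' L

private theorem snd_nr (R : ℕ) (L : List PP) (i : Fin L.length) :
    (nrL R L i).map Prod.snd = L := by
  unfold nrL
  rw [List.map_append, List.map_cons, snd_tru, snd_tru]
  simp

private theorem ln_snd (M : List ((ℤ × ℤ → Prop) × PP)) :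
    (M.map fun q => ln q.2).sum = ((M.map Prod.snd).map ln).sum := by
  rw [List.map_map]
  rfl

/-! ### Sums over chains -/

private theorem sa_split (Q P : CA → Prop) (n : ℕ) :
    SA y z Q n = SA y z (fun x => Q x ∧ P x) n + SA y z (fun x => Q x ∧ ¬ P x) n := by
  classical
  unfold SA
  rw [← ENNReal.tsum_add]
  refine tsum_congr fun x => ?_
  by_cases h1 : lenA x = n <;> by_cases h2 : Q x <;> by_cases h3 : P x <;> simp [h1, h2, h3]

private theorem sa_le {ι : Type} [Fintype ι] (Q : CA → Prop) (P : ι → CA → Prop)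
    (hQ : ∀ x, Q x → ∃ i, P i x) (n : ℕ) : SA y z Q n ≤ ∑ i, SA y z (P i) n := by
  classical
  unfold SA
  rw [← Summable.tsum_finsetSum fun i _ => ENNReal.summable]
  refine ENNReal.tsum_le_tsum fun x => ?_
  split_ifs with h
  · obtain ⟨i, hi⟩ := hQ x h.2
    calc WA y z x = if lenA x = n ∧ P i x then WA y z x else 0 := by rw [if_pos ⟨h.1, hi⟩]
      _ ≤ _ := Finset.single_le_sum
        (f := fun j => if lenA x = n ∧ P j x then WA y z x else 0) (fun _ _ => zero_le)
        (Finset.mem_univ i)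
  · exact zero_le

private theorem sa_congr {Q P : CA → Prop} (h : ∀ x, Q x ↔ P x) (n : ℕ) :
    SA y z Q n = SA y z P n := by
  have : Q = P := funext fun x => propext (h x)
  rw [this]

private theorem sa_false {Q : CA → Prop} (h : ∀ x, ¬ Q x) (n : ℕ) : SA y z Q n = 0 := by
  unfold SA
  simp [h]

private theorem ww_ne_top (s : List PP) : ww y z s ≠ ⊤ := by
  induction s with
  | nil => rw [ww_nil]; exact ENNReal.one_ne_top
  | cons π s ih =>
    rw [ww_cons]
    refine ENNReal.mul_ne_top ?_ ih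
    unfold wt
    exact ENNReal.mul_ne_top (ENNReal.pow_ne_top ENNReal.ofReal_ne_top)
      (ENNReal.pow_ne_top ENNReal.ofReal_ne_top)

/-! ### Empty gaps -/

private theorem fc_zero {c : ℕ → ℤ × ℤ → ℝ≥0∞} (hc : ∀ n w, c n w = 0) (n : ℕ) (v : ℤ × ℤ) :
    FC y z c n v = 0 := by
  unfold FC
  simp [hc]

open Classical in
private theorem cN_zero (c : ℕ → ℤ × ℤ → ℝ≥0∞) {qs : List ((ℤ × ℤ → Prop) × (ℤ × ℤ))}
    {q : (ℤ × ℤ → Prop) × (ℤ × ℤ)} (hq : q ∈ qs) (h : ∀ v, ¬ q.1 v) (n : ℕ) (w : ℤ × ℤ) :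
    cN y z c qs n w = 0 := by
  induction qs generalizing n w with
  | nil => simp at hq
  | cons q' qs ih =>
    change (if q'.1 w then FC y z (cN y z c qs) n (w + q'.2) else 0) = 0
    rcases List.mem_cons.1 hq with rfl | hq
    · rw [if_neg (h w)]
    · rw [fc_zero (fun n w => ih hq n w), ite_self]

private theorem tq_zero {qs : List ((ℤ × ℤ → Prop) × (ℤ × ℤ))}
    {q : (ℤ × ℤ → Prop) × (ℤ × ℤ)} (hq : q ∈ qs) (h : ∀ v, ¬ q.1 v) (n : ℕ) :
    TQ y z UH qs n = 0 := by
  unfold TQ
  simp [fc_zero (fun n w => cN_zero (y := y) (z := z) (cq y z UH) hq h n w)]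

/-! ### Finiteness -/

private theorem tq_fin (h : Cr y z) {qs : List ((ℤ × ℤ → Prop) × (ℤ × ℤ))} (hqs : GapOk qs)
    (a : ℕ) : ∀ᶠ k : ℕ in atTop, TQ y z UH qs (2 * k - a) ≠ ⊤ := by
  obtain ⟨C, hC, n0, hn⟩ := tq_bound h qs.length
  filter_upwards [eventually_ge_atTop (n0 + a)] with k hk
  have h1 := hn (2 * k) (by omega) (even_two_mul k) qs rfl hqs (2 * k - a) a (by omega)
  have h2 : TQ y z UH qs (2 * k - a) ≤ TQ y z (fun _ => True) qs (2 * k - a) :=
    tq_mono (fun _ _ => trivial) (List.forall₂_same.2 fun q _ => ⟨fun _ h => h, rfl⟩) _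
  refine ne_top_of_le_ne_top ?_ (h2.trans h1)
  refine ENNReal.mul_ne_top (ENNReal.mul_ne_top (ENNReal.mul_ne_top (ENNReal.mul_ne_top hC
    (ENNReal.pow_ne_top (ENNReal.natCast_ne_top _))) (h.fin _)) (ENNReal.pow_ne_top (by simp))) ?_
  have h3 : ∀ l : List ((ℤ × ℤ → Prop) × (ℤ × ℤ)),
      (l.map fun p => (80 : ℝ≥0∞) ^ nrm p.2).prod ≠ ⊤ := by
    intro l
    induction l with
    | nil => simp
    | cons p l ih =>
      rw [List.map_cons, List.prod_cons]
      exact ENNReal.mul_ne_top (ENNReal.pow_ne_top (by norm_num)) ih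
  exact h3 qs

/-! ### The limits -/

private theorem sa_mat (M : List ((ℤ × ℤ → Prop) × PP)) (L : List PP) (hM : M.map Prod.snd = L)
    {n : ℕ} (hn : (L.map ln).sum ≤ n) :
    SA y z (fun x => UH x.1.1 ∧ UH x.1.2.2 ∧ Mat (mkA x) M) n =
      ww y z L * TQ y z UH (gaps M) (n - (L.map ln).sum) := by
  have h1 := mark_id (y := y) (z := z) UH M (n - (L.map ln).sum)
  rw [ln_snd, hM, Nat.sub_add_cancel hn] at h1
  exact h1

private theorem near_lim (h : Cr y z) (L : List PP) (R : ℕ) (i : Fin L.length) :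
    Tendsto (fun k : ℕ => (SA y z (fun x => UH x.1.1 ∧ UH x.1.2.2 ∧
      Mat (mkA x) (nrL R L i)) (2 * k)).toReal /
      (((2 * k : ℕ) : ℝ) ^ L.length * ((sys y z).tot (2 * k)).toReal)) atTop (𝓝 0) := by
  have hg : gaps (nrL R L i) = gaps (truL (L.take i)) ++
      ((fun v => nrm v ≤ R ∧ Kn v L[i]), dsp L[i]) :: gaps (truL (L.drop (i + 1))) := by
    unfold gaps nrL
    rw [List.map_append, List.map_cons]
  have hlen : (gaps (truL (L.take i))).length + (gaps (truL (L.drop (i + 1)))).length + 1 =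
      L.length := by
    unfold gaps truL
    simp only [List.length_map, List.length_take, List.length_drop]
    have := i.2
    omega
  have hok : GapOk (gaps (truL (L.take i)) ++
      ((fun v => nrm v ≤ R ∧ Kn v L[i]), dsp L[i]) :: gaps (truL (L.drop (i + 1)))) := by
    rw [← hg]
    exact gapOk_gaps _
  have h1 := near_l h hok (R := R) (fun v hv => hv.1) (L.map ln).sum
  rw [hlen] at h1
  have h2 := h1.const_mul (ww y z L).toReal
  rw [mul_zero] at h2
  refine h2.congr' ?_
  filter_upwards [eventually_ge_atTop (L.map ln).sum] with k hk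
  rw [sa_mat _ L (snd_nr R L i) (by omega), hg, ENNReal.toReal_mul, mul_div_assoc]

private theorem far_lim (h : Cr y z) (L : List KW) (R : ℕ)
    (hR1 : ∀ π ∈ L.map Subtype.val, nh π ≤ R) (hR2 : ∀ π ∈ L.map Subtype.val, nrm (dsp π) ≤ R) :
    ∃ b : ℝ, Tendsto (fun k : ℕ => (SA y z (fun x => UH x.1.1 ∧ UH x.1.2.2 ∧
      Mat (mkA x) (farL R (L.map Subtype.val))) (2 * k)).toReal /
      (((2 * k : ℕ) : ℝ) ^ L.length * ((sys y z).tot (2 * k)).toReal)) atTop (𝓝 b) := by
  have hlen : (L.map Subtype.val).length = L.length := List.length_map _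
  rw [← hlen]
  have hpar := par_list L
  set Lp : List PP := L.map Subtype.val with hLp
  by_cases hK : ∀ π ∈ Lp, ∀ v, R < nrm v → Kn v π
  · have hg : gaps (farL R Lp) = (Lp.map dsp).map fun u => ((fun v => R < nrm v), u) := by
      unfold gaps farL
      rw [List.map_map (l := Lp), List.map_map (l := Lp)]
      refine List.map_congr_left fun π hπ => ?_
      have : (fun v => R < nrm v ∧ Kn v π) = fun v => R < nrm v :=
        funext fun v => propext ⟨fun h => h.1, fun h => ⟨h, hK π hπ v h⟩⟩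
      change ((fun v => R < nrm v ∧ Kn v π), dsp π) = _
      rw [this]
      rfl
    have h1 := far_l h (Lp.map dsp) R (Lp.map ln).sum (by
      intro u hu
      obtain ⟨π, hπ, rfl⟩ := List.mem_map.1 hu
      exact hR2 π hπ) hpar
    rw [List.length_map] at h1
    refine ⟨_, (h1.const_mul (ww y z Lp).toReal).congr' ?_⟩
    filter_upwards [eventually_ge_atTop (Lp.map ln).sum] with k hk
    rw [sa_mat _ Lp (snd_far R Lp) (by omega), hg, ENNReal.toReal_mul, mul_div_assoc]
  · push Not at hK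
    obtain ⟨π, hπ, v, hv, hk⟩ := hK
    refine ⟨0, tendsto_const_nhds.congr' ?_⟩
    filter_upwards [eventually_ge_atTop (Lp.map ln).sum] with k hk'
    have h0 : TQ y z UH (gaps (farL R Lp)) (2 * k - (Lp.map ln).sum) = 0 := by
      refine tq_zero (q := ((fun v => R < nrm v ∧ Kn v π), dsp π)) ?_ ?_ _
      · unfold gaps farL
        rw [List.map_map]
        exact List.mem_map.2 ⟨π, hπ, rfl⟩
      · rintro v' ⟨h1, h2⟩
        exact hk ((kn_far ((hR1 π hπ).trans_lt h1) ((hR1 π hπ).trans_lt hv)).1 h2)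
    rw [sa_mat _ Lp (snd_far R Lp) (by omega), h0, mul_zero, ENNReal.toReal_zero, zero_div]

theorem word_lim (h : Cr y z) {T : Finset (Sym2 P3) → Prop} (hT : TypeClosed T) (L : List KW) :
    ∃ b : ℝ, Tendsto (fun k : ℕ => (SA y z (fun x => T (pol x) ∧ UH x.1.1 ∧ UH x.1.2.2 ∧
      (mkA x).map Prod.snd = L.map Subtype.val) (2 * k)).toReal /
      (((2 * k : ℕ) : ℝ) ^ L.length * ((sys y z).tot (2 * k)).toReal)) atTop (𝓝 b) := by
  classical
  -- the radius
  obtain ⟨R, hR1, hR2⟩ : ∃ R : ℕ, (∀ π ∈ L.map Subtype.val, nh π ≤ R) ∧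
      ∀ π ∈ L.map Subtype.val, nrm (dsp π) ≤ R := by
    refine ⟨((L.map Subtype.val).map fun π => nh π + nrm (dsp π)).sum, fun π hπ => ?_,
      fun π hπ => ?_⟩
    · exact (Nat.le_add_right _ _).trans (List.single_le_sum (by simp) _
        (List.mem_map.2 ⟨π, hπ, rfl⟩))
    · exact (Nat.le_add_left _ _).trans (List.single_le_sum (by simp) _
        (List.mem_map.2 ⟨π, hπ, rfl⟩))
  set D : ℕ → ℝ := fun k => ((2 * k : ℕ) : ℝ) ^ L.length * ((sys y z).tot (2 * k)).toReal with hD
  -- the chains with all marks far from the origin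
  obtain ⟨b, hb⟩ : ∃ b : ℝ, Tendsto (fun k : ℕ => (SA y z (fun x => (T (pol x) ∧ UH x.1.1 ∧
      UH x.1.2.2 ∧ (mkA x).map Prod.snd = L.map Subtype.val) ∧ ∀ m ∈ mkA x, R < nrm m.1)
      (2 * k)).toReal / D k) atTop (𝓝 b) := by
    by_cases hTN : TypeN T (L.map Subtype.val)
    · obtain ⟨b, hb⟩ := far_lim h L R hR1 hR2
      refine ⟨b, hb.congr fun k => ?_⟩
      congr 2
      refine sa_congr (fun x => ?_) _
      rw [mat_far]
      constructor
      · rintro ⟨h1, h2, h3, h4⟩
        refine ⟨⟨?_, h1, h2, h3⟩, h4⟩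
        rw [type_far hT x h1 h2 fun m hm => ?_, h3]
        · exact hTN
        · refine (hR1 m.2 ?_).trans_lt (h4 m hm)
          rw [← h3]
          exact List.mem_map.2 ⟨m, hm, rfl⟩
      · rintro ⟨⟨-, h1, h2, h3⟩, h4⟩
        exact ⟨h1, h2, h3, h4⟩
    · refine ⟨0, tendsto_const_nhds.congr fun k => ?_⟩
      rw [sa_false, ENNReal.toReal_zero, zero_div]
      rintro x ⟨⟨h0, h1, h2, h3⟩, h4⟩
      rw [type_far hT x h1 h2 fun m hm => ?_, h3] at h0
      · exact hTN h0
      · refine (hR1 m.2 ?_).trans_lt (h4 m hm)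
        rw [← h3]
        exact List.mem_map.2 ⟨m, hm, rfl⟩
  -- the chains with a mark near the origin
  set Lp : List PP := L.map Subtype.val with hLp
  have hlen : Lp.length = L.length := List.length_map _
  have hfin : ∀ᶠ k : ℕ in atTop, ∀ i : Fin Lp.length, SA y z (fun x => UH x.1.1 ∧ UH x.1.2.2 ∧
      Mat (mkA x) (nrL R Lp i)) (2 * k) ≠ ⊤ := by
    rw [eventually_all]
    intro i
    filter_upwards [tq_fin h (gapOk_gaps (nrL R Lp i)) (Lp.map ln).sum,
      eventually_ge_atTop (Lp.map ln).sum] with k hk1 hk2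
    rw [sa_mat _ Lp (snd_nr R Lp i) (by omega)]
    exact ENNReal.mul_ne_top (ww_ne_top _) hk1
  have hbd : ∀ k : ℕ, SA y z (fun x => (T (pol x) ∧ UH x.1.1 ∧
      UH x.1.2.2 ∧ (mkA x).map Prod.snd = Lp) ∧ ¬ ∀ m ∈ mkA x, R < nrm m.1) (2 * k) ≤
      ∑ i : Fin Lp.length, SA y z (fun x => UH x.1.1 ∧ UH x.1.2.2 ∧
      Mat (mkA x) (nrL R Lp i)) (2 * k) := by
    intro k
    refine sa_le _ (fun (i : Fin Lp.length) x => UH x.1.1 ∧ UH x.1.2.2 ∧
      Mat (mkA x) (nrL R Lp i)) ?_ _
    rintro x ⟨⟨-, h1, h2, h3⟩, h4⟩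
    obtain ⟨i, hi⟩ := mat_near (mkA x) Lp h3 h4
    exact ⟨i, h1, h2, hi⟩
  have hsum : Tendsto (fun k : ℕ => (∑ i : Fin Lp.length, SA y z (fun x => UH x.1.1 ∧
      UH x.1.2.2 ∧ Mat (mkA x) (nrL R Lp i)) (2 * k)).toReal / D k) atTop (𝓝 0) := by
    have h1 : Tendsto (fun k : ℕ => ∑ i : Fin Lp.length, (SA y z (fun x => UH x.1.1 ∧
        UH x.1.2.2 ∧ Mat (mkA x) (nrL R Lp i)) (2 * k)).toReal /
        (((2 * k : ℕ) : ℝ) ^ Lp.length * ((sys y z).tot (2 * k)).toReal)) atTop
        (𝓝 (∑ _i : Fin Lp.length, (0 : ℝ))) :=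
      tendsto_finset_sum _ fun i _ => near_lim h Lp R i
    rw [Finset.sum_const_zero] at h1
    refine h1.congr' ?_
    filter_upwards [hfin] with k hk
    rw [ENNReal.toReal_sum fun i _ => hk i, Finset.sum_div, hD]
    simp only [hlen]
  have hnear : Tendsto (fun k : ℕ => (SA y z (fun x => (T (pol x) ∧ UH x.1.1 ∧
      UH x.1.2.2 ∧ (mkA x).map Prod.snd = Lp) ∧ ¬ ∀ m ∈ mkA x, R < nrm m.1)
      (2 * k)).toReal / D k) atTop (𝓝 0) := by
    refine tendsto_of_tendsto_of_tendsto_of_le_of_le' tendsto_const_nhds hsum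
      (Eventually.of_forall fun k => ?_) ?_
    · exact div_nonneg ENNReal.toReal_nonneg (by positivity)
    · filter_upwards [hfin] with k hk
      refine div_le_div_of_nonneg_right ?_ (by positivity)
      exact ENNReal.toReal_mono (ENNReal.sum_ne_top.2 fun i _ => hk i) (hbd k)
  -- the far part is finite
  have hfar : ∀ᶠ k : ℕ in atTop, SA y z (fun x => (T (pol x) ∧ UH x.1.1 ∧
      UH x.1.2.2 ∧ (mkA x).map Prod.snd = Lp) ∧ ∀ m ∈ mkA x, R < nrm m.1) (2 * k) ≠ ⊤ := by
    filter_upwards [tq_fin h (gapOk_gaps (farL R Lp)) (Lp.map ln).sum,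
      eventually_ge_atTop (Lp.map ln).sum] with k hk1 hk2
    have h1 := sa_mat (y := y) (z := z) _ Lp (snd_far R Lp) (n := 2 * k) (by omega)
    have h2 : SA y z (fun x => (T (pol x) ∧ UH x.1.1 ∧
        UH x.1.2.2 ∧ (mkA x).map Prod.snd = Lp) ∧ ∀ m ∈ mkA x, R < nrm m.1) (2 * k) ≤
        ∑ _i : Fin 1, SA y z (fun x => UH x.1.1 ∧ UH x.1.2.2 ∧
          Mat (mkA x) (farL R Lp)) (2 * k) := by
      refine sa_le _ (fun (_ : Fin 1) x => UH x.1.1 ∧ UH x.1.2.2 ∧
        Mat (mkA x) (farL R Lp)) ?_ _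
      rintro x ⟨⟨-, h1, h2, h3⟩, h4⟩
      exact ⟨0, h1, h2, (mat_far _ _).2 ⟨h3, h4⟩⟩
    rw [Finset.sum_const, Finset.card_univ, Fintype.card_fin, one_smul, h1] at h2
    exact ne_top_of_le_ne_top (ENNReal.mul_ne_top (ww_ne_top _) hk1) h2
  refine ⟨b + 0, (hb.add hnear).congr' ?_⟩
  filter_upwards [hfar, hfin] with k hk1 hk2
  rw [sa_split (fun x => T (pol x) ∧ UH x.1.1 ∧ UH x.1.2.2 ∧ (mkA x).map Prod.snd = Lp)
    (fun x => ∀ m ∈ mkA x, R < nrm m.1), ENNReal.toReal_add hk1
    (ne_top_of_le_ne_top (ENNReal.sum_ne_top.2 fun i _ => hk2 i) (hbd k)), add_div]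

end Pool.Agent.KComp
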