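import Pool.Agent.KComp.Tail
import Pool.Agent.KComp.WordL
import Pool.Agent.KComp.TotA
import Pool.Agent.KComp.CapA

/-! KC21b: the limit for the chains with `N` short marks.

PROOF. `main_l`: the chains with `Good j N` and `T (pol x)` are the disjoint union over the lists `L` of length `N`
of words in the finite set `{π : KW | ln π.1 ≤ j}` (`short_fin`, `kn_of_mem`) of those with `words x = L`:
finite sum of the limits of `word_lim`. -/

set_option autoImplicit false

open Filter Topology
open Pool.Agent.LK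
open scoped ENNReal

namespace Pool.Agent.KComp

open Pool.Agent.KTube Pool.Agent.KRing Pool.Agent.KLog
open Pool.Agent.KAsym (ln)
open Pool.Agent.KAmp (sys)

variable {y z : ℝ}

private theorem ml_sa_mono {Q Q' : CA → Prop} (h : ∀ x, Q x → Q' x) (n : ℕ) :
    SA y z Q n ≤ SA y z Q' n := by
  unfold SA
  refine ENNReal.tsum_le_tsum fun x => ?_
  by_cases h1 : lenA x = n ∧ Q x
  · rw [if_pos h1, if_pos ⟨h1.1, h x h1.2⟩]
  · rw [if_neg h1]
    exact zero_le

private theorem ml_sa_fin (h : Cr y z) {T : Finset (Sym2 P3) → Prop} (hT : TypeClosed T) (n : ℕ) :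
    SA y z (fun x => T (pol x)) n ≠ ⊤ := by
  intro htop
  have h1 := tot_a hT h.y_pos h.z_pos n
  rw [htop, ENNReal.mul_top (by simpa using h.y_pos), top_add] at h1
  exact ENNReal.mul_ne_top (by norm_num) ENNReal.ofReal_ne_top h1

/-- The words in the list of a function. -/
private def mlL {j N : ℕ} (g : Fin N → {π : KW // ln π.1 ≤ j}) : List KW :=
  List.ofFn fun i => (g i).1

private theorem mlL_inj {j N : ℕ} {g g' : Fin N → {π : KW // ln π.1 ≤ j}}
    (h : (mlL g).map Subtype.val = (mlL g').map Subtype.val) : g = g' := by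
  have h1 := List.map_injective_iff.2 Subtype.val_injective h
  have h2 := List.ofFn_injective h1
  funext i
  exact Subtype.ext (congrFun h2 i)

private theorem mlL_length {j N : ℕ} (g : Fin N → {π : KW // ln π.1 ≤ j}) :
    (mlL g).length = N := List.length_ofFn

private theorem mlL_exists {j N : ℕ} {x : CA} (hx : Good j N x) :
    ∃ g : Fin N → {π : KW // ln π.1 ≤ j},
      (mkA x).map Prod.snd = (mlL g).map Subtype.val := by
  obtain ⟨-, -, hl, hj⟩ := hx
  have hm : ∀ i : Fin N, (mkA x)[(i : ℕ)]'(by rw [hl]; exact i.2) ∈ mkA x := fun i =>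
    List.getElem_mem _
  refine ⟨fun i => ⟨⟨((mkA x)[(i : ℕ)]'(by rw [hl]; exact i.2)).2, _, kn_of_mem x (hm i)⟩,
    hj _ (hm i)⟩, ?_⟩
  refine List.ext_getElem ?_ fun i h1 h2 => ?_
  · rw [List.length_map, List.length_map, mlL_length, hl]
  · simp [mlL]

private theorem mlL_good {j N : ℕ} {x : CA} (h1 : UH x.1.1) (h2 : UH x.1.2.2)
    {g : Fin N → {π : KW // ln π.1 ≤ j}}
    (h : (mkA x).map Prod.snd = (mlL g).map Subtype.val) : Good j N x := by
  refine ⟨h1, h2, ?_, fun m hm => ?_⟩
  · have := congrArg List.length h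
    rwa [List.length_map, List.length_map, mlL_length] at this
  · have h3 : m.2 ∈ (mkA x).map Prod.snd := List.mem_map_of_mem hm
    rw [h] at h3
    obtain ⟨π, hπ, he⟩ := List.mem_map.1 h3
    unfold mlL at hπ
    rw [List.mem_ofFn] at hπ
    obtain ⟨i, rfl⟩ := hπ
    rw [← he]
    exact (g i).2

/-- KC21b. -/
theorem main_l (h : Cr y z) {T : Finset (Sym2 P3) → Prop} (hT : TypeClosed T) (j N : ℕ) :
    ∃ b : ℝ, Tendsto (fun k : ℕ => (SA y z (fun x => T (pol x) ∧ Good j N x) (2 * k)).toReal /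
      (((2 * k : ℕ) : ℝ) ^ N * ((sys y z).tot (2 * k)).toReal)) atTop (𝓝 b) := by
  classical
  have hfin : Finite {π : KW // ln π.1 ≤ j} := (short_fin j).to_subtype
  have := Fintype.ofFinite {π : KW // ln π.1 ≤ j}
  have hsplit : ∀ n, SA y z (fun x => T (pol x) ∧ Good j N x) n =
      ∑ g : Fin N → {π : KW // ln π.1 ≤ j}, SA y z (fun x => T (pol x) ∧ UH x.1.1 ∧ UH x.1.2.2 ∧
        (mkA x).map Prod.snd = (mlL g).map Subtype.val) n := by
    intro n
    unfold SA
    rw [← Summable.tsum_finsetSum fun _ _ => ENNReal.summable]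
    refine tsum_congr fun x => ?_
    by_cases hx : lenA x = n ∧ T (pol x) ∧ Good j N x
    · rw [if_pos hx]
      obtain ⟨g, hg⟩ := mlL_exists hx.2.2
      rw [Finset.sum_eq_single g]
      · rw [if_pos ⟨hx.1, hx.2.1, hx.2.2.1, hx.2.2.2.1, hg⟩]
      · intro g' _ hne
        rw [if_neg]
        rintro ⟨-, -, -, -, hg'⟩
        exact hne (mlL_inj (hg'.symm.trans hg))
      · intro hn
        exact absurd (Finset.mem_univ g) hn
    · rw [if_neg hx]
      symm
      refine Finset.sum_eq_zero fun g _ => ?_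
      rw [if_neg]
      rintro ⟨h1, h2, h3, h4, h5⟩
      exact hx ⟨h1, h2, mlL_good h3 h4 h5⟩
  choose b hb using fun g : Fin N → {π : KW // ln π.1 ≤ j} => word_lim h hT (mlL g)
  refine ⟨∑ g, b g, ?_⟩
  have h1 := tendsto_finsetSum (Finset.univ : Finset (Fin N → {π : KW // ln π.1 ≤ j}))
    fun g _ => hb g
  refine h1.congr fun k => ?_
  rw [hsplit, ENNReal.toReal_sum, Finset.sum_div]
  · refine Finset.sum_congr rfl fun g _ => ?_
    rw [mlL_length]
  · intro g _
    exact ne_top_of_le_ne_top (ml_sa_fin h hT (2 * k)) (ml_sa_mono (fun x hx => hx.1) _)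

end Pool.Agent.KComp
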