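import Pool.Agent.KComp.Kern
import Pool.Agent.KComp.TotB

/-! KC19a: one gap near the origin.

PROOF. `near_one`: write `TQ UH [q0] n` as the sum over the unknotted caps `l`, `r`, the displacements `w`
with `q0.1 w` and the chains `s1 : l.1 → w`, `s2 : w + q0.2 → r.1` of unknotted blocks
(`lengths = n` together). With the paths `D w` from `w` to `w + q0.2` of `exists_paths`, as in the proof of
`kn_mark`: it is at most `40 ^ mm q0.2` times the sum of the weights of `(l, s1 ++ d ++ s2, r)`, `d ∈ D w`, and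
`(l, s1, d, s2, r) ↦ ((l, s1 ++ d ++ s2, r), s1.length)` is injective; the result is a chain `x` of `sys y z`
with `n + lam z q0.2` points, and a number `i ≤ x.1.2.1.length` such that the displacement `w` at the place `i` of
the chain has `nrm w ≤ R`; for a given `x` there are at most `S.oc (fun v _ => nrm v ≤ R) x + 1` such
numbers (induction on the chain). (`UC l.1 s`, `ed l.1 s = r.1` and the chains of `sys`: as in `Occ`.) -/

set_option autoImplicit false

open Pool.Agent.LK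
open scoped ENNReal

namespace Pool.Agent.KComp

open Pool.Agent.KTube Pool.Agent.KRing Pool.Agent.KLog
open Pool.Agent.KAmp (sys)
open Pool.Agent.KAsym (ln)
open Pool.Agent.KTop (GC UC ed ed_nil ed_cons ed_append uc_append)

variable {y z : ℝ}

private theorem no_anti (n a : ℕ) (f : ℕ → ℝ≥0∞) :
    ∑ p ∈ Finset.HasAntidiagonal.antidiagonal n, (if a = p.1 then f p.2 else 0) =
      if a ≤ n then f (n - a) else 0 := by
  split_ifs with h
  · rw [Finset.sum_eq_single (a, n - a)]
    · rw [if_pos rfl]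
    · rintro ⟨b, c⟩ hp hne
      rw [Finset.HasAntidiagonal.mem_antidiagonal] at hp
      rw [if_neg]
      rintro rfl
      apply hne
      simp only at hp
      rw [Prod.mk.injEq]
      exact ⟨rfl, by omega⟩
    · intro hn
      exfalso
      apply hn
      rw [Finset.HasAntidiagonal.mem_antidiagonal]
      simp only
      omega
  · refine Finset.sum_eq_zero fun p hp => ?_
    rw [Finset.HasAntidiagonal.mem_antidiagonal] at hp
    rw [if_neg]
    rintro rfl
    omega

open Classical in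
private theorem no_gen {T : Type} (P : T → Prop) (e : T → ℤ × ℤ) (len : T → ℕ) (w' : T → ℝ≥0∞)
    (F : ℕ → ℤ × ℤ → ℝ≥0∞) (n : ℕ) :
    ∑' w, ∑ p ∈ Finset.HasAntidiagonal.antidiagonal n,
      (∑' t, if P t ∧ e t = w ∧ len t = p.1 then w' t else 0) * F p.2 w =
      ∑' t, if P t ∧ len t ≤ n then w' t * F (n - len t) (e t) else 0 := by
  have h1 : ∀ w, ∑ p ∈ Finset.HasAntidiagonal.antidiagonal n,
      (∑' t, if P t ∧ e t = w ∧ len t = p.1 then w' t else 0) * F p.2 w =
      ∑' t, ∑ p ∈ Finset.HasAntidiagonal.antidiagonal n,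
        (if P t ∧ e t = w ∧ len t = p.1 then w' t else 0) * F p.2 w := by
    intro w
    rw [Summable.tsum_finsetSum fun _ _ => ENNReal.summable]
    exact Finset.sum_congr rfl fun p _ => ENNReal.tsum_mul_right.symm
  rw [tsum_congr h1, ENNReal.tsum_comm]
  refine tsum_congr fun t => ?_
  rw [tsum_eq_single (e t)]
  · by_cases hP : P t
    · have h2 : ∀ p ∈ Finset.HasAntidiagonal.antidiagonal n,
          (if P t ∧ e t = e t ∧ len t = p.1 then w' t else 0) * F p.2 (e t) =
          if len t = p.1 then w' t * F p.2 (e t) else 0 := by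
        intro p _
        by_cases hl : len t = p.1
        · rw [if_pos ⟨hP, rfl, hl⟩, if_pos hl]
        · rw [if_neg (fun h => hl h.2.2), if_neg hl, zero_mul]
      rw [Finset.sum_congr rfl h2, no_anti n (len t) fun m => w' t * F m (e t)]
      by_cases hl : len t ≤ n
      · rw [if_pos hl, if_pos ⟨hP, hl⟩]
      · rw [if_neg hl, if_neg (fun h => hl h.2)]
    · rw [if_neg (fun h => hP h.1)]
      refine Finset.sum_eq_zero fun p _ => ?_
      rw [if_neg (fun h => hP h.1), zero_mul]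
  · intro w hw
    refine Finset.sum_eq_zero fun p _ => ?_
    rw [if_neg (fun h => hw h.2.1.symm), zero_mul]

open Classical in
private theorem no_fc (c : ℕ → ℤ × ℤ → ℝ≥0∞) (n : ℕ) (v : ℤ × ℤ) : FC y z c n v =
    ∑' s : List PP, if UC v s ∧ (s.map ln).sum ≤ n then
      ww y z s * c (n - (s.map ln).sum) (ed v s) else 0 := by
  unfold FC KN
  exact no_gen (UC v) (ed v) (fun s => (s.map ln).sum) (ww y z) c n

open Classical in
private theorem no_tq (Q : HA → Prop) (qs : List ((ℤ × ℤ → Prop) × (ℤ × ℤ))) (n : ℕ) :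
    TQ y z Q qs n = ∑' l : HA, if Q l ∧ l.2.1.length ≤ n then
      wc y z l * FC y z (cN y z (cq y z Q) qs) (n - l.2.1.length) l.1 else 0 := by
  unfold TQ
  conv_lhs =>
    enter [1, w, 2, p]
    rw [cq]
  exact no_gen Q (fun l => l.1) (fun l => l.2.1.length) (wc y z) _ n

/-- The conditions. -/
private def NoC (q0 : (ℤ × ℤ → Prop) × (ℤ × ℤ)) (n : ℕ) (l : HA) (s1 s2 : List PP) (r : HA) :
    Prop :=
  (UH l ∧ l.2.1.length ≤ n) ∧ (UC l.1 s1 ∧ (s1.map ln).sum ≤ n - l.2.1.length) ∧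
    q0.1 (ed l.1 s1) ∧ (UC (ed l.1 s1 + q0.2) s2 ∧
      (s2.map ln).sum ≤ n - l.2.1.length - (s1.map ln).sum) ∧
    (UH r ∧ r.1 = ed (ed l.1 s1 + q0.2) s2 ∧
      r.2.1.length = n - l.2.1.length - (s1.map ln).sum - (s2.map ln).sum)

open Classical in
private theorem no_flat (q0 : (ℤ × ℤ → Prop) × (ℤ × ℤ)) (n : ℕ) :
    TQ y z UH [q0] n = ∑' (l : HA) (s1 : List PP) (s2 : List PP) (r : HA),
      if NoC q0 n l s1 s2 r then wc y z l * (ww y z s1 * (ww y z s2 * wc y z r)) else 0 := by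
  rw [no_tq]
  refine tsum_congr fun l => ?_
  by_cases hl : UH l ∧ l.2.1.length ≤ n
  · rw [if_pos hl, no_fc, ← ENNReal.tsum_mul_left]
    refine tsum_congr fun s1 => ?_
    by_cases hs1 : UC l.1 s1 ∧ (s1.map ln).sum ≤ n - l.2.1.length
    · rw [if_pos hs1]
      unfold cN
      by_cases hq : q0.1 (ed l.1 s1)
      · rw [if_pos hq, no_fc, ← ENNReal.tsum_mul_left, ← ENNReal.tsum_mul_left]
        refine tsum_congr fun s2 => ?_
        by_cases hs2 : UC (ed l.1 s1 + q0.2) s2 ∧
            (s2.map ln).sum ≤ n - l.2.1.length - (s1.map ln).sum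
        · rw [if_pos hs2]
          unfold cN cq
          rw [← ENNReal.tsum_mul_left, ← ENNReal.tsum_mul_left, ← ENNReal.tsum_mul_left]
          refine tsum_congr fun r => ?_
          by_cases hr : UH r ∧ r.1 = ed (ed l.1 s1 + q0.2) s2 ∧
              r.2.1.length = n - l.2.1.length - (s1.map ln).sum - (s2.map ln).sum
          · rw [if_pos hr, if_pos ⟨hl, hs1, hq, hs2, hr⟩]
          · rw [if_neg hr, if_neg (fun h => hr h.2.2.2.2), mul_zero, mul_zero, mul_zero]
        · rw [if_neg hs2, mul_zero, mul_zero]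
          symm
          rw [ENNReal.tsum_eq_zero]
          exact fun r => if_neg fun h => hs2 h.2.2.2.1
      · rw [if_neg hq, mul_zero, mul_zero]
        symm
        rw [ENNReal.tsum_eq_zero]
        intro s2
        rw [ENNReal.tsum_eq_zero]
        exact fun r => if_neg fun h => hq h.2.2.1
    · rw [if_neg hs1, mul_zero]
      symm
      rw [ENNReal.tsum_eq_zero]
      intro s2
      rw [ENNReal.tsum_eq_zero]
      exact fun r => if_neg fun h => hs1 h.2.1
  · rw [if_neg hl]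
    symm
    rw [ENNReal.tsum_eq_zero]
    intro s1
    rw [ENNReal.tsum_eq_zero]
    intro s2
    rw [ENNReal.tsum_eq_zero]
    exact fun r => if_neg fun h => hl h.1

private theorem no_card (R : ℕ) (s : List PP) (v : ℤ × ℤ) :
    (∑ i ∈ Finset.range (s.length + 1), if nrm (ed v (s.take i)) ≤ R then 1 else 0) ≤
      KAmp.occ (ker y z) (fun v _ => nrm v ≤ R) v s + 1 := by
  induction s generalizing v with
  | nil =>
    simp only [List.length_nil, zero_add, Finset.range_one, Finset.sum_singleton]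
    split_ifs <;> omega
  | cons p s ih =>
    rw [List.length_cons, Finset.sum_range_succ']
    have h1 := ih (v + dsp p)
    have h2 : ∀ i, ed v ((p :: s).take (i + 1)) = ed (v + dsp p) (s.take i) := by
      intro i
      rw [List.take_succ_cons, ed_cons]
    simp only [h2, List.take_zero, ed_nil]
    unfold KAmp.occ
    change _ ≤ _ + KAmp.occ (ker y z) (fun v _ => nrm v ≤ R) (v + dsp p) s + 1
    split_ifs <;> omega

private theorem no_vc {v : ℤ × ℤ} {s : List PP} (h : UC v s) : KAmp.VC (ker y z) v s := by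
  induction s generalizing v with
  | nil => trivial
  | cons p s ih => exact ⟨h.1, ih h.2⟩

/-- The cap as a cap of the system. -/
private def noHT (l : HA) (h : UH l) : KAmp.HT := ⟨l.1, ⟨l.2.1, h, l.2.2.2.2⟩⟩

private theorem noHT_inj {l l' : HA} {h : UH l} {h' : UH l'} (e : noHT l h = noHT l' h') :
    l = l' := by
  obtain ⟨v, l, hl⟩ := l
  obtain ⟨v', l', hl'⟩ := l'
  unfold noHT at e
  simp only [Sigma.mk.injEq] at e
  obtain ⟨rfl, e⟩ := e
  rw [heq_iff_eq, Subtype.mk.injEq] at e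
  subst e
  rfl

/-- KC19a. -/
theorem near_one (h : Cr y z) {q0 : (ℤ × ℤ → Prop) × (ℤ × ℤ)} {R : ℕ} (hq0 : GapOk [q0])
    (hR : ∀ v, q0.1 v → nrm v ≤ R) (n : ℕ) :
    TQ y z UH [q0] n ≤ 40 ^ mm q0.2 * (sys y z).sum (n + lam z q0.2)
      fun x => ((sys y z).oc (fun v _ => nrm v ≤ R) x + 1 : ℕ) := by
  classical
  have hex : ∀ w : ℤ × ℤ, ∃ D : Finset (List PP), q0.1 w →
      (∀ s ∈ D, UC w s ∧ ed w s = w + q0.2 ∧ s.length = mm q0.2 * M0 z ∧
        (s.map ln).sum = lam z q0.2) ∧ 1 ≤ 40 ^ mm q0.2 * ∑ s ∈ D, ww y z s := by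
    intro w
    by_cases hw : q0.1 w
    · obtain ⟨h1, h2⟩ := hq0 q0 (List.mem_singleton_self _) w hw
      obtain ⟨D, hD⟩ := exists_paths h h1 h2
      exact ⟨D, fun _ => hD⟩
    · exact ⟨∅, fun h => absurd h hw⟩
  choose D hD using hex
  -- the five-tuples
  set C5 : HA × List PP × List PP × List PP × HA → Prop := fun t =>
    NoC q0 n t.1 t.2.1 t.2.2.2.1 t.2.2.2.2 ∧ t.2.2.1 ∈ D (ed t.1.1 t.2.1) with hC5
  set W5 : HA × List PP × List PP × List PP × HA → ℝ≥0∞ := fun t =>
    wc y z t.1 * (ww y z t.2.1 * (ww y z t.2.2.1 * (ww y z t.2.2.2.1 * wc y z t.2.2.2.2))) with hW5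
  have hstep : TQ y z UH [q0] n ≤ 40 ^ mm q0.2 * ∑' t, if C5 t then W5 t else 0 := by
    rw [no_flat, ENNReal.tsum_prod', ← ENNReal.tsum_mul_left]
    refine ENNReal.tsum_le_tsum fun l => ?_
    rw [ENNReal.tsum_prod', ← ENNReal.tsum_mul_left]
    refine ENNReal.tsum_le_tsum fun s1 => ?_
    have hsw : (∑' p : List PP × List PP × HA, if C5 (l, s1, p) then W5 (l, s1, p) else 0) =
        ∑' q : List PP × HA, ∑' d : List PP,
          if C5 (l, s1, d, q) then W5 (l, s1, d, q) else 0 := by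
      rw [ENNReal.tsum_prod', ENNReal.tsum_comm]
    rw [hsw, ← ENNReal.tsum_mul_left, ← ENNReal.tsum_prod (f := fun s2 r =>
      if NoC q0 n l s1 s2 r then wc y z l * (ww y z s1 * (ww y z s2 * wc y z r)) else 0)]
    refine ENNReal.tsum_le_tsum fun q => ?_
    obtain ⟨s2, r⟩ := q
    simp only [hC5, hW5]
    by_cases hc : NoC q0 n l s1 s2 r
    · rw [if_pos hc]
      have hd := (hD (ed l.1 s1) hc.2.2.1).2
      have h1 : (∑' d : List PP, if NoC q0 n l s1 s2 r ∧ d ∈ D (ed l.1 s1) then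
          wc y z l * (ww y z s1 * (ww y z d * (ww y z s2 * wc y z r))) else 0) =
          wc y z l * (ww y z s1 * (ww y z s2 * wc y z r)) * ∑ d ∈ D (ed l.1 s1), ww y z d := by
        rw [tsum_eq_sum (s := D (ed l.1 s1)), Finset.mul_sum]
        · refine Finset.sum_congr rfl fun d hd => ?_
          rw [if_pos ⟨hc, hd⟩]
          ring
        · intro d hd
          rw [if_neg fun h => hd h.2]
      rw [h1]
      calc wc y z l * (ww y z s1 * (ww y z s2 * wc y z r))
          = wc y z l * (ww y z s1 * (ww y z s2 * wc y z r)) * 1 := (mul_one _).symm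
        _ ≤ wc y z l * (ww y z s1 * (ww y z s2 * wc y z r)) *
            (40 ^ mm q0.2 * ∑ d ∈ D (ed l.1 s1), ww y z d) := mul_le_mul_right hd _
        _ = _ := by ring
    · rw [if_neg hc]
      exact zero_le
  refine hstep.trans (mul_le_mul_right ?_ _)
  -- the chains with marked places
  set N := n + lam z q0.2 with hN
  set I : (sys y z).Ch → ℕ → Prop := fun x i =>
    i ≤ x.1.2.1.length ∧ nrm (ed x.1.1.1 (x.1.2.1.take i)) ≤ R with hI
  have hrhs : (∑' p : {x : (sys y z).Ch // (sys y z).len x = N} × ℕ,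
      if I p.1.1 p.2 then (sys y z).W p.1.1 else 0) ≤
      (sys y z).sum N fun x => ((sys y z).oc (fun v _ => nrm v ≤ R) x + 1 : ℕ) := by
    rw [ENNReal.tsum_prod']
    unfold KAmp.Sys.sum
    refine ENNReal.tsum_le_tsum fun x => ?_
    have h1 : (∑' i : ℕ, if I x.1 i then (sys y z).W x.1 else 0) =
        (sys y z).W x.1 * ((∑ i ∈ Finset.range (x.1.1.2.1.length + 1),
          if nrm (ed x.1.1.1.1 (x.1.1.2.1.take i)) ≤ R then 1 else 0 : ℕ) : ℝ≥0∞) := by
      rw [tsum_eq_sum (s := Finset.range (x.1.1.2.1.length + 1)), Nat.cast_sum, Finset.mul_sum]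
      · refine Finset.sum_congr rfl fun i hi => ?_
        rw [Finset.mem_range] at hi
        by_cases hn : nrm (ed x.1.1.1.1 (x.1.1.2.1.take i)) ≤ R
        · rw [if_pos hn, if_pos ⟨by omega, hn⟩, Nat.cast_one, mul_one]
        · rw [if_neg hn, if_neg (fun h => hn h.2), Nat.cast_zero, mul_zero]
      · intro i hi
        rw [Finset.mem_range] at hi
        exact if_neg fun h => hi (by have := h.1; omega)
    rw [h1]
    refine mul_le_mul_right ?_ _
    exact Nat.cast_le.2 (no_card (y := y) (z := z) R x.1.1.2.1 x.1.1.1.1)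
  refine le_trans ?_ hrhs
  -- the injection
  have hlhs : (∑' t, if C5 t then W5 t else 0) = ∑' t : {t // C5 t}, W5 t.1 := by
    refine Eq.trans (tsum_congr fun t => ?_) (tsum_subtype {t | C5 t} W5).symm
    rw [Set.indicator_apply]
    rfl
  rw [hlhs]
  have hch : ∀ t : {t // C5 t}, UC t.1.1.1 (t.1.2.1 ++ (t.1.2.2.1 ++ t.1.2.2.2.1)) ∧
      ed t.1.1.1 (t.1.2.1 ++ (t.1.2.2.1 ++ t.1.2.2.2.1)) = t.1.2.2.2.2.1 := by
    rintro ⟨⟨l, s1, d, s2, r⟩, hc, hd⟩
    obtain ⟨hd1, hd2, -⟩ := (hD _ hc.2.2.1).1 d hd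
    obtain ⟨-, ⟨hs1, -⟩, -, ⟨hs2, -⟩, -, hr, -⟩ := hc
    simp only at hd1 hd2 hs1 hs2 hr ⊢
    rw [uc_append, uc_append, ed_append, ed_append, hd2]
    exact ⟨⟨hs1, hd1, hs2⟩, hr.symm⟩
  let φ0 : {t // C5 t} → (sys y z).Ch := fun t =>
    ⟨(noHT t.1.1 t.2.1.1.1, t.1.2.1 ++ (t.1.2.2.1 ++ t.1.2.2.2.1),
      noHT t.1.2.2.2.2 t.2.1.2.2.2.2.1), no_vc (hch t).1, (hch t).2⟩
  have hlen : ∀ t, (sys y z).len (φ0 t) = N := by
    rintro ⟨⟨l, s1, d, s2, r⟩, hc, hd⟩
    obtain ⟨-, -, -, hd4⟩ := (hD _ hc.2.2.1).1 d hd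
    obtain ⟨⟨-, hl⟩, ⟨-, hs1⟩, -, ⟨-, hs2⟩, -, -, hr⟩ := hc
    simp only at hl hs1 hs2 hr hd4
    change l.2.1.length + ((s1 ++ (d ++ s2)).map ln).sum + r.2.1.length = n + lam z q0.2
    rw [List.map_append, List.map_append, List.sum_append, List.sum_append, hd4]
    omega
  let φ : {t // C5 t} → {x : (sys y z).Ch // (sys y z).len x = N} × ℕ := fun t =>
    (⟨φ0 t, hlen t⟩, t.1.2.1.length)
  have hφ : Function.Injective φ := by
    rintro ⟨⟨l, s1, d, s2, r⟩, hc, hd⟩ ⟨⟨l', s1', d', s2', r'⟩, hc', hd'⟩ he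
    have e0 := congrArg (fun p => p.1.1.1) he
    have e1 : noHT l hc.1.1 = noHT l' hc'.1.1 := congrArg (fun p => p.1) e0
    have e2 : s1 ++ (d ++ s2) = s1' ++ (d' ++ s2') := congrArg (fun p => p.2.1) e0
    have e3 : noHT r hc.2.2.2.2.1 = noHT r' hc'.2.2.2.2.1 := congrArg (fun p => p.2.2) e0
    have e4 : s1.length = s1'.length := congrArg (fun p => p.2) he
    obtain rfl := noHT_inj e1
    obtain rfl := noHT_inj e3
    obtain ⟨rfl, e5⟩ := List.append_inj e2 e4
    have hl := ((hD _ hc.2.2.1).1 d hd).2.2.1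
    have hl' := ((hD _ hc.2.2.1).1 d' hd').2.2.1
    obtain ⟨rfl, rfl⟩ := List.append_inj e5 (hl.trans hl'.symm)
    rfl
  refine le_trans (le_of_eq ?_) (ENNReal.tsum_comp_le_tsum_of_injective hφ
    (fun p : {x : (sys y z).Ch // (sys y z).len x = N} × ℕ =>
      if I p.1.1 p.2 then (sys y z).W p.1.1 else 0))
  refine tsum_congr fun t => ?_
  obtain ⟨⟨l, s1, d, s2, r⟩, hc, hd⟩ := t
  have hIt : I (φ0 ⟨(l, s1, d, s2, r), hc, hd⟩) s1.length := by
    refine ⟨?_, ?_⟩
    · change s1.length ≤ (s1 ++ (d ++ s2)).length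
      rw [List.length_append]
      omega
    · change nrm (ed l.1 ((s1 ++ (d ++ s2)).take s1.length)) ≤ R
      rw [List.take_left' rfl]
      exact hR _ hc.2.2.1
  change W5 (l, s1, d, s2, r) = if I (φ0 ⟨(l, s1, d, s2, r), hc, hd⟩) s1.length then
    (sys y z).W (φ0 ⟨(l, s1, d, s2, r), hc, hd⟩) else 0
  rw [if_pos hIt]
  change wc y z l * (ww y z s1 * (ww y z d * (ww y z s2 * wc y z r))) =
    wc y z l * ww y z (s1 ++ (d ++ s2)) * wc y z r
  rw [ww_append, ww_append]
  ring

end Pool.Agent.KComp
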