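import Pool.Agent.KComp.FCl

/-! KC10: removing the gaps one after the other.

PROOF. `nest`: induction on `qs` (for all `n`, `v`). For `q :: qs`, with `u = q.2`, `L = La z qs`,
`FC (cN c (q :: qs)) n v = ∑' w, ∑ p, KN p.1 v w * (if q.1 w then FC (cN c qs) p.2 (w + u) else 0)`; by
`GapOk` `q.1 w` implies `w ≠ 0 ∧ w + u ≠ 0`; by induction
`FC (cN c qs) p.2 (w + u) ≤ Pm qs * (p.2 + L + 1) ^ k * FC c (p.2 + L) (w + u)` with `p.2 ≤ n`; the sum over
`p` in the antidiagonal of `n` of `KN p.1 v w * FC c (p.2 + L) (w + u)` is at most the sum over the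
antidiagonal of `n + L` of `KN p.1 v w * FC c p.2 (w + u)`; then `fc_mark` with `n + L` points.
`nest_tq`: `cN_append`; `nest` for `FC (cN (cN c qs) qs1) p.2 w`, with `p.2 ≤ n`, and the antidiagonal of `n`
is mapped into that of `n + L` by `(p.1, p.2) ↦ (p.1, p.2 + L)`.
`nest_end`: by `nest`, `cN c (q0 :: qs) k w ≤ Pm qs * (k + L + 1) ^ _ * cN c [q0] (k + L) w` for `c = cq Q`; as
before `FC (cN c (q0 :: qs)) m v ≤ Pm qs * (m + L + 1) ^ _ * FC (cN c [q0]) (m + L) v`, and the same for `TQ`.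
`nest_mid`: `nest_tq` and `nest_end`, `(n + La qs1 + 1) ≤ (n + La (qs1 ++ qs2) + 1)` and
`Pm (qs1 ++ qs2) = Pm qs1 * Pm qs2`. -/

set_option autoImplicit false

open Pool.Agent.LK
open scoped ENNReal

namespace Pool.Agent.KComp

open Pool.Agent.KTube Pool.Agent.KRing Pool.Agent.KLog

variable {y z : ℝ}

/-- The cost of the paths in the gaps. -/
noncomputable def Pm (qs : List ((ℤ × ℤ → Prop) × (ℤ × ℤ))) : ℝ≥0∞ :=
  (qs.map fun q => (40 : ℝ≥0∞) ^ mm q.2).prod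

/-- The number of points of the paths in the gaps. -/
noncomputable def La (z : ℝ) (qs : List ((ℤ × ℤ → Prop) × (ℤ × ℤ))) : ℕ :=
  (qs.map fun q => lam z q.2).sum

private theorem Pm_cons (q : (ℤ × ℤ → Prop) × (ℤ × ℤ))
    (qs : List ((ℤ × ℤ → Prop) × (ℤ × ℤ))) : Pm (q :: qs) = 40 ^ mm q.2 * Pm qs := by
  unfold Pm
  rw [List.map_cons, List.prod_cons]

private theorem Pm_append (qs qs' : List ((ℤ × ℤ → Prop) × (ℤ × ℤ))) :
    Pm (qs ++ qs') = Pm qs * Pm qs' := by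
  unfold Pm
  rw [List.map_append, List.prod_append]

private theorem La_cons (z : ℝ) (q : (ℤ × ℤ → Prop) × (ℤ × ℤ))
    (qs : List ((ℤ × ℤ → Prop) × (ℤ × ℤ))) : La z (q :: qs) = lam z q.2 + La z qs := by
  unfold La
  rw [List.map_cons, List.sum_cons]

private theorem La_append (z : ℝ) (qs qs' : List ((ℤ × ℤ → Prop) × (ℤ × ℤ))) :
    La z (qs ++ qs') = La z qs + La z qs' := by
  unfold La
  rw [List.map_append, List.sum_append]

private theorem cN_cons' (c : ℕ → ℤ × ℤ → ℝ≥0∞) (q : (ℤ × ℤ → Prop) × (ℤ × ℤ))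
    (qs : List ((ℤ × ℤ → Prop) × (ℤ × ℤ))) (n : ℕ) (w : ℤ × ℤ) [Decidable (q.1 w)] :
    cN y z c (q :: qs) n w = if q.1 w then FC y z (cN y z c qs) n (w + q.2) else 0 := by
  rw [cN]
  beta_reduce
  split_ifs <;> rfl

/-- Sums over antidiagonals with the second coordinate moved. -/
private theorem sum_shift (f g : ℕ → ℝ≥0∞) (n L : ℕ) :
    ∑ p ∈ Finset.HasAntidiagonal.antidiagonal n, f p.1 * g (p.2 + L) ≤
      ∑ p ∈ Finset.HasAntidiagonal.antidiagonal (n + L), f p.1 * g p.2 := by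
  have hinj : Function.Injective (fun p : ℕ × ℕ => (p.1, p.2 + L)) := by
    rintro ⟨a, b⟩ ⟨a', b'⟩ h
    simp only [Prod.mk.injEq] at h ⊢
    omega
  calc ∑ p ∈ Finset.HasAntidiagonal.antidiagonal n, f p.1 * g (p.2 + L) =
        ∑ p ∈ (Finset.HasAntidiagonal.antidiagonal n).map ⟨_, hinj⟩, f p.1 * g p.2 := by
          rw [Finset.sum_map]
          rfl
    _ ≤ _ := by
      refine Finset.sum_le_sum_of_subset ?_
      intro p hp
      rw [Finset.mem_map] at hp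
      obtain ⟨q, hq, rfl⟩ := hp
      rw [Finset.HasAntidiagonal.mem_antidiagonal] at hq ⊢
      change q.1 + (q.2 + L) = n + L
      omega

private theorem sum_shift_le (f g g' : ℕ → ℝ≥0∞) (n L : ℕ) (K : ℝ≥0∞)
    (hg : ∀ k ≤ n, g k ≤ K * g' (k + L)) :
    ∑ p ∈ Finset.HasAntidiagonal.antidiagonal n, f p.1 * g p.2 ≤
      K * ∑ p ∈ Finset.HasAntidiagonal.antidiagonal (n + L), f p.1 * g' p.2 := by
  calc ∑ p ∈ Finset.HasAntidiagonal.antidiagonal n, f p.1 * g p.2 ≤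
        ∑ p ∈ Finset.HasAntidiagonal.antidiagonal n, K * (f p.1 * g' (p.2 + L)) := by
          refine Finset.sum_le_sum fun p hp => ?_
          rw [Finset.HasAntidiagonal.mem_antidiagonal] at hp
          calc f p.1 * g p.2 ≤ f p.1 * (K * g' (p.2 + L)) :=
                mul_le_mul_right (hg p.2 (by omega)) _
            _ = K * (f p.1 * g' (p.2 + L)) := by ring
    _ = K * ∑ p ∈ Finset.HasAntidiagonal.antidiagonal n, f p.1 * g' (p.2 + L) := by
          rw [Finset.mul_sum]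
    _ ≤ _ := mul_le_mul_right (sum_shift f g' n L) _

private theorem tsum_shift_le (f g g' : ℕ → ℤ × ℤ → ℝ≥0∞) (n L : ℕ) (K : ℝ≥0∞)
    (hg : ∀ k ≤ n, ∀ w, g k w ≤ K * g' (k + L) w) :
    ∑' w, ∑ p ∈ Finset.HasAntidiagonal.antidiagonal n, f p.1 w * g p.2 w ≤
      K * ∑' w, ∑ p ∈ Finset.HasAntidiagonal.antidiagonal (n + L), f p.1 w * g' p.2 w := by
  rw [← ENNReal.tsum_mul_left]
  exact ENNReal.tsum_le_tsum fun w =>
    sum_shift_le (fun k => f k w) (fun k => g k w) (fun k => g' k w) n L K fun k hk => hg k hk w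

private theorem pow_le (a b j : ℕ) (hab : a ≤ b) :
    ((a : ℕ) : ℝ≥0∞) ^ j ≤ ((b : ℕ) : ℝ≥0∞) ^ j :=
  pow_le_pow_left' (by exact_mod_cast hab) j

theorem nest (h : Cr y z) (c : ℕ → ℤ × ℤ → ℝ≥0∞) {qs : List ((ℤ × ℤ → Prop) × (ℤ × ℤ))}
    (hqs : GapOk qs) (n : ℕ) (v : ℤ × ℤ) :
    FC y z (cN y z c qs) n v ≤
      Pm qs * ((n + La z qs + 1 : ℕ) : ℝ≥0∞) ^ qs.length * FC y z c (n + La z qs) v := by
  classical
  induction qs generalizing n v with
  | nil =>
    simp [Pm, La, cN]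
  | cons q qs ih =>
    have hq := hqs q List.mem_cons_self
    have hqs' : GapOk qs := fun q' hq' => hqs q' (List.mem_cons_of_mem _ hq')
    set L := La z qs with hL
    set K : ℝ≥0∞ := Pm qs * ((n + L + 1 : ℕ) : ℝ≥0∞) ^ qs.length with hK
    have hk : ∀ k ≤ n, ∀ w, FC y z (cN y z c qs) k w ≤ K * FC y z c (k + L) w := by
      intro k hk w
      refine (ih hqs' k w).trans ?_
      rw [hK]
      gcongr
    have h1 : FC y z (cN y z c (q :: qs)) n v ≤
        K * ∑' x : ℤ × ℤ, (if x ≠ 0 ∧ x + q.2 ≠ 0 then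
          ∑ p ∈ Finset.HasAntidiagonal.antidiagonal (n + L),
            KN y z p.1 v x * FC y z c p.2 (x + q.2) else 0) := by
      unfold FC
      rw [← ENNReal.tsum_mul_left]
      refine ENNReal.tsum_le_tsum fun w => ?_
      by_cases hw : q.1 w
      · rw [if_pos (hq w hw)]
        refine sum_shift_le (fun k => KN y z k v w) (fun k => cN y z c (q :: qs) k w)
          (fun k => FC y z c k (w + q.2)) n L K fun k hkn => ?_
        rw [cN_cons', if_pos hw]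
        exact hk k hkn (w + q.2)
      · refine le_of_eq_of_le (Finset.sum_eq_zero fun p _ => ?_) zero_le
        rw [cN_cons', if_neg hw, mul_zero]
    refine h1.trans ?_
    refine (mul_le_mul_right (fc_mark h q.2 c (n + L) v) _).trans ?_
    rw [Pm_cons, La_cons, ← hL, List.length_cons, pow_succ]
    have e1 : n + (lam z q.2 + L) = n + L + lam z q.2 := by ring
    rw [e1, hK]
    calc Pm qs * ((n + L + 1 : ℕ) : ℝ≥0∞) ^ qs.length *
          (40 ^ mm q.2 * ((n + L + lam z q.2 + 1 : ℕ) : ℝ≥0∞) * FC y z c (n + L + lam z q.2) v) =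
          40 ^ mm q.2 * Pm qs * (((n + L + 1 : ℕ) : ℝ≥0∞) ^ qs.length *
            ((n + L + lam z q.2 + 1 : ℕ) : ℝ≥0∞)) * FC y z c (n + L + lam z q.2) v := by ring
      _ ≤ _ := by
        refine mul_le_mul_left (mul_le_mul_right (mul_le_mul_left ?_ _) _) _
        exact pow_le _ _ _ (by omega)

theorem nest_tq (h : Cr y z) (Q : HA → Prop) {qs1 : List ((ℤ × ℤ → Prop) × (ℤ × ℤ))}
    (hqs : GapOk qs1) (qs : List ((ℤ × ℤ → Prop) × (ℤ × ℤ))) (n : ℕ) :
    TQ y z Q (qs1 ++ qs) n ≤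
      Pm qs1 * ((n + La z qs1 + 1 : ℕ) : ℝ≥0∞) ^ qs1.length * TQ y z Q qs (n + La z qs1) := by
  unfold TQ
  refine tsum_shift_le (cq y z Q) _ _ n (La z qs1) _ fun k hk w => ?_
  rw [cN_append]
  refine (nest h _ hqs k w).trans ?_
  gcongr

theorem nest_end (h : Cr y z) (Q : HA → Prop) (q0 : (ℤ × ℤ → Prop) × (ℤ × ℤ))
    {qs : List ((ℤ × ℤ → Prop) × (ℤ × ℤ))} (hqs : GapOk qs) (n : ℕ) :
    TQ y z Q (q0 :: qs) n ≤
      Pm qs * ((n + La z qs + 1 : ℕ) : ℝ≥0∞) ^ qs.length * TQ y z Q [q0] (n + La z qs) := by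
  classical
  unfold TQ
  refine tsum_shift_le (cq y z Q) _ _ n (La z qs) _ fun m hm v => ?_
  unfold FC
  refine tsum_shift_le (fun k w => KN y z k v w) _ _ m (La z qs) _ fun k hk w => ?_
  rw [cN_cons', cN_cons']
  by_cases hw : q0.1 w
  · rw [if_pos hw, if_pos hw]
    refine (nest h _ hqs k (w + q0.2)).trans ?_
    refine mul_le_mul_left (mul_le_mul_right ?_ _) _
    exact pow_le _ _ _ (by omega)
  · rw [if_neg hw]
    exact zero_le

/-- **All gaps but one.** -/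
theorem nest_mid (h : Cr y z) (Q : HA → Prop) {qs1 qs2 : List ((ℤ × ℤ → Prop) × (ℤ × ℤ))}
    (q0 : (ℤ × ℤ → Prop) × (ℤ × ℤ)) (hqs : GapOk (qs1 ++ qs2)) (n : ℕ) :
    TQ y z Q (qs1 ++ q0 :: qs2) n ≤
      Pm (qs1 ++ qs2) * ((n + La z (qs1 ++ qs2) + 1 : ℕ) : ℝ≥0∞) ^ (qs1.length + qs2.length) *
        TQ y z Q [q0] (n + La z (qs1 ++ qs2)) := by
  have h1 : GapOk qs1 := fun q hq => hqs q (List.mem_append_left _ hq)
  have h2 : GapOk qs2 := fun q hq => hqs q (List.mem_append_right _ hq)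
  refine (nest_tq h Q h1 (q0 :: qs2) n).trans ?_
  refine (mul_le_mul_right (nest_end h Q q0 h2 (n + La z qs1)) _).trans ?_
  rw [Pm_append, La_append, pow_add]
  have e1 : n + (La z qs1 + La z qs2) = n + La z qs1 + La z qs2 := by ring
  rw [e1]
  calc Pm qs1 * ((n + La z qs1 + 1 : ℕ) : ℝ≥0∞) ^ qs1.length *
        (Pm qs2 * ((n + La z qs1 + La z qs2 + 1 : ℕ) : ℝ≥0∞) ^ qs2.length *
          TQ y z Q [q0] (n + La z qs1 + La z qs2)) =
        Pm qs1 * Pm qs2 * (((n + La z qs1 + 1 : ℕ) : ℝ≥0∞) ^ qs1.length *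
          ((n + La z qs1 + La z qs2 + 1 : ℕ) : ℝ≥0∞) ^ qs2.length) *
          TQ y z Q [q0] (n + La z qs1 + La z qs2) := by ring
    _ ≤ _ := by
      refine mul_le_mul_left (mul_le_mul_right (mul_le_mul_left ?_ _) _) _
      exact pow_le _ _ _ (by omega)

end Pool.Agent.KComp
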