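import Pool.Agent.KComp.Basic
import Pool.Agent.KLog.Kernel

/-! KC3b: the weight of a unit.

PROOF. `q = y z²`; `wt ([], []) = q`, `wt ([], [(e.1, e.2, 0)]) = q z` (`wt y z π = y ^ hgt * z ^ ln`; see
`KLog/Kernel.lean`, `KAmp/Rat.lean` `wtn_pos`), so the claim is `1 / 40 ≤ M0 z * q ^ M0 z * z`.
`M0 z = ⌈1 / (20 z)⌉`, so `M0 z * z ≥ 1 / 20` and `M0 z ≤ 1 / (20 z) + 1`; and
`q ^ M0 z ≥ 1 - M0 z (1 - q) ≥ 1 - (1 / (20 z) + 1) 9 z ≥ 1 / 2` by Bernoulli (`one_add_mul_le_pow`), since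
`1 - q ≤ 9 z`: `(ker_ok ...).one` (`KLog/Kernel.lean`; the sum over the free elements is `1`); by `basF` with
`f = 1` the basic ones have together the weight `q (1 + 8 z)`, and the others at most `z / 4` (field `rest`
without the factor `4 ^ l ≥ 1`): `q (1 + 8 z) ≥ 1 - z / 4`. (Such a bound for `q` may already be proved in
`KLog/PotSub.lean`, `KAmp/Tilt.lean` or `KAsym/Symbol.lean`: look for `1 - q` or `q_ge`.) -/

set_option autoImplicit false

open Pool.Agent.LK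
open scoped ENNReal

namespace Pool.Agent.KComp

open Pool.Agent.KTube Pool.Agent.KRing Pool.Agent.KLog

variable {y z : ℝ}

/-- The number of blocks of a unit. -/
noncomputable def M0 (z : ℝ) : ℕ := ⌈1 / (20 * z)⌉₊

theorem M0_pos (h : Cr y z) : 1 ≤ M0 z := by
  have hz := h.z_pos
  rw [M0, Nat.one_le_iff_ne_zero, Nat.ne_zero_iff_zero_lt, Nat.ceil_pos]
  positivity

private theorem cr_q (h : Cr y z) : 1 - 9 * z ≤ y * z ^ 2 := by
  have hz := h.z_pos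
  have hz1 : z ≤ 1 / 10 ^ 4 := h.z_le.trans (by norm_num)
  have hκ := ker_ok h.y_pos h.z_pos hz1 h.q_le h.one
  obtain ⟨-, -, h2⟩ := rest_eq hκ
  change 1 - y * z ^ 2 * (1 + 8 * z) ≤ z / 4 at h2
  have h3 := h.q_le
  nlinarith

private theorem cr_pow (h : Cr y z) : 1 / 2 ≤ (y * z ^ 2) ^ M0 z := by
  have hz := h.z_pos
  have h1 := cr_q h
  have h3 : (M0 z : ℝ) ≤ 1 / (20 * z) + 1 := (Nat.ceil_lt_add_one (by positivity)).le
  have h4 := one_add_mul_le_pow (a := y * z ^ 2 - 1) (by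
    have := mul_pos h.y_pos (pow_pos hz 2)
    linarith) (M0 z)
  rw [add_sub_cancel] at h4
  refine le_trans ?_ h4
  have h5 : (M0 z : ℝ) * (9 * z) ≤ 9 / 20 + 9 * z := by
    calc (M0 z : ℝ) * (9 * z) ≤ (1 / (20 * z) + 1) * (9 * z) :=
          mul_le_mul_of_nonneg_right h3 (by positivity)
      _ = 9 / 20 + 9 * z := by
          field_simp
  have h6 : (M0 z : ℝ) * (1 - y * z ^ 2) ≤ (M0 z : ℝ) * (9 * z) :=
    mul_le_mul_of_nonneg_left (by linarith) (Nat.cast_nonneg _)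
  have h7 : z ≤ 1 / 1000 := h.z_le.trans (by norm_num)
  nlinarith

/-- KC3b. -/
theorem unit_weight (h : Cr y z) (e : ℤ × ℤ) : 1 ≤ 40 * ((M0 z : ℝ≥0∞) *
    (wt (ENNReal.ofReal y) (ENNReal.ofReal z) ([], []) ^ (M0 z - 1) *
      wt (ENNReal.ofReal y) (ENNReal.ofReal z) ([], [(e.1, e.2, 0)]))) := by
  have hz := h.z_pos
  have hy := h.y_pos
  have hq : 0 ≤ y * z ^ 2 := by positivity
  have e1 : wt (ENNReal.ofReal y) (ENNReal.ofReal z) ([], []) = ENNReal.ofReal (y * z ^ 2) := by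
    rw [ENNReal.ofReal_mul hy.le, ENNReal.ofReal_pow hz.le]
    simp [wt, KLog.hgt]
  have e2 : wt (ENNReal.ofReal y) (ENNReal.ofReal z) ([], [(e.1, e.2, 0)]) =
      ENNReal.ofReal (y * z ^ 2 * z) := by
    rw [ENNReal.ofReal_mul hq, ENNReal.ofReal_mul hy.le, ENNReal.ofReal_pow hz.le]
    have e5 : (KLog.hgt ([], [(e.1, e.2, 0)])).toNat = 1 := rfl
    simp only [wt, e5, List.length_nil, List.length_cons, zero_add, pow_one]
    rw [mul_assoc, ← pow_succ, add_comm 1 2]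
  have e3 : (40 : ℝ≥0∞) = ENNReal.ofReal 40 := by norm_num
  have e4 : (M0 z : ℝ≥0∞) = ENNReal.ofReal (M0 z : ℝ) := by
    rw [ENNReal.ofReal_natCast]
  rw [e1, e2, e3, e4, ← ENNReal.ofReal_pow hq, ← ENNReal.ofReal_mul (by positivity),
    ← ENNReal.ofReal_mul (by positivity), ← ENNReal.ofReal_mul (by positivity),
    ENNReal.one_le_ofReal]
  have h1 := cr_pow h
  have h2 : 1 / 20 ≤ (M0 z : ℝ) * z := by
    have h3 : 1 / (20 * z) ≤ (M0 z : ℝ) := Nat.le_ceil _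
    calc 1 / 20 = 1 / (20 * z) * z := by field_simp
      _ ≤ _ := mul_le_mul_of_nonneg_right h3 hz.le
  have h3 : (y * z ^ 2) ^ (M0 z - 1) * (y * z ^ 2 * z) = (y * z ^ 2) ^ M0 z * z := by
    rw [← mul_assoc, ← pow_succ, Nat.sub_add_cancel (M0_pos h)]
  rw [h3]
  have h4 : (1 / 20) * (1 / 2) ≤ ((M0 z : ℝ) * z) * (y * z ^ 2) ^ M0 z :=
    mul_le_mul h2 h1 (by norm_num) (by positivity)
  calc (1 : ℝ) = 40 * ((1 / 20) * (1 / 2)) := by norm_num
    _ ≤ 40 * (((M0 z : ℝ) * z) * (y * z ^ 2) ^ M0 z) := by linarith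
    _ = _ := by ring

end Pool.Agent.KComp
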