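import Pool.Agent.KComp.Pth
import Pool.Agent.KComp.UnitW
import Pool.Agent.KTop.ShearAll

/-! KC3c: chains of basic blocks between two displacements, and their weight.

A unit from `v` to `v + e` (`nrm e = 1`, `v ≠ 0`, `v + e ≠ 0`) is a list of `M0 z` blocks: one of them, at
the place `i < M0 z`, is the step `([], [(e.1, e.2, 0)])` (three points), the others are straight, `([], [])`
(two points): `List.replicate i ([], []) ++ ([], [(e.1, e.2, 0)]) :: List.replicate (M0 z - 1 - i) ([], [])`.
It is a chain of unknotted blocks (`valid_nil` in `KTop/ShearAll.lean`; `valid_right` in `KLog/BasicV.lean`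
with `st4`, each `e` with `nrm e = 1` is one of the four unit vectors), with `2 M0 z + 1` points; the sum of
the weights over `i` is `M0 z * wt ([], []) ^ (M0 z - 1) * wt ([], [e]) ≥ 1 / 40` (`unit_weight`).
PROOF. By induction on `Pth v w k` there is a finite set `D` of lists with
`UC v s`, `ed v s = w`, `s.length = k * M0 z`, `(s.map ln).sum = k * (2 * M0 z + 1)` and
`1 ≤ 40 ^ k * ∑ s ∈ D, ww y z s`: `D = {[]}` for `k = 0`; for a further step at the beginning take the image
of `(i, s) ↦ unit i ++ s`, injective since all units have the same length and the place `i` of the step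
can be seen. Then `exists_pth` with `w = v + u`, `k = nrm u + 4 = mm u`. -/

set_option autoImplicit false

open Pool.Agent.LK
open scoped ENNReal

namespace Pool.Agent.KComp

open Pool.Agent.KTube Pool.Agent.KRing Pool.Agent.KLog
open Pool.Agent.KAsym (ln)
open Pool.Agent.KTop (GC UC ed ed_nil ed_cons ed_append uc_append)

variable {y z : ℝ} {v u : ℤ × ℤ}

/-- The number of steps of a path with the displacement `u`. -/
def mm (u : ℤ × ℤ) : ℕ := nrm u + 4

/-- Its number of points. -/
noncomputable def lam (z : ℝ) (u : ℤ × ℤ) : ℕ := mm u * (2 * M0 z + 1)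

/-- The unit with the step `e` at the place `i`. -/
private noncomputable def unt (z : ℝ) (e : ℤ × ℤ) (i : ℕ) : List PP :=
  List.replicate i ([], []) ++ ([], [(e.1, e.2, 0)]) :: List.replicate (M0 z - 1 - i) ([], [])

private theorem unt_length {e : ℤ × ℤ} {i : ℕ} (hi : i < M0 z) : (unt z e i).length = M0 z := by
  simp only [unt, List.length_append, List.length_cons, List.length_replicate]
  omega

private theorem unt_ln {e : ℤ × ℤ} {i : ℕ} (hi : i < M0 z) :
    ((unt z e i).map ln).sum = 2 * M0 z + 1 := by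
  have h1 : ln (([], []) : PP) = 2 := rfl
  have h2 : ln (([], [(e.1, e.2, 0)]) : PP) = 3 := rfl
  simp only [unt, List.map_append, List.map_cons, List.map_replicate, List.sum_append,
    List.sum_cons, List.sum_replicate, h1, h2, smul_eq_mul]
  omega

private theorem unt_ed (v e : ℤ × ℤ) (i : ℕ) : ed v (unt z e i) = v + e := by
  have h1 : dsp (([], []) : PP) = 0 := by simp [dsp, hz]
  have h2 : dsp (([], [(e.1, e.2, 0)]) : PP) = e := by simp [dsp, hz]
  simp only [ed, unt, List.map_append, List.map_cons, List.map_replicate, List.sum_append,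
    List.sum_cons, List.sum_replicate, h1, h2, smul_zero, zero_add, add_zero]

private theorem unt_ww (e : ℤ × ℤ) {i : ℕ} (hi : i < M0 z) : ww y z (unt z e i) =
    wt (ENNReal.ofReal y) (ENNReal.ofReal z) ([], []) ^ (M0 z - 1) *
      wt (ENNReal.ofReal y) (ENNReal.ofReal z) ([], [(e.1, e.2, 0)]) := by
  have h1 : M0 z - 1 = i + (M0 z - 1 - i) := by omega
  simp only [unt, ww_append, ww_cons]
  have h2 : ∀ j : ℕ, ww y z (List.replicate j (([], []) : PP)) =
      wt (ENNReal.ofReal y) (ENNReal.ofReal z) ([], []) ^ j := by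
    intro j
    simp [ww]
  rw [h2, h2]
  conv_rhs => rw [h1, pow_add]
  ring

private theorem uc_replicate {v : ℤ × ℤ} (hv : v ≠ 0) (j : ℕ) :
    UC v (List.replicate j (([], []) : PP)) := by
  induction j with
  | zero => exact hv
  | succ j ih =>
    refine ⟨valid_nil.2 hv, ?_⟩
    have h1 : dsp (([], []) : PP) = 0 := by simp [dsp, hz]
    rw [h1, add_zero]
    exact ih

private theorem exists_e4 {e : ℤ × ℤ} (he : nrm e = 1) : ∃ i, e = e4 i := by
  obtain ⟨a, b⟩ := e
  simp only [nrm] at he
  have h : (a = 1 ∧ b = 0) ∨ (a = -1 ∧ b = 0) ∨ (a = 0 ∧ b = 1) ∨ (a = 0 ∧ b = -1) := by omega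
  rcases h with ⟨rfl, rfl⟩ | ⟨rfl, rfl⟩ | ⟨rfl, rfl⟩ | ⟨rfl, rfl⟩
  · exact ⟨0, rfl⟩
  · exact ⟨1, rfl⟩
  · exact ⟨2, rfl⟩
  · exact ⟨3, rfl⟩

private theorem unt_uc {v e : ℤ × ℤ} (hv : v ≠ 0) (he : nrm e = 1) (hve : v + e ≠ 0) (i : ℕ) :
    UC v (unt z e i) := by
  obtain ⟨j, hj⟩ := exists_e4 he
  have hs : (([], [(e.1, e.2, 0)]) : PP) = ([], [st4 j]) := by rw [hj]; rfl
  have hd : dsp (([], [(e.1, e.2, 0)]) : PP) = e := by simp [dsp, hz]
  unfold unt
  rw [uc_append]
  have h1 : ed v (List.replicate i (([], []) : PP)) = v := by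
    have h1 : dsp (([], []) : PP) = 0 := by simp [dsp, hz]
    simp only [ed, List.map_replicate, List.sum_replicate, h1, smul_zero, add_zero]
  rw [h1]
  refine ⟨uc_replicate hv i, ?_, ?_⟩
  · rw [hs]
    exact (valid_right j).2 ⟨hv, by rw [← hj]; exact hve⟩
  · rw [hd]
    exact uc_replicate hve _

private theorem unt_inj {e : ℤ × ℤ} {i j : ℕ} (hi : i < M0 z) (hj : j < M0 z)
    (h : unt z e i = unt z e j) : i = j := by
  have key : ∀ i j : ℕ, i < M0 z → j < M0 z → i < j → unt z e i ≠ unt z e j := by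
    intro i j hi hj hij h
    have h1 : (unt z e i)[i]? = some ([], [(e.1, e.2, 0)]) := by
      unfold unt
      rw [List.getElem?_append_right (by rw [List.length_replicate])]
      simp
    have h2 : (unt z e j)[i]? = some ([], []) := by
      unfold unt
      rw [List.getElem?_append_left (by rw [List.length_replicate]; exact hij)]
      simp [hij]
    rw [h, h2] at h1
    simp at h1
  rcases Nat.lt_trichotomy i j with hlt | heq | hgt
  · exact absurd h (key i j hi hj hlt)
  · exact heq
  · exact absurd h.symm (key j i hj hi hgt)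

private theorem Pth.ne {v w : ℤ × ℤ} {k : ℕ} (h : Pth v w k) : v ≠ 0 := by
  cases h with
  | nil hv => exact hv
  | cons hv _ _ => exact hv

private theorem exists_lists (h : Cr y z) {v w : ℤ × ℤ} {k : ℕ} (hp : Pth v w k) :
    ∃ D : Finset (List PP),
      (∀ s ∈ D, UC v s ∧ ed v s = w ∧ s.length = k * M0 z ∧
        (s.map ln).sum = k * (2 * M0 z + 1)) ∧
      1 ≤ 40 ^ k * ∑ s ∈ D, ww y z s := by
  classical
  induction hp with
  | nil hv =>
    refine ⟨{[]}, ?_, ?_⟩
    · intro s hs
      rw [Finset.mem_singleton] at hs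
      subst hs
      exact ⟨hv, ed_nil _, by simp, by simp⟩
    · rw [Finset.sum_singleton, ww_nil, pow_zero, one_mul]
  | @cons v w e k hv he hp ih =>
    obtain ⟨D, hD, hs⟩ := ih
    have hve : v + e ≠ 0 := hp.ne
    refine ⟨(Finset.range (M0 z) ×ˢ D).image (fun p => unt z e p.1 ++ p.2), ?_, ?_⟩
    · intro s hs
      obtain ⟨⟨i, t⟩, hit, rfl⟩ := Finset.mem_image.1 hs
      obtain ⟨hi, ht⟩ := Finset.mem_product.1 hit
      rw [Finset.mem_range] at hi
      simp only at hi ht
      obtain ⟨h1, h2, h3, h4⟩ := hD t ht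
      simp only
      refine ⟨?_, ?_, ?_, ?_⟩
      · rw [uc_append, unt_ed]
        exact ⟨unt_uc hv he hve i, h1⟩
      · rw [ed_append, unt_ed, h2]
      · rw [List.length_append, unt_length hi, h3]
        ring
      · rw [List.map_append, List.sum_append, unt_ln hi, h4]
        ring
    · have hinj : Set.InjOn (fun p : ℕ × List PP => unt z e p.1 ++ p.2)
          ((Finset.range (M0 z) ×ˢ D : Finset (ℕ × List PP)) : Set (ℕ × List PP)) := by
        rintro ⟨i, s⟩ his ⟨j, t⟩ hjt hst
        rw [Finset.mem_coe, Finset.mem_product] at his hjt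
        have hi : i < M0 z := Finset.mem_range.1 his.1
        have hj : j < M0 z := Finset.mem_range.1 hjt.1
        simp only at hst
        obtain ⟨h1, h2⟩ := List.append_inj hst (by rw [unt_length hi, unt_length hj])
        rw [unt_inj hi hj h1, h2]
      have hsum : ∑ s ∈ (Finset.range (M0 z) ×ˢ D).image (fun p => unt z e p.1 ++ p.2),
          ww y z s = ((M0 z : ℝ≥0∞) *
          (wt (ENNReal.ofReal y) (ENNReal.ofReal z) ([], []) ^ (M0 z - 1) *
            wt (ENNReal.ofReal y) (ENNReal.ofReal z) ([], [(e.1, e.2, 0)]))) *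
          ∑ s ∈ D, ww y z s := by
        rw [Finset.sum_image hinj, Finset.sum_product]
        have h1 : ∀ i ∈ Finset.range (M0 z), ∑ s ∈ D, ww y z (unt z e i ++ s) =
            (wt (ENNReal.ofReal y) (ENNReal.ofReal z) ([], []) ^ (M0 z - 1) *
            wt (ENNReal.ofReal y) (ENNReal.ofReal z) ([], [(e.1, e.2, 0)])) *
            ∑ s ∈ D, ww y z s := by
          intro i hi
          rw [Finset.mul_sum]
          refine Finset.sum_congr rfl fun s _ => ?_
          rw [ww_append, unt_ww e (Finset.mem_range.1 hi)]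
        rw [Finset.sum_congr rfl h1, Finset.sum_const, Finset.card_range, nsmul_eq_mul, mul_assoc,
          mul_assoc, mul_assoc]
      rw [hsum]
      calc (1 : ℝ≥0∞) = 1 * 1 := (one_mul 1).symm
        _ ≤ (40 * ((M0 z : ℝ≥0∞) *
          (wt (ENNReal.ofReal y) (ENNReal.ofReal z) ([], []) ^ (M0 z - 1) *
            wt (ENNReal.ofReal y) (ENNReal.ofReal z) ([], [(e.1, e.2, 0)])))) *
          (40 ^ k * ∑ s ∈ D, ww y z s) := mul_le_mul' (unit_weight h e) hs
        _ = _ := by rw [pow_succ]; ring

/-- KC3c: **Paths with entropy.** -/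
theorem exists_paths (h : Cr y z) (hv : v ≠ 0) (hu : v + u ≠ 0) : ∃ D : Finset (List PP),
    (∀ s ∈ D, UC v s ∧ ed v s = v + u ∧ s.length = mm u * M0 z ∧ (s.map ln).sum = lam z u) ∧
    1 ≤ 40 ^ mm u * ∑ s ∈ D, ww y z s := by
  have hp := exists_pth hv hu
  rw [add_sub_cancel_left] at hp
  exact exists_lists h hp

end Pool.Agent.KComp
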