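import Pool.Agent.KComp.Basic

/-! KC3a: lattice paths of a given length that avoid the origin.

PROOF. First: monotone straight paths (`w - v` parallel to an axis, `0` not between), by induction on the
distance; concatenation `Pth v x k → Pth x w l → Pth v w (k + l)`; `Pth v w k → Pth v w (k + 2)` (a step
`e` with `v + e ≠ 0` and back). For `v = (a, b)`, `w = (c, d)` with `a ≠ c` and `b ≠ d` one of the two
`L`-shaped paths (with the corner `(c, b)` or `(a, d)`) avoids `0`: if `0` is on the first one then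
`b = 0`, `0` between `a` and `c`, or `c = 0`, `0` between `b` and `d`; if `0` is on the second one then
`a = 0`, .. or `d = 0`, ..; all four combinations are excluded (`v ≠ 0`, `w ≠ 0`, `a ≠ c`, `b ≠ d`). So
there is a path with `nrm (w - v)` steps. If `a = c` or `b = d` and the segment does not contain `0`: the
same. If it contains `0`, e.g. `b = d = 0`, `a < 0 < c`: go `(a, 0), (a, 1), .., (c, 1), (c, 0)`,
`nrm (w - v) + 2` steps. Now add two or one pairs of steps. -/

set_option autoImplicit false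

open Pool.Agent.LK
open scoped ENNReal

namespace Pool.Agent.KComp

open Pool.Agent.KTube Pool.Agent.KRing Pool.Agent.KLog

variable {v w : ℤ × ℤ}

/-- `Pth v w k`: there is a path of `k` steps from `v` to `w` that avoids the origin. -/
inductive Pth : ℤ × ℤ → ℤ × ℤ → ℕ → Prop
  | nil {v : ℤ × ℤ} : v ≠ 0 → Pth v v 0
  | cons {v w e : ℤ × ℤ} {k : ℕ} : v ≠ 0 → nrm e = 1 → Pth (v + e) w k → Pth v w (k + 1)

private theorem pth_trans {v x w : ℤ × ℤ} {k l : ℕ} (h : Pth v x k) (h' : Pth x w l) :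
    Pth v w (k + l) := by
  induction h with
  | nil _ => rwa [Nat.zero_add]
  | cons h1 h2 _ ih =>
    have h3 := Pth.cons h1 h2 (ih h')
    rwa [Nat.add_right_comm] at h3

private theorem pth_two {v : ℤ × ℤ} (hv : v ≠ 0) : Pth v v 2 := by
  have key : ∃ e : ℤ × ℤ, nrm e = 1 ∧ nrm (-e) = 1 ∧ v + e ≠ 0 := by
    by_cases h : v + (1, 0) = 0
    · refine ⟨(0, 1), by simp [nrm], by simp [nrm], ?_⟩
      intro h2
      have h3 := congrArg Prod.snd h
      have h4 := congrArg Prod.snd h2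
      simp only [Prod.snd_add, Prod.snd_zero] at h3 h4
      omega
    · exact ⟨(1, 0), by simp [nrm], by simp [nrm], h⟩
  obtain ⟨e, h1, h2, h3⟩ := key
  refine Pth.cons hv h1 (Pth.cons h3 h2 ?_)
  rw [add_neg_cancel_right]
  exact Pth.nil hv

private theorem pth_line {d : ℤ × ℤ} (hd : nrm d = 1) (n : ℕ) : ∀ v : ℤ × ℤ,
    (∀ i : ℕ, i ≤ n → v + (i : ℤ) • d ≠ 0) → Pth v (v + (n : ℤ) • d) n := by
  induction n with
  | zero =>
    intro v h
    have h0 := h 0 le_rfl
    simp only [Nat.cast_zero, zero_smul, add_zero] at h0 ⊢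
    exact Pth.nil h0
  | succ n ih =>
    intro v h
    have h0 := h 0 (Nat.zero_le _)
    simp only [Nat.cast_zero, zero_smul, add_zero] at h0
    have h1 : v + ((n + 1 : ℕ) : ℤ) • d = v + d + (n : ℤ) • d := by
      push_cast
      rw [add_smul, one_smul]
      abel
    rw [h1]
    refine Pth.cons h0 hd (ih _ fun i hi => ?_)
    have h2 := h (i + 1) (by omega)
    have h3 : v + ((i + 1 : ℕ) : ℤ) • d = v + d + (i : ℤ) • d := by
      push_cast
      rw [add_smul, one_smul]
      abel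
    rwa [h3] at h2

private theorem pth_hor {a b c : ℤ} (h : ¬ (b = 0 ∧ ((a ≤ 0 ∧ 0 ≤ c) ∨ (c ≤ 0 ∧ 0 ≤ a)))) :
    Pth (a, b) (c, b) (c - a).natAbs := by
  rcases le_total a c with hac | hac
  · have h1 := pth_line (d := (1, 0)) (by simp [nrm]) (c - a).natAbs (a, b) (fun i hi h2 => by
      have h3 := congrArg Prod.fst h2
      have h4 := congrArg Prod.snd h2
      simp only [Prod.fst_add, Prod.snd_add, Prod.smul_fst, Prod.smul_snd, smul_eq_mul, Prod.fst_zero,
        Prod.snd_zero, mul_one, mul_zero, add_zero] at h3 h4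
      exact h ⟨h4, by omega⟩)
    have h2 : ((a, b) : ℤ × ℤ) + (((c - a).natAbs : ℕ) : ℤ) • ((1, 0) : ℤ × ℤ) = (c, b) := by
      refine Prod.ext ?_ ?_
      · simp only [Prod.fst_add, Prod.smul_fst, smul_eq_mul, mul_one]
        omega
      · simp only [Prod.snd_add, Prod.smul_snd, smul_eq_mul, mul_zero, add_zero]
    rwa [h2] at h1
  · have h1 := pth_line (d := (-1, 0)) (by simp [nrm]) (c - a).natAbs (a, b) (fun i hi h2 => by
      have h3 := congrArg Prod.fst h2
      have h4 := congrArg Prod.snd h2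
      simp only [Prod.fst_add, Prod.snd_add, Prod.smul_fst, Prod.smul_snd, smul_eq_mul, Prod.fst_zero,
        Prod.snd_zero, mul_neg, mul_one, mul_zero, add_zero] at h3 h4
      exact h ⟨h4, by omega⟩)
    have h2 : ((a, b) : ℤ × ℤ) + (((c - a).natAbs : ℕ) : ℤ) • ((-1, 0) : ℤ × ℤ) = (c, b) := by
      refine Prod.ext ?_ ?_
      · simp only [Prod.fst_add, Prod.smul_fst, smul_eq_mul, mul_neg, mul_one]
        omega
      · simp only [Prod.snd_add, Prod.smul_snd, smul_eq_mul, mul_zero, add_zero]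
    rwa [h2] at h1

private theorem pth_ver {a b d : ℤ} (h : ¬ (a = 0 ∧ ((b ≤ 0 ∧ 0 ≤ d) ∨ (d ≤ 0 ∧ 0 ≤ b)))) :
    Pth (a, b) (a, d) (d - b).natAbs := by
  rcases le_total b d with hac | hac
  · have h1 := pth_line (d := (0, 1)) (by simp [nrm]) (d - b).natAbs (a, b) (fun i hi h2 => by
      have h3 := congrArg Prod.fst h2
      have h4 := congrArg Prod.snd h2
      simp only [Prod.fst_add, Prod.snd_add, Prod.smul_fst, Prod.smul_snd, smul_eq_mul, Prod.fst_zero,
        Prod.snd_zero, mul_one, mul_zero, add_zero] at h3 h4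
      exact h ⟨h3, by omega⟩)
    have h2 : ((a, b) : ℤ × ℤ) + (((d - b).natAbs : ℕ) : ℤ) • ((0, 1) : ℤ × ℤ) = (a, d) := by
      refine Prod.ext ?_ ?_
      · simp only [Prod.fst_add, Prod.smul_fst, smul_eq_mul, mul_zero, add_zero]
      · simp only [Prod.snd_add, Prod.smul_snd, smul_eq_mul, mul_one]
        omega
    rwa [h2] at h1
  · have h1 := pth_line (d := (0, -1)) (by simp [nrm]) (d - b).natAbs (a, b) (fun i hi h2 => by
      have h3 := congrArg Prod.fst h2
      have h4 := congrArg Prod.snd h2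
      simp only [Prod.fst_add, Prod.snd_add, Prod.smul_fst, Prod.smul_snd, smul_eq_mul, Prod.fst_zero,
        Prod.snd_zero, mul_neg, mul_one, mul_zero, add_zero] at h3 h4
      exact h ⟨h3, by omega⟩)
    have h2 : ((a, b) : ℤ × ℤ) + (((d - b).natAbs : ℕ) : ℤ) • ((0, -1) : ℤ × ℤ) = (a, d) := by
      refine Prod.ext ?_ ?_
      · simp only [Prod.fst_add, Prod.smul_fst, smul_eq_mul, mul_zero, add_zero]
      · simp only [Prod.snd_add, Prod.smul_snd, smul_eq_mul, mul_neg, mul_one]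
        omega
    rwa [h2] at h1

private theorem pth_pos {v w : ℤ × ℤ} (hv : v ≠ 0) (hw : w ≠ 0) :
    Pth v w (nrm (w - v)) ∨ Pth v w (nrm (w - v) + 2) := by
  obtain ⟨a, b⟩ := v
  obtain ⟨c, d⟩ := w
  have hn : nrm ((c, d) - (a, b)) = (c - a).natAbs + (d - b).natAbs := rfl
  rw [hn]
  have hv' : ¬ (a = 0 ∧ b = 0) := fun h => hv (Prod.ext h.1 h.2)
  have hw' : ¬ (c = 0 ∧ d = 0) := fun h => hw (Prod.ext h.1 h.2)
  by_cases h1 : ¬ (b = 0 ∧ ((a ≤ 0 ∧ 0 ≤ c) ∨ (c ≤ 0 ∧ 0 ≤ a))) ∧
      ¬ (c = 0 ∧ ((b ≤ 0 ∧ 0 ≤ d) ∨ (d ≤ 0 ∧ 0 ≤ b)))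
  · exact Or.inl (pth_trans (pth_hor h1.1) (pth_ver h1.2))
  by_cases h2 : ¬ (a = 0 ∧ ((b ≤ 0 ∧ 0 ≤ d) ∨ (d ≤ 0 ∧ 0 ≤ b))) ∧
      ¬ (d = 0 ∧ ((a ≤ 0 ∧ 0 ≤ c) ∨ (c ≤ 0 ∧ 0 ≤ a)))
  · have h3 := pth_trans (pth_ver h2.1) (pth_hor h2.2)
    rw [add_comm] at h3
    exact Or.inl h3
  right
  by_cases hb : b = 0
  · -- horizontal
    have hd : d = 0 := by omega
    subst hb
    subst hd
    have h3 : Pth (a, 0) (a, 1) 1 := by
      have := pth_ver (a := a) (b := 0) (d := 1) (by omega)
      simpa using this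
    have h4 : Pth (a, 1) (c, 1) (c - a).natAbs := pth_hor (by omega)
    have h5 : Pth (c, 1) (c, 0) 1 := by
      have := pth_ver (a := c) (b := 1) (d := 0) (by omega)
      simpa using this
    have h6 := pth_trans (pth_trans h3 h4) h5
    have h7 : 1 + (c - a).natAbs + 1 = (c - a).natAbs + ((0 : ℤ) - 0).natAbs + 2 := by
      simp only [sub_zero, Int.natAbs_zero]
      omega
    rwa [h7] at h6
  · have ha : a = 0 := by omega
    have hc : c = 0 := by omega
    subst ha
    subst hc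
    have h3 : Pth (0, b) (1, b) 1 := by
      have := pth_hor (a := 0) (b := b) (c := 1) (by omega)
      simpa using this
    have h4 : Pth (1, b) (1, d) (d - b).natAbs := pth_ver (by omega)
    have h5 : Pth (1, d) (0, d) 1 := by
      have := pth_hor (a := 1) (b := d) (c := 0) (by omega)
      simpa using this
    have h6 := pth_trans (pth_trans h3 h4) h5
    have h7 : 1 + (d - b).natAbs + 1 = ((0 : ℤ) - 0).natAbs + (d - b).natAbs + 2 := by
      simp only [sub_zero, Int.natAbs_zero]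
      omega
    rwa [h7] at h6

/-- KC3a. -/
theorem exists_pth (hv : v ≠ 0) (hw : w ≠ 0) : Pth v w (nrm (w - v) + 4) := by
  rcases pth_pos hv hw with h | h
  · exact pth_trans h (pth_trans (pth_two hw) (pth_two hw))
  · have h2 := pth_trans h (pth_two hw)
    exact h2

end Pool.Agent.KComp
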