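import Mathlib

/-! KC14: the number of increasing tuples, from the numbers of the elements in the initial segments.

PROOF. More generally for `i ≤ m`:
`|tq as i m - ws.prod * (m - i) ^ q / q!| ≤ C q * (δ + 1) * (m + 1) ^ (q - 1)`, with `C 0 = 0`,
`C (q + 1) = C q + 9` (or larger). Induction on `q`. Put `f j = tq as j m`,
`g j = ws.prod * (m - j) ^ q / q!` (`0 ≤ g ≤ (m + 1) ^ q`, decreasing in `j ≤ m`), `M = m - i`.
`tq (a :: as) i m = ∑ j ∈ Ico i m, a j * f (j + 1)`. (1) Replacing `f` by `g` costs at most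
`m * C q * (δ + 1) * (m + 1) ^ (q - 1) ≤ C q * (δ + 1) * (m + 1) ^ q` (for `q = 0`: `f = g = 1`, no cost).
(2) `∑ j ∈ Ico i m, (a j - w) * g (j + 1)`: summation by parts, with
`S j = ∑ l ∈ Ico i j, (a l - w)`, `|S j| ≤ 2 δ` for `i ≤ j ≤ m`, and `g` decreasing and nonnegative:
`≤ 2 δ * (g (i + 1) + ∑ |g (j + 1) - g (j + 2)|) ≤ 4 δ * (m + 1) ^ q`. (3)
`w * ∑ j ∈ Ico i m, g (j + 1) = w * ws.prod / q! * ∑ t ∈ range M, t ^ q`, and
`|∑ t ∈ range M, t ^ q - M ^ (q + 1) / (q + 1)| ≤ (M + 1) ^ q` (induction on `M`, or comparison with the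
integral; e.g. `t ^ (q+1) ≤ (t+1)^(q+1) - (q+1) t^q` and `(t+1)^(q+1) - t^(q+1) ≤ (q+1) (t+1)^q`). -/

set_option autoImplicit false

namespace Pool.Agent.KComp

/-- The weight of the tuples `i ≤ i₁ < ... < i_q < m`. -/
def tq : List (ℕ → ℝ) → ℕ → ℕ → ℝ
  | [], _, _ => 1
  | a :: as, i, m => ∑ j ∈ Finset.Ico i m, a j * tq as (j + 1) m

/-- Abel's inequality. -/
private theorem abel_ineq (s h : ℕ → ℝ) (B : ℝ) (M : ℕ)
    (hS : ∀ l ≤ M, |∑ j ∈ Finset.range l, s j| ≤ B) (hanti : ∀ l, h (l + 1) ≤ h l)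
    (hpos : ∀ l, 0 ≤ h l) : |∑ j ∈ Finset.range M, s j * h j| ≤ B * h 0 := by
  have key : ∀ N : ℕ, ∑ j ∈ Finset.range N, s j * h j
      = ∑ l ∈ Finset.range N, (∑ j ∈ Finset.range (l + 1), s j) * (h l - h (l + 1))
        + (∑ j ∈ Finset.range N, s j) * h N := by
    intro N
    induction N with
    | zero => simp
    | succ N ih =>
      rw [Finset.sum_range_succ, ih, Finset.sum_range_succ (fun l =>
        (∑ j ∈ Finset.range (l + 1), s j) * (h l - h (l + 1))), Finset.sum_range_succ s]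
      ring
  have tel : ∀ N : ℕ, ∑ l ∈ Finset.range N, (h l - h (l + 1)) = h 0 - h N := by
    intro N
    exact Finset.sum_range_sub' h N
  rw [key M]
  have h1 : |∑ l ∈ Finset.range M, (∑ j ∈ Finset.range (l + 1), s j) * (h l - h (l + 1))|
      ≤ ∑ l ∈ Finset.range M, B * (h l - h (l + 1)) := by
    refine (Finset.abs_sum_le_sum_abs _ _).trans (Finset.sum_le_sum fun l hl => ?_)
    rw [abs_mul, abs_of_nonneg (sub_nonneg.mpr (hanti l))]
    exact mul_le_mul_of_nonneg_right (hS (l + 1) (Finset.mem_range.mp hl))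
      (sub_nonneg.mpr (hanti l))
  rw [← Finset.mul_sum, tel] at h1
  have h2 : |(∑ j ∈ Finset.range M, s j) * h M| ≤ B * h M := by
    rw [abs_mul, abs_of_nonneg (hpos M)]
    exact mul_le_mul_of_nonneg_right (hS M le_rfl) (hpos M)
  calc _ ≤ _ := abs_add_le _ _
    _ ≤ B * (h 0 - h M) + B * h M := add_le_add h1 h2
    _ = B * h 0 := by ring

private theorem pow_lower (q : ℕ) (t : ℝ) (ht : 0 ≤ t) :
    ((q : ℝ) + 1) * t ^ q ≤ (t + 1) ^ (q + 1) - t ^ (q + 1) := by
  induction q with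
  | zero => simp
  | succ q ih =>
    have h0 : 0 ≤ t ^ q := pow_nonneg ht q
    have e : (t + 1) ^ (q + 1 + 1) - t ^ (q + 1 + 1)
        = (t + 1) * ((t + 1) ^ (q + 1) - t ^ (q + 1)) + t ^ (q + 1) := by ring
    rw [e]
    have h1 : (t + 1) * (((q : ℝ) + 1) * t ^ q)
        ≤ (t + 1) * ((t + 1) ^ (q + 1) - t ^ (q + 1)) :=
      mul_le_mul_of_nonneg_left ih (by linarith)
    have h2 : (t + 1) * (((q : ℝ) + 1) * t ^ q)
        = ((q : ℝ) + 1) * t ^ (q + 1) + ((q : ℝ) + 1) * t ^ q := by ring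
    have h3 : 0 ≤ ((q : ℝ) + 1) * t ^ q := by positivity
    push_cast
    nlinarith

private theorem pow_upper (q : ℕ) (t : ℝ) (ht : 0 ≤ t) :
    (t + 1) ^ (q + 1) - t ^ (q + 1) ≤ ((q : ℝ) + 1) * (t + 1) ^ q := by
  induction q with
  | zero => simp
  | succ q ih =>
    have h0 : 0 ≤ (t + 1) ^ q := pow_nonneg (by linarith) q
    have e : (t + 1) ^ (q + 1 + 1) - t ^ (q + 1 + 1)
        = t * ((t + 1) ^ (q + 1) - t ^ (q + 1)) + (t + 1) ^ (q + 1) := by ring
    rw [e]
    have h1 : t * ((t + 1) ^ (q + 1) - t ^ (q + 1)) ≤ t * (((q : ℝ) + 1) * (t + 1) ^ q) :=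
      mul_le_mul_of_nonneg_left ih ht
    have h2 : (((q : ℝ) + 1) * (t + 1) ^ q) * (t + 1) = ((q : ℝ) + 1) * (t + 1) ^ (q + 1) := by
      ring
    have h3 : 0 ≤ ((q : ℝ) + 1) * (t + 1) ^ q := by positivity
    push_cast
    nlinarith

private theorem pow_sum (q M : ℕ) :
    |∑ t ∈ Finset.range M, (t : ℝ) ^ q - (M : ℝ) ^ (q + 1) / ((q : ℝ) + 1)|
      ≤ ((M : ℝ) + 1) ^ q := by
  have hq : (0 : ℝ) < (q : ℝ) + 1 := by positivity
  have hlow : ((q : ℝ) + 1) * ∑ t ∈ Finset.range M, (t : ℝ) ^ q ≤ (M : ℝ) ^ (q + 1) := by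
    induction M with
    | zero => simp
    | succ M ih =>
      rw [Finset.sum_range_succ, mul_add]
      have := pow_lower q (M : ℝ) (Nat.cast_nonneg M)
      push_cast
      linarith
  have hup : (M : ℝ) ^ (q + 1) ≤ ((q : ℝ) + 1) * (∑ t ∈ Finset.range M, (t : ℝ) ^ q
      + (M : ℝ) ^ q) := by
    induction M with
    | zero => 
      simp only [Finset.range_zero, Finset.sum_empty, zero_add, Nat.cast_zero]
      rw [zero_pow (Nat.succ_ne_zero q)]
      positivity
    | succ M ih =>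
      rw [Finset.sum_range_succ]
      have h1 := pow_upper q (M : ℝ) (Nat.cast_nonneg M)
      have hlow' : ((q : ℝ) + 1) * ∑ t ∈ Finset.range M, (t : ℝ) ^ q ≤ (M : ℝ) ^ (q + 1) := by
        clear ih hlow
        induction M with
        | zero => simp
        | succ M ih =>
          rw [Finset.sum_range_succ, mul_add]
          have := pow_lower q (M : ℝ) (Nat.cast_nonneg M)
          have h1' := pow_upper q (M : ℝ) (Nat.cast_nonneg M)
          push_cast
          linarith [ih h1']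
      have ih' := ih hlow'
      push_cast
      have e : ((q : ℝ) + 1) * (∑ t ∈ Finset.range M, (t : ℝ) ^ q + (M : ℝ) ^ q
          + ((M : ℝ) + 1) ^ q) = ((q : ℝ) + 1) * (∑ t ∈ Finset.range M, (t : ℝ) ^ q
          + (M : ℝ) ^ q) + ((q : ℝ) + 1) * ((M : ℝ) + 1) ^ q := by ring
      rw [e]
      linarith
  have h3 : (M : ℝ) ^ q ≤ ((M : ℝ) + 1) ^ q :=
    pow_le_pow_left₀ (Nat.cast_nonneg M) (by linarith) q
  rw [abs_le]
  constructor
  · have : (M : ℝ) ^ (q + 1) / ((q : ℝ) + 1) ≤ ∑ t ∈ Finset.range M, (t : ℝ) ^ q + (M : ℝ) ^ q := by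
      rw [div_le_iff₀ hq]
      linarith
    linarith
  · have : ∑ t ∈ Finset.range M, (t : ℝ) ^ q ≤ (M : ℝ) ^ (q + 1) / ((q : ℝ) + 1) := by
      rw [le_div_iff₀ hq]
      linarith
    have h4 : (0 : ℝ) ≤ ((M : ℝ) + 1) ^ q := by positivity
    linarith

private theorem prod_mem (as : List (ℕ → ℝ)) (ws : List ℝ) (m : ℕ) (δ : ℝ)
    (h : List.Forall₂ (fun (a : ℕ → ℝ) (w : ℝ) => (∀ j, 0 ≤ a j ∧ a j ≤ 1) ∧ 0 ≤ w ∧ w ≤ 1 ∧
      ∀ i ≤ m, |∑ j ∈ Finset.range i, a j - w * i| ≤ δ) as ws) :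
    0 ≤ ws.prod ∧ ws.prod ≤ 1 := by
  induction h with
  | nil => simp
  | cons hab _ ih =>
    rw [List.prod_cons]
    exact ⟨mul_nonneg hab.2.1 ih.1, mul_le_one₀ hab.2.2.1 ih.1 ih.2⟩

private theorem tq_lln_aux (q : ℕ) : ∃ C : ℝ, 0 ≤ C ∧ ∀ (m : ℕ) (δ : ℝ) (as : List (ℕ → ℝ))
    (ws : List ℝ), 0 ≤ δ → as.length = q →
    List.Forall₂ (fun (a : ℕ → ℝ) (w : ℝ) => (∀ j, 0 ≤ a j ∧ a j ≤ 1) ∧ 0 ≤ w ∧ w ≤ 1 ∧
      ∀ i ≤ m, |∑ j ∈ Finset.range i, a j - w * i| ≤ δ) as ws →
    ∀ i ≤ m, ((m : ℝ) + 1) *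
      |tq as i m - ws.prod * (((m - i : ℕ) : ℝ)) ^ q / (q.factorial : ℝ)| ≤
      C * (δ + 1) * ((m : ℝ) + 1) ^ q := by
  induction q with
  | zero =>
    refine ⟨0, le_rfl, fun m δ as ws hδ hlen h i hi => ?_⟩
    have has : as = [] := List.length_eq_zero_iff.mp hlen
    subst has
    cases h
    simp [tq]
  | succ q ih =>
    obtain ⟨C, hC, ih⟩ := ih
    refine ⟨C + 2, by linarith, fun m δ as ws hδ hlen h i hi => ?_⟩
    cases h with
    | nil => simp at hlen
    | @cons a w as' ws' hab h' =>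
      have hlen' : as'.length = q := by simpa using hlen
      obtain ⟨ha, hw0, hw1, hS⟩ := hab
      obtain ⟨hW0, hW1⟩ := prod_mem as' ws' m δ h'
      have ih' := ih m δ as' ws' hδ hlen' h'
      set W : ℝ := ws'.prod with hWdef
      set f : ℕ → ℝ := fun j => tq as' j m with hf
      set g : ℕ → ℝ := fun j => W * (((m - j : ℕ) : ℝ)) ^ q / (q.factorial : ℝ) with hg
      have hfac : (1 : ℝ) ≤ (q.factorial : ℝ) := by
        exact_mod_cast Nat.one_le_iff_ne_zero.mpr (Nat.factorial_ne_zero q)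
      have hfac0 : (0 : ℝ) < (q.factorial : ℝ) := by linarith
      have hm1 : (0 : ℝ) < (m : ℝ) + 1 := by positivity
      have hg0 : ∀ j, 0 ≤ g j := fun j => by
        simp only [hg]
        positivity
      have hganti : ∀ j, g (j + 1) ≤ g j := fun j => by
        simp only [hg]
        refine div_le_div_of_nonneg_right ?_ hfac0.le
        refine mul_le_mul_of_nonneg_left ?_ hW0
        refine pow_le_pow_left₀ (Nat.cast_nonneg _) ?_ q
        exact_mod_cast Nat.sub_le_sub_left (Nat.le_succ j) m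
      have hgle : ∀ j, g j ≤ ((m : ℝ) + 1) ^ q := fun j => by
        simp only [hg]
        have h1 : (((m - j : ℕ) : ℝ)) ^ q ≤ ((m : ℝ) + 1) ^ q := by
          refine pow_le_pow_left₀ (Nat.cast_nonneg _) ?_ q
          have : ((m - j : ℕ) : ℝ) ≤ (m : ℝ) := by exact_mod_cast Nat.sub_le m j
          linarith
        have h0 : (0 : ℝ) ≤ (((m - j : ℕ) : ℝ)) ^ q := by positivity
        have h2 : W * (((m - j : ℕ) : ℝ)) ^ q ≤ (((m - j : ℕ) : ℝ)) ^ q := by
          nlinarith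
        rw [div_le_iff₀ hfac0]
        have h3 : ((m : ℝ) + 1) ^ q ≤ ((m : ℝ) + 1) ^ q * (q.factorial : ℝ) := by
          have : (0 : ℝ) ≤ ((m : ℝ) + 1) ^ q := by positivity
          nlinarith
        linarith
      -- step 1
      have s1 : ((m : ℝ) + 1) * |∑ j ∈ Finset.Ico i m, a j * (f (j + 1) - g (j + 1))|
          ≤ C * (δ + 1) * ((m : ℝ) + 1) ^ (q + 1) := by
        have h1 : |∑ j ∈ Finset.Ico i m, a j * (f (j + 1) - g (j + 1))|
            ≤ ∑ j ∈ Finset.Ico i m, |f (j + 1) - g (j + 1)| := by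
          refine (Finset.abs_sum_le_sum_abs _ _).trans (Finset.sum_le_sum fun j _ => ?_)
          rw [abs_mul, abs_of_nonneg (ha j).1]
          exact mul_le_of_le_one_left (abs_nonneg _) (ha j).2
        have h2 : ((m : ℝ) + 1) * ∑ j ∈ Finset.Ico i m, |f (j + 1) - g (j + 1)|
            ≤ ∑ _j ∈ Finset.Ico i m, C * (δ + 1) * ((m : ℝ) + 1) ^ q := by
          rw [Finset.mul_sum]
          refine Finset.sum_le_sum fun j hj => ?_
          have hj' : j + 1 ≤ m := (Finset.mem_Ico.mp hj).2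
          exact ih' (j + 1) hj'
        have h3 : ∑ _j ∈ Finset.Ico i m, C * (δ + 1) * ((m : ℝ) + 1) ^ q
            ≤ C * (δ + 1) * ((m : ℝ) + 1) ^ (q + 1) := by
          rw [Finset.sum_const, Nat.card_Ico, nsmul_eq_mul]
          have h4 : ((m - i : ℕ) : ℝ) ≤ (m : ℝ) + 1 := by
            have : ((m - i : ℕ) : ℝ) ≤ (m : ℝ) := by exact_mod_cast Nat.sub_le m i
            linarith
          have h5 : 0 ≤ C * (δ + 1) * ((m : ℝ) + 1) ^ q := by positivity
          calc ((m - i : ℕ) : ℝ) * (C * (δ + 1) * ((m : ℝ) + 1) ^ q)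
              ≤ ((m : ℝ) + 1) * (C * (δ + 1) * ((m : ℝ) + 1) ^ q) :=
                mul_le_mul_of_nonneg_right h4 h5
            _ = C * (δ + 1) * ((m : ℝ) + 1) ^ (q + 1) := by ring
        calc _ ≤ ((m : ℝ) + 1) * ∑ j ∈ Finset.Ico i m, |f (j + 1) - g (j + 1)| :=
              mul_le_mul_of_nonneg_left h1 hm1.le
          _ ≤ _ := h2.trans h3
      -- step 2
      have s2 : |∑ j ∈ Finset.Ico i m, (a j - w) * g (j + 1)| ≤ 2 * δ * ((m : ℝ) + 1) ^ q := by
        rw [Finset.sum_Ico_eq_sum_range]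
        have h1 := abel_ineq (fun l => a (i + l) - w) (fun l => g (i + l + 1)) (2 * δ) (m - i)
          (fun l hl => by
            have e : ∑ j ∈ Finset.range l, (a (i + j) - w)
                = (∑ j ∈ Finset.range (i + l), a j - w * ((i + l : ℕ) : ℝ))
                  - (∑ j ∈ Finset.range i, a j - w * (i : ℝ)) := by
              rw [Finset.sum_range_add, Finset.sum_sub_distrib, Finset.sum_const,
                Finset.card_range, nsmul_eq_mul]
              push_cast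
              ring
            rw [e]
            have h2 := hS (i + l) (by omega)
            have h3 := hS i hi
            calc _ ≤ _ := abs_sub _ _
              _ ≤ δ + δ := add_le_add h2 h3
              _ = 2 * δ := by ring)
          (fun l => hganti (i + l + 1)) (fun l => hg0 _)
        refine h1.trans ?_
        exact mul_le_mul_of_nonneg_left (hgle _) (by linarith)
      -- step 3
      have s3 : |w * ∑ j ∈ Finset.Ico i m, g (j + 1)
          - w * W * (((m - i : ℕ) : ℝ)) ^ (q + 1) / ((q + 1).factorial : ℝ)|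
          ≤ ((m : ℝ) + 1) ^ q := by
        have e1 : ∑ j ∈ Finset.Ico i m, g (j + 1)
            = W / (q.factorial : ℝ) * ∑ t ∈ Finset.range (m - i), (t : ℝ) ^ q := by
          rw [Finset.sum_Ico_eq_sum_range, Finset.mul_sum,
            ← Finset.sum_range_reflect (fun t => W / (q.factorial : ℝ) * (t : ℝ) ^ q)]
          refine Finset.sum_congr rfl fun l hl => ?_
          have hl' := Finset.mem_range.mp hl
          have : m - (i + l + 1) = m - i - 1 - l := by omega
          simp only [hg]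
          rw [this]
          ring
        have e2 : ((q + 1).factorial : ℝ) = ((q : ℝ) + 1) * (q.factorial : ℝ) := by
          rw [Nat.factorial_succ]
          push_cast
          ring
        have e3 : w * (W / (q.factorial : ℝ) * ∑ t ∈ Finset.range (m - i), (t : ℝ) ^ q)
            - w * W * (((m - i : ℕ) : ℝ)) ^ (q + 1) / (((q : ℝ) + 1) * (q.factorial : ℝ))
            = (w * W / (q.factorial : ℝ)) * (∑ t ∈ Finset.range (m - i), (t : ℝ) ^ q
              - (((m - i : ℕ) : ℝ)) ^ (q + 1) / ((q : ℝ) + 1)) := by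
          have hq1 : ((q : ℝ) + 1) ≠ 0 := by positivity
          field_simp
        rw [e1, e2, e3, abs_mul]
        have h1 : |w * W / (q.factorial : ℝ)| ≤ 1 := by
          rw [abs_of_nonneg (by positivity), div_le_one hfac0]
          have : w * W ≤ 1 := mul_le_one₀ hw1 hW0 hW1
          linarith
        have h2 := pow_sum q (m - i)
        have h3 : (((m - i : ℕ) : ℝ) + 1) ^ q ≤ ((m : ℝ) + 1) ^ q := by
          refine pow_le_pow_left₀ (by positivity) ?_ q
          have : ((m - i : ℕ) : ℝ) ≤ (m : ℝ) := by exact_mod_cast Nat.sub_le m i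
          linarith
        calc _ ≤ 1 * (((m - i : ℕ) : ℝ) + 1) ^ q :=
              mul_le_mul h1 h2 (abs_nonneg _) zero_le_one
          _ ≤ _ := by rw [one_mul]; exact h3
      have e : tq (a :: as') i m
          - (w :: ws').prod * (((m - i : ℕ) : ℝ)) ^ (q + 1) / ((q + 1).factorial : ℝ)
          = ∑ j ∈ Finset.Ico i m, a j * (f (j + 1) - g (j + 1))
            + ∑ j ∈ Finset.Ico i m, (a j - w) * g (j + 1)
            + (w * ∑ j ∈ Finset.Ico i m, g (j + 1)
              - w * W * (((m - i : ℕ) : ℝ)) ^ (q + 1) / ((q + 1).factorial : ℝ)) := by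
        rw [List.prod_cons]
        simp only [tq]
        rw [Finset.mul_sum, ← hWdef]
        have : ∑ j ∈ Finset.Ico i m, a j * tq as' (j + 1) m
            = ∑ j ∈ Finset.Ico i m, a j * (f (j + 1) - g (j + 1))
            + ∑ j ∈ Finset.Ico i m, (a j - w) * g (j + 1) + ∑ j ∈ Finset.Ico i m, w * g (j + 1) := by
          rw [← Finset.sum_add_distrib, ← Finset.sum_add_distrib]
          refine Finset.sum_congr rfl fun j _ => ?_
          simp only [hf]
          ring
        rw [this]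
        ring
      rw [e]
      have t1 := abs_add_three (∑ j ∈ Finset.Ico i m, a j * (f (j + 1) - g (j + 1)))
        (∑ j ∈ Finset.Ico i m, (a j - w) * g (j + 1))
        (w * ∑ j ∈ Finset.Ico i m, g (j + 1)
              - w * W * (((m - i : ℕ) : ℝ)) ^ (q + 1) / ((q + 1).factorial : ℝ))
      have t2 := mul_le_mul_of_nonneg_left t1 hm1.le
      refine t2.trans ?_
      rw [mul_add, mul_add]
      have t3 := mul_le_mul_of_nonneg_left s2 hm1.le
      have t4 := mul_le_mul_of_nonneg_left s3 hm1.le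
      have t5 : (0 : ℝ) ≤ ((m : ℝ) + 1) ^ (q + 1) := by positivity
      have t6 : ((m : ℝ) + 1) * (2 * δ * ((m : ℝ) + 1) ^ q) = 2 * δ * ((m : ℝ) + 1) ^ (q + 1) := by
        ring
      have t7 : ((m : ℝ) + 1) * ((m : ℝ) + 1) ^ q = ((m : ℝ) + 1) ^ (q + 1) := by ring
      rw [t6] at t3
      rw [t7] at t4
      nlinarith

/-- KC14. -/
theorem tq_lln (q : ℕ) : ∃ C : ℝ, 0 ≤ C ∧ ∀ (m : ℕ) (δ : ℝ) (as : List (ℕ → ℝ)) (ws : List ℝ),
    0 ≤ δ → as.length = q →
    List.Forall₂ (fun (a : ℕ → ℝ) (w : ℝ) => (∀ j, 0 ≤ a j ∧ a j ≤ 1) ∧ 0 ≤ w ∧ w ≤ 1 ∧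
      ∀ i ≤ m, |∑ j ∈ Finset.range i, a j - w * i| ≤ δ) as ws →
    |tq as 0 m - ws.prod * (m : ℝ) ^ q / (q.factorial : ℝ)| ≤
      C * (δ + 1) * ((m : ℝ) + 1) ^ (q - 1) := by
  obtain ⟨C, hC, h⟩ := tq_lln_aux q
  refine ⟨C, hC, fun m δ as ws hδ hlen hf => ?_⟩
  have h1 := h m δ as ws hδ hlen hf 0 (Nat.zero_le m)
  rw [Nat.sub_zero] at h1
  have hm1 : (0 : ℝ) < (m : ℝ) + 1 := by positivity
  cases q with
  | zero =>
    have has : as = [] := List.length_eq_zero_iff.mp hlen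
    subst has
    cases hf
    simp only [tq, List.prod_nil, pow_zero, Nat.factorial_zero, Nat.cast_one, mul_one, div_one,
      sub_self, abs_zero]
    positivity
  | succ q =>
    rw [Nat.add_sub_cancel]
    rw [pow_succ ((m : ℝ) + 1) q] at h1
    have h2 : ((m : ℝ) + 1) * |tq as 0 m - ws.prod * (m : ℝ) ^ (q + 1) / ((q + 1).factorial : ℝ)|
        ≤ ((m : ℝ) + 1) * (C * (δ + 1) * ((m : ℝ) + 1) ^ q) := by
      calc _ ≤ _ := h1
        _ = _ := by ring
    exact le_of_mul_le_mul_left h2 hm1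

end Pool.Agent.KComp
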