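import Pool.Agent.KComp.Words
import Pool.Agent.KComp.Count

/-! KC20b: only the chains with `N` short marks and unknotted caps matter.

PROOF. `tail`: if `T (pol x)` then `count_le` gives `(mkA x).length ≤ N`, and if it is `N` then both caps are
unknotted. So a chain with `T (pol x)`, not `Good j N`, has `q < N` marks or `N` marks and a long one.
`C n ^ q ≤ (ε / (2 N)) n ^ N` for `q < N` and large `n`. -/

set_option autoImplicit false

open Pool.Agent.LK
open scoped ENNReal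

namespace Pool.Agent.KComp

open Pool.Agent.KTube Pool.Agent.KRing Pool.Agent.KLog
open Pool.Agent.KAsym (ln)
open Pool.Agent.KAmp (sys)

variable {y z : ℝ}

/-- The chain has unknotted caps and `N` marks, with at most `j` points each. -/
def Good (j N : ℕ) (x : CA) : Prop :=
  UH x.1.1 ∧ UH x.1.2.2 ∧ (mkA x).length = N ∧ ∀ m ∈ mkA x, ln m.2 ≤ j

private theorem sa_mono {Q R : CA → Prop} (n : ℕ) (h : ∀ x, Q x → R x) :
    SA y z Q n ≤ SA y z R n := by
  unfold SA
  refine ENNReal.tsum_le_tsum fun x => ?_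
  by_cases h1 : lenA x = n ∧ Q x
  · rw [if_pos h1, if_pos ⟨h1.1, h _ h1.2⟩]
  · rw [if_neg h1]
    exact zero_le

private theorem sa_or (Q R : CA → Prop) (n : ℕ) :
    SA y z (fun x => Q x ∨ R x) n ≤ SA y z Q n + SA y z R n := by
  unfold SA
  rw [← ENNReal.tsum_add]
  refine ENNReal.tsum_le_tsum fun x => ?_
  by_cases h0 : lenA x = n
  · by_cases h1 : Q x
    · rw [if_pos ⟨h0, Or.inl h1⟩, if_pos ⟨h0, h1⟩]
      exact le_self_add
    · by_cases h2 : R x
      · rw [if_pos ⟨h0, Or.inr h2⟩, if_neg (fun h => h1 h.2), if_pos ⟨h0, h2⟩, zero_add]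
      · rw [if_neg (fun h => h.2.elim h1 h2)]
        exact zero_le
  · rw [if_neg (fun h => h0 h.1)]
    exact zero_le

private theorem sa_lt (R : ℕ → CA → Prop) (N n : ℕ) :
    SA y z (fun x => ∃ q < N, R q x) n ≤ ∑ q ∈ Finset.range N, SA y z (R q) n := by
  induction N with
  | zero =>
    rw [Finset.sum_range_zero]
    unfold SA
    refine le_of_eq (ENNReal.tsum_eq_zero.2 fun x => ?_)
    rw [if_neg]
    rintro ⟨-, q, hq, -⟩
    exact absurd hq (Nat.not_lt_zero q)
  | succ N ih =>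
    rw [Finset.sum_range_succ]
    refine le_trans ?_ (add_le_add_left ih _)
    refine le_trans ?_ (sa_or _ _ n)
    refine sa_mono n ?_
    rintro x ⟨q, hq, hx⟩
    rcases Nat.lt_succ_iff_lt_or_eq.1 hq with hq | rfl
    · exact Or.inl ⟨q, hq, hx⟩
    · exact Or.inr hx

/-- KC20b. -/
theorem tail (h : Cr y z) {N : ℕ} {T : Finset (Sym2 P3) → Prop} (hT : ∀ E, T E → KTen.Few N E)
    {ε : ℝ≥0∞} (hε : ε ≠ 0) : ∃ n0 j0 : ℕ, ∀ j ≥ j0, ∀ n ≥ n0, Even n →
    SA y z (fun x => T (pol x)) n ≤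
      SA y z (fun x => T (pol x) ∧ Good j N x) n + ε * (n : ℝ≥0∞) ^ N * (sys y z).tot n := by
  have hε2 : ε / 2 ≠ 0 := ENNReal.div_ne_zero.2 ⟨hε, ENNReal.ofNat_ne_top⟩
  obtain ⟨n1, j1, hj1⟩ := long_marks h N hε2
  choose C hC m0 hm0 using fun q : ℕ => few_marks h q
  have hδ : ε / 2 / (N : ℝ≥0∞) ≠ 0 := ENNReal.div_ne_zero.2 ⟨hε2, ENNReal.natCast_ne_top N⟩
  choose k hk using fun q : ℕ => ENNReal.exists_nat_mul_gt hδ (hC q)
  refine ⟨max n1 (max 1 (∑ q ∈ Finset.range N, (m0 q + k q))), j1, fun j hj n hn he => ?_⟩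
  have hn1 : n1 ≤ n := (le_max_left _ _).trans hn
  have hn2 : 1 ≤ n := (le_max_left _ _).trans ((le_max_right _ _).trans hn)
  have hn3 : ∑ q ∈ Finset.range N, (m0 q + k q) ≤ n :=
    (le_max_right _ _).trans ((le_max_right _ _).trans hn)
  have hq3 : ∀ q < N, m0 q ≤ n ∧ k q ≤ n := by
    intro q hq
    have h4 : m0 q + k q ≤ ∑ q ∈ Finset.range N, (m0 q + k q) :=
      Finset.single_le_sum (f := fun q => m0 q + k q) (fun _ _ => Nat.zero_le _)
        (Finset.mem_range.2 hq)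
    omega
  have hlong := hj1 j hj n hn1 he
  have hfew : ∀ q ∈ Finset.range N, SA y z (fun x => (mkA x).length = q) n ≤
      ε / 2 / (N : ℝ≥0∞) * ((n : ℝ≥0∞) ^ N * (sys y z).tot n) := by
    intro q hq
    have hq' := Finset.mem_range.1 hq
    obtain ⟨h5, h6⟩ := hq3 q hq'
    refine (hm0 q n h5 he).trans ?_
    have h7 : C q ≤ ε / 2 / (N : ℝ≥0∞) * (n : ℝ≥0∞) := by
      refine (hk q).le.trans ?_
      rw [mul_comm]
      gcongr
    have h8 : (n : ℝ≥0∞) * (n : ℝ≥0∞) ^ q ≤ (n : ℝ≥0∞) ^ N := by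
      rw [← pow_succ']
      have h9 : (1 : ℝ≥0∞) ≤ (n : ℝ≥0∞) := by exact_mod_cast hn2
      exact pow_le_pow_right₀ h9 hq'
    calc C q * (n : ℝ≥0∞) ^ q * (sys y z).tot n
        ≤ (ε / 2 / (N : ℝ≥0∞) * (n : ℝ≥0∞)) * (n : ℝ≥0∞) ^ q * (sys y z).tot n := by gcongr
      _ = ε / 2 / (N : ℝ≥0∞) * (((n : ℝ≥0∞) * (n : ℝ≥0∞) ^ q) * (sys y z).tot n) := by ring
      _ ≤ ε / 2 / (N : ℝ≥0∞) * ((n : ℝ≥0∞) ^ N * (sys y z).tot n) := by gcongr
  have hsum : ∑ q ∈ Finset.range N, SA y z (fun x => (mkA x).length = q) n ≤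
      ε / 2 * ((n : ℝ≥0∞) ^ N * (sys y z).tot n) := by
    refine (Finset.sum_le_sum hfew).trans ?_
    rw [Finset.sum_const, Finset.card_range, nsmul_eq_mul, ← mul_assoc]
    gcongr
    exact ENNReal.mul_div_le
  have hcov : SA y z (fun x => T (pol x)) n ≤
      SA y z (fun x => T (pol x) ∧ Good j N x) n +
        (∑ q ∈ Finset.range N, SA y z (fun x => (mkA x).length = q) n +
          SA y z (fun x => (mkA x).length = N ∧ ∃ m ∈ mkA x, j < ln m.2) n) := by
    refine le_trans ?_ (add_le_add_right (add_le_add_left (sa_lt _ N n) _) _)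
    refine le_trans ?_ (add_le_add_right (sa_or _ _ n) _)
    refine le_trans ?_ (sa_or _ _ n)
    refine sa_mono n fun x hx => ?_
    have hc := count_le x (hT _ hx)
    rcases lt_or_ge (mkA x).length N with h9 | h9
    · exact Or.inr (Or.inl ⟨_, h9, rfl⟩)
    · have h10 : (mkA x).length = N := by omega
      have h11 : UH x.1.1 := by
        by_contra hcon
        rw [if_neg hcon] at hc
        omega
      have h12 : UH x.1.2.2 := by
        by_contra hcon
        rw [if_neg hcon] at hc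
        omega
      by_cases h13 : ∃ m ∈ mkA x, j < ln m.2
      · exact Or.inr (Or.inr ⟨h10, h13⟩)
      · push Not at h13
        exact Or.inl ⟨hx, h11, h12, h10, h13⟩
  refine hcov.trans ?_
  gcongr
  refine (add_le_add hsum hlong).trans (le_of_eq ?_)
  rw [mul_assoc, ← add_mul, ENNReal.add_halves, mul_assoc]

end Pool.Agent.KComp
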