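import Pool.Agent.KComp.Defs
import Pool.Agent.KComp.Seqs

/-! KC15: combinatorics of tuples in a chain.

PROOF. `tup_le`: induction (`tup s As v ≤ (s.length) ^ As.length`; `(m + 1) ^ (q + 1) ≥ m ^ (q + 1) + m ^ q`).
`tup_eq`: for the properties `fun _ p => p = ρ` the number of tuples is `tq as 0 s.length` with
`a_r j = if s[j]? = some ρ_r then 1 else 0`: both sides satisfy the same recursion in the first element
of the list (`tq as (i + 1) (m + 1)` of the sequences `a` is `tq` at `i`, `m` of the shifted sequences
`a (· + 1)`; `Finset.sum_Ico_succ..`, `range_eq_Ico`).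
`tup_far_le`: monotone. `tup_far_ge`: `tup` of the list `ρs` without the condition `R < nrm v` is at most
`tup` with the condition plus `ρs.length * occ (nrm v ≤ R) * s.length ^ (ρs.length - 1)`: a tuple which
does not satisfy the condition has a coordinate at which `nrm v ≤ R`; formally by induction on `s`: let
`t`, `t'`, `b` be the three numbers; for `p :: s` at `v` with `ρ :: ρs`, `m = s.length`:
if `p ≠ ρ` the number `t` is the one for the tail; if `p = ρ`, `R < nrm v`: add the bounds for
`ρs` and `ρ :: ρs` for the tail (`q o m^(q-1) + (q+1) o m^q ≤ (q+1) o (m+1)^q`, where `q = ρs.length`, `o` the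
number `occ` of the tail); if `p = ρ`, `nrm v ≤ R`: `t = t₁ + t₂` with `t₁ ≤ m ^ q` (`tup_le`),
`t₂ ≤ t₂' + (q+1) o m^q`, and now `occ = o + 1`. -/

set_option autoImplicit false

namespace Pool.Agent.KComp

open Pool.Agent.KLog (Ker nrm hh)
open Pool.Agent.KAmp (occ)

variable {P : Type} (κ : Ker P)

/-- The properties `p = ρ`. -/
def eqs (ρs : List P) : List (ℤ × ℤ → P → Prop) := ρs.map fun ρ _ p => p = ρ

/-- The properties `p = ρ ∧ R < nrm v`. -/
def eqf (R : ℕ) (ρs : List P) : List (ℤ × ℤ → P → Prop) := ρs.map fun ρ v p => p = ρ ∧ R < nrm v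

theorem tup_le (s : List P) (As : List (ℤ × ℤ → P → Prop)) (v : ℤ × ℤ) :
    tup κ s As v ≤ s.length ^ As.length := by
  classical
  induction s generalizing As v with
  | nil =>
    unfold tup
    split_ifs with h
    · rw [h]
      simp
    · exact Nat.zero_le _
  | cons p s ih =>
    cases As with
    | nil =>
      unfold tup
      simp
    | cons A As =>
      unfold tup
      have h1 : (if A v p then tup κ s As (v + κ.u p) else 0) ≤ s.length ^ As.length := by
        split_ifs
        · exact ih _ _
        · exact Nat.zero_le _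
      have h2 := ih (A :: As) (v + κ.u p)
      have h3 : s.length ^ As.length ≤ (s.length + 1) ^ As.length :=
        Nat.pow_le_pow_left (Nat.le_succ _) _
      simp only [List.length_cons, pow_succ] at h2 ⊢
      nlinarith [Nat.mul_le_mul_right (s.length + 1) h3]

/-- The number of tuples of a shifted sequence. -/
private theorem tq_shift (as : List (ℕ → ℝ)) (i m : ℕ) :
    tq as (i + 1) (m + 1) = tq (as.map fun a j => a (j + 1)) i m := by
  induction as generalizing i with
  | nil => rfl
  | cons a as ih =>
    simp only [List.map_cons, tq]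
    rw [← Finset.sum_Ico_add' (fun j => a j * tq as (j + 1) (m + 1)) i m 1]
    exact Finset.sum_congr rfl fun j _ => by rw [ih]

private theorem tq_cons (a : ℕ → ℝ) (as : List (ℕ → ℝ)) (m : ℕ) :
    tq (a :: as) 0 (m + 1) = a 0 * tq (as.map fun a j => a (j + 1)) 0 m +
      tq ((a :: as).map fun a j => a (j + 1)) 0 m := by
  rw [← tq_shift (a :: as) 0 m]
  simp only [tq]
  rw [Finset.sum_eq_sum_Ico_succ_bot (Nat.succ_pos m), tq_shift]

open Classical in
private theorem map_shift (p : P) (s : List P) (ρs : List P) :
    (ρs.map fun ρ j => if (p :: s)[j]? = some ρ then (1 : ℝ) else 0).map (fun a j => a (j + 1)) =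
      ρs.map fun ρ j => if s[j]? = some ρ then (1 : ℝ) else 0 := by
  rw [List.map_map]
  refine List.map_congr_left fun ρ _ => ?_
  funext j
  simp

open Classical in
theorem tup_eq (s : List P) (ρs : List P) (v : ℤ × ℤ) :
    (tup κ s (eqs ρs) v : ℝ) =
      tq (ρs.map fun ρ j => if s[j]? = some ρ then (1 : ℝ) else 0) 0 s.length := by
  induction s generalizing ρs v with
  | nil =>
    cases ρs with
    | nil => simp [eqs, tup, tq]
    | cons ρ ρs => simp [eqs, tup, tq]
  | cons p s ih =>
    cases ρs with
    | nil => simp [eqs, tup, tq]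
    | cons ρ ρs =>
      have e1 : eqs (ρ :: ρs) = (fun _ q => q = ρ) :: eqs ρs := rfl
      have h1 := ih ρs (v + κ.u p)
      have h2 := ih (ρ :: ρs) (v + κ.u p)
      rw [e1] at h2 ⊢
      have e3 := map_shift p s (ρ :: ρs)
      rw [List.map_cons] at e3
      rw [List.map_cons, List.length_cons, tq_cons, e3, map_shift]
      unfold tup
      rw [Nat.cast_add, h2]
      congr 1
      by_cases hp : p = ρ
      · subst hp
        rw [if_pos rfl, h1]
        simp
      · rw [if_neg hp]
        simp [hp]

open Classical in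
/-- The number of elements equal to `ρ` in an initial segment. -/
theorem occ_take (s : List P) (ρ : P) (v : ℤ × ℤ) {j : ℕ} (hj : j ≤ s.length) :
    (occ κ (fun _ p => p = ρ) v (s.take j) : ℝ) =
      ∑ i ∈ Finset.range j, if s[i]? = some ρ then (1 : ℝ) else 0 := by
  induction s generalizing v j with
  | nil =>
    have : j = 0 := by simpa using hj
    subst this
    simp [occ]
  | cons p s ih =>
    cases j with
    | zero => simp [occ]
    | succ j =>
      rw [List.take_succ_cons, Finset.sum_range_succ']
      have h1 := ih (v + κ.u p) (j := j) (by simpa using hj)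
      unfold occ
      rw [Nat.cast_add, h1, add_comm]
      congr 1
      simp

theorem tup_far_le (R : ℕ) (s : List P) (ρs : List P) (v : ℤ × ℤ) :
    tup κ s (eqf R ρs) v ≤ tup κ s (eqs ρs) v := by
  classical
  induction s generalizing ρs v with
  | nil =>
    cases ρs with
    | nil => exact le_refl _
    | cons ρ ρs => simp [eqs, eqf, tup]
  | cons p s ih =>
    cases ρs with
    | nil => exact le_refl _
    | cons ρ ρs =>
      have e1 : eqs (ρ :: ρs) = (fun _ q => q = ρ) :: eqs ρs := rfl
      have e2 : eqf R (ρ :: ρs) = (fun v q => q = ρ ∧ R < nrm v) :: eqf R ρs := rfl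
      have h1 := ih ρs (v + κ.u p)
      have h2 := ih (ρ :: ρs) (v + κ.u p)
      rw [e1, e2] at h2 ⊢
      unfold tup
      refine add_le_add ?_ h2
      by_cases h3 : p = ρ ∧ R < nrm v
      · rw [if_pos h3, if_pos h3.1]
        exact h1
      · rw [if_neg h3]
        exact Nat.zero_le _

theorem tup_far_ge (R : ℕ) (s : List P) (ρs : List P) (v : ℤ × ℤ) :
    tup κ s (eqs ρs) v ≤ tup κ s (eqf R ρs) v +
      ρs.length * occ κ (fun v _ => nrm v ≤ R) v s * s.length ^ (ρs.length - 1) := by
  classical
  induction s generalizing ρs v with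
  | nil =>
    cases ρs with
    | nil => exact Nat.le_add_right _ _
    | cons ρ ρs => simp [eqs, tup]
  | cons p s ih =>
    cases ρs with
    | nil =>
      have : tup κ (p :: s) (eqs []) v = tup κ (p :: s) (eqf R []) v := rfl
      rw [this]
      exact Nat.le_add_right _ _
    | cons ρ ρs =>
      have e1 : eqs (ρ :: ρs) = (fun _ q => q = ρ) :: eqs ρs := rfl
      have e2 : eqf R (ρ :: ρs) = (fun v q => q = ρ ∧ R < nrm v) :: eqf R ρs := rfl
      have h1 := ih ρs (v + κ.u p)
      have h2 := ih (ρ :: ρs) (v + κ.u p)
      have h3 := tup_le κ s (eqs ρs) (v + κ.u p)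
      have h4 : (eqs ρs).length = ρs.length := by simp [eqs]
      rw [h4] at h3
      rw [e1, e2] at h2 ⊢
      unfold tup occ
      simp only [List.length_cons, Nat.add_sub_cancel] at h2 ⊢
      set t1 := tup κ s (eqs ρs) (v + κ.u p)
      set t1' := tup κ s (eqf R ρs) (v + κ.u p)
      set t2 := tup κ s ((fun _ q => q = ρ) :: eqs ρs) (v + κ.u p)
      set t2' := tup κ s ((fun v q => q = ρ ∧ R < nrm v) :: eqf R ρs) (v + κ.u p)
      set o := occ κ (fun v _ => nrm v ≤ R) (v + κ.u p) s
      set m := s.length
      set q := ρs.length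
      have h5 : m ^ q ≤ (m + 1) ^ q := Nat.pow_le_pow_left (Nat.le_succ _) _
      have h6 : (q + 1) * o * m ^ q ≤ (q + 1) * o * (m + 1) ^ q := Nat.mul_le_mul_left _ h5
      by_cases hp : p = ρ
      · rw [if_pos hp]
        by_cases hR : R < nrm v
        · rw [if_pos ⟨hp, hR⟩, if_neg (not_le.2 hR), zero_add]
          have h7 : q * o * m ^ (q - 1) + (q + 1) * o * m ^ q ≤ (q + 1) * o * (m + 1) ^ q := by
            rcases Nat.eq_zero_or_pos q with hq | hq
            · rw [hq]
              simp
            · obtain ⟨q', hq'⟩ : ∃ q', q = q' + 1 := ⟨q - 1, by omega⟩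
              rw [hq', Nat.add_sub_cancel]
              have h8 : m ^ q' ≤ (m + 1) ^ q' := Nat.pow_le_pow_left (Nat.le_succ _) _
              calc (q' + 1) * o * m ^ q' + (q' + 1 + 1) * o * m ^ (q' + 1)
                  ≤ (q' + 1 + 1) * o * m ^ q' + (q' + 1 + 1) * o * m ^ (q' + 1) := by
                    gcongr
                    exact Nat.le_succ _
                _ = (q' + 1 + 1) * o * (m ^ q' * (m + 1)) := by ring
                _ ≤ (q' + 1 + 1) * o * ((m + 1) ^ q' * (m + 1)) := by gcongr
                _ = (q' + 1 + 1) * o * (m + 1) ^ (q' + 1) := by ring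
          omega
        · rw [if_neg fun h => hR h.2, if_pos (not_lt.1 hR)]
          have h9 : (q + 1) * (1 + o) * (m + 1) ^ q =
              (q + 1) * (m + 1) ^ q + (q + 1) * o * (m + 1) ^ q := by ring
          have h10 : (m + 1) ^ q ≤ (q + 1) * (m + 1) ^ q := Nat.le_mul_of_pos_left _ (Nat.succ_pos q)
          rw [h9]
          omega
      · rw [if_neg hp, if_neg fun h => hp h.1]
        have h11 : ∀ c : ℕ, (q + 1) * o * (m + 1) ^ q ≤ (q + 1) * (c + o) * (m + 1) ^ q := by
          intro c
          gcongr
          exact Nat.le_add_left _ _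
        refine le_trans ?_ (Nat.add_le_add_left (h11 _) _)
        omega

end Pool.Agent.KComp
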