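import Pool.Agent.KComp.TupX
import Pool.Agent.KComp.TupC

/-! KC17: the number of tuples of given free elements far from the origin.

PROOF. Let `q = ρs.length`. `q = 0`: `tup = 1`, and `S.sum (2k) 1 = S.tot (2k)`, `≠ 0` for large `k` (`hG`),
`≠ ⊤` (`sum_fin`). Let `q ≥ 1`, `T x = tup S.κ x.1.2.1 (eqf R ρs) (S.pos x.1.1)`,
`X x = T x / (S.len x) ^ (q - 1)`. `0 ≤ X x ≤ S.len x` by `tup_le` and `2 * length ≤ len` (if `len x = 0` then
`T x = 0`). On the chains with `len x = 2k` the function `X` is `T / (2k) ^ (q - 1)`, so it is enough to show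
that the mean of `X` divided by `2k` converges to `L = (∏ wF ρ) / (ell ^ q q!)`: `mean_lim`. For this we show
`Sml S fun n x => ε n ≤ |X x - L n|` for every `ε > 0`. Let `0 < δ ≤ 1` be small and `n1` large
(depending on `ε`). Outside `n < n1` (`bad_small`), `δ n ≤ |m - n / ell|` (`bad_len'`),
`δ n ≤ oc (nrm v ≤ R)` (`bad_near'`) and the sets of `bad_pre` with `δ` for the elements `ρ` of `ρs`
(`bad_union`), where `m = x.1.2.1.length ≤ n`: by `tup_eq`, `occ_take` and `tq_lln` (with the sequences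
`j ↦ if s[j]? = some ρ then 1 else 0`, `wF ρ`, and `δ n` instead of `δ`; `0 ≤ wF ≤ 1`: `wF_nonneg`, `wF_le`)
`|tup (eqs ρs) - (∏ wF) m ^ q / q!| ≤ C (δ n + 1) (n + 1) ^ (q - 1)`; by `tup_far_le`, `tup_far_ge`
`0 ≤ tup (eqs ρs) - T x ≤ q δ n * n ^ (q - 1)`; and
`|m ^ q - (n / ell) ^ q| ≤ q n ^ (q - 1) |m - n / ell| ≤ q δ n ^ q` (`n / ell ≤ n`: `ell_ge`). Dividing by
`n ^ (q - 1)`: `|X x - L n| ≤ C 2 ^ q (δ n + 1) + q δ n + q δ n < ε n`, if `δ` is small and `n ≥ n1`. -/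

set_option autoImplicit false

open Filter Topology
open scoped ENNReal

namespace Pool.Agent.KComp

open Pool.Agent.KLog (Ker nrm hh)
open Pool.Agent.KAmp

variable {P H : Type} {S : Sys P H}

open Classical in
private theorem tup_det (hS : S.Ok) (ρs : List P) (R q : ℕ) (hq : ρs.length = q + 1) :
    ∃ K : ℝ, 0 ≤ K ∧ ∀ (δ : ℝ) (n : ℕ) (x : S.Ch), 0 ≤ δ → 1 ≤ n → S.len x = n →
      |(x.1.2.1.length : ℝ) - 1 / S.ell * n| ≤ δ * n →
      (S.oc (fun v _ => nrm v ≤ R) x : ℝ) ≤ δ * n →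
      (∀ ρ ∈ ρs, ∀ j ≤ x.1.2.1.length,
        |(occ S.κ (fun _ p => p = ρ) (S.pos x.1.1) (x.1.2.1.take j) : ℝ) - j * S.wF ρ| ≤ δ * n) →
      |(tup S.κ x.1.2.1 (eqf R ρs) (S.pos x.1.1) : ℝ) / (n : ℝ) ^ q -
        (ρs.map S.wF).prod / (S.ell ^ (q + 1) * ((q + 1).factorial : ℝ)) * n| ≤
          K * (δ * n + 1) := by
  obtain ⟨C, hC, hlln⟩ := tq_lln (q + 1)
  refine ⟨C * 2 ^ q + 2 * (q + 1), by positivity, ?_⟩
  intro δ n x hδ hn hx hlen hnear hpre
  have hell := ell_ge hS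
  have hell0 : (0 : ℝ) < S.ell := by linarith
  have hn1 : (1 : ℝ) ≤ (n : ℝ) := by exact_mod_cast hn
  have hn0 : (0 : ℝ) < (n : ℝ) := by linarith
  set s := x.1.2.1 with hs
  set v := S.pos x.1.1 with hv
  have hmn : s.length ≤ n := by
    have h0 : 2 * s.length ≤ S.len x := two_length_le hS x
    rw [hx] at h0
    omega
  have hmn' : (s.length : ℝ) ≤ n := by exact_mod_cast hmn
  have hm0 : (0 : ℝ) ≤ (s.length : ℝ) := Nat.cast_nonneg _
  have hδn : 0 ≤ δ * n := mul_nonneg hδ hn0.le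
  -- the number of tuples without the condition
  have h1 := hlln s.length (δ * n)
    (ρs.map fun ρ j => if s[j]? = some ρ then (1 : ℝ) else 0) (ρs.map S.wF) hδn
    (by rw [List.length_map, hq])
    (by
      rw [List.forall₂_map_left_iff, List.forall₂_map_right_iff, List.forall₂_same]
      intro ρ hρ
      refine ⟨fun j => ?_, wF_nonneg ρ, wF_le hS ρ, fun i hi => ?_⟩
      · beta_reduce
        split_ifs
        · exact ⟨zero_le_one, le_rfl⟩
        · exact ⟨le_rfl, zero_le_one⟩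
      · have h2 := hpre ρ hρ i hi
        rw [occ_take S.κ s ρ v hi] at h2
        rwa [mul_comm (S.wF ρ) (i : ℝ)])
  rw [← tup_eq S.κ s ρs v, Nat.add_sub_cancel] at h1
  set Pw := (ρs.map S.wF).prod with hPw
  have hP0 : 0 ≤ Pw := by
    apply List.prod_nonneg
    intro a ha
    obtain ⟨ρ, _, rfl⟩ := List.mem_map.mp ha
    exact wF_nonneg ρ
  have hP1 : Pw ≤ 1 := by
    rw [hPw]
    clear_value Pw
    clear hPw hP0 h1 hpre hq
    induction ρs with
    | nil => simp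
    | cons ρ ρs ih =>
      rw [List.map_cons, List.prod_cons]
      have h3 : 0 ≤ (ρs.map S.wF).prod := by
        apply List.prod_nonneg
        intro a ha
        obtain ⟨ρ, _, rfl⟩ := List.mem_map.mp ha
        exact wF_nonneg ρ
      exact mul_le_one₀ (wF_le hS ρ) h3 ih
  -- the condition
  have h2 : (tup S.κ s (eqf R ρs) v : ℝ) ≤ (tup S.κ s (eqs ρs) v : ℝ) := by
    exact_mod_cast tup_far_le S.κ R s ρs v
  have h3 : (tup S.κ s (eqs ρs) v : ℝ) ≤ (tup S.κ s (eqf R ρs) v : ℝ) +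
      ((q : ℝ) + 1) * (δ * n) * (n : ℝ) ^ q := by
    have h4 := tup_far_ge S.κ R s ρs v
    rw [hq, Nat.add_sub_cancel] at h4
    have h5 : (tup S.κ s (eqs ρs) v : ℝ) ≤ (tup S.κ s (eqf R ρs) v : ℝ) +
        ((q : ℝ) + 1) * (occ S.κ (fun v _ => nrm v ≤ R) v s : ℝ) * (s.length : ℝ) ^ q := by
      exact_mod_cast h4
    refine h5.trans ?_
    have h6 : (occ S.κ (fun v _ => nrm v ≤ R) v s : ℝ) ≤ δ * n := hnear
    have h7 : (s.length : ℝ) ^ q ≤ (n : ℝ) ^ q := pow_le_pow_left₀ hm0 hmn' q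
    have h8 : ((q : ℝ) + 1) * (occ S.κ (fun v _ => nrm v ≤ R) v s : ℝ) ≤
        ((q : ℝ) + 1) * (δ * n) := mul_le_mul_of_nonneg_left h6 (by positivity)
    have h9 := mul_le_mul h8 h7 (by positivity) (by positivity)
    linarith
  -- the power
  have h4 : |(s.length : ℝ) ^ (q + 1) - (1 / S.ell * n) ^ (q + 1)| ≤
      ((q : ℝ) + 1) * (δ * n) * (n : ℝ) ^ q := by
    have h5 := abs_pow_sub_pow_le (s.length : ℝ) (1 / S.ell * n) (q + 1)
    rw [Nat.add_sub_cancel] at h5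
    have h6 : max |(s.length : ℝ)| |1 / S.ell * n| ≤ n := by
      rw [abs_of_nonneg hm0, abs_of_nonneg (by positivity)]
      refine max_le hmn' ?_
      have h7 : 1 / S.ell ≤ 1 := by
        rw [div_le_one hell0]
        linarith
      calc 1 / S.ell * n ≤ 1 * n := mul_le_mul_of_nonneg_right h7 hn0.le
        _ = n := one_mul _
    have h7 : (max |(s.length : ℝ)| |1 / S.ell * n|) ^ q ≤ (n : ℝ) ^ q :=
      pow_le_pow_left₀ (le_trans (abs_nonneg _) (le_max_left _ _)) h6 q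
    have h8 : |(s.length : ℝ) - 1 / S.ell * n| * ((q + 1 : ℕ) : ℝ) ≤
        δ * n * ((q + 1 : ℕ) : ℝ) := mul_le_mul_of_nonneg_right hlen (Nat.cast_nonneg _)
    have h9 := mul_le_mul h8 h7 (by positivity) (by positivity)
    refine h5.trans (h9.trans (le_of_eq ?_))
    push_cast
    ring
  have h5 : ((s.length : ℝ) + 1) ^ q ≤ 2 ^ q * (n : ℝ) ^ q := by
    rw [← mul_pow]
    exact pow_le_pow_left₀ (by positivity) (by linarith) q
  have hf : (1 : ℝ) ≤ ((q + 1).factorial : ℝ) := by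
    exact_mod_cast Nat.factorial_pos (q + 1)
  have hf0 : (0 : ℝ) < ((q + 1).factorial : ℝ) := by linarith
  set T := (tup S.κ s (eqf R ρs) v : ℝ) with hT
  set T' := (tup S.κ s (eqs ρs) v : ℝ) with hT'
  have hnq : (0 : ℝ) < (n : ℝ) ^ q := by positivity
  -- everything together
  have e1 : T / (n : ℝ) ^ q - Pw / (S.ell ^ (q + 1) * ((q + 1).factorial : ℝ)) * n =
      (T - Pw * (1 / S.ell * n) ^ (q + 1) / ((q + 1).factorial : ℝ)) / (n : ℝ) ^ q := by
    rw [mul_pow, div_pow, one_pow]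
    field_simp
    ring
  rw [e1, abs_div, abs_of_pos hnq, div_le_iff₀ hnq]
  have h6 : |Pw * (s.length : ℝ) ^ (q + 1) / ((q + 1).factorial : ℝ) -
      Pw * (1 / S.ell * n) ^ (q + 1) / ((q + 1).factorial : ℝ)| ≤
        ((q : ℝ) + 1) * (δ * n) * (n : ℝ) ^ q := by
    have e2 : Pw * (s.length : ℝ) ^ (q + 1) / ((q + 1).factorial : ℝ) -
      Pw * (1 / S.ell * n) ^ (q + 1) / ((q + 1).factorial : ℝ) =
        Pw / ((q + 1).factorial : ℝ) * ((s.length : ℝ) ^ (q + 1) - (1 / S.ell * n) ^ (q + 1)) := by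
      ring
    have h7 : 0 ≤ Pw / ((q + 1).factorial : ℝ) := by positivity
    have h8 : Pw / ((q + 1).factorial : ℝ) ≤ 1 := by
      rw [div_le_one hf0]
      linarith
    rw [e2, abs_mul, abs_of_nonneg h7]
    calc Pw / ((q + 1).factorial : ℝ) * |(s.length : ℝ) ^ (q + 1) - (1 / S.ell * n) ^ (q + 1)|
        ≤ 1 * |(s.length : ℝ) ^ (q + 1) - (1 / S.ell * n) ^ (q + 1)| :=
          mul_le_mul_of_nonneg_right h8 (abs_nonneg _)
      _ ≤ _ := by rw [one_mul]; exact h4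
  have h7 : |T - T'| ≤ ((q : ℝ) + 1) * (δ * n) * (n : ℝ) ^ q := by
    rw [abs_le]
    constructor <;> linarith
  have h8 : |T' - Pw * (s.length : ℝ) ^ (q + 1) / ((q + 1).factorial : ℝ)| ≤
      C * (δ * n + 1) * (2 ^ q * (n : ℝ) ^ q) :=
    h1.trans (mul_le_mul_of_nonneg_left h5 (by positivity))
  have e3 : T - Pw * (1 / S.ell * n) ^ (q + 1) / ((q + 1).factorial : ℝ) =
      (T - T') + (T' - Pw * (s.length : ℝ) ^ (q + 1) / ((q + 1).factorial : ℝ)) +
      (Pw * (s.length : ℝ) ^ (q + 1) / ((q + 1).factorial : ℝ) -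
        Pw * (1 / S.ell * n) ^ (q + 1) / ((q + 1).factorial : ℝ)) := by ring
  rw [e3]
  refine (abs_add_three _ _ _).trans ?_
  have h9 : ((q : ℝ) + 1) * (δ * n) * (n : ℝ) ^ q ≤ ((q : ℝ) + 1) * (δ * n + 1) * (n : ℝ) ^ q := by
    refine mul_le_mul_of_nonneg_right ?_ hnq.le
    exact mul_le_mul_of_nonneg_left (by linarith) (by positivity)
  calc |T - T'| + |T' - Pw * (s.length : ℝ) ^ (q + 1) / ((q + 1).factorial : ℝ)| +
      |Pw * (s.length : ℝ) ^ (q + 1) / ((q + 1).factorial : ℝ) -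
        Pw * (1 / S.ell * n) ^ (q + 1) / ((q + 1).factorial : ℝ)| ≤
        ((q : ℝ) + 1) * (δ * n + 1) * (n : ℝ) ^ q + C * (δ * n + 1) * (2 ^ q * (n : ℝ) ^ q) +
        ((q : ℝ) + 1) * (δ * n + 1) * (n : ℝ) ^ q := by
          linarith
    _ = (C * 2 ^ q + 2 * (q + 1)) * (δ * n + 1) * (n : ℝ) ^ q := by ring

private theorem tup_sml (hS : S.Ok) (ρs : List P) (R q : ℕ) (hq : ρs.length = q + 1) {ε : ℝ}
    (hε : 0 < ε) :
    Sml S fun n x => ε * n ≤
      |(tup S.κ x.1.2.1 (eqf R ρs) (S.pos x.1.1) : ℝ) / (S.len x : ℝ) ^ q -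
        (ρs.map S.wF).prod / (S.ell ^ (q + 1) * ((q + 1).factorial : ℝ)) * n| := by
  classical
  obtain ⟨K, hK, hdet⟩ := tup_det hS ρs R q hq
  set δ : ℝ := ε / (2 * (K + 1)) with hδ
  have hδ0 : 0 < δ := by positivity
  obtain ⟨n1, hn1⟩ := exists_nat_gt (2 * K / ε + 1)
  have hB := (((bad_small hS n1).or (bad_len' hS hδ0)).or (bad_near' hS R hδ0)).or
    (bad_union ρs.toFinset (B := fun ρ n x => ∃ j ≤ x.1.2.1.length, δ * n ≤
      |(occ S.κ (fun _ p => p = ρ) (S.pos x.1.1) (x.1.2.1.take j) : ℝ) - j * S.wF ρ|)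
      fun ρ _ => bad_pre hS ρ hδ0)
  refine hB.mono ?_
  intro n x hx hBx
  by_contra hcon
  push Not at hcon
  obtain ⟨⟨⟨h1, h2⟩, h3⟩, h4⟩ := hcon
  have hn1' : (n1 : ℝ) ≤ n := by exact_mod_cast h1
  have hKε : 0 ≤ 2 * K / ε := by positivity
  have hn : 1 ≤ n := by
    have : (1 : ℝ) ≤ (n : ℝ) := by linarith
    exact_mod_cast this
  have h5 := hdet δ n x hδ0.le hn hx h2.le h3.le (fun ρ hρ j hj =>
    (h4 ρ (List.mem_toFinset.mpr hρ) j hj).le)
  rw [← hx] at h5 hBx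
  have h6 := hBx.trans h5
  rw [hx] at h6
  have h7 : K * (δ * n) ≤ ε / 2 * n := by
    have h8 : K * δ ≤ ε / 2 := by
      rw [hδ, ← mul_div_assoc, div_le_div_iff₀ (by positivity) (by positivity)]
      nlinarith
    have h9 : (0 : ℝ) ≤ n := Nat.cast_nonneg n
    nlinarith
  have h8 : K < ε / 2 * n := by
    have h9 : 2 * K / ε < n := by linarith
    rw [div_lt_iff₀ hε] at h9
    linarith
  nlinarith

/-- KC17. -/
theorem tup_lim (hS : S.Ok) (hG : S.Gr) (ρs : List P) (R : ℕ) :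
    Tendsto (fun k : ℕ => (S.sum (2 * k) fun x =>
      (tup S.κ x.1.2.1 (eqf R ρs) (S.pos x.1.1) : ℝ≥0∞)).toReal /
      (((2 * k : ℕ) : ℝ) ^ ρs.length * (S.tot (2 * k)).toReal)) atTop
      (𝓝 ((ρs.map S.wF).prod / (S.ell ^ ρs.length * (ρs.length.factorial : ℝ)))) := by
  rcases hq : ρs.length with _ | q
  · have h0 : ρs = [] := List.length_eq_zero_iff.mp hq
    subst h0
    have ht : ∀ (s : List P) (v : ℤ × ℤ), tup S.κ s (eqf R []) v = 1 := by
      intro s v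
      cases s <;> simp [tup, eqf]
    have hlim : ((([] : List P).map S.wF).prod / (S.ell ^ 0 * (Nat.factorial 0 : ℝ))) = 1 := by
      simp
    rw [hlim]
    refine (tendsto_const_nhds (x := (1 : ℝ))).congr' ?_
    filter_upwards [hG 1 one_pos] with k hk
    have hT : S.tot (2 * k) ≠ ⊤ := sum_fin hS (2 * k) (C := 1) (fun x => by simp)
    have hT0 : S.tot (2 * k) ≠ 0 := by
      intro h
      rw [h] at hk
      have h1 : (0 : ℝ≥0∞) < ENNReal.ofReal (Real.exp (-1 * k)) :=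
        ENNReal.ofReal_pos.mpr (Real.exp_pos _)
      exact absurd hk (not_le.mpr h1)
    have e : (S.sum (2 * k) fun x => (tup S.κ x.1.2.1 (eqf R []) (S.pos x.1.1) : ℝ≥0∞)) =
        S.tot (2 * k) := by
      unfold Sys.tot
      congr 1
      funext x
      rw [ht, Nat.cast_one]
    rw [e, pow_zero, one_mul]
    exact (div_self (ENNReal.toReal_ne_zero.mpr ⟨hT0, hT⟩)).symm
  · have h := mean_lim hS hG
      (X := fun x => (tup S.κ x.1.2.1 (eqf R ρs) (S.pos x.1.1) : ℝ) / (S.len x : ℝ) ^ q)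
      (L := (ρs.map S.wF).prod / (S.ell ^ (q + 1) * ((q + 1).factorial : ℝ)))
      (fun x => by positivity) (fun x => ?_) (fun ε hε => tup_sml hS ρs R q hq hε)
    · refine h.congr fun k => ?_
      have e : (S.sum (2 * k) fun x => ENNReal.ofReal
          ((tup S.κ x.1.2.1 (eqf R ρs) (S.pos x.1.1) : ℝ) / (S.len x : ℝ) ^ q)) =
          (S.sum (2 * k) fun x => (tup S.κ x.1.2.1 (eqf R ρs) (S.pos x.1.1) : ℝ≥0∞)) *
            ENNReal.ofReal ((((2 * k : ℕ) : ℝ) ^ q)⁻¹) := by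
        unfold Sys.sum
        rw [← ENNReal.tsum_mul_right]
        refine tsum_congr fun x => ?_
        beta_reduce
        rw [x.2, div_eq_mul_inv, ENNReal.ofReal_mul (Nat.cast_nonneg _), ENNReal.ofReal_natCast,
          mul_assoc]
      rw [e, ENNReal.toReal_mul, ENNReal.toReal_ofReal (by positivity), div_eq_mul_inv,
        div_eq_mul_inv, mul_inv, mul_inv, pow_succ, mul_inv]
      ring
    · apply div_le_of_le_mul₀ (by positivity) (Nat.cast_nonneg _)
      have h1 := tup_le S.κ x.1.2.1 (eqf R ρs) (S.pos x.1.1)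
      have h2 : (eqf R ρs).length = q + 1 := by
        unfold eqf
        rw [List.length_map, hq]
      rw [h2] at h1
      have h3 : x.1.2.1.length ≤ S.len x := by
        have := two_length_le hS x
        omega
      have h4 : tup S.κ x.1.2.1 (eqf R ρs) (S.pos x.1.1) ≤ S.len x * S.len x ^ q := by
        refine h1.trans ?_
        rw [← pow_succ']
        exact Nat.pow_le_pow_left h3 _
      exact_mod_cast h4

end Pool.Agent.KComp
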