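import Pool.Agent.KAmp.Lln

/-! KC16: exceptional chains.

All three statements are variants of private lemmas in `KAmp/Lln.lean` (`bad_len`, `bad_near`,
`bad_occ`, `bad_or`, `sub_le`, `sub_or`; copy them).
`bad_pre`: `exp_bad` and a union bound over `j ≤ m` of `exp_occ` (which holds for every `j ≤ m ≤ n`):
`(n + 1) C e^(-cn) ≤ C' e^(-cn/2)` (`lin_exp`). `bad_small`: `exp_bad` with `B n x := n < n1`: by `mass_le`
the sum over the chains with `m` elements is at most `D ≤ D e^(n1) e^(-n)` for `n < n1`.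
`bad_union`: `bad_or` for a finite list, by induction (with the empty set: `C = 0`). -/

set_option autoImplicit false

open Filter Topology
open scoped ENNReal

namespace Pool.Agent.KComp

open Pool.Agent.KLog (Ker nrm hh)
open Pool.Agent.KAmp

variable {P H : Type} {S : Sys P H}

/-- The set of chains (depending on the length) is exponentially small. -/
def Sml (S : Sys P H) (B : ℕ → S.Ch → Prop) : Prop := ∃ C c : ℝ, 0 < c ∧ ∀ n : ℕ,
  ∑' x : {x : S.Ch // S.len x = n ∧ B n x}, S.W x.1 ≤ ENNReal.ofReal (C * Real.exp (-c * n))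

theorem Sml.mono {B B' : ℕ → S.Ch → Prop} (h : Sml S B') (hB : ∀ n x, S.len x = n → B n x → B' n x) :
    Sml S B := by
  obtain ⟨C, c, hc, h1⟩ := h
  refine ⟨C, c, hc, fun n => le_trans ?_ (h1 n)⟩
  exact ENNReal.tsum_mono_subtype S.W (s := {x | S.len x = n ∧ B n x})
    (t := {x | S.len x = n ∧ B' n x}) fun x hx => ⟨hx.1, hB n x hx.1 hx.2⟩

private theorem sub_le {p q : S.Ch → Prop} (h : ∀ x, p x → q x) :
    ∑' x : {x : S.Ch // p x}, S.W x.1 ≤ ∑' x : {x : S.Ch // q x}, S.W x.1 :=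
  ENNReal.tsum_mono_subtype S.W (s := {x | p x}) (t := {x | q x}) h

private theorem sub_or {p q r : S.Ch → Prop} (h : ∀ x, p x → q x ∨ r x) :
    ∑' x : {x : S.Ch // p x}, S.W x.1 ≤
      ∑' x : {x : S.Ch // q x}, S.W x.1 + ∑' x : {x : S.Ch // r x}, S.W x.1 :=
  (ENNReal.tsum_mono_subtype S.W (s := {x | p x}) (t := {x | q x} ∪ {x | r x}) h).trans
    (ENNReal.tsum_union_le S.W {x | q x} {x | r x})

/-- A linear factor is absorbed by the exponential. -/
private theorem lin_exp {c : ℝ} (hc : 0 < c) (n : ℕ) :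
    ((n : ℝ) + 1) * Real.exp (-c * n) ≤ (1 + 2 / c) * Real.exp (-(c / 2) * n) := by
  have h1 : (n : ℝ) + 1 ≤ (1 + 2 / c) * Real.exp (c / 2 * n) := by
    have h2 := Real.add_one_le_exp (c / 2 * n)
    have h3 : (0 : ℝ) ≤ n := Nat.cast_nonneg n
    have h4 : (1 + 2 / c) * (c / 2 * n + 1) ≤ (1 + 2 / c) * Real.exp (c / 2 * n) :=
      mul_le_mul_of_nonneg_left h2 (by positivity)
    refine le_trans ?_ h4
    have h5 : (1 + 2 / c) * (c / 2 * n + 1) = n + 1 + (c / 2 * n + 2 / c) := by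
      field_simp
      ring
    rw [h5]
    have : 0 ≤ c / 2 * n + 2 / c := by positivity
    linarith
  calc ((n : ℝ) + 1) * Real.exp (-c * n) ≤ (1 + 2 / c) * Real.exp (c / 2 * n) * Real.exp (-c * n) :=
        mul_le_mul_of_nonneg_right h1 (Real.exp_pos _).le
    _ = (1 + 2 / c) * Real.exp (-(c / 2) * n) := by
        rw [mul_assoc, ← Real.exp_add]
        congr 2
        ring

theorem Sml.or {B B' : ℕ → S.Ch → Prop} (h : Sml S B) (h' : Sml S B') :
    Sml S fun n x => B n x ∨ B' n x := by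
  obtain ⟨C1, c1, hc1, h1⟩ := h
  obtain ⟨C2, c2, hc2, h2⟩ := h'
  refine ⟨|C1| + |C2|, min c1 c2, lt_min hc1 hc2, fun n => ?_⟩
  refine (sub_or (q := fun x => S.len x = n ∧ B n x) (r := fun x => S.len x = n ∧ B' n x)
    ?_).trans ?_
  · rintro x ⟨hx, hB⟩
    rcases hB with hB | hB
    · exact Or.inl ⟨hx, hB⟩
    · exact Or.inr ⟨hx, hB⟩
  refine (add_le_add (h1 n) (h2 n)).trans ?_
  have key : ∀ C' c' : ℝ, min c1 c2 ≤ c' → ENNReal.ofReal (C' * Real.exp (-c' * n)) ≤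
      ENNReal.ofReal (|C'| * Real.exp (-(min c1 c2) * n)) := by
    intro C' c' hc'
    apply ENNReal.ofReal_le_ofReal
    have h3 : Real.exp (-c' * n) ≤ Real.exp (-(min c1 c2) * n) := by
      apply Real.exp_le_exp.mpr
      have : (0 : ℝ) ≤ n := Nat.cast_nonneg n
      nlinarith
    calc C' * Real.exp (-c' * n) ≤ |C'| * Real.exp (-c' * n) :=
          mul_le_mul_of_nonneg_right (le_abs_self C') (Real.exp_pos _).le
      _ ≤ |C'| * Real.exp (-(min c1 c2) * n) := mul_le_mul_of_nonneg_left h3 (abs_nonneg C')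
  refine (add_le_add (key C1 c1 (min_le_left _ _)) (key C2 c2 (min_le_right _ _))).trans ?_
  rw [← ENNReal.ofReal_add (by positivity) (by positivity), ← add_mul]

theorem bad_union {ι : Type} (I : Finset ι) {B : ι → ℕ → S.Ch → Prop} (h : ∀ i ∈ I, Sml S (B i)) :
    Sml S fun n x => ∃ i ∈ I, B i n x := by
  classical
  induction I using Finset.induction_on with
  | empty =>
    refine ⟨0, 1, one_pos, fun n => ?_⟩
    have : IsEmpty {x : S.Ch // S.len x = n ∧ ∃ i ∈ (∅ : Finset ι), B i n x} :=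
      ⟨fun x => by
        obtain ⟨_, i, hi, _⟩ := x.2
        exact absurd hi (Finset.notMem_empty i)⟩
    rw [tsum_empty]
    exact zero_le
  | insert a s ha ih =>
    have h1 := (h a (Finset.mem_insert_self a s)).or
      (ih fun i hi => h i (Finset.mem_insert_of_mem hi))
    refine h1.mono ?_
    rintro n x _ ⟨i, hi, hB⟩
    rcases Finset.mem_insert.mp hi with rfl | hi
    · exact Or.inl hB
    · exact Or.inr ⟨i, hi, hB⟩

theorem bad_small (hS : S.Ok) (n1 : ℕ) : Sml S fun n _ => n < n1 := by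
  obtain ⟨D, hD⟩ := mass_le hS
  refine exp_bad hS (B := fun n _ => n < n1) one_pos (C := |D| * Real.exp n1) fun n m _ => ?_
  by_cases hn : n < n1
  · refine ((sub_le (q := fun x => x.1.2.1.length = m) fun x hx => hx.1).trans (hD m)).trans ?_
    apply ENNReal.ofReal_le_ofReal
    have h1 : (n : ℝ) ≤ n1 := by exact_mod_cast hn.le
    have h2 : (1 : ℝ) ≤ Real.exp n1 * Real.exp (-1 * n) := by
      rw [← Real.exp_add]
      apply Real.one_le_exp
      linarith
    calc D ≤ |D| * 1 := by rw [mul_one]; exact le_abs_self D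
      _ ≤ |D| * (Real.exp n1 * Real.exp (-1 * n)) := mul_le_mul_of_nonneg_left h2 (abs_nonneg D)
      _ = |D| * Real.exp n1 * Real.exp (-1 * n) := by ring
  · have : IsEmpty {x : S.Ch // x.1.2.1.length = m ∧ S.len x = n ∧ n < n1} :=
      ⟨fun x => hn x.2.2.2⟩
    rw [tsum_empty]
    exact zero_le

theorem bad_len' (hS : S.Ok) {ε : ℝ} (hε : 0 < ε) :
    Sml S fun n x => ε * n ≤ |(x.1.2.1.length : ℝ) - 1 / S.ell * n| := by
  have hell := ell_ge hS
  have hell0 : (0 : ℝ) < S.ell := by linarith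
  obtain ⟨C, c, hc, h⟩ := exp_len hS (ε := ε * S.ell) (by positivity)
  refine exp_bad hS (B := fun n x => ε * n ≤ |(x.1.2.1.length : ℝ) - 1 / S.ell * n|) hc
    (C := C) fun n m _ => ?_
  refine (sub_le ?_).trans (h n m)
  rintro x ⟨hm, hn, hB⟩
  refine ⟨hm, hn, ?_⟩
  rw [hm] at hB
  have e : (n : ℝ) - m * S.ell = -(S.ell * ((m : ℝ) - 1 / S.ell * n)) := by
    field_simp
    ring
  rw [e, abs_neg, abs_mul, abs_of_pos hell0]
  have := mul_le_mul_of_nonneg_left hB hell0.le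
  nlinarith

theorem bad_near' (hS : S.Ok) (R : ℕ) {ε : ℝ} (hε : 0 < ε) :
    Sml S fun n x => ε * n ≤ (S.oc (fun v _ => nrm v ≤ R) x : ℝ) := by
  obtain ⟨C, c, hc, h⟩ := exp_near hS R hε
  refine exp_bad hS (B := fun n x => ε * n ≤ (S.oc (fun v _ => nrm v ≤ R) x : ℝ)) hc
    (C := C) fun n m _ => ?_
  refine (sub_le ?_).trans (h n m)
  rintro x ⟨hm, _, hB⟩
  exact ⟨hm, hB⟩

theorem bad_pre (hS : S.Ok) (p0 : P) {ε : ℝ} (hε : 0 < ε) :
    Sml S fun n x => ∃ j ≤ x.1.2.1.length, ε * n ≤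
      |(occ S.κ (fun _ p => p = p0) (S.pos x.1.1) (x.1.2.1.take j) : ℝ) - j * S.wF p0| := by
  obtain ⟨C, c, hc, h⟩ := exp_occ hS p0 hε
  refine exp_bad hS (B := fun n x => ∃ j ≤ x.1.2.1.length, ε * n ≤
      |(occ S.κ (fun _ p => p = p0) (S.pos x.1.1) (x.1.2.1.take j) : ℝ) - j * S.wF p0|)
    (c := c / 2) (by positivity) (C := |C| * (1 + 2 / c)) fun n m hmn => ?_
  have h1 : ∑' x : {x : S.Ch // x.1.2.1.length = m ∧ S.len x = n ∧
      ∃ j ≤ x.1.2.1.length, ε * n ≤
        |(occ S.κ (fun _ p => p = p0) (S.pos x.1.1) (x.1.2.1.take j) : ℝ) - j * S.wF p0|},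
      S.W x.1 ≤ ∑ j ∈ Finset.range (m + 1), ∑' x : {x : S.Ch // x.1.2.1.length = m ∧ ε * n ≤
        |(occ S.κ (fun _ p => p = p0) (S.pos x.1.1) (x.1.2.1.take j) : ℝ) - j * S.wF p0|},
        S.W x.1 := by
    refine (ENNReal.tsum_mono_subtype S.W
      (s := {x | x.1.2.1.length = m ∧ S.len x = n ∧ ∃ j ≤ x.1.2.1.length, ε * n ≤
        |(occ S.κ (fun _ p => p = p0) (S.pos x.1.1) (x.1.2.1.take j) : ℝ) - j * S.wF p0|})
      (t := ⋃ j ∈ Finset.range (m + 1), {x : S.Ch | x.1.2.1.length = m ∧ ε * n ≤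
        |(occ S.κ (fun _ p => p = p0) (S.pos x.1.1) (x.1.2.1.take j) : ℝ) - j * S.wF p0|})
      ?_).trans (ENNReal.tsum_biUnion_le S.W _ _)
    intro x hx
    obtain ⟨hm, _, j, hj, hB⟩ : x.1.2.1.length = m ∧ S.len x = n ∧ ∃ j ≤ x.1.2.1.length, ε * n ≤
        |(occ S.κ (fun _ p => p = p0) (S.pos x.1.1) (x.1.2.1.take j) : ℝ) - j * S.wF p0| := hx
    simp only [Set.mem_iUnion, Finset.mem_range]
    refine ⟨j, by omega, ?_⟩
    exact ⟨hm, hB⟩
  refine h1.trans ?_
  have h2 : ∀ j ∈ Finset.range (m + 1), ∑' x : {x : S.Ch // x.1.2.1.length = m ∧ ε * n ≤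
        |(occ S.κ (fun _ p => p = p0) (S.pos x.1.1) (x.1.2.1.take j) : ℝ) - j * S.wF p0|},
        S.W x.1 ≤ ENNReal.ofReal (|C| * Real.exp (-c * n)) := by
    intro j hj
    have hj' := Finset.mem_range.mp hj
    refine (h n m j (by omega) (by omega)).trans (ENNReal.ofReal_le_ofReal ?_)
    exact mul_le_mul_of_nonneg_right (le_abs_self C) (Real.exp_pos _).le
  refine (Finset.sum_le_sum h2).trans ?_
  rw [Finset.sum_const, nsmul_eq_mul, Finset.card_range]
  have h3 : ((m + 1 : ℕ) : ℝ≥0∞) ≤ ENNReal.ofReal ((n : ℝ) + 1) := by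
    calc ((m + 1 : ℕ) : ℝ≥0∞) ≤ ((n + 1 : ℕ) : ℝ≥0∞) := by
          have : m + 1 ≤ n + 1 := by omega
          exact_mod_cast this
      _ = ENNReal.ofReal ((n : ℝ) + 1) := by
        rw [← ENNReal.ofReal_natCast]; push_cast; rfl
  calc _ ≤ ENNReal.ofReal ((n : ℝ) + 1) * ENNReal.ofReal (|C| * Real.exp (-c * n)) :=
        mul_le_mul_left h3 _
    _ = ENNReal.ofReal (((n : ℝ) + 1) * (|C| * Real.exp (-c * n))) :=
        (ENNReal.ofReal_mul (by positivity)).symm
    _ ≤ _ := by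
        apply ENNReal.ofReal_le_ofReal
        have := mul_le_mul_of_nonneg_left (lin_exp hc n) (abs_nonneg C)
        calc ((n : ℝ) + 1) * (|C| * Real.exp (-c * n))
            = |C| * (((n : ℝ) + 1) * Real.exp (-c * n)) := by ring
          _ ≤ |C| * ((1 + 2 / c) * Real.exp (-(c / 2) * n)) := this
          _ = |C| * (1 + 2 / c) * Real.exp (-(c / 2) * n) := by ring

end Pool.Agent.KComp
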