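import Pool.Agent.KComp.Bound
import Pool.Agent.KComp.CapA
import Pool.Agent.KComp.MarkId

/-! KC20a: chains with few marks, and with long marks.

PROOF. Put `g π = wt π * 2 ^ ln π * 80 ^ nrm (dsp π)`, `S = ∑' π : KW, g π < ∞` (`knot_big`).
`sum_words`: for every property `P` of lists of words the weight of the chains with `q` marks whose
words are a list with the property `P` is at most the sum over these lists `L` of the weight of the
chains with the words `L` (the marks are knotted blocks, `kn_of_mem`; exchange of the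
sums), and the summand is `0` if `∑ ln > n` (`ln_marks_le`), otherwise by `mark_id` (with
`Q = True`, the list of the pairs `(True, π)`, and `n - ∑ ln` points) it is
`ww L * TQ True (gaps ..) (n - ∑ ln)`, which is `≤ C n ^ q tot n ∏ g π` by `tq_bound` (`a = ∑ ln`,
`gapOk_gaps`; `2 ^ a = ∏ 2 ^ ln π`). So
`SA (..) n ≤ C n ^ q tot n * ∑' L, if L.length = q ∧ P L then (L.map g).prod else 0`.
`few_marks`: `P = True`: the sum over the lists of length `q` is `S ^ q` (induction).
`long_marks`: `P L = ∃ π ∈ L, j < ln π`: the sum is at most `q * (1 + S) ^ q * t j` with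
`t j = ∑' π, if ln π ≤ j then 0 else g π` (induction: the first word is long, or one of the others),
which is small by `knot_tail`. -/

set_option autoImplicit false

open Pool.Agent.LK
open scoped ENNReal

namespace Pool.Agent.KComp

open Pool.Agent.KTube Pool.Agent.KRing Pool.Agent.KLog
open Pool.Agent.KAsym (ln)
open Pool.Agent.KAmp (sys)

variable {y z : ℝ}

section Lists

open Classical in
/-- `c` if `p` holds, otherwise zero -/
private noncomputable def ind (p : Prop) (c : ℝ≥0∞) : ℝ≥0∞ := if p then c else 0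

private theorem ind_pos {p : Prop} (h : p) (c : ℝ≥0∞) : ind p c = c := if_pos h

private theorem ind_neg {p : Prop} (h : ¬ p) (c : ℝ≥0∞) : ind p c = 0 := if_neg h

variable {α : Type} (g : α → ℝ≥0∞)

/-- the sum over the lists of a given length with a given property -/
private noncomputable def LSum (q : ℕ) (P : List α → Prop) : ℝ≥0∞ :=
  ∑' L : List α, ind (L.length = q ∧ P L) (L.map g).prod

private theorem lSum_succ (q : ℕ) (P : List α → Prop) : LSum g (q + 1) P =
    ∑' a : α, ∑' l : List α, ind (l.length = q ∧ P (a :: l)) (g a * (l.map g).prod) := by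
  have hinj : Function.Injective fun p : α × List α => p.1 :: p.2 := by
    intro p p' h
    have h1 := List.cons.inj h
    exact Prod.ext h1.1 h1.2
  have hsupp : Function.support (fun L : List α =>
      ind (L.length = q + 1 ∧ P L) (L.map g).prod) ⊆
        Set.range fun p : α × List α => p.1 :: p.2 := by
    intro L hL
    rw [Function.mem_support] at hL
    cases L with
    | nil =>
      exfalso
      apply hL
      rw [ind_neg]
      rintro ⟨h, -⟩
      exact Nat.succ_ne_zero q h.symm
    | cons a l => exact ⟨(a, l), rfl⟩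
  unfold LSum
  rw [← hinj.tsum_eq hsupp, ← ENNReal.tsum_prod]
  refine tsum_congr fun p => ?_
  by_cases c : p.2.length = q ∧ P (p.1 :: p.2)
  · rw [ind_pos c, ind_pos ⟨by rw [List.length_cons, c.1], c.2⟩, List.map_cons, List.prod_cons]
  · rw [ind_neg c, ind_neg]
    rintro ⟨h1, h2⟩
    rw [List.length_cons, Nat.add_right_cancel_iff] at h1
    exact c ⟨h1, h2⟩

private theorem lSum_true (q : ℕ) : LSum g q (fun _ => True) = (∑' a, g a) ^ q := by
  induction q with
  | zero =>
    unfold LSum
    rw [tsum_eq_single []]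
    · rw [ind_pos ⟨List.length_nil, trivial⟩, List.map_nil, List.prod_nil, pow_zero]
    · intro L hL
      rw [ind_neg]
      rintro ⟨h, -⟩
      exact hL (List.length_eq_zero_iff.1 h)
  | succ q ih =>
    rw [lSum_succ, pow_succ', ← ENNReal.tsum_mul_right]
    refine tsum_congr fun a => ?_
    rw [← ih, LSum, ← ENNReal.tsum_mul_left]
    refine tsum_congr fun l => ?_
    by_cases c : l.length = q ∧ True
    · rw [ind_pos c, ind_pos c]
    · rw [ind_neg c, ind_neg c, mul_zero]

private theorem lSum_long (long : α → Prop) (q : ℕ) :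
    LSum g q (fun L => ∃ a ∈ L, long a) ≤
      (q : ℝ≥0∞) * (1 + ∑' a, g a) ^ q * ∑' a, ind (long a) (g a) := by
  set S : ℝ≥0∞ := ∑' a, g a with hS
  set t : ℝ≥0∞ := ∑' a, ind (long a) (g a) with ht
  induction q with
  | zero =>
    unfold LSum
    rw [Nat.cast_zero, zero_mul, zero_mul]
    refine le_of_eq (ENNReal.tsum_eq_zero.2 fun L => ?_)
    rw [ind_neg]
    rintro ⟨h, a, ha, -⟩
    rw [List.length_eq_zero_iff] at h
    rw [h] at ha
    simp at ha
  | succ q ih =>
    rw [lSum_succ]
    have h1 : ∀ (a : α) (l : List α),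
        ind (l.length = q ∧ (∃ b ∈ a :: l, long b)) (g a * (l.map g).prod) ≤
        ind (long a) (g a) * ind (l.length = q ∧ True) (l.map g).prod +
          g a * ind (l.length = q ∧ ∃ b ∈ l, long b) (l.map g).prod := by
      intro a l
      by_cases c1 : l.length = q ∧ ∃ b ∈ a :: l, long b
      · rw [ind_pos c1]
        by_cases c2 : long a
        · rw [ind_pos c2, ind_pos ⟨c1.1, trivial⟩]
          exact le_self_add
        · have c3 : l.length = q ∧ ∃ b ∈ l, long b := by
            obtain ⟨h0, b, hb, hlb⟩ := c1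
            rcases List.mem_cons.1 hb with rfl | hb
            · exact absurd hlb c2
            · exact ⟨h0, b, hb, hlb⟩
          rw [ind_pos c3]
          exact le_add_self
      · rw [ind_neg c1]
        exact _root_.bot_le
    have h2 : ∑' a : α, ∑' l : List α,
        ind (l.length = q ∧ (∃ b ∈ a :: l, long b)) (g a * (l.map g).prod) ≤
        t * S ^ q + S * LSum g q (fun L => ∃ a ∈ L, long a) := by
      calc ∑' a : α, ∑' l : List α,
          ind (l.length = q ∧ (∃ b ∈ a :: l, long b)) (g a * (l.map g).prod)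
          ≤ ∑' a : α, ∑' l : List α, (ind (long a) (g a) *
              ind (l.length = q ∧ True) (l.map g).prod +
            g a * ind (l.length = q ∧ ∃ b ∈ l, long b) (l.map g).prod) :=
            ENNReal.tsum_le_tsum fun a => ENNReal.tsum_le_tsum fun l => h1 a l
        _ = ∑' a : α, (ind (long a) (g a) * S ^ q +
            g a * LSum g q (fun L => ∃ a ∈ L, long a)) := by
            refine tsum_congr fun a => ?_
            rw [ENNReal.tsum_add, ENNReal.tsum_mul_left, ENNReal.tsum_mul_left, hS,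
              ← lSum_true g q]
            rfl
        _ = t * S ^ q + S * LSum g q (fun L => ∃ a ∈ L, long a) := by
            rw [ENNReal.tsum_add, ENNReal.tsum_mul_right, ENNReal.tsum_mul_right]
    refine h2.trans ?_
    have h3 : S ^ q ≤ (1 + S) ^ (q + 1) := by
      calc S ^ q ≤ (1 + S) ^ q := pow_le_pow_left₀ (_root_.bot_le) le_add_self q
        _ ≤ (1 + S) ^ (q + 1) := pow_le_pow_right₀ le_self_add (Nat.le_succ q)
    calc t * S ^ q + S * LSum g q (fun L => ∃ a ∈ L, long a)
        ≤ t * (1 + S) ^ (q + 1) + (1 + S) * ((q : ℝ≥0∞) * (1 + S) ^ q * t) := by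
          gcongr
          exact le_add_self
      _ = ((q + 1 : ℕ) : ℝ≥0∞) * (1 + S) ^ (q + 1) * t := by
          push_cast
          ring

end Lists

/-- the weight of a word with exponential factors -/
private noncomputable def gw (y z : ℝ) (π : KW) : ℝ≥0∞ :=
  wt (ENNReal.ofReal y) (ENNReal.ofReal z) π.1 * 2 ^ ln π.1 * 80 ^ nrm (dsp π.1)

private theorem mat_iff (ms : List ((ℤ × ℤ) × PP)) (L : List KW) :
    Mat ms (L.map fun π => ((fun _ : ℤ × ℤ => True), π.1)) ↔
      ms.map Prod.snd = L.map Subtype.val := by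
  unfold Mat
  induction ms generalizing L with
  | nil =>
    cases L with
    | nil => simp
    | cons π L => simp
  | cons m ms ih =>
    cases L with
    | nil => simp
    | cons π L =>
      rw [List.map_cons, List.forall₂_cons, ih, List.map_cons, List.map_cons, List.cons.injEq,
        and_true]

private theorem exists_words (x : CA) :
    ∃ L : List KW, (mkA x).map Prod.snd = L.map Subtype.val := by
  refine ⟨(mkA x).attach.map fun m => ⟨m.1.2, m.1.1, kn_of_mem x m.2⟩, ?_⟩
  rw [List.map_map]
  conv_lhs => rw [← List.attach_map_subtype_val (mkA x), List.map_map]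
  rfl

private theorem prod_two (L : List KW) :
    (2 : ℝ≥0∞) ^ (L.map fun π => ln π.1).sum = (L.map fun π => (2 : ℝ≥0∞) ^ ln π.1).prod := by
  induction L with
  | nil => simp
  | cons π L ih => rw [List.map_cons, List.sum_cons, pow_add, ih, List.map_cons, List.prod_cons]

/-- the chains with given words -/
private theorem sa_words (h : Cr y z) (q : ℕ) : ∃ C : ℝ≥0∞, C ≠ ⊤ ∧ ∃ n0 : ℕ, ∀ n ≥ n0,
    Even n → ∀ L : List KW, L.length = q →
      SA y z (fun x => (mkA x).map Prod.snd = L.map Subtype.val) n ≤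
        C * (n : ℝ≥0∞) ^ q * (sys y z).tot n * (L.map (gw y z)).prod := by
  classical
  obtain ⟨C, hC, n0, hn0⟩ := tq_bound h q
  refine ⟨C, hC, n0, fun n hn hev L hL => ?_⟩
  set a : ℕ := (L.map fun π => ln π.1).sum with ha
  by_cases hna : a ≤ n
  · set L' : List ((ℤ × ℤ → Prop) × PP) := L.map fun π => ((fun _ : ℤ × ℤ => True), π.1)
      with hL'
    have h1 := mark_id (y := y) (z := z) (fun _ => True) L' (n - a)
    have h2 : (L'.map fun q => ln q.2).sum = a := by
      rw [hL', List.map_map, ha]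
      rfl
    rw [h2, Nat.sub_add_cancel hna] at h1
    have h3 : SA y z (fun x => (mkA x).map Prod.snd = L.map Subtype.val) n =
        SA y z (fun x => True ∧ True ∧ Mat (mkA x) L') n := by
      congr 1
      funext x
      rw [true_and, true_and, hL', mat_iff]
    rw [h3, h1]
    have h4 := hn0 n hn hev (gaps L') (by rw [gaps, List.length_map, hL', List.length_map, hL])
      (gapOk_gaps L') (n - a) a (Nat.sub_add_cancel hna)
    have h5 : ww y z (L'.map Prod.snd) =
        (L.map fun π => wt (ENNReal.ofReal y) (ENNReal.ofReal z) π.1).prod := by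
      rw [hL', ww, List.map_map, List.map_map]
      rfl
    have h6 : ((gaps L').map fun p => (80 : ℝ≥0∞) ^ nrm p.2).prod =
        (L.map fun π => (80 : ℝ≥0∞) ^ nrm (dsp π.1)).prod := by
      rw [hL', gaps, List.map_map, List.map_map]
      rfl
    have h7 : (L.map (gw y z)).prod =
        (L.map fun π => wt (ENNReal.ofReal y) (ENNReal.ofReal z) π.1).prod *
          (L.map fun π => (2 : ℝ≥0∞) ^ ln π.1).prod *
          (L.map fun π => (80 : ℝ≥0∞) ^ nrm (dsp π.1)).prod := by
      rw [← List.prod_map_mul, ← List.prod_map_mul]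
      rfl
    rw [h5, h7, ← prod_two]
    rw [h6] at h4
    refine (mul_le_mul_right h4 _).trans (le_of_eq ?_)
    ring
  · have h1 : SA y z (fun x => (mkA x).map Prod.snd = L.map Subtype.val) n = 0 := by
      refine ENNReal.tsum_eq_zero.2 fun x => ?_
      rw [if_neg]
      rintro ⟨h2, h3⟩
      have h4 := ln_marks_le x
      have h5 : ((mkA x).map fun m => ln m.2).sum = a := by
        have e1 : ((mkA x).map fun m => ln m.2) = ((mkA x).map Prod.snd).map ln := by
          rw [List.map_map]
          rfl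
        rw [e1, h3, List.map_map, ha]
        rfl
      omega
    rw [h1]
    exact _root_.bot_le

private theorem sum_words (h : Cr y z) (q : ℕ) : ∃ C : ℝ≥0∞, C ≠ ⊤ ∧ ∃ n0 : ℕ, ∀ n ≥ n0,
    Even n → ∀ (Q : CA → Prop) (P : List KW → Prop), (∀ x, Q x → ∃ L : List KW, L.length = q ∧
      P L ∧ (mkA x).map Prod.snd = L.map Subtype.val) → SA y z Q n ≤
        C * (n : ℝ≥0∞) ^ q * (sys y z).tot n * LSum (gw y z) q P := by
  classical
  obtain ⟨C, hC, n0, hn0⟩ := sa_words h q
  refine ⟨C, hC, n0, fun n hn hev Q P hQ => ?_⟩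
  calc SA y z Q n ≤ ∑' x : CA, ∑' L : List KW, ind (L.length = q ∧ P L)
        (ind (lenA x = n ∧ (mkA x).map Prod.snd = L.map Subtype.val) (WA y z x)) := by
        refine ENNReal.tsum_le_tsum fun x => ?_
        by_cases hx : lenA x = n ∧ Q x
        · rw [if_pos hx]
          obtain ⟨L, h1, h2, h3⟩ := hQ x hx.2
          refine le_trans (le_of_eq ?_) (ENNReal.le_tsum L)
          rw [ind_pos ⟨h1, h2⟩, ind_pos ⟨hx.1, h3⟩]
        · rw [if_neg hx]
          exact _root_.bot_le
    _ = ∑' L : List KW, ind (L.length = q ∧ P L)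
        (SA y z (fun x => (mkA x).map Prod.snd = L.map Subtype.val) n) := by
        rw [ENNReal.tsum_comm]
        refine tsum_congr fun L => ?_
        by_cases hL : L.length = q ∧ P L
        · rw [ind_pos hL]
          refine tsum_congr fun x => ?_
          rw [ind_pos hL]
          by_cases hx : lenA x = n ∧ (mkA x).map Prod.snd = L.map Subtype.val
          · rw [ind_pos hx, if_pos hx]
          · rw [ind_neg hx, if_neg hx]
        · rw [ind_neg hL]
          exact ENNReal.tsum_eq_zero.2 fun x => ind_neg hL _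
    _ ≤ ∑' L : List KW, C * (n : ℝ≥0∞) ^ q * (sys y z).tot n *
        ind (L.length = q ∧ P L) (L.map (gw y z)).prod := by
        refine ENNReal.tsum_le_tsum fun L => ?_
        by_cases hL : L.length = q ∧ P L
        · rw [ind_pos hL, ind_pos hL]
          exact hn0 n hn hev L hL.1
        · rw [ind_neg hL]
          exact _root_.bot_le
    _ = C * (n : ℝ≥0∞) ^ q * (sys y z).tot n * LSum (gw y z) q P := by
        rw [ENNReal.tsum_mul_left]
        rfl

theorem few_marks (h : Cr y z) (q : ℕ) : ∃ C : ℝ≥0∞, C ≠ ⊤ ∧ ∃ n0 : ℕ, ∀ n ≥ n0, Even n →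
    SA y z (fun x => (mkA x).length = q) n ≤ C * (n : ℝ≥0∞) ^ q * (sys y z).tot n := by
  obtain ⟨C, hC, n0, hn0⟩ := sum_words h q
  have hS : ∑' π : KW, gw y z π ≠ ⊤ := knot_big h
  refine ⟨C * (∑' π : KW, gw y z π) ^ q, ENNReal.mul_ne_top hC (ENNReal.pow_ne_top hS), n0,
    fun n hn hev => ?_⟩
  refine (hn0 n hn hev _ (fun _ => True) fun x hx => ?_).trans (le_of_eq ?_)
  · obtain ⟨L, hL⟩ := exists_words x
    refine ⟨L, ?_, trivial, hL⟩
    have := congrArg List.length hL
    rw [List.length_map, List.length_map] at this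
    rw [← this]
    exact hx
  · rw [lSum_true]
    ring

theorem long_marks (h : Cr y z) (q : ℕ) {ε : ℝ≥0∞} (hε : ε ≠ 0) : ∃ n0 j0 : ℕ, ∀ j ≥ j0,
    ∀ n ≥ n0, Even n → SA y z (fun x => (mkA x).length = q ∧ ∃ m ∈ mkA x, j < ln m.2) n ≤
      ε * (n : ℝ≥0∞) ^ q * (sys y z).tot n := by
  classical
  obtain ⟨C, hC, n0, hn0⟩ := sum_words h q
  have hS : ∑' π : KW, gw y z π ≠ ⊤ := knot_big h
  set D : ℝ≥0∞ := C * ((q : ℝ≥0∞) * (1 + ∑' π : KW, gw y z π) ^ q) with hD
  have hDtop : D ≠ ⊤ := ENNReal.mul_ne_top hC (ENNReal.mul_ne_top (ENNReal.natCast_ne_top q)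
    (ENNReal.pow_ne_top (ENNReal.add_ne_top.2 ⟨ENNReal.one_ne_top, hS⟩)))
  have hD1 : D + 1 ≠ ⊤ := ENNReal.add_ne_top.2 ⟨hDtop, ENNReal.one_ne_top⟩
  obtain ⟨j0, hj0⟩ := knot_tail h (ε := ε / (D + 1)) (ENNReal.div_ne_zero.2 ⟨hε, hD1⟩)
  refine ⟨n0, j0, fun j hj n hn hev => ?_⟩
  have h1 := hn0 n hn hev (fun x => (mkA x).length = q ∧ ∃ m ∈ mkA x, j < ln m.2)
    (fun L => ∃ π ∈ L, j < ln π.1) (fun x hx => by
      obtain ⟨L, hL⟩ := exists_words x
      have h2 := congrArg List.length hL
      rw [List.length_map, List.length_map] at h2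
      refine ⟨L, by rw [← h2]; exact hx.1, ?_, hL⟩
      obtain ⟨m, hm, hj⟩ := hx.2
      have h3 : m.2 ∈ L.map Subtype.val := by
        rw [← hL]
        exact List.mem_map.2 ⟨m, hm, rfl⟩
      obtain ⟨π, hπ, hπm⟩ := List.mem_map.1 h3
      exact ⟨π, hπ, by rw [hπm]; exact hj⟩)
  refine h1.trans ?_
  have h2 : LSum (gw y z) q (fun L => ∃ π ∈ L, j < ln π.1) ≤
      (q : ℝ≥0∞) * (1 + ∑' π : KW, gw y z π) ^ q * (ε / (D + 1)) := by
    refine (lSum_long (gw y z) (fun π : KW => j < ln π.1) q).trans ?_
    refine mul_le_mul_right (le_trans (le_of_eq ?_) (hj0 j hj)) _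
    refine tsum_congr fun π => ?_
    by_cases c : ln π.1 ≤ j
    · rw [if_pos c, ind_neg (not_lt.2 c)]
    · rw [if_neg c, ind_pos (not_le.1 c)]
      rfl
  calc C * (n : ℝ≥0∞) ^ q * (sys y z).tot n * LSum (gw y z) q (fun L => ∃ π ∈ L, j < ln π.1)
      ≤ C * (n : ℝ≥0∞) ^ q * (sys y z).tot n *
        ((q : ℝ≥0∞) * (1 + ∑' π : KW, gw y z π) ^ q * (ε / (D + 1))) := mul_le_mul_right h2 _
    _ = D * (ε / (D + 1)) * (n : ℝ≥0∞) ^ q * (sys y z).tot n := by
        rw [hD]
        ring
    _ ≤ (D + 1) * (ε / (D + 1)) * (n : ℝ≥0∞) ^ q * (sys y z).tot n := by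
        gcongr
        exact le_self_add
    _ = ε * (n : ℝ≥0∞) ^ q * (sys y z).tot n := by
        rw [ENNReal.mul_div_cancel (by simp) hD1]

end Pool.Agent.KComp
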